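import Pool.Agent.Lib.MP_0f64c5_co.Defs

/-!
# Module CONE: `K_1 v H` is PLD-maximal iff `H` is homogeneously traceable

Proof. Let `h` be dominating and `n = card V`.
(->) Take the Hamiltonian path of `G` from `h` to `v` (property `P_n`) and drop its first
vertex `h`; reverse.
(<-) Let `u, v` be different from `h`, `u <> v`. Take a list `Q` with all vertices other than `h`
starting at `u`; write `Q = Q1 ++ Q2` where `Q2` starts at `v` (`Q1` starts at `u`, not empty).
For `a` in `[1, |Q1|]`, `b` in `[1, |Q2|]` the list
`Q1.take a ++ [h] ++ (Q2.take b).reverse` is a path from `u` to `v` with `a + b + 1` vertices,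
and `a + b + 1` takes all values from `3` to `n`. For the pair `h, v`: `h :: (Q.take (i-1)).reverse`
where `Q` starts at `v`.
-/

set_option autoImplicit false

namespace Pool.Agent.Lib.MP_0f64c5_co

open Classical

variable {V : Type*}

private theorem cone_glue {G : SimpleGraph V} {h : V} (hd : IsDom G h) {A B : List V}
    (hA : A.IsChain G.Adj) (hB : B.IsChain G.Adj) (hnd : (A ++ B).Nodup) (hh : h ∉ A ++ B) :
    (A ++ h :: B.reverse).IsChain G.Adj ∧ (A ++ h :: B.reverse).Nodup := by
  rw [List.mem_append, not_or] at hh
  rw [List.nodup_append] at hnd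
  obtain ⟨n1, n2, n3⟩ := hnd
  constructor
  · refine List.isChain_append.2 ⟨hA, ?_, ?_⟩
    · refine List.isChain_cons.2 ⟨?_, ?_⟩
      · intro y hy
        have h1 : y ∈ B.reverse := List.mem_of_mem_head? hy
        rw [List.mem_reverse] at h1
        exact hd y (fun h2 => hh.2 (h2 ▸ h1))
      · rw [List.isChain_reverse]
        exact hB.imp (fun _ _ hab => hab.symm)
    · intro x hx y hy
      have h1 : x ∈ A := List.mem_of_mem_getLast? hx
      simp only [List.head?_cons, Option.mem_def, Option.some.injEq] at hy
      rw [← hy]
      exact (hd x (fun h2 => hh.1 (h2 ▸ h1))).symm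
  · rw [List.nodup_append]
    refine ⟨n1, ?_, ?_⟩
    · rw [List.nodup_cons, List.mem_reverse, List.nodup_reverse]
      exact ⟨hh.2, n2⟩
    · intro a ha b hb
      rw [List.mem_cons, List.mem_reverse] at hb
      rcases hb with rfl | hb
      · intro h2
        exact hh.1 (h2 ▸ ha)
      · exact n3 a ha b hb

private theorem cone_len [Fintype V] {h : V} {l : List V} (hn : l.Nodup)
    (ha : ∀ w, w ∈ l ↔ w ≠ h) : l.length = Fintype.card V - 1 := by
  have h1 : l.toFinset = Finset.univ.erase h := by
    ext w
    rw [List.mem_toFinset, ha, Finset.mem_erase]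
    simp
  rw [← List.toFinset_card_of_nodup hn, h1, Finset.card_erase_of_mem (Finset.mem_univ _),
    Finset.card_univ]

theorem pldMaximal_iff_htl [Fintype V] {G : SimpleGraph V} {h : V} (hd : IsDom G h)
    (hn : 3 ≤ Fintype.card V) : PLDMaximal G ↔ HTL G h := by
  constructor
  · intro hP v hv
    obtain ⟨l, ⟨hc, hnd, hh, hl⟩, hi⟩ := hasP_iff.1 (hP _ hn le_rfl) h v (Ne.symm hv)
    have hne : l ≠ [] := by
      rintro rfl
      simp at hh
    obtain ⟨a, t, rfl⟩ := List.exists_cons_of_ne_nil hne
    simp only [List.head?_cons, Option.some.injEq] at hh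
    subst hh
    rw [List.nodup_cons] at hnd
    have hall : ∀ w, w ∈ a :: t := by
      intro w
      have h1 : (a :: t).toFinset = Finset.univ := by
        apply Finset.eq_univ_of_card
        rw [List.toFinset_card_of_nodup (List.nodup_cons.2 hnd), hi]
      rw [← List.mem_toFinset, h1]
      exact Finset.mem_univ _
    have htne : t ≠ [] := by
      rintro rfl
      simp at hi
      omega
    refine ⟨t.reverse, ?_, List.nodup_reverse.2 hnd.2, ?_, ?_⟩
    · rw [List.isChain_reverse]
      exact (List.isChain_cons.1 hc).2.imp (fun _ _ hab => hab.symm)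
    · rw [List.head?_reverse]
      obtain ⟨b, t', rfl⟩ := List.exists_cons_of_ne_nil htne
      rw [List.getLast?_cons_cons] at hl
      exact hl
    · intro w
      rw [List.mem_reverse]
      constructor
      · intro hw hw2
        exact hnd.1 (hw2 ▸ hw)
      · intro hw
        exact (List.mem_cons.1 (hall w)).resolve_left hw
  · intro hH i hi3 hin
    rw [hasP_iff]
    -- pairs `h, v`
    have case1 : ∀ v, v ≠ h → ∃ l, LPath G h v l ∧ l.length = i := by
      intro v hv
      obtain ⟨Q, q1, q2, q3, q4⟩ := hH v hv
      have hlen := cone_len q2 q4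
      have hg := cone_glue hd (A := []) (B := Q.take (i - 1)) List.isChain_nil (q1.take _)
        (by rw [List.nil_append]; exact q2.sublist (List.take_sublist _ _))
        (by
          rw [List.nil_append]
          intro hm
          exact (q4 h).1 (List.mem_of_mem_take hm) rfl)
      refine ⟨_, ⟨hg.1, hg.2, rfl, ?_⟩, ?_⟩
      · obtain ⟨a, Q', rfl⟩ : ∃ a Q', Q = a :: Q' := by
          cases Q with
          | nil => simp at q3
          | cons a Q' => exact ⟨a, Q', rfl⟩
        simp only [List.head?_cons, Option.some.injEq] at q3
        subst q3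
        obtain ⟨j, hj⟩ : ∃ j, i - 1 = j + 1 := ⟨i - 2, by omega⟩
        rw [hj, List.take_succ_cons, List.reverse_cons, List.nil_append, ← List.cons_append,
          List.getLast?_append]
        simp
      · rw [List.nil_append, List.length_cons, List.length_reverse, List.length_take, hlen]
        omega
    intro u v huv
    by_cases hu : u = h
    · subst hu
      exact case1 v (Ne.symm huv)
    by_cases hv : v = h
    · subst hv
      obtain ⟨l, h1, h2⟩ := case1 u huv
      exact ⟨l.reverse, h1.reverse, by rw [List.length_reverse, h2]⟩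
    obtain ⟨Q, q1, q2, q3, q4⟩ := hH u hu
    have hlen := cone_len q2 q4
    obtain ⟨Q1, Q2, rfl⟩ := List.append_of_mem ((q4 v).2 hv)
    have hQ1 : Q1 ≠ [] := by
      rintro rfl
      simp only [List.nil_append, List.head?_cons, Option.some.injEq] at q3
      exact huv q3.symm
    obtain ⟨a, Q1', rfl⟩ := List.exists_cons_of_ne_nil hQ1
    simp only [List.cons_append, List.head?_cons, Option.some.injEq] at q3
    subst q3
    rw [List.length_append, List.length_cons, List.length_cons] at hlen
    obtain ⟨k, hk⟩ : ∃ k, k = min Q1'.length (i - 3) := ⟨_, rfl⟩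
    obtain ⟨m, hm⟩ : ∃ m, m = i - 3 - k := ⟨_, rfl⟩
    have hg := cone_glue hd (A := (a :: Q1').take (k + 1)) (B := (v :: Q2).take (m + 1))
      (q1.left_of_append.take _) (q1.right_of_append.take _)
      (q2.sublist ((List.take_sublist _ _).append (List.take_sublist _ _)))
      (by
        intro hmem
        rw [List.mem_append] at hmem
        rcases hmem with hmem | hmem
        · exact (q4 h).1 (List.mem_append_left _ (List.mem_of_mem_take hmem)) rfl
        · exact (q4 h).1 (List.mem_append_right _ (List.mem_of_mem_take hmem)) rfl)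
    refine ⟨_, ⟨hg.1, hg.2, ?_, ?_⟩, ?_⟩
    · rw [List.take_succ_cons, List.cons_append, List.head?_cons]
    · rw [List.take_succ_cons (i := m), List.reverse_cons, List.getLast?_append, ← List.cons_append,
        List.getLast?_append]
      simp
    · rw [List.length_append, List.length_cons, List.length_reverse, List.length_take,
        List.length_take, List.length_cons, List.length_cons]
      omega

end Pool.Agent.Lib.MP_0f64c5_co
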