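import Pool.Agent.Lib.MP_0f64c5_co.Defs

/-!
# Module COUNTA: the exact count, first case

`Z` = vertices other than `h` not adjacent to `h`; `S = N(h)`; `n = |S| + |Z| + 1`.
`z` in `Z` has no neighbour in `Z`, so `W = N(z)` is contained in `S`, `|W| = d(z)`.
For `y` in `S` let `j(y)` = number of neighbours in `Z`, `d'(y)` = number of neighbours in `S`;
`d(y) = 1 + j(y) + d'(y) >= 3`. Every `y` in `S` has a common neighbour with `z`, it is in `W`:
so `sum_{w in W} d'(w) >= |S|`. Also `j(w) >= 1` for `w` in `W`. Hence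
`sum_{y in S} (j(y) + d'(y)) >= (|W| + |S|) + 2 (|S| - |W|)`, and
`sum_v d(v) = d(h) + sum_{z' in Z} d(z') + |S| + sum_{y in S} (j + d')(y)
 >= |S| + sum_{z' in Z} d(z') + |S| + 3 |S| - |W| = 5 |S| + sum_{z' <> z} d(z')
 >= 5 |S| + 5 (|Z| - 1) = 5 (n - 2)`.
-/

set_option autoImplicit false

namespace Pool.Agent.Lib.MP_0f64c5_co

open Classical

variable {V : Type*}

private theorem countA_comm (G : SimpleGraph V) (A B : Finset V) :
    ∑ v ∈ A, dgIn G v B = ∑ v ∈ B, dgIn G v A := by
  simp only [dgIn, Finset.card_filter]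
  rw [Finset.sum_comm]
  refine Finset.sum_congr rfl (fun x _ => Finset.sum_congr rfl (fun y _ => ?_))
  simp only [G.adj_comm]

private theorem countA_union (G : SimpleGraph V) (v : V) (A B : Finset V) (hAB : Disjoint A B) :
    dgIn G v (A ∪ B) = dgIn G v A + dgIn G v B := by
  unfold dgIn
  rw [Finset.filter_union, Finset.card_union_of_disjoint]
  exact Finset.disjoint_filter_filter hAB

theorem count_alpha [Fintype V] {G : SimpleGraph V}
    (h3 : ∀ u v, u ≠ v → ∃ w, G.Adj u w ∧ G.Adj w v)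
    (hmin : ∀ v, 3 ≤ dg G v) (h : V)
    (hh : ∀ z, z ≠ h → ¬ G.Adj h z → 5 ≤ dg G z)
    (z : V) (hz : z ≠ h) (hzh : ¬ G.Adj h z)
    (hiso : ∀ z', z' ≠ h → ¬ G.Adj h z' → ¬ G.Adj z z') :
    5 * (Fintype.card V - 2) ≤ ∑ v, dg G v := by
  set S : Finset V := Finset.univ.filter (fun w => G.Adj h w) with hS
  set Z : Finset V := Finset.univ.filter (fun w => w ≠ h ∧ ¬ G.Adj h w) with hZ
  have hSZ : Disjoint S Z := by
    rw [Finset.disjoint_left]
    intro x hx hx'
    simp only [hS, hZ, Finset.mem_filter, Finset.mem_univ, true_and] at hx hx'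
    exact hx'.2 hx
  have hhSZ : h ∉ S ∪ Z := by
    simp [hS, hZ]
  have huniv : (Finset.univ : Finset V) = insert h (S ∪ Z) := by
    ext x
    simp only [hS, hZ, Finset.mem_univ, Finset.mem_insert, Finset.mem_union, Finset.mem_filter,
      true_and, true_iff]
    by_cases hx : x = h
    · exact Or.inl hx
    · by_cases hx' : G.Adj h x
      · exact Or.inr (Or.inl hx')
      · exact Or.inr (Or.inr ⟨hx, hx'⟩)
  have hcard : Fintype.card V = S.card + Z.card + 1 := by
    rw [← Finset.card_univ, huniv, Finset.card_insert_of_notMem hhSZ,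
      Finset.card_union_of_disjoint hSZ]
  have hzZ : z ∈ Z := by simp [hZ, hz, hzh]
  -- degrees
  have hdgh : dg G h = S.card := rfl
  have hdgS : ∀ y ∈ S, dg G y = 1 + (dgIn G y Z + dgIn G y S) := by
    intro y hy
    have hyh : G.Adj y h := by
      simp only [hS, Finset.mem_filter, Finset.mem_univ, true_and] at hy
      exact hy.symm
    unfold dg
    rw [huniv, Finset.filter_insert, if_pos hyh, Finset.card_insert_of_notMem]
    · have := countA_union G y S Z hSZ
      unfold dgIn at this ⊢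
      omega
    · intro hc
      exact hhSZ (Finset.mem_filter.1 hc).1
  set W : Finset V := Finset.univ.filter (fun w => G.Adj z w) with hW
  have hWS : W ⊆ S := by
    intro w hw
    simp only [hW, hS, Finset.mem_filter, Finset.mem_univ, true_and] at hw ⊢
    by_contra hc
    by_cases hwh : w = h
    · subst hwh
      exact hzh hw.symm
    · exact hiso w hwh hc hw
  have hWc : dg G z = W.card := rfl
  -- the main double count
  have h1 : S.card ≤ ∑ w ∈ W, dgIn G w S := by
    rw [countA_comm G W S, Finset.card_eq_sum_ones]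
    refine Finset.sum_le_sum (fun y hy => ?_)
    have hyz : y ≠ z := by
      rintro rfl
      exact hzh (Finset.mem_filter.1 hy).2
    obtain ⟨w, hw1, hw2⟩ := h3 y z hyz
    have : w ∈ W.filter (fun w => G.Adj y w) := by
      simp only [hW, Finset.mem_filter, Finset.mem_univ, true_and]
      exact ⟨hw2.symm, hw1⟩
    exact Finset.card_pos.2 ⟨w, this⟩
  have h2 : ∀ w ∈ W, 1 + dgIn G w S ≤ dgIn G w Z + dgIn G w S := by
    intro w hw
    have hw' : G.Adj z w := (Finset.mem_filter.1 hw).2
    have : z ∈ Z.filter (fun x => G.Adj w x) := Finset.mem_filter.2 ⟨hzZ, hw'.symm⟩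
    have : 1 ≤ dgIn G w Z := Finset.card_pos.2 ⟨z, this⟩
    omega
  have h4 : ∀ y ∈ S \ W, 2 ≤ dgIn G y Z + dgIn G y S := by
    intro y hy
    have := hdgS y (Finset.mem_sdiff.1 hy).1
    have := hmin y
    omega
  have h5 : W.card + ∑ w ∈ W, dgIn G w S ≤ ∑ w ∈ W, (dgIn G w Z + dgIn G w S) := by
    have := Finset.sum_le_sum h2
    rw [Finset.sum_add_distrib] at this
    simpa using this
  have h6 : 2 * (S \ W).card ≤ ∑ y ∈ S \ W, (dgIn G y Z + dgIn G y S) := by
    have := Finset.sum_le_sum h4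
    simp only [Finset.sum_const, smul_eq_mul] at this
    omega
  have h7 : ∑ y ∈ S, (dgIn G y Z + dgIn G y S) =
      ∑ y ∈ S \ W, (dgIn G y Z + dgIn G y S) + ∑ w ∈ W, (dgIn G w Z + dgIn G w S) :=
    (Finset.sum_sdiff hWS).symm
  have h8 : (S \ W).card + W.card = S.card := Finset.card_sdiff_add_card_eq_card hWS
  have h9 : ∑ y ∈ S, dg G y = S.card + ∑ y ∈ S, (dgIn G y Z + dgIn G y S) := by
    rw [Finset.sum_congr rfl hdgS, Finset.sum_add_distrib]
    simp
  have h10 : ∑ v, dg G v = dg G h + (∑ y ∈ S, dg G y + ∑ y ∈ Z, dg G y) := by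
    rw [huniv, Finset.sum_insert hhSZ, Finset.sum_union hSZ]
  have h11 : ∑ y ∈ Z, dg G y = dg G z + ∑ y ∈ Z.erase z, dg G y :=
    (Finset.add_sum_erase Z _ hzZ).symm
  have h12 : 5 * (Z.erase z).card ≤ ∑ y ∈ Z.erase z, dg G y := by
    have : ∀ y ∈ Z.erase z, 5 ≤ dg G y := by
      intro y hy
      have hy' := (Finset.mem_filter.1 (Finset.mem_of_mem_erase hy)).2
      exact hh y hy'.1 hy'.2
    have := Finset.sum_le_sum this
    simp only [Finset.sum_const, smul_eq_mul] at this
    omega
  have h13 : (Z.erase z).card + 1 = Z.card := Finset.card_erase_add_one hzZ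
  omega

end Pool.Agent.Lib.MP_0f64c5_co
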