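import Pool.Agent.Lib.MP_0f64c5_co.Hub

/-!
# Module COUNTB: the exact count, second case

`Z` = vertices other than `h` not adjacent to `h`, `S = N(h)`, `n = |S| + |Z| + 1`,
`j(y)` = number of neighbours of `y` in `Z`, `d'(y)` = number of neighbours in `S` (`y` in `S`),
`L = {y in S | 1 <= j(y)}`, `L1 = {j = 1}`, `L2 = {j >= 2}`, `M = S \ L`,
`m2` = number of `y` in `M` without neighbour in `L2`. `D(z) = N(z) cap Z`, not empty for all `z`.
Facts.
(1) `y` in `M`, `z` in `Z`: the common neighbour of `y` and `z` is in `S` (`y` has no neighbour in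
`Z`, and it is not `h`), and it is in `N(z)`. Fix adjacent `z, z'` in `Z`: `y` has a neighbour in
`N(z) cap S` and one in `N(z') cap S`; if they are equal it is in `L2`, otherwise `y` has two
neighbours in `L`. So `|N(y) cap L| >= 1`, and `>= 2` if `y` is counted in `m2`.
(2) `l` in `L1`, `z` its neighbour in `Z`: the common neighbour of `l` and `z` is not `h`
(`z` is not adjacent to `h`), not in `Z` (it would be a second neighbour of `l` in `Z`), so it is
in `S` and adjacent to `z`: `|N(l) cap L| >= 1`.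
(3) `d'(y) >= 2` for `y` in `M` (minimum degree 3, `j(y) = 0`).
(4) `sum_{l in L} d'(l) >= sum_{l in L} |N(l) cap M| + sum_{l in L} |N(l) cap L|
 = sum_{y in M} |N(y) cap L| + ... >= |M| + m2 + |L1|`.
(5) `sum_{z in Z} |N(z) cap S| = sum_{y in S} j(y) >= |L1| + 2 |L2|`.
So `sum_v d(v) = |S| + sum_z (|N(z) cap S| + |D(z)|) + sum_{y in S} (1 + j + d')(y)
 >= 2 |S| + 2 (|L1| + 2 |L2|) + sum |D(z)| + (2 |M|) + (|M| + m2 + |L1|)
 = 5 |S| + |L2| + m2 + sum |D(z)|`.
If `|L2| + m2 + sum |D(z)| >= 5 |Z|` we are done. Otherwise put `T = {h} u Z u L2`,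
`2 <= |T| <= 1 + 6 |Z|`; by `sum_dg_split`, `ht` and
`sum_{t in T} d(t) >= |S| + sum_z |N(z) cap S| + sum_{l in L2} (1 + |N(l) cap M|)`
`>= |S| + |L1| + 2 |L2| + |L2| + (|M| - m2)`,
`sum_{v notin T} dgIn v T >= |S \ L2| + |L1| + (|M| - m2)`:
`sum d >= 4 |S| - 2 m2 + 2 n + 2 - 4 (1 + 6 |Z|) >= 6 n - 6 - 38 |Z|`, and `|Z| <= n / 40` by `hB`.
-/

set_option autoImplicit false

namespace Pool.Agent.Lib.MP_0f64c5_co

open Classical

variable {V : Type*}


private theorem countB_union (G : SimpleGraph V) (v : V) (A B : Finset V) (hAB : Disjoint A B) :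
    dgIn G v (A ∪ B) = dgIn G v A + dgIn G v B := by
  unfold dgIn
  rw [Finset.filter_union, Finset.card_union_of_disjoint]
  exact Finset.disjoint_filter_filter hAB

private theorem countB_pos {G : SimpleGraph V} {v w : V} {A : Finset V} (hw : w ∈ A)
    (h : G.Adj v w) : 1 ≤ dgIn G v A :=
  Finset.card_pos.2 ⟨w, Finset.mem_filter.2 ⟨hw, h⟩⟩

private theorem countB_two {G : SimpleGraph V} {v w w' : V} {A : Finset V} (hw : w ∈ A)
    (h : G.Adj v w) (hw' : w' ∈ A) (h' : G.Adj v w') (hne : w ≠ w') : 2 ≤ dgIn G v A := by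
  unfold dgIn
  have : ({w, w'} : Finset V) ⊆ A.filter (fun x => G.Adj v x) := by
    intro x hx
    simp only [Finset.mem_insert, Finset.mem_singleton] at hx
    rcases hx with rfl | rfl
    · exact Finset.mem_filter.2 ⟨hw, h⟩
    · exact Finset.mem_filter.2 ⟨hw', h'⟩
  calc 2 = ({w, w'} : Finset V).card := (Finset.card_pair hne).symm
    _ ≤ _ := Finset.card_le_card this

theorem count_beta [Fintype V] {G : SimpleGraph V} (hn : 10 ^ 6 ≤ Fintype.card V)
    (h3 : ∀ u v, u ≠ v → ∃ w, G.Adj u w ∧ G.Adj w v)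
    (hmin : ∀ v, 3 ≤ dg G v)
    (ht : ∀ T : Finset V, 2 ≤ T.card →
      2 * Fintype.card V + 2 ≤ 4 * T.card + ∑ v ∈ Tᶜ, dgIn G v Tᶜ)
    (hB : 40 * (Finset.univ.filter (fun v => 200 ≤ dg G v)).card ≤ Fintype.card V)
    (h : V) (hh : ∀ z, z ≠ h → ¬ G.Adj h z → 200 ≤ dg G z)
    (hne : ∃ z, z ≠ h ∧ ¬ G.Adj h z)
    (hD : ∀ z, z ≠ h → ¬ G.Adj h z → ∃ z', z' ≠ h ∧ ¬ G.Adj h z' ∧ G.Adj z z') :
    5 * (Fintype.card V - 2) ≤ ∑ v, dg G v := by
  set S : Finset V := Finset.univ.filter (fun w => G.Adj h w) with hS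
  set Z : Finset V := Finset.univ.filter (fun w => w ≠ h ∧ ¬ G.Adj h w) with hZ
  have memS : ∀ x, x ∈ S ↔ G.Adj h x := fun x => by simp [hS]
  have memZ : ∀ x, x ∈ Z ↔ x ≠ h ∧ ¬ G.Adj h x := fun x => by simp [hZ]
  have hSZ : Disjoint S Z := by
    rw [Finset.disjoint_left]
    intro x hx hx'
    exact ((memZ x).1 hx').2 ((memS x).1 hx)
  have hhSZ : h ∉ S ∪ Z := by
    simp [hS, hZ]
  have huniv : (Finset.univ : Finset V) = insert h (S ∪ Z) := by
    ext x
    simp only [Finset.mem_univ, Finset.mem_insert, Finset.mem_union, memS, memZ, true_iff]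
    by_cases hx : x = h
    · exact Or.inl hx
    · by_cases hx' : G.Adj h x
      · exact Or.inr (Or.inl hx')
      · exact Or.inr (Or.inr ⟨hx, hx'⟩)
  have hcard : Fintype.card V = S.card + Z.card + 1 := by
    rw [← Finset.card_univ, huniv, Finset.card_insert_of_notMem hhSZ,
      Finset.card_union_of_disjoint hSZ]
  have hdgh : dg G h = S.card := rfl
  have hdgS : ∀ y ∈ S, dg G y = 1 + (dgIn G y Z + dgIn G y S) := by
    intro y hy
    have hyh : G.Adj y h := ((memS y).1 hy).symm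
    unfold dg
    rw [huniv, Finset.filter_insert, if_pos hyh, Finset.card_insert_of_notMem]
    · have := countB_union G y S Z hSZ
      unfold dgIn at this ⊢
      omega
    · intro hc
      exact hhSZ (Finset.mem_filter.1 hc).1
  have hdgZ : ∀ y ∈ Z, dg G y = dgIn G y S + dgIn G y Z := by
    intro y hy
    have hyh : ¬ G.Adj y h := fun hc => ((memZ y).1 hy).2 hc.symm
    unfold dg
    rw [huniv, Finset.filter_insert, if_neg hyh]
    exact countB_union G y S Z hSZ
  -- the three classes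
  set M : Finset V := S.filter (fun y => dgIn G y Z = 0) with hM
  set L1 : Finset V := S.filter (fun y => dgIn G y Z = 1) with hL1
  set L2 : Finset V := S.filter (fun y => 2 ≤ dgIn G y Z) with hL2
  set M2 : Finset V := M.filter (fun y => dgIn G y L2 = 0) with hM2
  have memM : ∀ x, x ∈ M ↔ x ∈ S ∧ dgIn G x Z = 0 := fun x => by simp [hM]
  have memL1 : ∀ x, x ∈ L1 ↔ x ∈ S ∧ dgIn G x Z = 1 := fun x => by simp [hL1]
  have memL2 : ∀ x, x ∈ L2 ↔ x ∈ S ∧ 2 ≤ dgIn G x Z := fun x => by simp [hL2]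
  have d12 : Disjoint L1 L2 := by
    rw [Finset.disjoint_left]
    intro x hx hx'
    have := (memL1 x).1 hx
    have := (memL2 x).1 hx'
    omega
  have dLM : Disjoint (L1 ∪ L2) M := by
    rw [Finset.disjoint_left]
    intro x hx hx'
    have h1 := (memM x).1 hx'
    rcases Finset.mem_union.1 hx with h2 | h2
    · have := (memL1 x).1 h2
      omega
    · have := (memL2 x).1 h2
      omega
  have hSu : S = (L1 ∪ L2) ∪ M := by
    ext x
    simp only [Finset.mem_union, memM, memL1, memL2]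
    constructor
    · intro hx
      rcases Nat.lt_or_ge (dgIn G x Z) 1 with h1 | h1
      · exact Or.inr ⟨hx, by omega⟩
      · rcases Nat.lt_or_ge (dgIn G x Z) 2 with h2 | h2
        · exact Or.inl (Or.inl ⟨hx, by omega⟩)
        · exact Or.inl (Or.inr ⟨hx, h2⟩)
    · rintro ((h1 | h1) | h1) <;> exact h1.1
  have hScard : S.card = L1.card + L2.card + M.card := by
    conv_lhs => rw [hSu]
    rw [Finset.card_union_of_disjoint dLM, Finset.card_union_of_disjoint d12]
  have hsumS : ∀ f : V → ℕ, ∑ y ∈ S, f y = ∑ y ∈ L1, f y + ∑ y ∈ L2, f y + ∑ y ∈ M, f y := by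
    intro f
    conv_lhs => rw [hSu]
    rw [Finset.sum_union dLM, Finset.sum_union d12]
  -- neighbours of members of Z
  have inL : ∀ w z, w ∈ S → z ∈ Z → G.Adj w z → w ∈ L1 ∪ L2 := by
    intro w z hw hz hwz
    have h1 : 1 ≤ dgIn G w Z := countB_pos hz hwz
    rw [Finset.mem_union, memL1, memL2]
    rcases Nat.lt_or_ge (dgIn G w Z) 2 with h2 | h2
    · exact Or.inl ⟨hw, by omega⟩
    · exact Or.inr ⟨hw, h2⟩
  have key1 : ∀ y ∈ M, ∀ z ∈ Z, ∃ w ∈ L1 ∪ L2, G.Adj y w ∧ G.Adj w z := by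
    intro y hy z hz
    have hy' := (memM y).1 hy
    have hyz : y ≠ z := by
      rintro rfl
      exact (Finset.disjoint_left.1 hSZ hy'.1) hz
    obtain ⟨w, hw1, hw2⟩ := h3 y z hyz
    have hwh : w ≠ h := by
      rintro rfl
      exact ((memZ z).1 hz).2 hw2
    have hwZ : w ∉ Z := by
      intro hc
      have := countB_pos (G := G) hc hw1
      omega
    have hwS : w ∈ S := by
      by_contra hc
      exact hwZ ((memZ w).2 ⟨hwh, fun hc' => hc ((memS w).2 hc')⟩)
    exact ⟨w, inL w z hwS hz hw2, hw1, hw2⟩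
  obtain ⟨z0, hz0, hz0'⟩ := hne
  obtain ⟨z1, hz1, hz1', hadj⟩ := hD z0 hz0 hz0'
  have hz0Z : z0 ∈ Z := (memZ z0).2 ⟨hz0, hz0'⟩
  have hz1Z : z1 ∈ Z := (memZ z1).2 ⟨hz1, hz1'⟩
  have key2 : ∀ y ∈ M, 1 + (if y ∈ M2 then 1 else 0) ≤ dgIn G y (L1 ∪ L2) := by
    intro y hy
    obtain ⟨w, hw, hyw, hwz⟩ := key1 y hy z0 hz0Z
    split_ifs with hy2
    · obtain ⟨w', hw', hyw', hwz'⟩ := key1 y hy z1 hz1Z
      refine countB_two hw hyw hw' hyw' ?_
      rintro rfl
      have h2 : 2 ≤ dgIn G w Z := countB_two hz0Z hwz hz1Z hwz' hadj.ne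
      have hwS : w ∈ S := by
        rcases Finset.mem_union.1 hw with h' | h'
        · exact ((memL1 w).1 h').1
        · exact ((memL2 w).1 h').1
      have hwL2 : w ∈ L2 := (memL2 w).2 ⟨hwS, h2⟩
      have h5 : 1 ≤ dgIn G y L2 := countB_pos hwL2 hyw
      have h6 : dgIn G y L2 = 0 := (Finset.mem_filter.1 hy2).2
      omega
    · have := countB_pos hw hyw
      omega
  have hM2M : M2 ⊆ M := Finset.filter_subset _ _
  have e1 : M.card + M2.card ≤ ∑ l ∈ L1 ∪ L2, dgIn G l M := by
    rw [sum_dgIn_comm G (L1 ∪ L2) M]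
    have h1 := Finset.sum_le_sum key2
    rw [Finset.sum_add_distrib, ← Finset.card_filter, Finset.sum_const, smul_eq_mul, mul_one] at h1
    have h2 : M.filter (fun y => y ∈ M2) = M2 := by
      rw [Finset.filter_mem_eq_inter, Finset.inter_eq_right]
      exact hM2M
    rw [h2] at h1
    exact h1
  have e2 : L1.card ≤ ∑ l ∈ L1 ∪ L2, dgIn G l (L1 ∪ L2) := by
    have h1 : ∀ l ∈ L1, 1 ≤ dgIn G l (L1 ∪ L2) := by
      intro l hl
      have hl' := (memL1 l).1 hl
      have : 0 < dgIn G l Z := by omega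
      obtain ⟨z, hz⟩ := Finset.card_pos.1 this
      obtain ⟨hzZ, hlz⟩ := Finset.mem_filter.1 hz
      have hlz' : l ≠ z := hlz.ne
      obtain ⟨w, hw1, hw2⟩ := h3 l z hlz'
      have hwh : w ≠ h := by
        rintro rfl
        exact ((memZ z).1 hzZ).2 hw2
      have hwZ : w ∉ Z := by
        intro hc
        have := countB_two (G := G) hc hw1 hzZ hlz hw2.ne
        omega
      have hwS : w ∈ S := by
        by_contra hc
        exact hwZ ((memZ w).2 ⟨hwh, fun hc' => hc ((memS w).2 hc')⟩)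
      exact countB_pos (inL w z hwS hzZ hw2) hw1
    have h2 := Finset.sum_le_sum h1
    simp only [Finset.sum_const, smul_eq_mul, mul_one] at h2
    refine h2.trans ?_
    exact Finset.sum_le_sum_of_subset Finset.subset_union_left
  have e3 : 2 * M.card ≤ ∑ y ∈ M, dgIn G y S := by
    have h1 : ∀ y ∈ M, 2 ≤ dgIn G y S := by
      intro y hy
      have h1 := (memM y).1 hy
      have h2 := hdgS y h1.1
      have h3 := hmin y
      omega
    have h2 := Finset.sum_le_sum h1
    simp only [Finset.sum_const, smul_eq_mul] at h2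
    omega
  have e4 : M.card + M2.card + L1.card ≤ ∑ l ∈ L1, dgIn G l S + ∑ l ∈ L2, dgIn G l S := by
    rw [← Finset.sum_union d12]
    have h1 : ∀ l ∈ L1 ∪ L2, dgIn G l S = dgIn G l (L1 ∪ L2) + dgIn G l M := by
      intro l _
      conv_lhs => rw [hSu]
      exact countB_union G l _ _ dLM
    rw [Finset.sum_congr rfl h1, Finset.sum_add_distrib]
    omega
  have e5 : L1.card + 2 * L2.card ≤ ∑ y ∈ S, dgIn G y Z := by
    rw [hsumS]
    have h1 : ∑ y ∈ L1, dgIn G y Z = L1.card := by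
      rw [Finset.sum_congr rfl (fun y hy => ((memL1 y).1 hy).2)]
      simp
    have h2 : 2 * L2.card ≤ ∑ y ∈ L2, dgIn G y Z := by
      have := Finset.sum_le_sum (fun y (hy : y ∈ L2) => ((memL2 y).1 hy).2)
      simp only [Finset.sum_const, smul_eq_mul] at this
      omega
    omega
  have e6 : ∑ z ∈ Z, dgIn G z S = ∑ y ∈ S, dgIn G y Z := sum_dgIn_comm G Z S
  have e7 : Z.card ≤ ∑ z ∈ Z, dgIn G z Z := by
    have h1 : ∀ z ∈ Z, 1 ≤ dgIn G z Z := by
      intro z hz
      obtain ⟨z', a1, a2, a3⟩ := hD z ((memZ z).1 hz).1 ((memZ z).1 hz).2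
      exact countB_pos ((memZ z').2 ⟨a1, a2⟩) a3
    have h2 := Finset.sum_le_sum h1
    simpa using h2
  have hsumZ : ∑ z ∈ Z, dg G z = ∑ z ∈ Z, dgIn G z S + ∑ z ∈ Z, dgIn G z Z := by
    rw [← Finset.sum_add_distrib]
    exact Finset.sum_congr rfl hdgZ
  have hsumS' : ∑ y ∈ S, dg G y = S.card + (∑ y ∈ S, dgIn G y Z + ∑ y ∈ S, dgIn G y S) := by
    rw [Finset.sum_congr rfl hdgS, Finset.sum_add_distrib, Finset.sum_add_distrib]
    simp
  have hsumSS := hsumS (fun y => dgIn G y S)
  have htot : ∑ v, dg G v = dg G h + (∑ y ∈ S, dg G y + ∑ y ∈ Z, dg G y) := by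
    rw [huniv, Finset.sum_insert hhSZ, Finset.sum_union hSZ]
  by_cases hbig : 5 * Z.card ≤ L2.card + M2.card + ∑ z ∈ Z, dgIn G z Z
  · omega
  push Not at hbig
  have hZB : Z.card ≤ (Finset.univ.filter (fun v => 200 ≤ dg G v)).card := by
    refine Finset.card_le_card ?_
    intro z hz
    simp only [Finset.mem_filter, Finset.mem_univ, true_and]
    exact hh z ((memZ z).1 hz).1 ((memZ z).1 hz).2
  have hZpos : 1 ≤ Z.card := Finset.card_pos.2 ⟨z0, hz0Z⟩
  -- the set T
  have dZL2 : Disjoint Z L2 := by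
    refine Finset.disjoint_of_subset_right ?_ hSZ.symm
    exact Finset.filter_subset _ _
  have hhT : h ∉ Z ∪ L2 := by
    intro hc
    rcases Finset.mem_union.1 hc with hc | hc
    · exact ((memZ h).1 hc).1 rfl
    · exact G.loopless.irrefl h ((memS h).1 ((memL2 h).1 hc).1)
  set T : Finset V := insert h (Z ∪ L2) with hT
  have hTcard : T.card = 1 + Z.card + L2.card := by
    rw [hT, Finset.card_insert_of_notMem hhT, Finset.card_union_of_disjoint dZL2]
    omega
  have hTc : Tᶜ = L1 ∪ M := by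
    ext x
    simp only [hT, Finset.mem_compl, Finset.mem_insert, Finset.mem_union, not_or]
    constructor
    · rintro ⟨h1, h2, h4⟩
      have hxS : x ∈ S := by
        by_contra hc
        exact h2 ((memZ x).2 ⟨h1, fun hc' => hc ((memS x).2 hc')⟩)
      have := hSu ▸ hxS
      rcases Finset.mem_union.1 this with h5 | h5
      · rcases Finset.mem_union.1 h5 with h6 | h6
        · exact Or.inl h6
        · exact absurd h6 h4
      · exact Or.inr h5
    · intro hx
      have hxS : x ∈ S := by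
        rcases hx with h1 | h1
        · exact ((memL1 x).1 h1).1
        · exact ((memM x).1 h1).1
      refine ⟨?_, ?_, ?_⟩
      · rintro rfl
        exact G.loopless.irrefl x ((memS x).1 hxS)
      · exact Finset.disjoint_left.1 hSZ hxS
      · intro hc
        rcases hx with h1 | h1
        · exact Finset.disjoint_left.1 d12 h1 hc
        · exact Finset.disjoint_left.1 dLM (Finset.mem_union_right _ hc) h1
  have d1M : Disjoint L1 M := Finset.disjoint_of_subset_left Finset.subset_union_left dLM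
  have hTs := sum_dg_split G T
  have hT1 := ht T (by omega)
  have f1 : ∑ t ∈ T, dg G t = dg G h + (∑ z ∈ Z, dg G z + ∑ y ∈ L2, dg G y) := by
    rw [hT, Finset.sum_insert hhT, Finset.sum_union dZL2]
  have f2 : M.card ≤ M2.card + ∑ y ∈ M, dgIn G y L2 := by
    have h1 : ∀ y ∈ M, 1 ≤ (if y ∈ M2 then 1 else 0) + dgIn G y L2 := by
      intro y hy
      split_ifs with hy2
      · omega
      · have : dgIn G y L2 ≠ 0 := fun hc => hy2 (Finset.mem_filter.2 ⟨hy, hc⟩)
        omega
    have h2 := Finset.sum_le_sum h1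
    rw [Finset.sum_add_distrib, ← Finset.card_filter, Finset.sum_const, smul_eq_mul, mul_one] at h2
    have h4 : M.filter (fun y => y ∈ M2) = M2 := by
      rw [Finset.filter_mem_eq_inter, Finset.inter_eq_right]
      exact hM2M
    rw [h4] at h2
    exact h2
  have f3 : L2.card + ∑ y ∈ M, dgIn G y L2 ≤ ∑ y ∈ L2, dg G y := by
    rw [sum_dgIn_comm G M L2]
    have h1 : ∀ y ∈ L2, 1 + dgIn G y M ≤ dg G y := by
      intro y hy
      have hyS := ((memL2 y).1 hy).1
      rw [hdgS y hyS]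
      have h2 : dgIn G y S = dgIn G y (L1 ∪ L2) + dgIn G y M := by
        conv_lhs => rw [hSu]
        exact countB_union G y _ _ dLM
      omega
    have h2 := Finset.sum_le_sum h1
    rw [Finset.sum_add_distrib] at h2
    simpa using h2
  have dhZL2 : ∀ v ∈ S, dgIn G v T = 1 + (dgIn G v Z + dgIn G v L2) := by
    intro v hv
    have hvh : G.Adj v h := ((memS v).1 hv).symm
    have h1 := countB_union G v Z L2 dZL2
    unfold dgIn at h1 ⊢
    rw [hT, Finset.filter_insert, if_pos hvh, Finset.card_insert_of_notMem]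
    · omega
    · intro hc
      exact hhT (Finset.mem_filter.1 hc).1
  have f4 : 2 * L1.card + (M.card + ∑ y ∈ M, dgIn G y L2) ≤ ∑ v ∈ Tᶜ, dgIn G v T := by
    rw [hTc, Finset.sum_union d1M]
    have h1 : 2 * L1.card ≤ ∑ y ∈ L1, dgIn G y T := by
      have : ∀ y ∈ L1, 2 ≤ dgIn G y T := by
        intro y hy
        have h1 := (memL1 y).1 hy
        rw [dhZL2 y h1.1]
        omega
      have h2 := Finset.sum_le_sum this
      simp only [Finset.sum_const, smul_eq_mul] at h2
      omega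
    have h2 : M.card + ∑ y ∈ M, dgIn G y L2 ≤ ∑ y ∈ M, dgIn G y T := by
      have : ∀ y ∈ M, 1 + dgIn G y L2 ≤ dgIn G y T := by
        intro y hy
        have h1 := (memM y).1 hy
        rw [dhZL2 y h1.1]
        omega
      have h2 := Finset.sum_le_sum this
      rw [Finset.sum_add_distrib] at h2
      simpa using h2
    omega
  omega

end Pool.Agent.Lib.MP_0f64c5_co
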