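import Pool.Agent.Lib.MP_0f64c5_co.CritB

/-!
# Module CRIT (assembly): critical edges for `P_i`, `i >= 4`

A path `P` from `u` to `v` with `i` vertices contains `x, y` consecutively; if it contains `y, x` in this
order, exchange `x` and `y` (`consIn_comm`, `Sym2.eq_swap`). So `P = A ++ x :: y :: B`. By `cross` and `hall`:
`countP x + countP y <= i + 2`, while `countP (x ~ .) P >= d(x) - (n - i)` and the same for `y`; as
`x, y` are good: `2 (0.85 n - n + i) <= i + 2`, i.e. `10 i <= 3 n + 20`. So `CH G x y A B`.
`|A|, |B| >= 2`: `CH.both`. `|B| <= 1`, `|A| >= 2`: `CH.nil` (then `v = y`, `i = 4`) or `CH.single`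
(`i = 5`). `|A| <= 1`, `|B| >= 2`: the mirror image. `|A|, |B| <= 1`: since `i >= 4`, `CH.mid`.
-/

set_option autoImplicit false

namespace Pool.Agent.Lib.MP_0f64c5_co

open Classical

variable {V : Type*}

theorem crit_dg_le [Fintype V] (G : SimpleGraph V) (x : V) {l : List V} (hl : l.Nodup) :
    dg G x + l.length ≤ l.countP (fun w => decide (G.Adj x w)) + Fintype.card V := by
  have h1 : l.countP (fun w => decide (G.Adj x w)) =
      (l.toFinset.filter (fun w => G.Adj x w)).card := by
    rw [List.countP_eq_length_filter, ← List.toFinset_card_of_nodup (hl.filter _)]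
    congr 1
    ext w
    simp
  have h2 : l.length = l.toFinset.card := (List.toFinset_card_of_nodup hl).symm
  have h3 : dg G x ≤ (l.toFinset.filter (fun w => G.Adj x w)).card + (Finset.univ \ l.toFinset).card := by
    unfold dg
    rw [← Finset.card_union_of_disjoint]
    · apply Finset.card_le_card
      intro w hw
      simp only [Finset.mem_filter, Finset.mem_univ, true_and] at hw
      by_cases hm : w ∈ l.toFinset
      · exact Finset.mem_union_left _ (Finset.mem_filter.2 ⟨hm, hw⟩)
      · exact Finset.mem_union_right _ (Finset.mem_sdiff.2 ⟨Finset.mem_univ _, hm⟩)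
    · rw [Finset.disjoint_left]
      intro w hw hw2
      exact (Finset.mem_sdiff.1 hw2).2 (Finset.mem_filter.1 hw).1
  have h4 : (Finset.univ \ l.toFinset).card + l.toFinset.card = Fintype.card V := by
    rw [Finset.card_sdiff_add_card_eq_card (Finset.subset_univ _), Finset.card_univ]
  rw [h1, h2]
  omega

theorem crit_aux [Fintype V] {G : SimpleGraph V} (hn : 1000 ≤ Fintype.card V)
    (hb : FewBad G) (h3 : ∀ a b, a ≠ b → ∃ w, G.Adj a w ∧ G.Adj w b)
    {x y : V} (hxy : G.Adj x y) (hx : Good G x) (hy : Good G y)
    (hP3 : HasP (G.deleteEdges {s(x, y)}) 3)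
    {u v : V} {i : ℕ} (hi : 4 ≤ i)
    {A B : List V} (hl : LPath G u v (A ++ x :: y :: B)) (hli : (A ++ x :: y :: B).length = i)
    (hall : ∀ l, LPath G u v l → l.length = i → ConsIn x y l) :
    (i = 4 ∧ (u = x ∨ u = y ∨ v = x ∨ v = y)) ∨
      ((i = 4 ∨ i = 5) ∧ ¬ Good G u ∧ ¬ Good G v) := by
  obtain ⟨hc, hnd, hh, hlast⟩ := hl
  have hno : ∀ l : List V, l.IsChain G.Adj → l.Nodup → l.head? = (A ++ x :: y :: B).head? →
      l.getLast? = (A ++ x :: y :: B).getLast? → l.length = (A ++ x :: y :: B).length →
      ConsIn x y l := by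
    intro l h1 h2 h3' h4 h5
    exact hall l ⟨h1, h2, by rw [h3', hh], by rw [h4, hlast]⟩ (by rw [h5, hli])
  have hlen : 10 * (A ++ x :: y :: B).length ≤ 3 * Fintype.card V + 20 := by
    by_contra hcon
    have h1 := crit_dg_le G x hnd
    have h2 := crit_dg_le G y hnd
    unfold Good at hx hy
    obtain ⟨l, k1, k2, k3, k4, k5, k6⟩ := cross hc hnd (by omega)
    exact k6 (hno l k1 k2 k3 k4 k5)
  have H : CH G x y A B := ⟨hn, hb, h3, hxy, hx, hy, hasP_three_iff.1 hP3, hc, hnd, hlen, hno⟩
  have hi2 : i = A.length + B.length + 2 := by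
    rw [← hli]
    simp
    omega
  by_cases hA : 2 ≤ A.length
  · by_cases hB : 2 ≤ B.length
    · exact (H.both hA hB).elim
    · match B, hB, H, hlast, hi2 with
      | [], _, H, hlast, hi2 =>
        have h2 := H.nil hA
        left
        refine ⟨by rw [hi2, h2]; rfl, Or.inr (Or.inr (Or.inr ?_))⟩
        have : (A ++ [x, y]).getLast? = some y := by
          simp
        rw [this] at hlast
        exact (Option.some.inj hlast).symm
      | [b], _, H, hlast, hi2 =>
        obtain ⟨h2, hb1, hb2⟩ := H.single hA
        right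
        have hvb : v = b := by
          have : (A ++ x :: y :: [b]).getLast? = some b := by
            simp
          rw [this] at hlast
          exact (Option.some.inj hlast).symm
        refine ⟨Or.inr (by rw [hi2, h2]; rfl), ?_, by rw [hvb]; exact hb1⟩
        apply hb2
        match A, hA, hh with
        | a :: A', _, hh => simpa using hh
      | _ :: _ :: _, hB, _, _, _ => simp at hB
  · by_cases hB : 2 ≤ B.length
    · have M := H.mirror
      have hBr : 2 ≤ B.reverse.length := by rw [List.length_reverse]; exact hB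
      match A, hA, M, hh, hi2 with
      | [], _, M, hh, hi2 =>
        have h2 := CH.nil (A := B.reverse) (by simpa using M) hBr
        left
        rw [List.length_reverse] at h2
        refine ⟨by rw [hi2, h2]; rfl, Or.inl ?_⟩
        simp at hh
        exact hh.symm
      | [a], _, M, hh, hi2 =>
        obtain ⟨h2, hb1, hb2⟩ := CH.single (A := B.reverse) (v := a) (by simpa using M) hBr
        rw [List.length_reverse] at h2
        right
        have hua : u = a := by
          simp at hh
          exact hh.symm
        refine ⟨Or.inr (by rw [hi2, h2]; rfl), by rw [hua]; exact hb1, ?_⟩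
        apply hb2
        rw [List.head?_reverse]
        match B, hB, hlast with
        | b :: B', _, hlast =>
          have : (a :: [] ++ x :: y :: b :: B').getLast? = (b :: B').getLast? := by
            simp [List.getLast?_cons_cons]
          rw [← this]
          exact hlast
      | _ :: _ :: _, hA, _, _, _ => simp at hA
    · have hA1 : A.length = 1 := by omega
      have hB1 : B.length = 1 := by omega
      obtain ⟨a, rfl⟩ := List.length_eq_one_iff.1 hA1
      obtain ⟨b, rfl⟩ := List.length_eq_one_iff.1 hB1
      obtain ⟨m1, m2⟩ := H.mid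
      right
      have hua : u = a := by
        simp at hh
        exact hh.symm
      have hvb : v = b := by
        simp at hlast
        exact hlast.symm
      refine ⟨Or.inl (by rw [hi2]; rfl), by rw [hua]; exact m1, by rw [hvb]; exact m2⟩

theorem crit_structure [Fintype V] {G : SimpleGraph V} (hn : 1000 ≤ Fintype.card V)
    (hb : FewBad G) (h3 : ∀ a b, a ≠ b → ∃ w, G.Adj a w ∧ G.Adj w b)
    {x y : V} (hxy : G.Adj x y) (hx : Good G x) (hy : Good G y)
    (hP3 : HasP (G.deleteEdges {s(x, y)}) 3)
    {u v : V} (huv : u ≠ v) {i : ℕ} (hi : 4 ≤ i)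
    (hex : ∃ l, LPath G u v l ∧ l.length = i)
    (hall : ∀ l, LPath G u v l → l.length = i → ConsIn x y l) :
    (i = 4 ∧ (u = x ∨ u = y ∨ v = x ∨ v = y)) ∨
      ((i = 4 ∨ i = 5) ∧ ¬ Good G u ∧ ¬ Good G v) := by
  obtain ⟨l, hl, hli⟩ := hex
  rcases hall l hl hli with h | h
  · obtain ⟨A, B, hAB⟩ := h
    have e : l = A ++ x :: y :: B := by
      rw [← hAB]
      simp
    subst e
    exact crit_aux hn hb h3 hxy hx hy hP3 hi hl hli hall
  · obtain ⟨A, B, hAB⟩ := h
    have e : l = A ++ y :: x :: B := by
      rw [← hAB]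
      simp
    subst e
    have := crit_aux hn hb h3 hxy.symm hy hx (by rw [Sym2.eq_swap]; exact hP3) hi hl hli
      (fun l h1 h2 => consIn_comm.1 (hall l h1 h2))
    rcases this with ⟨k1, k2⟩ | k
    · left
      refine ⟨k1, ?_⟩
      rcases k2 with k | k | k | k
      · exact Or.inr (Or.inl k)
      · exact Or.inl k
      · exact Or.inr (Or.inr (Or.inr k))
      · exact Or.inr (Or.inr (Or.inl k))
    · exact Or.inr k

end Pool.Agent.Lib.MP_0f64c5_co
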