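import Pool.Agent.Lib.MP_0f64c5_co.CritDefs

/-!
# Module CRITA: the vertices far from `xy`

`O` = complement of the path. All connecting lists come from `connect` or `exists_good_common` with
`X` = the vertices of the path and at most 8 more. All contradictions come from `CH.no`.
Terminology: `w` in `O` is `y`-useful if it has a neighbour `g` in `O`, `g` good, `g ~ y`. A good
`w` in `O` is `y`-useful (`exists_good_common`).
`left1`: if `A = A1 ++ p :: A2` with `A2` not empty, then `p` has no `y`-useful neighbour `w` in `O`: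
otherwise `A1 ++ p :: w :: (list of |A2| vertices: g, then connect from g to y) ++ y :: B`
(for `|A2| = 1` just `g`) is a path with the same number of vertices avoiding `x`.
`left2`: `p` is not adjacent to `x` and is adjacent to `y`. Choose a good `g` in `O` adjacent to `x` and
`y`; `P_3` gives `q` with `p ~ q ~ g`. `q` in `O`: `q` is `y`-useful, against `left1`. `q` in `A`,
`A = A1' ++ q :: A2'`: if `A2'` is not empty then `g` is a `y`-useful neighbour of `q`, against `left1`; if
`A2' = []`: `A ++ g :: y :: B`. `q` in `B`: `B = q :: B'`: `A ++ x :: g :: B`; `q` further right: the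
mirror image of `left1` (`CH.mirror`; `g` is `x`-useful). So `p ~ x` or `p ~ y`. If `p ~ x`:
`A1 ++ p :: x :: L ++ y :: B`, `L` = connect from `x` to `y` with `|A2|` vertices, outside the
path: contradiction. So `p` is not adjacent to `x`, and `p ~ y`.
-/

set_option autoImplicit false

namespace Pool.Agent.Lib.MP_0f64c5_co

open Classical

variable {V : Type*}

/-- Replace the part of the path between `p` and `y`. -/
theorem CH.repl [Fintype V] {G : SimpleGraph V} {x y p : V} {A1 A2 B M : List V}
    (h : CH G x y (A1 ++ p :: A2) B) (hlen : M.length = A2.length + 1)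
    (hchain : (p :: (M ++ [y])).IsChain G.Adj) (hM : M.Nodup)
    (hdis : ∀ w ∈ M, w ∉ A1 ∧ w ≠ p ∧ w ≠ y ∧ w ∉ B)
    (hx : (A1 ++ p :: (M ++ y :: B)).Nodup → ¬ ConsIn x y (A1 ++ p :: (M ++ y :: B))) :
    False := by
  have hc := h.chain
  have hn := h.nodup
  have hnd : (A1 ++ p :: (M ++ y :: B)).Nodup := by
    simp only [List.nodup_append, List.nodup_cons, List.mem_append, List.mem_cons,
      not_or] at hn ⊢
    refine ⟨hn.1.1, ⟨⟨?_, ?_⟩, hM, ⟨hn.2.1.2.1, hn.2.1.2.2⟩, ?_⟩, ?_⟩
    · intro hp; exact (hdis _ hp).2.1 rfl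
    · have h2 := hn.2.2 p (Or.inr (Or.inl rfl))
      constructor
      · exact h2 y (Or.inr (Or.inl rfl))
      · intro hpB; exact h2 p (Or.inr (Or.inr hpB)) rfl
    · intro a ha b hb
      rcases hb with rfl | hb
      · exact (hdis a ha).2.2.1
      · rintro rfl; exact (hdis a ha).2.2.2 hb
    · intro a ha b hb
      rcases hb with rfl | hb | rfl | hb
      · exact hn.1.2.2 a ha b (Or.inl rfl)
      · rintro rfl; exact (hdis a hb).1 ha
      · exact hn.2.2 a (Or.inl ha) b (Or.inr (Or.inl rfl))
      · exact hn.2.2 a (Or.inl ha) b (Or.inr (Or.inr hb))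
  refine hx hnd (h.no _ ?_ hnd ?_ ?_ ?_)
  · rw [List.isChain_split]
    constructor
    · have : ((A1 ++ [p]) ++ (A2 ++ x :: y :: B)).IsChain G.Adj := by simpa using hc
      exact this.left_of_append
    · have e : p :: (M ++ y :: B) = (p :: M) ++ y :: B := by simp
      rw [e, List.isChain_split]
      constructor
      · simpa using hchain
      · have : (((A1 ++ p :: A2) ++ [x]) ++ (y :: B)).IsChain G.Adj := by simpa using hc
        exact this.right_of_append
  · cases A1 <;> simp
  · simp [List.getLast?_append, List.getLast?_cons]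
  · simp only [List.length_append, List.length_cons]; omega

/-- `connect`, with the trivial case of the empty list included. -/
theorem critA_mid [Fintype V] {G : SimpleGraph V} (hn : 1000 ≤ Fintype.card V)
    (hb : FewBad G) {a c : V} (ha : Good G a) (hc : Good G c) (hac : G.Adj a c) (X : Finset V)
    (hX : 10 * X.card ≤ 3 * Fintype.card V + 100) (m : ℕ)
    (hm2 : 10 * m ≤ 3 * Fintype.card V + 100) :
    ∃ L : List V, L.length = m ∧ L.Nodup ∧ (∀ w ∈ L, w ∉ X ∧ w ≠ a ∧ w ≠ c) ∧
      (a :: (L ++ [c])).IsChain G.Adj := by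
  rcases Nat.eq_zero_or_pos m with rfl | hm
  · exact ⟨[], rfl, List.nodup_nil, by simp, by simpa using hac⟩
  · exact connect hn hb ha hc X hX m hm hm2

theorem critA_card (P : List V) (w : V) : (insert w P.toFinset).card ≤ P.length + 1 :=
  (Finset.card_insert_le _ _).trans (by have := P.toFinset_card_le; omega)

theorem CH.left1 [Fintype V] {G : SimpleGraph V} {x y p w g : V} {A1 A2 B : List V}
    (h : CH G x y (A1 ++ p :: A2) B) (hA2 : A2 ≠ [])
    (hw : w ∉ (A1 ++ p :: A2) ++ x :: y :: B) (hg : g ∉ (A1 ++ p :: A2) ++ x :: y :: B)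
    (hpw : G.Adj p w) (hwg : G.Adj w g) (hgood : Good G g) (hgy : G.Adj g y) : False := by
  have hlen := h.len
  have hl1 : ((A1 ++ p :: A2) ++ x :: y :: B).length = A1.length + A2.length + B.length + 3 := by
    simp only [List.length_append, List.length_cons]; omega
  have hA2l : 1 ≤ A2.length := by
    cases A2 with
    | nil => exact absurd rfl hA2
    | cons a t => simp
  have hcard := critA_card ((A1 ++ p :: A2) ++ x :: y :: B) w
  obtain ⟨L, hL1, hL2, hL3, hL4⟩ := critA_mid h.hn h.fb hgood h.gy hgy
    (insert w ((A1 ++ p :: A2) ++ x :: y :: B).toFinset) (by omega) (A2.length - 1) (by omega)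
  have hL : ∀ z ∈ L, z ≠ w ∧ z ∉ (A1 ++ p :: A2) ++ x :: y :: B := by
    intro z hz
    have := (hL3 z hz).1
    rw [Finset.mem_insert, List.mem_toFinset, not_or] at this
    exact this
  have hw' := hw
  have hg' := hg
  simp only [List.mem_append, List.mem_cons, not_or] at hw' hg'
  refine h.repl (M := w :: g :: L) ?_ ?_ ?_ ?_ ?_
  · simp only [List.length_cons]; omega
  · simp only [List.cons_append, List.isChain_cons_cons]
    refine ⟨hpw, hwg, ?_⟩
    simpa using hL4
  · simp only [List.nodup_cons, List.mem_cons, not_or]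
    exact ⟨⟨hwg.ne, fun hw => (hL _ hw).1 rfl⟩, fun hg => (hL3 _ hg).2.1 rfl, hL2⟩
  · intro z hz
    rcases List.mem_cons.1 hz with rfl | hz
    · exact ⟨hw'.1.1, hw'.1.2.1, hw'.2.2.1, hw'.2.2.2⟩
    rcases List.mem_cons.1 hz with rfl | hz
    · exact ⟨hg'.1.1, hg'.1.2.1, hg'.2.2.1, hg'.2.2.2⟩
    · have := (hL z hz).2
      simp only [List.mem_append, List.mem_cons, not_or] at this
      exact ⟨this.1.1, this.1.2.1, this.2.2.1, this.2.2.2⟩
  · intro _
    apply not_consIn_of_not_mem
    intro hx
    have hn := h.nodup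
    simp only [List.nodup_append, List.nodup_cons, List.mem_append, List.mem_cons,
      not_or] at hn hx
    rcases hx with hx | rfl | (rfl | rfl | hx) | rfl | hx
    · exact hn.2.2 x (Or.inl hx) x (Or.inl rfl) rfl
    · exact hn.2.2 x (Or.inr (Or.inl rfl)) x (Or.inl rfl) rfl
    · exact hw'.2.1 rfl
    · exact hg'.2.1 rfl
    · exact absurd (hL x hx).2 (by simp)
    · exact hn.2.1.1.1 rfl
    · exact hn.2.1.1.2 hx

/-- A good vertex adjacent to `x` and `y`, outside the path. -/
theorem CH.common [Fintype V] {G : SimpleGraph V} {x y : V} {A B : List V}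
    (h : CH G x y A B) :
    ∃ g, g ∉ A ++ x :: y :: B ∧ Good G g ∧ G.Adj x g ∧ G.Adj g y := by
  have hlen := h.len
  have hcard := (A ++ x :: y :: B).toFinset_card_le
  obtain ⟨g, h1, h2, h3, h4⟩ := exists_good_common h.hn h.fb h.gx h.gy
    (A ++ x :: y :: B).toFinset (by omega)
  exact ⟨g, by rwa [List.mem_toFinset] at h1, h2, h3, h4⟩

/-- `left1` with `g` good in place of a `y`-useful vertex. -/
theorem CH.left1' [Fintype V] {G : SimpleGraph V} {x y p w : V} {A1 A2 B : List V}
    (h : CH G x y (A1 ++ p :: A2) B) (hA2 : A2 ≠ [])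
    (hw : w ∉ (A1 ++ p :: A2) ++ x :: y :: B)
    (hpw : G.Adj p w) (hgood : Good G w) : False := by
  have hlen := h.len
  have hcard := ((A1 ++ p :: A2) ++ x :: y :: B).toFinset_card_le
  obtain ⟨g, h1, h2, h3, h4⟩ := exists_good_common h.hn h.fb hgood h.gy
    ((A1 ++ p :: A2) ++ x :: y :: B).toFinset (by omega)
  rw [List.mem_toFinset] at h1
  exact h.left1 hA2 hw h1 hpw h3 h2 h4

/-- A vertex of `A` has no good neighbour outside the path which is adjacent to `y`. -/
theorem CH.left0 [Fintype V] {G : SimpleGraph V} {x y q g : V} {A B : List V}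
    (h : CH G x y A B) (hq : q ∈ A) (hg : g ∉ A ++ x :: y :: B)
    (hqg : G.Adj q g) (hgood : Good G g) (hgy : G.Adj g y) : False := by
  obtain ⟨s, t, rfl⟩ := List.append_of_mem hq
  by_cases ht : t = []
  · subst ht
    have hn := h.nodup
    simp only [List.nodup_append, List.nodup_cons, List.mem_append, List.mem_cons,
      List.not_mem_nil, or_false, not_or] at hn hg
    refine h.repl (M := [g]) rfl ?_ (by simp) ?_ ?_
    · simp [hqg, hgy]
    · intro z hz
      rw [List.mem_singleton] at hz
      subst hz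
      exact ⟨hg.1.1, hg.1.2, hg.2.2.1, hg.2.2.2⟩
    · intro _
      apply not_consIn_of_not_mem
      simp only [List.mem_append, List.mem_cons, List.cons_append, List.nil_append, not_or]
      exact ⟨fun hx => hn.2.2 x (Or.inl hx) x (Or.inl rfl) rfl,
        fun hx => hn.2.2 q (Or.inr rfl) x (Or.inl rfl) hx.symm,
        fun hx => hg.2.1 hx.symm, hn.2.1.1.1, hn.2.1.1.2⟩
  · exact h.left1' ht hg hqg hgood

theorem CH.left2 [Fintype V] {G : SimpleGraph V} {x y p : V} {A1 A2 B : List V}
    (h : CH G x y (A1 ++ p :: A2) B) (hA2 : A2 ≠ []) : ¬ G.Adj p x ∧ G.Adj p y := by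
  have hn := h.nodup
  have hlen := h.len
  have hl1 : ((A1 ++ p :: A2) ++ x :: y :: B).length = A1.length + A2.length + B.length + 3 := by
    simp only [List.length_append, List.length_cons]; omega
  have hA2l : 1 ≤ A2.length := by
    cases A2 with
    | nil => exact absurd rfl hA2
    | cons a t => simp
  have hpx : ¬ G.Adj p x := by
    intro hpx
    have hcard := ((A1 ++ p :: A2) ++ x :: y :: B).toFinset_card_le
    obtain ⟨L, hL1, hL2, hL3, hL4⟩ := connect h.hn h.fb h.gx h.gy
      ((A1 ++ p :: A2) ++ x :: y :: B).toFinset (by omega) A2.length hA2l (by omega)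
    have hL : ∀ z ∈ L, z ∉ (A1 ++ p :: A2) ++ x :: y :: B := by
      intro z hz
      have := (hL3 z hz).1
      rwa [List.mem_toFinset] at this
    have hLne : L ≠ [] := by
      rintro rfl
      simp at hL1
      omega
    refine h.repl (M := x :: L) ?_ ?_ ?_ ?_ ?_
    · simp only [List.length_cons]; omega
    · simp only [List.cons_append, List.isChain_cons_cons]
      exact ⟨hpx, by simpa using hL4⟩
    · simp only [List.nodup_cons]
      exact ⟨fun hx => (hL3 _ hx).2.1 rfl, hL2⟩
    · intro z hz
      simp only [List.nodup_append, List.nodup_cons, List.mem_append, List.mem_cons,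
        not_or] at hn
      rcases List.mem_cons.1 hz with rfl | hz
      · refine ⟨fun hx => hn.2.2 _ (Or.inl hx) _ (Or.inl rfl) rfl,
          fun hx => hn.2.2 _ (Or.inr (Or.inl rfl)) _ (Or.inl rfl) hx.symm,
          hn.2.1.1.1, hn.2.1.1.2⟩
      · have := hL z hz
        simp only [List.mem_append, List.mem_cons, not_or] at this
        exact ⟨this.1.1, this.1.2.1, this.2.2.1, this.2.2.2⟩
    · intro hnd
      obtain ⟨a, L', rfl⟩ := List.exists_cons_of_ne_nil hLne
      have e : A1 ++ p :: ((x :: a :: L') ++ y :: B) =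
          (A1 ++ [p]) ++ x :: a :: (L' ++ y :: B) := by simp
      rw [e] at hnd ⊢
      have haP := hL a (by simp)
      simp only [List.mem_append, List.mem_cons, not_or] at haP
      apply not_consIn_append hnd haP.2.2.1
      rw [List.getLast?_append]
      simp only [List.getLast?_singleton, Option.some_or, ne_eq, Option.some.injEq]
      rintro rfl
      simp only [List.nodup_append, List.nodup_cons, List.mem_append, List.mem_cons,
        not_or] at hn
      exact hn.2.2 _ (Or.inr (Or.inl rfl)) _ (Or.inr (Or.inl rfl)) rfl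
  refine ⟨hpx, ?_⟩
  obtain ⟨g, hg, hgood, hxg, hgy⟩ := h.common
  have hpg : p ≠ g := by
    rintro rfl
    exact hg (by simp)
  obtain ⟨q, hpq, hqg⟩ := h.h3 p g hpg
  by_cases hq : q ∈ (A1 ++ p :: A2) ++ x :: y :: B
  · rw [List.mem_append, List.mem_cons, List.mem_cons] at hq
    rcases hq with hq | rfl | rfl | hq
    · exact (h.left0 hq hg hqg hgood hgy).elim
    · exact absurd hpq hpx
    · exact hpq
    · refine (h.mirror.left0 (q := q) (g := g) (List.mem_reverse.2 hq) ?_ hqg hgood
        hxg.symm).elim
      intro hg'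
      apply hg
      simp only [List.mem_append, List.mem_cons, List.mem_reverse] at hg' ⊢
      tauto
  · exact (h.left1 hA2 hq hg hpq hqg hgood hgy).elim

/-- `p` is bad. -/
theorem CH.left3 [Fintype V] {G : SimpleGraph V} {x y p : V} {A1 A2 B : List V}
    (h : CH G x y (A1 ++ p :: A2) B) (hA2 : A2 ≠ []) : ¬ Good G p := by
  intro hp
  have hlen := h.len
  have hcard := ((A1 ++ p :: A2) ++ x :: y :: B).toFinset_card_le
  obtain ⟨g, h1, h2, h3, h4⟩ := exists_good_common h.hn h.fb hp h.gy
    ((A1 ++ p :: A2) ++ x :: y :: B).toFinset (by omega)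
  rw [List.mem_toFinset] at h1
  exact h.left1' hA2 h1 h3 h2

end Pool.Agent.Lib.MP_0f64c5_co
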