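import Pool.Agent.Lib.MP_0f64c5_co.CritA

/-!
# Module CRITB: the four cases

`O` = complement of the path. All contradictions come from `CH.no`; connecting lists from `connect`,
common neighbours from `exists_good_common` (outside the path and at most 8 more vertices).
`both`: let `p` be the first vertex of `A`, `q` the last of `B`; `p ~ y` (`left2`), `q ~ x` (mirror
image); `[p, y] ++ L ++ [x, q]` with `L` of length `i - 4` from `connect` (from `y` to `x`).
`nil`: `B = []`, suppose `|A| >= 3`; `u` = first vertex of `A`, `a` = last of `A`. `p3` for the pair `u, x`: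
`q` with `u ~ q ~ x`, `q <> y` (the edge `yx` is removed). `q` in `O`: `u :: q :: x :: L ++ [y]`, `L` of length
`i - 4 = |A| - 2 >= 1` outside the path and `q`: contradiction. `q` in the path: by `left2` all vertices
of `A` except `a` are not adjacent to `x`, so `q = a`, and then `u :: a :: x :: L ++ [y]`, `L` of length
`i - 4`: contradiction.
`single`: `B = [v]`; `A = A0 ++ [p, a]`, `p ~ y` by `left2`.
(a) `v` has no neighbour `w` in `O` which has a neighbour `g` in `O` with `g ~ y`: `A0 ++ [p, y, g, w, v]`; so
`v` is bad (a good `w` in `O` has such a `g`, so all neighbours of `v` are bad or in the path); the first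
vertex of `A` is bad by `left3`. (b) `v` is not adjacent to `x`: `A0 ++ [p, y, g, x, v]`, `g` a common
neighbour of `x, y` in `O`. (c) `p3` for `v, x`: `q <> y`, `x ~ q ~ v`: `q` in `O` is impossible
(`A ++ [x, q, v]`), so `q` is in the path, so `q = a` by `left2` and (b). (d) If `|A| >= 3`,
`A = A0 ++ [p', p, a]`: `A0 ++ [p', y, g, x, a, v]` is a contradiction (`p' ~ y` by `left2`).
`mid`: a common neighbour `q` of `u` and `y` other than `x, v` gives `[u, q, y, v]`: so
`|N(u) cap N(y)| <= 2` and `u` is bad; the same for `v` and `x` (mirror).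
-/

set_option autoImplicit false

namespace Pool.Agent.Lib.MP_0f64c5_co

open Classical

variable {V : Type*}

theorem CH.both [Fintype V] {G : SimpleGraph V} {x y : V} {A B : List V}
    (h : CH G x y A B) (hA : 2 ≤ A.length) (hB : 2 ≤ B.length) : False := by
  obtain ⟨p, A', rfl⟩ : ∃ p A', A = p :: A' := by
    cases A with
    | nil => simp at hA
    | cons p A' => exact ⟨p, A', rfl⟩
  obtain ⟨B', q, rfl⟩ : ∃ B' q, B = B' ++ [q] := by
    rcases List.eq_nil_or_concat B with rfl | ⟨B', q, rfl⟩
    · simp at hB
    · exact ⟨B', q, by simp⟩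
  have hA' : A' ≠ [] := by
    rintro rfl
    simp at hA
  have hB' : B'.reverse ≠ [] := by
    intro h0
    rw [List.reverse_eq_nil_iff] at h0
    subst h0
    simp at hB
  have h1 := (h.left2 (A1 := []) (p := p) (A2 := A') hA').2
  have hm := h.mirror
  have e : (B' ++ [q]).reverse = [] ++ q :: B'.reverse := by simp
  rw [e] at hm
  have h2 := (hm.left2 hB').2
  have hlen := h.len
  have hcard := ((p :: A') ++ x :: y :: (B' ++ [q])).toFinset_card_le
  have hl1 : ((p :: A') ++ x :: y :: (B' ++ [q])).length = A'.length + B'.length + 4 := by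
    simp only [List.length_append, List.length_cons, List.length_nil]; omega
  have hA1 : 1 ≤ A'.length := by
    simp only [List.length_cons] at hA
    omega
  obtain ⟨L, hL1, hL2, hL3, hL4⟩ := connect h.hn h.fb h.gy h.gx
    ((p :: A') ++ x :: y :: (B' ++ [q])).toFinset (by omega) (A'.length + B'.length) (by omega)
    (by omega)
  have hL : ∀ z ∈ L, z ∉ (p :: A') ++ x :: y :: (B' ++ [q]) := by
    intro z hz
    have := (hL3 z hz).1
    rwa [List.mem_toFinset] at this
  have hn := h.nodup
  simp only [List.cons_append, List.nodup_cons, List.mem_append, List.mem_cons, List.nodup_append,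
    not_or, List.not_mem_nil, or_false] at hn hL
  have hnd : ((p :: y :: L) ++ x :: q :: []).Nodup := by
    simp only [List.cons_append, List.nodup_cons, List.mem_append, List.mem_cons,
      List.nodup_append, not_or, List.not_mem_nil, or_false, List.nodup_nil, and_true,
      not_false_eq_true]
    refine ⟨⟨hn.1.2.2.1, ?_, hn.1.2.1, hn.1.2.2.2.2⟩, ⟨?_, ?_, ?_⟩, hL2, ?_, ?_⟩
    · intro hp; exact (hL p hp).1 rfl
    · intro hy; exact (hL y hy).2.2.2.1 rfl
    · exact fun hyx => hn.2.2.1.1.1 hyx.symm
    · exact hn.2.2.1.2.1.2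
    · exact hn.2.2.1.1.2.2
    · intro a ha b hb
      rcases hb with rfl | rfl
      · exact (hL a ha).2.2.1
      · exact (hL a ha).2.2.2.2.2
  have hc := h.no ((p :: y :: L) ++ x :: q :: []) ?_ hnd ?_ ?_ ?_
  · refine not_consIn_append hnd ?_ ?_ hc
    · exact fun hqy => hn.2.2.1.2.1.2 hqy.symm
    · have hLne : L ≠ [] := by
        rintro rfl
        simp at hL1
        omega
      rw [List.getLast?_cons_cons, List.getLast?_cons, List.getLast?_eq_some_getLast hLne]
      simp only [Option.getD_some, ne_eq, Option.some.injEq]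
      intro hy
      exact (hL (L.getLast hLne) (List.getLast_mem hLne)).2.2.2.1 hy
  · have e2 : (p :: y :: L) ++ x :: q :: [] = p :: ((y :: L) ++ x :: [q]) := by simp
    rw [e2, List.cons_append, List.isChain_cons_cons]
    refine ⟨h1, ?_⟩
    have e3 : y :: (L ++ x :: [q]) = (y :: L) ++ x :: [q] := by simp
    rw [e3, List.isChain_split]
    refine ⟨by simpa using hL4, ?_⟩
    simp only [List.isChain_cons_cons, List.isChain_singleton, and_true]
    exact h2.symm
  · simp
  · simp [List.getLast?_append, List.getLast?_cons]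
  · simp only [List.length_append, List.length_cons, List.length_nil]
    omega

theorem CH.nil [Fintype V] {G : SimpleGraph V} {x y : V} {A : List V}
    (h : CH G x y A []) (hA : 2 ≤ A.length) : A.length = 2 := by
  by_contra hne
  obtain ⟨u, A', rfl⟩ : ∃ p A', A = p :: A' := by
    cases A with
    | nil => simp at hA
    | cons p A' => exact ⟨p, A', rfl⟩
  have hn := h.nodup
  have hux : u ≠ x := by
    rintro rfl
    simp at hn
  have huy : u ≠ y := by
    rintro rfl
    simp at hn
  have hxy := h.xy.ne
  obtain ⟨q, h1, h2⟩ := h.p3 u x hux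
  rw [SimpleGraph.deleteEdges_adj] at h1 h2
  have hqy : q ≠ y := by
    rintro rfl
    exact h2.2 (by rw [Set.mem_singleton_iff, Sym2.eq_swap])
  have hqu : q ≠ u := h1.1.ne'
  have hqx : q ≠ x := h2.1.ne
  have hlen := h.len
  have hcard := critA_card ((u :: A') ++ x :: y :: []) q
  have hl1 : ((u :: A') ++ x :: y :: []).length = A'.length + 3 := by
    simp only [List.length_append, List.length_cons, List.length_nil]
  simp only [List.length_cons] at hA hne
  obtain ⟨L, hL1, hL2, hL3, hL4⟩ := connect h.hn h.fb h.gx h.gy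
    (insert q ((u :: A') ++ x :: y :: []).toFinset) (by omega) (A'.length - 1) (by omega)
    (by omega)
  have hL : ∀ z ∈ L, z ≠ q ∧ z ∉ (u :: A') ++ x :: y :: [] := by
    intro z hz
    have := (hL3 z hz).1
    rw [Finset.mem_insert, List.mem_toFinset, not_or] at this
    exact this
  simp only [List.cons_append, List.mem_append, List.mem_cons,
    not_or, List.not_mem_nil, or_false] at hL
  obtain ⟨b, L', rfl⟩ : ∃ p A', L = p :: A' := by
    cases L with
    | nil => simp at hL1; omega
    | cons p A' => exact ⟨p, A', rfl⟩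
  have hnd : ([u, q] ++ x :: b :: (L' ++ [y])).Nodup := by
    have e : [u, q] ++ x :: b :: (L' ++ [y]) = u :: q :: x :: ((b :: L') ++ [y]) := by simp
    rw [e]
    rw [List.nodup_cons, List.nodup_cons, List.nodup_cons, List.nodup_append]
    refine ⟨?_, ?_, ?_, hL2, List.nodup_singleton _, ?_⟩
    · rw [List.mem_cons, List.mem_cons, List.mem_append, List.mem_singleton]
      rintro (h0 | h0 | h0 | h0)
      · exact hqu h0.symm
      · exact hux h0
      · exact (hL u h0).2.1 rfl
      · exact huy h0
    · rw [List.mem_cons, List.mem_append, List.mem_singleton]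
      rintro (h0 | h0 | h0)
      · exact hqx h0
      · exact (hL q h0).1 rfl
      · exact hqy h0
    · rw [List.mem_append, List.mem_singleton]
      rintro (h0 | h0)
      · exact (hL x h0).2.2.2.1 rfl
      · exact hxy h0
    · intro a ha c hc
      rw [List.mem_singleton] at hc
      subst hc
      exact (hL a ha).2.2.2.2
  have hc := h.no ([u, q] ++ x :: b :: (L' ++ [y])) ?_ hnd ?_ ?_ ?_
  · refine not_consIn_append hnd ?_ ?_ hc
    · exact (hL b (by simp)).2.2.2.2
    · simpa using hqy
  · have e : [u, q] ++ x :: b :: (L' ++ [y]) = u :: q :: (x :: ((b :: L') ++ [y])) := by simp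
    rw [e, List.isChain_cons_cons, List.isChain_cons_cons]
    exact ⟨h1.1, h2.1, hL4⟩
  · simp
  · simp [List.getLast?_append, List.getLast?_cons]
  · simp only [List.length_append, List.length_cons, List.length_nil] at hL1 ⊢
    omega

/-- The last step of a path in `A`: the rest of the list after `A0 ++ [p]` is replaced. -/
theorem critB_repl [Fintype V] {G : SimpleGraph V} {x y p : V} {A0 A2 B M : List V}
    (h : CH G x y (A0 ++ p :: A2) B) (hM : (p :: M).IsChain G.Adj) (hMn : M.Nodup)
    (hMd : ∀ w ∈ M, w ∉ A0 ∧ w ≠ p) (hlast : M.getLast? = (x :: y :: B).getLast?)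
    (hlen : M.length = A2.length + B.length + 2) : ConsIn x y (A0 ++ p :: M) := by
  have hn := h.nodup
  have hc := h.chain
  refine h.no _ ?_ ?_ ?_ ?_ ?_
  · rw [List.isChain_split]
    refine ⟨?_, hM⟩
    have : ((A0 ++ [p]) ++ (A2 ++ x :: y :: B)).IsChain G.Adj := by simpa using hc
    exact this.left_of_append
  · have hn' : ((A0 ++ [p]) ++ (A2 ++ x :: y :: B)).Nodup := by simpa using hn
    rw [List.nodup_append] at hn'
    have h1 := hn'.1
    have e : A0 ++ p :: M = (A0 ++ [p]) ++ M := by simp
    rw [e, List.nodup_append]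
    refine ⟨h1, hMn, ?_⟩
    intro a ha b hb
    rintro rfl
    rw [List.mem_append, List.mem_singleton] at ha
    rcases ha with ha | ha
    · exact (hMd a hb).1 ha
    · exact (hMd a hb).2 ha
  · cases A0 <;> simp
  · have hMne : M ≠ [] := by
      rintro rfl
      simp at hlen
    have e : A0 ++ p :: M = (A0 ++ [p]) ++ M := by simp
    rw [e, List.getLast?_append, hlast, List.getLast?_append]
    simp [List.getLast?_cons]
  · simp only [List.length_append, List.length_cons]
    omega

theorem CH.single [Fintype V] {G : SimpleGraph V} {x y v : V} {A : List V}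
    (h : CH G x y A [v]) (hA : 2 ≤ A.length) :
    A.length = 2 ∧ ¬ Good G v ∧ ∀ u, A.head? = some u → ¬ Good G u := by
  have hn := h.nodup
  have hxy := h.xy.ne
  have hxv : x ≠ v := by
    rintro rfl
    simp [List.nodup_append] at hn
  have hyv : y ≠ v := by
    rintro rfl
    simp [List.nodup_append] at hn
  have hAx : ∀ w ∈ A, w ≠ x ∧ w ≠ y ∧ w ≠ v := by
    intro w hw
    rw [List.nodup_append] at hn
    exact ⟨hn.2.2 w hw x (by simp), hn.2.2 w hw y (by simp), hn.2.2 w hw v (by simp)⟩
  obtain ⟨g, hg, hgood, hxg, hgy⟩ := h.common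
  simp only [List.mem_append, List.mem_cons, not_or, List.not_mem_nil, or_false] at hg
  have hlen := h.len
  have hcard := (A ++ x :: y :: [v]).toFinset_card_le
  -- the last two vertices of `A`
  obtain ⟨A0, p, a, hAe⟩ : ∃ A0 p a, A = A0 ++ p :: [a] := by
    rcases List.eq_nil_or_concat A with rfl | ⟨A1, a, rfl⟩
    · simp at hA
    · rcases List.eq_nil_or_concat A1 with rfl | ⟨A0, p, rfl⟩
      · simp at hA
      · exact ⟨A0, p, a, by simp⟩
  have hp := (((hAe ▸ h : CH G x y (A0 ++ p :: [a]) [v])).left2 (by simp)).2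
  have hA0 : ∀ w, w ∈ A0 ∨ w = p → w ∈ A := by
    intro w hw
    rw [hAe]
    rcases hw with hw | hw <;> simp [hw]
  have hnA : A.Nodup := (List.nodup_append.1 hn).1
  have haA : a ∈ A := by rw [hAe]; simp
  have hpA : p ∈ A := by rw [hAe]; simp
  have hlA : A.length = A0.length + 2 := by rw [hAe]; simp
  -- the vertex `v` is bad
  have hbadv : ¬ Good G v := by
    intro hv
    obtain ⟨w, hw1, hw2, hw3, hw4⟩ := exists_good_common h.hn h.fb hv h.gy
      (A ++ x :: y :: [v]).toFinset (by omega)
    have hcard2 := critA_card (A ++ x :: y :: [v]) w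
    obtain ⟨g', hg1, hg2, hg3, hg4⟩ := exists_good_common h.hn h.fb hw2 h.gy
      (insert w (A ++ x :: y :: [v]).toFinset) (by omega)
    rw [List.mem_toFinset] at hw1
    rw [Finset.mem_insert, List.mem_toFinset, not_or] at hg1
    simp only [List.mem_append, List.mem_cons, not_or, List.not_mem_nil, or_false] at hw1 hg1
    have hc := critB_repl (M := [y, g', w, v]) (hAe ▸ h : CH G x y (A0 ++ p :: [a]) [v])
      (by simp only [List.isChain_cons_cons, List.isChain_singleton, and_true]
          exact ⟨hp, hg4.symm, hg3.symm, hw3.symm⟩)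
      (by
        simp only [List.nodup_cons, List.mem_cons, List.not_mem_nil, or_false, not_or,
          List.nodup_nil, and_true, not_false_eq_true]
        exact ⟨⟨hg4.ne', fun h0 => hw1.2.2.1 h0.symm, hyv⟩, ⟨hg1.1, hg1.2.2.2.2⟩, hw3.ne'⟩)
      (by
        intro z hz
        have hzA : z ∉ A := by
          simp only [List.mem_cons, List.not_mem_nil, or_false] at hz
          rcases hz with rfl | rfl | rfl | rfl
          · exact fun h0 => (hAx _ h0).2.1 rfl
          · exact hg1.2.1
          · exact hw1.1
          · exact fun h0 => (hAx _ h0).2.2 rfl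
        exact ⟨fun h0 => hzA (hA0 z (Or.inl h0)), fun h0 => hzA (hA0 z (Or.inr h0))⟩)
      (by simp) (by simp)
    refine not_consIn_of_not_mem ?_ hc
    simp only [List.mem_append, List.mem_cons, List.not_mem_nil, or_false, not_or]
    exact ⟨fun h0 => (hAx x (hA0 x (Or.inl h0))).1 rfl, fun h0 => (hAx x (hA0 x (Or.inr h0))).1 rfl,
      hxy, fun h0 => hg1.2.2.1 h0.symm, fun h0 => hw1.2.1 h0.symm, hxv⟩
  -- `v` is not adjacent to `x`
  have hvx : ¬ G.Adj v x := by
    intro hvx
    have hc := critB_repl (M := [y, g, x, v]) (hAe ▸ h : CH G x y (A0 ++ p :: [a]) [v])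
      (by simp only [List.isChain_cons_cons, List.isChain_singleton, and_true]
          exact ⟨hp, hgy.symm, hxg.symm, hvx.symm⟩)
      (by
        simp only [List.nodup_cons, List.mem_cons, List.not_mem_nil, or_false, not_or,
          List.nodup_nil, and_true, not_false_eq_true]
        exact ⟨⟨hgy.ne', fun h0 => hxy h0.symm, hyv⟩, ⟨hxg.ne', hg.2.2.2⟩, hxv⟩)
      (by
        intro z hz
        have hzA : z ∉ A := by
          simp only [List.mem_cons, List.not_mem_nil, or_false] at hz
          rcases hz with rfl | rfl | rfl | rfl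
          · exact fun h0 => (hAx _ h0).2.1 rfl
          · exact hg.1
          · exact fun h0 => (hAx _ h0).1 rfl
          · exact fun h0 => (hAx _ h0).2.2 rfl
        exact ⟨fun h0 => hzA (hA0 z (Or.inl h0)), fun h0 => hzA (hA0 z (Or.inr h0))⟩)
      (by simp) (by simp)
    have e : A0 ++ p :: [y, g, x, v] = (A0 ++ [p, y, g]) ++ x :: v :: [] := by simp
    rw [e] at hc
    refine not_consIn_append ?_ ?_ ?_ hc
    · have hA0n : (A0 ++ [p]).Nodup := by
        rw [hAe] at hnA
        have : ((A0 ++ [p]) ++ [a]).Nodup := by simpa using hnA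
        exact (List.nodup_append.1 this).1
      have e2 : (A0 ++ [p, y, g]) ++ x :: v :: [] = (A0 ++ [p]) ++ [y, g, x, v] := by simp
      rw [e2, List.nodup_append]
      refine ⟨hA0n, ?_, ?_⟩
      · simp only [List.nodup_cons, List.mem_cons, List.not_mem_nil, or_false, not_or,
          List.nodup_nil, and_true, not_false_eq_true]
        exact ⟨⟨hgy.ne', fun h0 => hxy h0.symm, hyv⟩, ⟨hxg.ne', hg.2.2.2⟩, hxv⟩
      · intro z hz w hw
        rw [List.mem_append, List.mem_singleton] at hz
        have hz' := hA0 z hz
        simp only [List.mem_cons, List.not_mem_nil, or_false] at hw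
        rcases hw with rfl | rfl | rfl | rfl
        · exact (hAx z hz').2.1
        · rintro rfl; exact hg.1 hz'
        · exact (hAx z hz').1
        · exact (hAx z hz').2.2
    · exact fun h0 => hyv h0.symm
    · have : (A0 ++ [p, y, g]).getLast? = some g := by simp
      rw [this, ne_eq, Option.some.injEq]
      exact hgy.ne
  -- `a ~ v` and `a ~ x`
  obtain ⟨q, h1, h2⟩ := h.p3 v x (fun h0 => hxv h0.symm)
  rw [SimpleGraph.deleteEdges_adj] at h1 h2
  have hqy : q ≠ y := by
    rintro rfl
    exact h2.2 (by rw [Set.mem_singleton_iff, Sym2.eq_swap])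
  have hqA : q ∈ A := by
    by_contra hqA
    have hc := h.no (A ++ x :: [q, v]) ?_ ?_ ?_ ?_ ?_
    · rw [consIn_comm] at hc
      refine not_consIn_of_not_mem ?_ hc
      simp only [List.mem_append, List.mem_cons, List.not_mem_nil, or_false, not_or]
      exact ⟨fun h0 => (hAx y h0).2.1 rfl, fun h0 => hxy h0.symm, fun h0 => hqy h0.symm, hyv⟩
    · have hc0 := h.chain
      rw [List.isChain_split] at hc0 ⊢
      refine ⟨hc0.1, ?_⟩
      simp only [List.isChain_cons_cons, List.isChain_singleton, and_true]
      exact ⟨h2.1.symm, h1.1.symm⟩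
    · rw [List.nodup_append]
      refine ⟨hnA, ?_, ?_⟩
      · simp only [List.nodup_cons, List.mem_cons, List.not_mem_nil, or_false, not_or,
          List.nodup_nil, and_true, not_false_eq_true]
        exact ⟨⟨h2.1.ne', hxv⟩, h1.1.ne'⟩
      · intro z hz w hw
        simp only [List.mem_cons, List.not_mem_nil, or_false] at hw
        rcases hw with rfl | rfl | rfl
        · exact (hAx z hz).1
        · rintro rfl; exact hqA hz
        · exact (hAx z hz).2.2
    · cases A <;> simp
    · simp [List.getLast?_append, List.getLast?_cons]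
    · simp
  have hqa : q = a := by
    obtain ⟨s, t, hst⟩ := List.append_of_mem hqA
    by_cases ht : t = []
    · subst ht
      rw [hAe] at hst
      have e1 : A0 ++ p :: [a] = (A0 ++ [p]) ++ [a] := by simp
      rw [e1] at hst
      have := congrArg List.getLast? hst
      simp at this
      exact this.symm
    · exact absurd h2.1 (((hst ▸ h : CH G x y (s ++ q :: t) [v])).left2 ht).1
  subst hqa
  refine ⟨?_, hbadv, ?_⟩
  · by_contra hne
    obtain ⟨A3, p', rfl⟩ : ∃ A3 p', A0 = A3 ++ [p'] := by
      rcases List.eq_nil_or_concat A0 with rfl | ⟨A3, p', rfl⟩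
      · simp at hlA
        omega
      · exact ⟨A3, p', by simp⟩
    have hAe' : A = A3 ++ p' :: [p, q] := by rw [hAe]; simp
    have hp' := (((hAe' ▸ h : CH G x y (A3 ++ p' :: [p, q]) [v])).left2 (by simp)).2
    have hmem : ∀ w, w ∈ A3 ∨ w = p' → w ∈ A ∧ w ≠ q := by
      intro w hw
      rw [hAe'] at hnA ⊢
      simp only [List.nodup_append, List.nodup_cons, List.mem_cons, List.not_mem_nil, or_false,
        not_or] at hnA
      constructor
      · rcases hw with hw | hw <;> simp [hw]
      · rcases hw with hw | rfl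
        · exact hnA.2.2 w hw q (Or.inr (Or.inr rfl))
        · exact hnA.2.1.1.2
    have hnM : [y, g, x, q, v].Nodup := by
      simp only [List.nodup_cons, List.mem_cons, List.not_mem_nil, or_false, not_or,
          List.nodup_nil, and_true, not_false_eq_true]
      exact ⟨⟨hgy.ne', fun h0 => hxy h0.symm, fun h0 => hqy h0.symm, hyv⟩,
        ⟨hxg.ne', fun h0 => hg.1 (h0 ▸ hqA), hg.2.2.2⟩, ⟨h2.1.ne', hxv⟩, h1.1.ne'⟩
    have hdM : ∀ w ∈ [y, g, x, q, v], w ∉ A3 ∧ w ≠ p' := by
      intro z hz
      have hzA : ¬ (z ∈ A ∧ z ≠ q) := by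
        simp only [List.mem_cons, List.not_mem_nil, or_false] at hz
        rcases hz with rfl | rfl | rfl | rfl | rfl
        · exact fun h0 => (hAx _ h0.1).2.1 rfl
        · exact fun h0 => hg.1 h0.1
        · exact fun h0 => (hAx _ h0.1).1 rfl
        · exact fun h0 => h0.2 rfl
        · exact fun h0 => (hAx _ h0.1).2.2 rfl
      exact ⟨fun h0 => hzA (hmem z (Or.inl h0)), fun h0 => hzA (hmem z (Or.inr h0))⟩
    have hc := critB_repl (M := [y, g, x, q, v]) (hAe' ▸ h : CH G x y (A3 ++ p' :: [p, q]) [v])
      (by simp only [List.isChain_cons_cons, List.isChain_singleton, and_true]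
          exact ⟨hp', hgy.symm, hxg.symm, h2.1.symm, h1.1.symm⟩)
      hnM hdM (by simp) (by simp)
    have e : A3 ++ p' :: [y, g, x, q, v] = (A3 ++ [p', y, g]) ++ x :: q :: [v] := by simp
    rw [e] at hc
    refine not_consIn_append ?_ hqy ?_ hc
    · have hA3n : (A3 ++ [p']).Nodup := by
        rw [hAe'] at hnA
        have : ((A3 ++ [p']) ++ [p, q]).Nodup := by simpa using hnA
        exact (List.nodup_append.1 this).1
      have e2 : (A3 ++ [p', y, g]) ++ x :: q :: [v] = (A3 ++ [p']) ++ [y, g, x, q, v] := by simp
      rw [e2, List.nodup_append]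
      refine ⟨hA3n, hnM, ?_⟩
      intro z hz w hw
      rintro rfl
      rw [List.mem_append, List.mem_singleton] at hz
      rcases hz with hz | hz
      · exact (hdM z hw).1 hz
      · exact (hdM z hw).2 hz
    · have : (A3 ++ [p', y, g]).getLast? = some g := by simp
      rw [this, ne_eq, Option.some.injEq]
      exact hgy.ne
  · intro u hu
    obtain ⟨A', rfl⟩ : ∃ A', A = u :: A' := by
      cases A with
      | nil => simp at hu
      | cons b A' =>
        simp only [List.head?_cons, Option.some.injEq] at hu
        exact ⟨A', by rw [hu]⟩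
    refine h.left3 (A1 := []) (p := u) (A2 := A') ?_
    rintro rfl
    simp at hA

theorem CH.mid [Fintype V] {G : SimpleGraph V} {x y u v : V}
    (h : CH G x y [u] [v]) : ¬ Good G u ∧ ¬ Good G v := by
  have hn := h.nodup
  have hlen := h.len
  have hcard := ([u] ++ x :: y :: [v]).toFinset_card_le
  have hc := h.chain
  simp only [List.cons_append, List.nil_append, List.isChain_cons_cons, List.isChain_singleton,
    and_true] at hc
  simp only [List.cons_append, List.nil_append, List.nodup_cons, List.mem_cons,
    List.not_mem_nil, or_false, not_or, List.nodup_nil, and_true, not_false_eq_true] at hn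
  constructor
  · intro hu
    obtain ⟨q, h1, h2, h3, h4⟩ := exists_good_common h.hn h.fb hu h.gy
      ([u] ++ x :: y :: [v]).toFinset (by omega)
    rw [List.mem_toFinset] at h1
    simp only [List.cons_append, List.nil_append, List.mem_cons, List.not_mem_nil, or_false,
      not_or] at h1
    have := h.no [u, q, y, v] (by
        simp only [List.isChain_cons_cons, List.isChain_singleton, and_true]
        exact ⟨h3, h4, hc.2.2⟩) (by
        simp only [List.nodup_cons, List.mem_cons,
          List.not_mem_nil, or_false, not_or, List.nodup_nil, and_true, not_false_eq_true]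
        exact ⟨⟨fun h0 => h1.1 h0.symm, hn.1.2.1, hn.1.2.2⟩, ⟨h1.2.2.1, h1.2.2.2⟩, hn.2.2⟩)
      (by simp) (by simp) (by simp)
    refine not_consIn_of_not_mem ?_ this
    simp only [List.mem_cons, List.not_mem_nil, or_false, not_or]
    exact ⟨fun h0 => hn.1.1 h0.symm, fun h0 => h1.2.1 h0.symm, hn.2.1.1, hn.2.1.2⟩
  · intro hv
    obtain ⟨q, h1, h2, h3, h4⟩ := exists_good_common h.hn h.fb h.gx hv
      ([u] ++ x :: y :: [v]).toFinset (by omega)
    rw [List.mem_toFinset] at h1
    simp only [List.cons_append, List.nil_append, List.mem_cons, List.not_mem_nil, or_false,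
      not_or] at h1
    have := h.no [u, x, q, v] (by
        simp only [List.isChain_cons_cons, List.isChain_singleton, and_true]
        exact ⟨hc.1, h3, h4⟩) (by
        simp only [List.nodup_cons, List.mem_cons,
          List.not_mem_nil, or_false, not_or, List.nodup_nil, and_true, not_false_eq_true]
        exact ⟨⟨hn.1.1, fun h0 => h1.1 h0.symm, hn.1.2.2⟩,
          ⟨fun h0 => h1.2.1 h0.symm, hn.2.1.2⟩, h1.2.2.2⟩)
      (by simp) (by simp) (by simp)
    rw [consIn_comm] at this
    refine not_consIn_of_not_mem ?_ this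
    simp only [List.mem_cons, List.not_mem_nil, or_false, not_or]
    exact ⟨fun h0 => hn.1.2.1 h0.symm, fun h0 => hn.2.1.1 h0.symm, fun h0 => h1.2.2.1 h0.symm,
      hn.2.2⟩

end Pool.Agent.Lib.MP_0f64c5_co
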