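import Pool.Agent.Lib.MP_0f64c5_co.Defs

/-!
# Module PL: connecting good vertices outside a small set

`n = card V >= 1000`; `v` is good if `85 n <= 100 d(v)`; at most `2 n / 15` vertices are bad.
Greedy: a good vertex has at least `0.85 n - 2 n / 15 - |X| - |L| - 2 > 0` good neighbours outside
`X`, the part `L` already built, and `a, c` (`|X|, |L| <= 0.3 n + 10`); the last vertex is a common
neighbour of the last good vertex and `c` outside these sets: at least `0.7 n - |X| - |L| - 2 > 0`.
-/

set_option autoImplicit false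

namespace Pool.Agent.Lib.MP_0f64c5_co

open Classical

variable {V : Type*}

/-- `v` has degree at least `0.85 n`. -/
def Good [Fintype V] (G : SimpleGraph V) (v : V) : Prop :=
  85 * Fintype.card V ≤ 100 * dg G v

/-- At most `2 n / 15` vertices are not good. -/
def FewBad [Fintype V] (G : SimpleGraph V) : Prop :=
  15 * (Finset.univ.filter (fun v => ¬ Good G v)).card ≤ 2 * Fintype.card V

theorem pl_pick [Fintype V] (A B Y : Finset V)
    (h : Fintype.card V + Y.card < A.card + B.card) : ∃ w, w ∈ A ∧ w ∈ B ∧ w ∉ Y := by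
  have h1 := Finset.card_union_add_card_inter A B
  have h2 : (A ∪ B).card ≤ Fintype.card V := Finset.card_le_univ _
  have h3 : Y.card < (A ∩ B).card := by omega
  obtain ⟨w, hw, hy⟩ := Finset.exists_mem_notMem_of_card_lt_card h3
  rw [Finset.mem_inter] at hw
  exact ⟨w, hw.1, hw.2, hy⟩

theorem pl_good_card [Fintype V] {G : SimpleGraph V} (hb : FewBad G) :
    13 * Fintype.card V ≤ 15 * (Finset.univ.filter (fun v => Good G v)).card := by
  have h := Finset.card_filter_add_card_filter_not (s := (Finset.univ : Finset V))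
    (fun v => Good G v)
  rw [Finset.card_univ] at h
  unfold FewBad at hb
  omega

theorem pl_aux [Fintype V] {G : SimpleGraph V} (hn : 1000 ≤ Fintype.card V)
    (hb : FewBad G) {c : V} (hc : Good G c) : ∀ (m : ℕ) (a : V) (Y : Finset V),
    Good G a → a ∈ Y → c ∈ Y → 10 * (Y.card + m) ≤ 6 * Fintype.card V + 230 →
    ∃ L : List V, L.length = m + 1 ∧ L.Nodup ∧ (∀ w ∈ L, w ∉ Y) ∧
      (a :: (L ++ [c])).IsChain G.Adj := by
  have hg := pl_good_card hb
  intro m
  induction m with
  | zero =>
    intro a Y ha haY hcY hY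
    unfold Good dg at ha hc
    obtain ⟨w, h1, h2, h3⟩ := pl_pick (Finset.univ.filter (fun w => G.Adj a w))
      (Finset.univ.filter (fun w => G.Adj c w)) Y (by omega)
    simp only [Finset.mem_filter, Finset.mem_univ, true_and] at h1 h2
    refine ⟨[w], rfl, by simp, by simpa using h3, ?_⟩
    simp [h1, h2.symm]
  | succ m ih =>
    intro a Y ha haY hcY hY
    have ha' := ha
    unfold Good dg at ha'
    obtain ⟨w, h1, h2, h3⟩ := pl_pick (Finset.univ.filter (fun w => G.Adj a w))
      (Finset.univ.filter (fun v => Good G v)) Y (by omega)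
    simp only [Finset.mem_filter, Finset.mem_univ, true_and] at h1 h2
    have hcard := Finset.card_insert_of_notMem h3
    obtain ⟨L, hL1, hL2, hL3, hL4⟩ := ih w (insert w Y) h2 (Finset.mem_insert_self _ _)
      (Finset.mem_insert_of_mem hcY) (by omega)
    refine ⟨w :: L, by simp [hL1], ?_, ?_, ?_⟩
    · rw [List.nodup_cons]
      exact ⟨fun hw => hL3 w hw (Finset.mem_insert_self _ _), hL2⟩
    · intro u hu
      rcases List.mem_cons.1 hu with rfl | hu
      · exact h3
      · exact fun hY => hL3 u hu (Finset.mem_insert_of_mem hY)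
    · rw [List.cons_append, List.isChain_cons_cons]
      exact ⟨h1, hL4⟩

theorem connect [Fintype V] {G : SimpleGraph V} (hn : 1000 ≤ Fintype.card V)
    (hb : FewBad G) {a c : V} (ha : Good G a) (hc : Good G c) (X : Finset V)
    (hX : 10 * X.card ≤ 3 * Fintype.card V + 100) (m : ℕ) (hm : 1 ≤ m)
    (hm2 : 10 * m ≤ 3 * Fintype.card V + 100) :
    ∃ L : List V, L.length = m ∧ L.Nodup ∧ (∀ w ∈ L, w ∉ X ∧ w ≠ a ∧ w ≠ c) ∧
      (a :: (L ++ [c])).IsChain G.Adj := by
  have h1 := Finset.card_insert_le a (insert c X)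
  have h2 := Finset.card_insert_le c X
  obtain ⟨L, hL1, hL2, hL3, hL4⟩ := pl_aux hn hb hc (m - 1) a (insert a (insert c X)) ha
    (by simp) (by simp) (by omega)
  refine ⟨L, by omega, hL2, ?_, hL4⟩
  intro w hw
  have := hL3 w hw
  simp only [Finset.mem_insert, not_or] at this
  exact ⟨this.2.2, this.1, this.2.1⟩

/-- Two good vertices have a good common neighbour outside a small set. -/
theorem exists_good_common [Fintype V] {G : SimpleGraph V} (hn : 1000 ≤ Fintype.card V)
    (hb : FewBad G) {a c : V} (ha : Good G a) (hc : Good G c) (X : Finset V)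
    (hX : 10 * X.card ≤ 3 * Fintype.card V + 100) :
    ∃ g, g ∉ X ∧ Good G g ∧ G.Adj a g ∧ G.Adj g c := by
  have hg := pl_good_card hb
  unfold Good dg at ha hc
  have h1 := Finset.card_union_add_card_inter (Finset.univ.filter (fun w => G.Adj a w))
    (Finset.univ.filter (fun w => G.Adj c w))
  have h2 : ((Finset.univ.filter (fun w => G.Adj a w)) ∪
    (Finset.univ.filter (fun w => G.Adj c w))).card ≤ Fintype.card V := Finset.card_le_univ _
  obtain ⟨w, h3, h4, h5⟩ := pl_pick ((Finset.univ.filter (fun w => G.Adj a w)) ∩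
    (Finset.univ.filter (fun w => G.Adj c w))) (Finset.univ.filter (fun v => Good G v)) X
    (by omega)
  simp only [Finset.mem_inter, Finset.mem_filter, Finset.mem_univ, true_and] at h3 h4
  exact ⟨w, h5, h4, h3.1, h3.2.symm⟩

end Pool.Agent.Lib.MP_0f64c5_co
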