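import Pool.Agent.Lib.MP_0f64c5_co.Cross
import Pool.Agent.Lib.MP_0f64c5_co.PL

/-!
# Critical edges for `P_i`, `i >= 4`: standing hypotheses and the mirror image
-/

set_option autoImplicit false

namespace Pool.Agent.Lib.MP_0f64c5_co

open Classical

variable {V : Type*}

/-- Standing hypotheses: `A ++ x :: y :: B` is a path, `x, y` are good, `G - xy` has `P_3`, and every
path with the same ends and the same number of vertices contains the edge `xy`. -/
structure CH [Fintype V] (G : SimpleGraph V) (x y : V) (A B : List V) : Prop where
  hn : 1000 ≤ Fintype.card V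
  fb : FewBad G
  h3 : ∀ a b, a ≠ b → ∃ w, G.Adj a w ∧ G.Adj w b
  xy : G.Adj x y
  gx : Good G x
  gy : Good G y
  p3 : ∀ a b, a ≠ b → ∃ w, (G.deleteEdges {s(x, y)}).Adj a w ∧ (G.deleteEdges {s(x, y)}).Adj w b
  chain : (A ++ x :: y :: B).IsChain G.Adj
  nodup : (A ++ x :: y :: B).Nodup
  len : 10 * (A ++ x :: y :: B).length ≤ 3 * Fintype.card V + 20
  no : ∀ l : List V, l.IsChain G.Adj → l.Nodup → l.head? = (A ++ x :: y :: B).head? →
    l.getLast? = (A ++ x :: y :: B).getLast? → l.length = (A ++ x :: y :: B).length →
    ConsIn x y l

theorem critDefs_rev (x y : V) (A B : List V) :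
    B.reverse ++ y :: x :: A.reverse = (A ++ x :: y :: B).reverse := by
  simp

theorem critDefs_infix_rev (x y : V) (l : List V) : [x, y] <:+: l.reverse ↔ [y, x] <:+: l := by
  have : [x, y] = [y, x].reverse := rfl
  rw [this, List.reverse_infix]

theorem critDefs_consIn_comm {x y : V} {l : List V} : ConsIn x y l ↔ ConsIn y x l := by
  unfold ConsIn
  exact or_comm

theorem critDefs_consIn_reverse {x y : V} {l : List V} :
    ConsIn x y l.reverse ↔ ConsIn x y l := by
  unfold ConsIn
  rw [critDefs_infix_rev, critDefs_infix_rev]
  exact or_comm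

theorem critDefs_unique {x : V} : ∀ {A A' C C' : List V}, A' ++ x :: C' = A ++ x :: C →
    (A ++ x :: C).Nodup → A' = A ∧ C' = C := by
  intro A
  induction A with
  | nil =>
    intro A' C C' h hn
    cases A' with
    | nil => simpa using h
    | cons a A' =>
      exfalso
      simp only [List.cons_append, List.nil_append, List.cons.injEq] at h
      rw [List.nil_append, List.nodup_cons] at hn
      apply hn.1
      rw [← h.2]
      simp
  | cons b A ih =>
    intro A' C C' h hn
    cases A' with
    | nil =>
      exfalso
      simp only [List.cons_append, List.nil_append, List.cons.injEq] at h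
      rw [List.cons_append, List.nodup_cons] at hn
      apply hn.1
      rw [← h.1]
      simp
    | cons a A' =>
      simp only [List.cons_append, List.cons.injEq] at h
      rw [List.cons_append, List.nodup_cons] at hn
      obtain ⟨h1, h2⟩ := ih h.2 hn.2
      exact ⟨by rw [h.1, h1], h2⟩

/-- Mirror image: reverse the path and exchange `x` and `y`. -/
theorem CH.mirror [Fintype V] {G : SimpleGraph V} {x y : V} {A B : List V}
    (h : CH G x y A B) : CH G y x B.reverse A.reverse := by
  refine ⟨h.hn, h.fb, h.h3, h.xy.symm, h.gy, h.gx, ?_, ?_, ?_, ?_, ?_⟩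
  · rw [Sym2.eq_swap]
    exact h.p3
  · rw [critDefs_rev, List.isChain_reverse]
    exact h.chain.imp (fun _ _ hab => hab.symm)
  · rw [critDefs_rev, List.nodup_reverse]
    exact h.nodup
  · rw [critDefs_rev, List.length_reverse]
    exact h.len
  · intro l h1 h2 h3 h4 h5
    rw [critDefs_rev] at h3 h4 h5
    rw [List.head?_reverse] at h3
    rw [List.getLast?_reverse] at h4
    rw [List.length_reverse] at h5
    have := h.no l.reverse (by
      rw [List.isChain_reverse]
      exact h1.imp (fun _ _ hab => hab.symm)) (List.nodup_reverse.2 h2)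
      (by rw [List.head?_reverse]; exact h4) (by rw [List.getLast?_reverse]; exact h3)
      (by rw [List.length_reverse]; exact h5)
    rw [critDefs_consIn_reverse] at this
    exact critDefs_consIn_comm.1 this

/-- The same hypothesis with `xy` in the other order (the list is read from the other side). -/
theorem consIn_comm {x y : V} {l : List V} : ConsIn x y l ↔ ConsIn y x l :=
  critDefs_consIn_comm

theorem consIn_reverse {x y : V} {l : List V} : ConsIn x y l.reverse ↔ ConsIn x y l :=
  critDefs_consIn_reverse

/-- A list in which `x` does not occur does not contain `xy` consecutively. -/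
theorem not_consIn_of_not_mem {x y : V} {l : List V} (h : x ∉ l) : ¬ ConsIn x y l := by
  rintro (h1 | h1)
  · exact h (h1.subset (by simp))
  · exact h (h1.subset (by simp))

/-- In a list without repetitions, if `x` is followed by `w <> y` and not preceded by `y`
then `xy` are not consecutive. -/
theorem not_consIn_append {x y w : V} {A C : List V} (hn : (A ++ x :: w :: C).Nodup)
    (hwy : w ≠ y) (hA : A.getLast? ≠ some y) : ¬ ConsIn x y (A ++ x :: w :: C) := by
  rintro (⟨s, t, h⟩ | ⟨s, t, h⟩)
  · have h' : s ++ x :: (y :: t) = A ++ x :: (w :: C) := by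
      rw [← h]; simp
    have h2 := critDefs_unique h' hn
    have h3 := h2.2
    simp only [List.cons.injEq] at h3
    exact hwy h3.1.symm
  · have h' : (s ++ [y]) ++ x :: t = A ++ x :: (w :: C) := by
      rw [← h]; simp
    have h2 := critDefs_unique h' hn
    apply hA
    rw [← h2.1]
    simp

end Pool.Agent.Lib.MP_0f64c5_co
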