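import Pool.Agent.Lib.MP_0f64c5_co.Defs

/-!
# Module CROSS: the crossing lemma

`P = A ++ x :: y :: B` a path in `G`. Suppose there is no other path with the same ends and the same
vertices which avoids `x y`. Then: (R) if `B = B1 ++ a :: b :: B2` then not (`x ~ a` and `y ~ b`),
because `A ++ [x] ++ [a] ++ B1.reverse ++ [y] ++ (b :: B2)` is such a path;
(L) if `A = A1 ++ a :: b :: A2` then not (`x ~ a` and `y ~ b`), because
`A1 ++ [a] ++ [x] ++ A2.reverse ++ [b] ++ [y] ++ B` is such a path. By induction on the list:
a list `B` without (R) has `countP (x ~ .) + countP (y ~ .) <= |B| + 1`, the same for `A` with (L).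
The counts in `P` are at most the counts in `A` and `B` plus one each for `y`, `x`:
total `<= |A| + 1 + |B| + 1 + 2 = |P| + 2`.
-/

set_option autoImplicit false

namespace Pool.Agent.Lib.MP_0f64c5_co

open Classical

variable {V : Type*}

theorem cross_count (p q : V → Bool) : ∀ B : List V,
    (∀ B1 a b B2, B = B1 ++ a :: b :: B2 → ¬ (p a = true ∧ q b = true)) →
    B.countP p + B.tail.countP q ≤ B.length := by
  intro B
  induction B with
  | nil => intro _; simp
  | cons a B ih =>
    intro h
    cases B with
    | nil =>
      simp only [List.tail_cons, List.countP_nil, List.length_cons, List.length_nil]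
      have := List.countP_le_length (p := p) (l := [a])
      simpa using this
    | cons b B =>
      have h1 := ih (fun B1 a' b' B2 hB => h (a :: B1) a' b' B2 (by rw [hB]; rfl))
      have h2 := h [] a b B rfl
      simp only [List.tail_cons, List.countP_cons, List.length_cons] at h1 ⊢
      rcases hpa : p a with _ | _ <;> rcases hqb : q b with _ | _ <;>
        simp_all <;> omega

theorem cross_count' (p q : V → Bool) (B : List V)
    (h : ∀ B1 a b B2, B = B1 ++ a :: b :: B2 → ¬ (p a = true ∧ q b = true)) :
    B.countP p + B.countP q ≤ B.length + 1 := by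
  have h1 := cross_count p q B h
  cases B with
  | nil => simp
  | cons a B =>
    simp only [List.tail_cons, List.countP_cons, List.length_cons] at h1 ⊢
    split_ifs at h1 ⊢ <;> omega

theorem cross_mid {R : V → V → Prop} {l s m t : List V} (hc : l.IsChain R)
    (h : s ++ m ++ t = l) : m.IsChain R := by
  subst h
  exact (List.isChain_append.1 (List.isChain_append.1 hc).1).2.1

theorem cross_next {x y : V} {l L1 L2 : List V} (hl : l = L1 ++ x :: L2) (hn : l.Nodup)
    (h : [x, y] <:+: l) : L2.head? = some y := by
  obtain ⟨s, t, hst⟩ := h
  have h1 : L1 ++ x :: L2 = s ++ x :: (y :: t) := by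
    rw [← hl, ← hst]; simp
  have hn1 : (L1 ++ x :: L2).Nodup := by rw [← hl]; exact hn
  rw [List.nodup_append] at hn1
  have ha : x ∉ L1 := fun hx => hn1.2.2 x hx x (by simp) rfl
  have hb : x ∉ L2 := by
    have := hn1.2.1
    rw [List.nodup_cons] at this
    exact this.1
  rw [List.append_cons_inj_of_notMem ha hb] at h1
  rw [h1.2.2]; rfl

theorem cross {G : SimpleGraph V} {A B : List V} {x y : V}
    (hc : (A ++ x :: y :: B).IsChain G.Adj) (hn : (A ++ x :: y :: B).Nodup)
    (hd : (A ++ x :: y :: B).length + 3 ≤
      (A ++ x :: y :: B).countP (fun w => decide (G.Adj x w)) +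
      (A ++ x :: y :: B).countP (fun w => decide (G.Adj y w))) :
    ∃ l : List V, l.IsChain G.Adj ∧ l.Nodup ∧ l.head? = (A ++ x :: y :: B).head? ∧
      l.getLast? = (A ++ x :: y :: B).getLast? ∧ l.length = (A ++ x :: y :: B).length ∧
      ¬ ConsIn x y l := by
  by_cases hR : ∀ B1 a b B2, B = B1 ++ a :: b :: B2 →
      ¬ (decide (G.Adj x a) = true ∧ decide (G.Adj y b) = true)
  · by_cases hL : ∀ B1 a b B2, A = B1 ++ a :: b :: B2 →
        ¬ (decide (G.Adj x a) = true ∧ decide (G.Adj y b) = true)
    · exfalso
      have h1 := cross_count' _ _ B hR
      have h2 := cross_count' _ _ A hL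
      simp only [List.countP_append, List.countP_cons, List.length_append, List.length_cons,
        decide_eq_true_eq, G.irrefl, if_false] at hd
      split_ifs at hd <;> omega
    · push Not at hL
      obtain ⟨A1, a, b, A2, rfl, hxa, hyb⟩ := hL
      rw [decide_eq_true_eq] at hxa hyb
      have hp : (A1 ++ a :: x :: (A2.reverse ++ b :: y :: B)).Perm
          (A1 ++ a :: b :: A2 ++ x :: y :: B) := by
        rw [List.append_assoc]
        refine List.Perm.append_left _ ?_
        simp only [List.cons_append]
        refine List.Perm.cons _ ?_
        have e1 : (x :: (A2.reverse ++ b :: y :: B)).Perm (x :: (b :: A2) ++ y :: B) := by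
          simp only [List.cons_append]
          refine List.Perm.cons _ ?_
          refine List.perm_middle.trans ?_
          exact List.Perm.cons _ (List.Perm.append_right _ (List.reverse_perm _))
        refine e1.trans ?_
        have e2 : (x :: (b :: A2) ++ y :: B).Perm ((b :: A2) ++ x :: y :: B) := by
          rw [List.cons_append]
          exact List.perm_middle.symm
        exact e2
      have hn' : (A1 ++ a :: x :: (A2.reverse ++ b :: y :: B)).Nodup := hp.nodup_iff.2 hn
      refine ⟨A1 ++ a :: x :: (A2.reverse ++ b :: y :: B), ?_, hn', ?_, ?_, hp.length_eq, ?_⟩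
      · have c1 : (A1 ++ [a]).IsChain G.Adj := by
          refine cross_mid (s := []) (t := b :: A2 ++ x :: y :: B) hc ?_
          simp
        have c2 : (b :: A2 ++ [x]).IsChain G.Adj := by
          refine cross_mid (s := A1 ++ [a]) (t := y :: B) hc ?_
          simp
        have c3 : (y :: B).IsChain G.Adj := by
          refine cross_mid (s := A1 ++ a :: b :: A2 ++ [x]) (t := []) hc ?_
          simp
        have c4 : (x :: (A2.reverse ++ [b])).IsChain G.Adj := by
          have : (x :: (A2.reverse ++ [b])) = (b :: A2 ++ [x]).reverse := by simp
          rw [this, List.isChain_reverse]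
          exact c2.imp (fun _ _ hab => hab.symm)
        have e1 : A1 ++ a :: x :: (A2.reverse ++ b :: y :: B) =
            (A1 ++ [a]) ++ ((x :: (A2.reverse ++ [b])) ++ (y :: B)) := by simp
        rw [e1]
        refine List.isChain_append.2 ⟨c1, List.isChain_append.2 ⟨c4, c3, ?_⟩, ?_⟩
        · intro u hu v hv
          rw [← List.cons_append, List.getLast?_concat] at hu
          simp at hu hv
          subst hu; subst hv
          exact hyb.symm
        · intro u hu v hv
          simp at hu hv
          subst hu; subst hv
          exact hxa.symm
      · simp only [List.append_assoc, List.cons_append, List.head?_append, List.head?_cons]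
      · have e1 : A1 ++ a :: x :: (A2.reverse ++ b :: y :: B) =
            (A1 ++ a :: x :: (A2.reverse ++ [b])) ++ (y :: B) := by simp
        have e2 : A1 ++ a :: b :: A2 ++ x :: y :: B =
            (A1 ++ a :: b :: A2 ++ [x]) ++ (y :: B) := by simp
        rw [e1, e2, List.getLast?_append_of_ne_nil _ (by simp),
          List.getLast?_append_of_ne_nil _ (by simp)]
      · have hyA2 : y ∉ A2 := by
          intro hy
          rw [List.nodup_append] at hn
          exact hn.2.2 y (by simp [hy]) y (by simp) rfl
        have hyb' : y ≠ b := hyb.ne
        have hxB : x ∉ B := by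
          intro hx
          rw [List.nodup_append] at hn
          have := hn.2.1
          simp [hx] at this
        rintro (h | h)
        · have h3 := cross_next (L1 := A1 ++ [a]) (L2 := A2.reverse ++ b :: y :: B)
            (by simp) hn' h
          rw [List.head?_append] at h3
          rcases hA : A2.reverse.head? with _ | c
          · rw [hA] at h3
            simp at h3
            exact hyb' h3.symm
          · rw [hA] at h3
            simp at h3
            subst h3
            have := List.mem_of_head? hA
            rw [List.mem_reverse] at this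
            exact hyA2 this
        · have h3 := cross_next (L1 := A1 ++ a :: x :: (A2.reverse ++ [b])) (L2 := B)
            (by simp) hn' h
          exact hxB (List.mem_of_head? h3)
  · push Not at hR
    obtain ⟨B1, a, b, B2, rfl, hxa, hyb⟩ := hR
    rw [decide_eq_true_eq] at hxa hyb
    have hp : (A ++ x :: a :: (B1.reverse ++ y :: b :: B2)).Perm
        (A ++ x :: y :: (B1 ++ a :: b :: B2)) := by
      refine List.Perm.append_left _ ?_
      refine List.Perm.cons _ ?_
      have e1 : (a :: (B1.reverse ++ y :: b :: B2)).Perm (y :: (a :: (B1 ++ b :: B2))) := by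
        have e2 : (a :: (B1.reverse ++ y :: b :: B2)).Perm (a :: y :: (B1 ++ b :: B2)) := by
          refine List.Perm.cons _ ?_
          refine List.perm_middle.trans ?_
          exact List.Perm.cons _ (List.Perm.append_right _ (List.reverse_perm _))
        exact e2.trans (List.Perm.swap _ _ _)
      refine e1.trans ?_
      refine List.Perm.cons _ ?_
      exact List.perm_middle.symm
    have hn' : (A ++ x :: a :: (B1.reverse ++ y :: b :: B2)).Nodup := hp.nodup_iff.2 hn
    refine ⟨A ++ x :: a :: (B1.reverse ++ y :: b :: B2), ?_, hn', ?_, ?_, hp.length_eq, ?_⟩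
    · have c1 : (A ++ [x]).IsChain G.Adj := by
        refine cross_mid (s := []) (t := y :: (B1 ++ a :: b :: B2)) hc ?_
        simp
      have c2 : (y :: B1 ++ [a]).IsChain G.Adj := by
        refine cross_mid (s := A ++ [x]) (t := b :: B2) hc ?_
        simp
      have c3 : (b :: B2).IsChain G.Adj := by
        refine cross_mid (s := A ++ x :: y :: (B1 ++ [a])) (t := []) hc ?_
        simp
      have c4 : (a :: (B1.reverse ++ [y])).IsChain G.Adj := by
        have : (a :: (B1.reverse ++ [y])) = (y :: B1 ++ [a]).reverse := by simp
        rw [this, List.isChain_reverse]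
        exact c2.imp (fun _ _ hab => hab.symm)
      have e1 : A ++ x :: a :: (B1.reverse ++ y :: b :: B2) =
          (A ++ [x]) ++ ((a :: (B1.reverse ++ [y])) ++ (b :: B2)) := by simp
      rw [e1]
      refine List.isChain_append.2 ⟨c1, List.isChain_append.2 ⟨c4, c3, ?_⟩, ?_⟩
      · intro u hu v hv
        rw [← List.cons_append, List.getLast?_concat] at hu
        simp at hu hv
        subst hu; subst hv
        exact hyb
      · intro u hu v hv
        simp at hu hv
        subst hu; subst hv
        exact hxa
    · simp only [List.head?_append, List.head?_cons]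
    · have e1 : A ++ x :: a :: (B1.reverse ++ y :: b :: B2) =
          (A ++ x :: a :: (B1.reverse ++ [y])) ++ (b :: B2) := by simp
      have e2 : A ++ x :: y :: (B1 ++ a :: b :: B2) =
          (A ++ x :: y :: (B1 ++ [a])) ++ (b :: B2) := by simp
      rw [e1, e2, List.getLast?_append_of_ne_nil _ (by simp),
        List.getLast?_append_of_ne_nil _ (by simp)]
    · have hya : y ≠ a := by
        rintro rfl
        rw [List.nodup_append] at hn
        have := hn.2.1
        simp at this
      have hxb : x ≠ b := by
        rintro rfl
        rw [List.nodup_append] at hn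
        have := hn.2.1
        simp at this
      rintro (h | h)
      · have h3 := cross_next (L1 := A) (L2 := a :: (B1.reverse ++ y :: b :: B2))
          rfl hn' h
        simp at h3
        exact hya h3.symm
      · have h3 := cross_next (L1 := A ++ x :: a :: B1.reverse) (L2 := b :: B2)
          (by simp) hn' h
        simp at h3
        exact hxb h3.symm

end Pool.Agent.Lib.MP_0f64c5_co
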