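import Pool.Agent.Lib.MP_0f64c5_co.Defs

/-!
# Module CYC: Hamiltonian cycles

`homTraceable_of_hamL`: rotate the list. `hamL_mono`: clear.
`cycle_of_edgeMinimal`: let `l` be the list of the Hamiltonian cycle, `m = l.length = card W`,
`f : Fin m -> W`, `f i = l[i]`, a bijection; if `i, j` are consecutive modulo `m` then `f i, f j` are
adjacent. Conversely let `f i, f j` be adjacent and `i, j` not consecutive modulo `m`: then `l` is
still a Hamiltonian cycle of `H - e`, `e = s(f i, f j)`, so `H - e` is homogeneously traceable,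
against edge-minimality. So `f` is an isomorphism from `cycleGraph m` to `H`.
-/

set_option autoImplicit false

namespace Pool.Agent.Lib.MP_0f64c5_co

open Classical

variable {W : Type*}

theorem homTraceable_of_hamL {H : SimpleGraph W} (h : HamL H) : HomTraceable H := by
  obtain ⟨l, h0, h1, h2, h3, a, b, h4, h5, h6⟩ := h
  rw [homTraceable_iff]
  intro v
  obtain ⟨s, t, rfl⟩ := List.append_of_mem (h3 v)
  refine ⟨(v :: t) ++ s, ?_, ?_, by simp, ?_⟩
  · rw [List.isChain_append] at h1 ⊢
    refine ⟨h1.2.1, h1.1, ?_⟩
    intro x hx y hy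
    rw [Option.mem_def] at hx hy
    have e1 : x = b := by
      rw [List.getLast?_append] at h5
      rw [hx] at h5
      simpa using h5
    have e2 : y = a := by
      rw [List.head?_append, hy] at h4
      simpa using h4
    rw [e1, e2]
    exact h6
  · exact (List.perm_append_comm.nodup_iff).1 h2
  · intro w
    have := h3 w
    rw [List.mem_append] at this ⊢
    exact this.symm

theorem hamL_mono {H H' : SimpleGraph W} (hle : H ≤ H') (h : HamL H) : HamL H' := by
  obtain ⟨l, h0, h1, h2, h3, a, b, h4, h5, h6⟩ := h
  exact ⟨l, h0, h1.imp (fun _ _ hab => hle hab), h2, h3, a, b, h4, h5, hle h6⟩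

theorem cyc_consec {m : ℕ} (hm : 3 ≤ m) (i j : Fin m) :
    (SimpleGraph.cycleGraph m).Adj i j ↔
      (i.val + 1 = j.val ∨ j.val + 1 = i.val ∨ (i.val = 0 ∧ j.val + 1 = m) ∨
        (j.val = 0 ∧ i.val + 1 = m)) := by
  rw [SimpleGraph.cycleGraph_adj', Fin.val_sub, Fin.val_sub]
  have hi := i.isLt
  have hj := j.isLt
  constructor
  · rintro (h | h)
    · rcases Nat.lt_or_ge (m - j.val + i.val) m with h' | h'
      · rw [Nat.mod_eq_of_lt h'] at h
        omega
      · rw [Nat.mod_eq_sub_mod h', Nat.mod_eq_of_lt (by omega)] at h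
        omega
    · rcases Nat.lt_or_ge (m - i.val + j.val) m with h' | h'
      · rw [Nat.mod_eq_of_lt h'] at h
        omega
      · rw [Nat.mod_eq_sub_mod h', Nat.mod_eq_of_lt (by omega)] at h
        omega
  · rintro (h | h | h | h)
    · right
      rw [Nat.mod_eq_sub_mod (by omega), Nat.mod_eq_of_lt (by omega)]
      omega
    · left
      rw [Nat.mod_eq_sub_mod (by omega), Nat.mod_eq_of_lt (by omega)]
      omega
    · left
      rw [Nat.mod_eq_of_lt (by omega)]
      omega
    · right
      rw [Nat.mod_eq_of_lt (by omega)]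
      omega

theorem cycle_of_edgeMinimal [Fintype W] {H : SimpleGraph W} (hH : EdgeMinimalHT H)
    (hc : HamL H) : Nonempty (H ≃g SimpleGraph.cycleGraph (Fintype.card W)) := by
  obtain ⟨l, h0, h1, h2, h3, a, b, h4, h5, h6⟩ := hc
  have hcard : l.length = Fintype.card W := by
    rw [← List.toFinset_card_of_nodup h2, ← Finset.card_univ]
    congr 1
    ext w
    simp [h3 w]
  rw [← hcard]
  have hbij : Function.Bijective l.get := by
    constructor
    · exact List.nodup_iff_injective_get.1 h2
    · intro w
      obtain ⟨i, hi⟩ := List.mem_iff_get.1 (h3 w)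
      exact ⟨i, hi⟩
  let e : Fin l.length ≃ W := Equiv.ofBijective l.get hbij
  have he : ∀ i, e i = l.get i := fun i => rfl
  have hpos : 0 < l.length := by omega
  have ha : l.get ⟨0, hpos⟩ = a := by
    have : l.head? = some (l.get ⟨0, hpos⟩) := by
      rw [List.head?_eq_getElem?]
      simp
    rw [this] at h4
    exact Option.some.inj h4
  have hb : l.get ⟨l.length - 1, by omega⟩ = b := by
    have : l.getLast? = some (l.get ⟨l.length - 1, by omega⟩) := by
      rw [List.getLast?_eq_getElem?]
      simp [hpos]
    rw [this] at h5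
    exact Option.some.inj h5
  have hchain : ∀ (i : ℕ) (hi : i + 1 < l.length),
      H.Adj (l.get ⟨i, by omega⟩) (l.get ⟨i + 1, hi⟩) := by
    intro i hi
    exact (List.isChain_iff_getElem.1 h1) i hi
  have key : ∀ i j : Fin l.length, (SimpleGraph.cycleGraph l.length).Adj i j → H.Adj (e i) (e j) := by
    intro i j hij
    rw [cyc_consec h0] at hij
    rcases hij with h | h | h | h
    · have := hchain i.val (by have := j.isLt; omega)
      have ej : j = ⟨i.val + 1, by have := j.isLt; omega⟩ := Fin.ext h.symm
      rw [ej]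
      exact this
    · have := hchain j.val (by have := i.isLt; omega)
      have ei : i = ⟨j.val + 1, by have := i.isLt; omega⟩ := Fin.ext h.symm
      rw [ei]
      exact this.symm
    · have ei : e i = a := by
        rw [← ha, he]
        exact congrArg l.get (Fin.ext h.1)
      have ej : e j = b := by
        rw [← hb, he]
        exact congrArg l.get (Fin.ext (by simp only; omega))
      rw [ei, ej]
      exact h6.symm
    · have ej : e j = a := by
        rw [← ha, he]
        exact congrArg l.get (Fin.ext h.1)
      have ei : e i = b := by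
        rw [← hb, he]
        exact congrArg l.get (Fin.ext (by simp only; omega))
      rw [ei, ej]
      exact h6
  refine ⟨SimpleGraph.Iso.symm ⟨e, ?_⟩⟩
  intro i j
  constructor
  · intro hij
    by_contra hn
    apply hH.2 s(e i, e j) hij
    apply homTraceable_of_hamL
    have hno : ∀ (p q : Fin l.length), (SimpleGraph.cycleGraph l.length).Adj p q →
        (H.deleteEdges {s(e i, e j)}).Adj (e p) (e q) := by
      intro p q hpq
      rw [SimpleGraph.deleteEdges_adj]
      refine ⟨key p q hpq, ?_⟩
      rw [Set.mem_singleton_iff, Sym2.eq_iff]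
      rintro (⟨h, h'⟩ | ⟨h, h'⟩)
      · rw [e.injective h, e.injective h'] at hpq
        exact hn hpq
      · rw [e.injective h, e.injective h'] at hpq
        exact hn hpq.symm
    refine ⟨l, h0, ?_, h2, h3, a, b, h4, h5, ?_⟩
    · rw [List.isChain_iff_getElem]
      intro p hp
      have := hno ⟨p, by omega⟩ ⟨p + 1, hp⟩ ((cyc_consec h0 _ _).2 (Or.inl rfl))
      exact this
    · have := hno ⟨l.length - 1, by omega⟩ ⟨0, hpos⟩
        ((cyc_consec h0 _ _).2 (Or.inr (Or.inr (Or.inr ⟨rfl, by simp only; omega⟩))))
      have ea : e ⟨0, hpos⟩ = a := ha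
      have eb : e ⟨l.length - 1, by omega⟩ = b := hb
      rw [ea, eb] at this
      exact this
  · exact key i j

end Pool.Agent.Lib.MP_0f64c5_co
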