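import Mathlib

/-!
# Minimal PLD-maximal graphs (MP_0f64c5_co): definitions and paths as lists
-/

set_option autoImplicit false

namespace Pool.Agent.Lib.MP_0f64c5_co

open Classical

variable {V : Type*}

/-- Property `P_i`: every two distinct vertices are joined by a path with exactly `i` vertices. -/
def HasP (G : SimpleGraph V) (i : ℕ) : Prop :=
  ∀ u v : V, u ≠ v → ∃ p : G.Walk u v, p.IsPath ∧ p.support.length = i

/-- `G` is PLD-maximal: it has property `P_i` for every `i` with `3 ≤ i ≤ n`. -/
def PLDMaximal [Fintype V] (G : SimpleGraph V) : Prop :=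
  ∀ i : ℕ, 3 ≤ i → i ≤ Fintype.card V → HasP G i

/-- `G` is minimal PLD-maximal: it is PLD-maximal and no edge can be removed. -/
def MinimalPLDMaximal [Fintype V] (G : SimpleGraph V) : Prop :=
  PLDMaximal G ∧ ∀ e ∈ G.edgeSet, ¬ PLDMaximal (G.deleteEdges {e})

/-- `h` is adjacent to every other vertex. -/
def IsDom (G : SimpleGraph V) (h : V) : Prop := ∀ w, w ≠ h → G.Adj h w

/-- Every vertex is the first vertex of a Hamiltonian path. -/
def HomTraceable (H : SimpleGraph V) : Prop :=
  ∀ v, ∃ w, ∃ p : H.Walk v w, p.IsPath ∧ ∀ x, x ∈ p.support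

/-- Homogeneously traceable, and no edge can be removed. -/
def EdgeMinimalHT (H : SimpleGraph V) : Prop :=
  HomTraceable H ∧ ∀ e ∈ H.edgeSet, ¬ HomTraceable (H.deleteEdges {e})

/-- Number of edges. -/
noncomputable def edges (G : SimpleGraph V) : ℕ := G.edgeSet.ncard

/-- Degree of `v`. -/
noncomputable def dg [Fintype V] (G : SimpleGraph V) (v : V) : ℕ :=
  (Finset.univ.filter (fun w => G.Adj v w)).card

/-- Number of neighbours of `v` in `s`. -/
noncomputable def dgIn (G : SimpleGraph V) (v : V) (s : Finset V) : ℕ :=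
  (s.filter (fun w => G.Adj v w)).card

/-- `l` is a path from `u` to `v` written as the list of its vertices. -/
def LPath (G : SimpleGraph V) (u v : V) (l : List V) : Prop :=
  l.IsChain G.Adj ∧ l.Nodup ∧ l.head? = some u ∧ l.getLast? = some v

/-- List version of: `G - h` is homogeneously traceable. -/
def HTL (G : SimpleGraph V) (h : V) : Prop :=
  ∀ v, v ≠ h → ∃ l : List V, l.IsChain G.Adj ∧ l.Nodup ∧ l.head? = some v ∧ ∀ w, w ∈ l ↔ w ≠ h

/-- `H` has a Hamiltonian cycle (written as a list). -/
def HamL (H : SimpleGraph V) : Prop :=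
  ∃ l : List V, 3 ≤ l.length ∧ l.IsChain H.Adj ∧ l.Nodup ∧ (∀ w, w ∈ l) ∧
    ∃ a b, l.head? = some a ∧ l.getLast? = some b ∧ H.Adj b a

/-- `G` is a wheel: a vertex joined to all vertices of a cycle. -/
def IsWheel [Fintype V] (G : SimpleGraph V) : Prop :=
  ∃ h, IsDom G h ∧
    Nonempty (G.induce {w | w ≠ h} ≃g SimpleGraph.cycleGraph (Fintype.card V - 1))

/-- `x` and `y` are consecutive in `l`. -/
def ConsIn (x y : V) (l : List V) : Prop := [x, y] <:+: l ∨ [y, x] <:+: l

/-! ### Basic facts -/

theorem lpath_of_walk {G : SimpleGraph V} {u v : V} (p : G.Walk u v) (hp : p.IsPath) :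
    LPath G u v p.support := by
  refine ⟨p.isChain_adj_support, hp.support_nodup, ?_, ?_⟩
  · rw [List.head?_eq_some_head p.support_ne_nil, p.head_support]
  · rw [List.getLast?_eq_some_getLast p.support_ne_nil, p.getLast_support]

theorem walk_of_lpath {G : SimpleGraph V} {u v : V} {l : List V} (h : LPath G u v l) :
    ∃ p : G.Walk u v, p.IsPath ∧ p.support = l := by
  obtain ⟨hc, hn, hh, hl⟩ := h
  have hne : l ≠ [] := by
    rintro rfl
    simp at hh
  have h1 : l.head hne = u := by
    rw [List.head?_eq_some_head hne] at hh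
    exact Option.some.inj hh
  have h2 : l.getLast hne = v := by
    rw [List.getLast?_eq_some_getLast hne] at hl
    exact Option.some.inj hl
  subst h1
  subst h2
  refine ⟨SimpleGraph.Walk.ofSupport l hne hc, ?_, ?_⟩
  · rw [SimpleGraph.Walk.isPath_def, SimpleGraph.Walk.support_ofSupport]
    exact hn
  · rw [SimpleGraph.Walk.support_ofSupport]

theorem hasP_iff {G : SimpleGraph V} {i : ℕ} :
    HasP G i ↔ ∀ u v, u ≠ v → ∃ l, LPath G u v l ∧ l.length = i := by
  constructor
  · intro h u v huv
    obtain ⟨p, hp, hi⟩ := h u v huv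
    exact ⟨p.support, lpath_of_walk p hp, hi⟩
  · intro h u v huv
    obtain ⟨l, hl, hi⟩ := h u v huv
    obtain ⟨p, hp, hs⟩ := walk_of_lpath hl
    exact ⟨p, hp, by rw [hs]; exact hi⟩

theorem LPath.reverse {G : SimpleGraph V} {u v : V} {l : List V} (h : LPath G u v l) :
    LPath G v u l.reverse := by
  obtain ⟨hc, hn, hh, hl⟩ := h
  refine ⟨?_, List.nodup_reverse.2 hn, ?_, ?_⟩
  · rw [List.isChain_reverse]
    exact hc.imp (fun _ _ hab => hab.symm)
  · rw [List.head?_reverse]; exact hl
  · rw [List.getLast?_reverse]; exact hh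

/-- `P_3` says that any two distinct vertices have a common neighbour. -/
theorem hasP_three_iff {G : SimpleGraph V} :
    HasP G 3 ↔ ∀ u v, u ≠ v → ∃ w, G.Adj u w ∧ G.Adj w v := by
  rw [hasP_iff]
  constructor
  · intro h u v huv
    obtain ⟨l, ⟨hc, hn, hh, hl⟩, hi⟩ := h u v huv
    match l, hi with
    | [a, b, c], _ =>
      simp only [List.head?_cons, Option.some.injEq] at hh
      simp only [List.getLast?_cons_cons, List.getLast?_singleton, Option.some.injEq] at hl
      subst hh; subst hl
      simp only [List.isChain_cons_cons, List.isChain_singleton, and_true] at hc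
      exact ⟨b, hc.1, hc.2⟩
  · intro h u v huv
    obtain ⟨w, h1, h2⟩ := h u v huv
    refine ⟨[u, w, v], ⟨?_, ?_, by simp, by simp⟩, rfl⟩
    · simp [h1, h2]
    · have := h1.ne; have := h2.ne
      simp_all

/-- Handshake lemma. -/
theorem sum_dg [Fintype V] (G : SimpleGraph V) : ∑ v, dg G v = 2 * edges G := by
  have h := G.sum_degrees_eq_twice_card_edges
  have h1 : ∀ v, G.degree v = dg G v := by
    intro v
    unfold dg
    rw [← SimpleGraph.card_neighborFinset_eq_degree]
    congr 1
    ext w
    simp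
  simp only [h1] at h
  rw [h]
  unfold edges
  rw [← SimpleGraph.coe_edgeFinset, Set.ncard_coe_finset]

theorem homTraceable_iff {H : SimpleGraph V} :
    HomTraceable H ↔ ∀ v, ∃ l : List V, l.IsChain H.Adj ∧ l.Nodup ∧ l.head? = some v ∧
      ∀ w, w ∈ l := by
  constructor
  · intro h v
    obtain ⟨w, p, hp, ha⟩ := h v
    obtain ⟨h1, h2, h3, h4⟩ := lpath_of_walk p hp
    exact ⟨p.support, h1, h2, h3, ha⟩
  · intro h v
    obtain ⟨l, h1, h2, h3, h4⟩ := h v
    have hne : l ≠ [] := by
      rintro rfl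
      simp at h3
    obtain ⟨p, hp, hs⟩ := walk_of_lpath (G := H) (u := v) (v := l.getLast hne) (l := l)
      ⟨h1, h2, h3, List.getLast?_eq_some_getLast hne⟩
    exact ⟨_, p, hp, by intro x; rw [hs]; exact h4 x⟩

theorem homTraceable_induce_iff {G : SimpleGraph V} {h : V} :
    HomTraceable (G.induce {w | w ≠ h}) ↔ HTL G h := by
  rw [homTraceable_iff]
  constructor
  · intro H v hv
    obtain ⟨l, h1, h2, h3, h4⟩ := H ⟨v, hv⟩
    refine ⟨l.map Subtype.val, ?_, ?_, ?_, ?_⟩
    · rw [List.isChain_map]
      exact h1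
    · exact h2.map Subtype.val_injective
    · rw [List.head?_map, h3]; rfl
    · intro w
      rw [List.mem_map]
      constructor
      · rintro ⟨x, _, rfl⟩
        exact x.2
      · intro hw
        exact ⟨⟨w, hw⟩, h4 _, rfl⟩
  · intro H v
    obtain ⟨l, h1, h2, h3, h4⟩ := H v.1 v.2
    refine ⟨l.pmap (fun w hw => (⟨w, hw⟩ : {w | w ≠ h})) (fun w hw => (h4 w).1 hw), ?_, ?_, ?_, ?_⟩
    · have key : (List.map Subtype.val (l.pmap (fun w hw => (⟨w, hw⟩ : {w | w ≠ h}))
          (fun w hw => (h4 w).1 hw))) = l := by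
        rw [List.map_pmap, List.pmap_eq_map]; simp
      have : List.IsChain G.Adj (List.map Subtype.val (l.pmap
          (fun w hw => (⟨w, hw⟩ : {w | w ≠ h})) (fun w hw => (h4 w).1 hw))) := by
        rw [key]; exact h1
      rw [List.isChain_map] at this
      exact this
    · exact h2.pmap (fun a _ b _ hab => by simpa using hab)
    · have hne : l ≠ [] := by
        rintro rfl
        simp at h3
      obtain ⟨a, l', rfl⟩ := List.exists_cons_of_ne_nil hne
      simp only [List.head?_cons, Option.some.injEq] at h3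
      simp [List.pmap, h3]
    · intro w
      rw [List.mem_pmap]
      exact ⟨w.1, (h4 w.1).2 w.2, rfl⟩

end Pool.Agent.Lib.MP_0f64c5_co
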