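import Pool.Agent.Lib.MP_0f64c5_co.Defs

/-!
# Module DEG: minimum degree 3

If `v` has at most two neighbours: if it has exactly the neighbours `a <> b`, take a Hamiltonian path
from `a` to `b`; `v` is inside, so its two neighbours in the list are `a` and `b`, the first and the
last vertex, and `n = 3`. If `v` has at most one neighbour `a` (or none), take a Hamiltonian path
from `a` (or any vertex other than `v`) to a vertex other than `a, v`: `v` is inside and has two
different neighbours in the list.
-/

set_option autoImplicit false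

namespace Pool.Agent.Lib.MP_0f64c5_co

open Classical

variable {V : Type*}

theorem three_le_dg [Fintype V] {G : SimpleGraph V} (hP : HasP G (Fintype.card V))
    (hn : 4 ≤ Fintype.card V) (v : V) : 3 ≤ dg G v := by
  by_contra hcon
  push Not at hcon
  unfold dg at hcon
  have hsub : Finset.univ.filter (fun w => G.Adj v w) ⊆ Finset.univ.erase v := by
    intro w hw
    rw [Finset.mem_filter] at hw
    exact Finset.mem_erase.2 ⟨hw.2.ne.symm, Finset.mem_univ _⟩
  have hcard : 2 ≤ (Finset.univ.erase v).card := by
    rw [Finset.card_erase_of_mem (Finset.mem_univ _), Finset.card_univ]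
    omega
  obtain ⟨u, hu1, hu2, hu3⟩ := Finset.exists_subsuperset_card_eq hsub (by omega) hcard
  obtain ⟨a, b, hab, rfl⟩ := Finset.card_eq_two.1 hu3
  have hav : a ≠ v := (Finset.mem_erase.1 (hu2 (Finset.mem_insert_self _ _))).1
  have hbv : b ≠ v := (Finset.mem_erase.1 (hu2 (Finset.mem_insert_of_mem
    (Finset.mem_singleton_self _)))).1
  have hnb : ∀ w, G.Adj v w → w = a ∨ w = b := by
    intro w hw
    have h1 := hu1 (Finset.mem_filter.2 ⟨Finset.mem_univ _, hw⟩)
    rw [Finset.mem_insert, Finset.mem_singleton] at h1
    exact h1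
  obtain ⟨l, ⟨hc, hnd, hh, hl⟩, hi⟩ := hasP_iff.1 hP a b hab
  have hall : v ∈ l := by
    have h1 : l.toFinset = Finset.univ := by
      apply Finset.eq_univ_of_card
      rw [List.toFinset_card_of_nodup hnd, hi]
    rw [← List.mem_toFinset, h1]
    exact Finset.mem_univ _
  obtain ⟨i, hil, hiv⟩ := List.getElem_of_mem hall
  have h0 : l[0] = a := by
    rw [List.head?_eq_getElem?, List.getElem?_eq_getElem (by omega)] at hh
    exact Option.some.inj hh
  have hlast : l[l.length - 1] = b := by
    rw [List.getLast?_eq_getElem?, List.getElem?_eq_getElem (by omega)] at hl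
    exact Option.some.inj hl
  have hi0 : i ≠ 0 := by
    rintro rfl
    exact hav (h0.symm.trans hiv)
  have hi1 : i ≠ l.length - 1 := by
    intro h
    subst h
    exact hbv (hlast.symm.trans hiv)
  have hadj := List.isChain_iff_getElem.1 hc
  have h2 := hadj (i - 1) (by omega)
  have h3 := hadj i (by omega)
  have e1 : l[i - 1 + 1] = v := by
    rw [← hiv]
    congr 1
    omega
  rw [e1] at h2
  rw [hiv] at h3
  have key : ∀ (j k : ℕ) (hj : j < l.length) (hk : k < l.length), l[j] = l[k] → j = k :=
    fun j k hj hk h => (hnd.getElem_inj_iff).1 h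
  have h4 : i - 1 = 0 ∨ i - 1 = l.length - 1 := by
    rcases hnb _ h2.symm with h | h
    · exact Or.inl (key _ _ _ _ (h.trans h0.symm))
    · exact Or.inr (key _ _ _ _ (h.trans hlast.symm))
  have h5 : i + 1 = 0 ∨ i + 1 = l.length - 1 := by
    rcases hnb _ h3 with h | h
    · exact Or.inl (key _ _ _ _ (h.trans h0.symm))
    · exact Or.inr (key _ _ _ _ (h.trans hlast.symm))
  omega

end Pool.Agent.Lib.MP_0f64c5_co
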