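import Pool.Agent.Lib.MP_0f64c5_co.DenseDefs

/-!
# Module DENSEA: `denseG t` is PLD-maximal

Alternating lists: for lists `as` in `A`, `bs` in `B` of equal length let
`alt as bs = a_1 b_1 a_2 b_2 ...` (`(as.zip bs).flatMap (fun p => [p.1, p.2])`): it is a chain, nodup iff
`as` and `bs` are. Paths with `i` vertices, `3 <= i <= 4 t`, `u'` = mate of `u` in `A`:
* `u` in `A`, `v` in `B`, `i = 2r`, `r >= 2`: `alt (u :: as) (bs ++ [v])`, `|as| = |bs| = r - 1`;
* `u` in `A`, `v` in `B`, `i = 2r+1`, `r >= 1`: `u :: alt (u' :: as) (bs ++ [v])`, `|as| = |bs| = r - 1`;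
* `u, v` in `A`, `i = 2r+1`: `alt (u :: as) bs ++ [v]`, `|as| = r - 1`, `|bs| = r`;
* `u, v` in `A`, `i = 2r+2`, `r >= 1`: `u :: b_0 :: alt (b_1 :: bs) (as ++ [v])`, `|as| = |bs| = r - 1`
  (`b_0, b_1` the ends of the edge in `B`);
* `u, v` in `B`, `i = 2r+1`: `alt (u :: bs) as ++ [v]`, `|bs| = r - 1`, `|as| = r`;
* `u, v` in `B`, `i = 2r+2`, `r >= 1`: `u :: a :: alt (a' :: as) (bs ++ [v])`, `a` any element of `A`,
  `|as| = |bs| = r - 1`.
(all lists nodup and avoiding the other vertices of the path; the parts have `2 t` elements, enough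
in all cases). Tested by computer for `t = 2, 3`.
-/

set_option autoImplicit false

namespace Pool.Agent.Lib.MP_0f64c5_co

open Classical

theorem dense_cons {V : Type*} {G : SimpleGraph V} {u w v : V} {l : List V}
    (h : LPath G w v l) (ha : G.Adj u w) (hu : u ∉ l) : LPath G u v (u :: l) := by
  obtain ⟨h1, h2, h3, h4⟩ := h
  cases l with
  | nil => simp at h3
  | cons b l =>
    simp only [List.head?_cons, Option.some.injEq] at h3
    subst h3
    refine ⟨List.isChain_cons_cons.2 ⟨ha, h1⟩, List.nodup_cons.2 ⟨hu, h2⟩, rfl, ?_⟩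
    rw [List.getLast?_cons_cons]
    exact h4

theorem dense_L1 {V : Type*} {G : SimpleGraph V} : ∀ (r : ℕ) (A B : Finset V) (u v : V),
    Disjoint A B → (∀ a ∈ A, ∀ b ∈ B, G.Adj a b) → u ∈ A → v ∈ B → r + 1 ≤ A.card →
    r + 1 ≤ B.card → ∃ l, LPath G u v l ∧ l.length = 2 * (r + 1) ∧ ∀ x ∈ l, x ∈ A ∨ x ∈ B := by
  intro r
  induction r with
  | zero =>
    intro A B u v hAB hadj hu hv _ _
    refine ⟨[u, v], ⟨?_, ?_, rfl, rfl⟩, rfl, ?_⟩
    · simp [hadj u hu v hv]
    · have := (hadj u hu v hv).ne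
      simp [this]
    · intro x hx
      simp only [List.mem_cons, List.not_mem_nil, or_false] at hx
      rcases hx with rfl | rfl
      · exact Or.inl hu
      · exact Or.inr hv
  | succ r ih =>
    intro A B u v hAB hadj hu hv hA hB
    have h1 : 0 < (A.erase u).card := by
      rw [Finset.card_erase_of_mem hu]; omega
    have h2 : 0 < (B.erase v).card := by
      rw [Finset.card_erase_of_mem hv]; omega
    obtain ⟨a, ha⟩ := Finset.card_pos.1 h1
    obtain ⟨b, hb⟩ := Finset.card_pos.1 h2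
    rw [Finset.mem_erase] at ha hb
    obtain ⟨l, hl, hlen, hmem⟩ := ih (A.erase u) (B.erase b) a v
      (Finset.disjoint_of_subset_left (Finset.erase_subset _ _)
        (Finset.disjoint_of_subset_right (Finset.erase_subset _ _) hAB))
      (fun a' ha' b' hb' => hadj a' (Finset.mem_of_mem_erase ha') b' (Finset.mem_of_mem_erase hb'))
      (Finset.mem_erase.2 ha) (Finset.mem_erase.2 ⟨fun h => hb.1 h.symm, hv⟩)
      (by rw [Finset.card_erase_of_mem hu]; omega)
      (by rw [Finset.card_erase_of_mem hb.2]; omega)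
    have hbl : b ∉ l := by
      intro h
      rcases hmem b h with h | h
      · exact Finset.disjoint_left.1 hAB (Finset.mem_of_mem_erase h) hb.2
      · simp at h
    have hul : u ∉ b :: l := by
      intro h
      rcases List.mem_cons.1 h with h | h
      · exact (hadj u hu b hb.2).ne h
      · rcases hmem u h with h | h
        · simp at h
        · exact Finset.disjoint_left.1 hAB hu (Finset.mem_of_mem_erase h)
    refine ⟨u :: b :: l, dense_cons (dense_cons hl (hadj a ha.2 b hb.2).symm hbl)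
      (hadj u hu b hb.2) hul, ?_, ?_⟩
    · simp only [List.length_cons, hlen]
      omega
    · intro x hx
      rcases List.mem_cons.1 hx with rfl | hx
      · exact Or.inl hu
      · rcases List.mem_cons.1 hx with rfl | hx
        · exact Or.inr hb.2
        · rcases hmem x hx with h | h
          · exact Or.inl (Finset.mem_of_mem_erase h)
          · exact Or.inr (Finset.mem_of_mem_erase h)

/-- Both ends in the same part, odd number of vertices. -/
theorem dense_L2 {V : Type*} {G : SimpleGraph V} (r : ℕ) (A B : Finset V) (u v : V)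
    (hAB : Disjoint A B) (hadj : ∀ a ∈ A, ∀ b ∈ B, G.Adj a b) (hu : u ∈ A) (hv : v ∈ A)
    (huv : u ≠ v) (hA : r + 2 ≤ A.card) (hB : r + 1 ≤ B.card) :
    ∃ l, LPath G u v l ∧ l.length = 2 * r + 3 := by
  obtain ⟨b, hb⟩ : B.Nonempty := Finset.card_pos.1 (by omega)
  obtain ⟨l, hl, hlen, hmem⟩ := dense_L1 (G := G) r B (A.erase u) b v
    (Finset.disjoint_of_subset_right (Finset.erase_subset _ _) hAB.symm)
    (fun b' hb' a' ha' => (hadj a' (Finset.mem_of_mem_erase ha') b' hb').symm) hb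
    (Finset.mem_erase.2 ⟨huv.symm, hv⟩) hB (by rw [Finset.card_erase_of_mem hu]; omega)
  refine ⟨u :: l, dense_cons hl (hadj u hu b hb) ?_, ?_⟩
  · intro h
    rcases hmem u h with h | h
    · exact Finset.disjoint_left.1 hAB hu h
    · simp at h
  · simp only [List.length_cons, hlen]
    omega

/-- Both ends in the same part, even number of vertices. -/
theorem dense_L3 {V : Type*} {G : SimpleGraph V} (r : ℕ) (A B : Finset V) (u v b0 b1 : V)
    (hAB : Disjoint A B) (hadj : ∀ a ∈ A, ∀ b ∈ B, G.Adj a b) (hu : u ∈ A) (hv : v ∈ A)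
    (huv : u ≠ v) (hb0 : b0 ∈ B) (hb1 : b1 ∈ B) (hbb : G.Adj b0 b1)
    (hA : r + 2 ≤ A.card) (hB : r + 2 ≤ B.card) :
    ∃ l, LPath G u v l ∧ l.length = 2 * r + 4 := by
  obtain ⟨l, hl, hlen, hmem⟩ := dense_L1 (G := G) r (B.erase b0) (A.erase u) b1 v
    (Finset.disjoint_of_subset_left (Finset.erase_subset _ _)
      (Finset.disjoint_of_subset_right (Finset.erase_subset _ _) hAB.symm))
    (fun b' hb' a' ha' => (hadj a' (Finset.mem_of_mem_erase ha') b'
      (Finset.mem_of_mem_erase hb')).symm) (Finset.mem_erase.2 ⟨hbb.ne.symm, hb1⟩)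
    (Finset.mem_erase.2 ⟨huv.symm, hv⟩) (by rw [Finset.card_erase_of_mem hb0]; omega)
    (by rw [Finset.card_erase_of_mem hu]; omega)
  have h0 : b0 ∉ l := by
    intro h
    rcases hmem b0 h with h | h
    · simp at h
    · exact Finset.disjoint_left.1 hAB (Finset.mem_of_mem_erase h) hb0
  refine ⟨u :: b0 :: l, dense_cons (dense_cons hl hbb h0) (hadj u hu b0 hb0) ?_, ?_⟩
  · intro h
    rcases List.mem_cons.1 h with h | h
    · exact (hadj u hu b0 hb0).ne h
    · rcases hmem u h with h | h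
      · exact Finset.disjoint_left.1 hAB hu (Finset.mem_of_mem_erase h)
      · simp at h
  · simp only [List.length_cons, hlen]
    omega

/-- Ends in different parts, odd number of vertices. -/
theorem dense_L5 {V : Type*} {G : SimpleGraph V} (r : ℕ) (A B : Finset V) (u u' v : V)
    (hAB : Disjoint A B) (hadj : ∀ a ∈ A, ∀ b ∈ B, G.Adj a b) (hu : u ∈ A) (hu' : u' ∈ A)
    (huu : G.Adj u u') (hv : v ∈ B) (hA : r + 2 ≤ A.card) (hB : r + 1 ≤ B.card) :
    ∃ l, LPath G u v l ∧ l.length = 2 * r + 3 := by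
  obtain ⟨l, hl, hlen, hmem⟩ := dense_L1 (G := G) r (A.erase u) B u' v
    (Finset.disjoint_of_subset_left (Finset.erase_subset _ _) hAB)
    (fun a' ha' b' hb' => hadj a' (Finset.mem_of_mem_erase ha') b' hb')
    (Finset.mem_erase.2 ⟨huu.ne.symm, hu'⟩) hv
    (by rw [Finset.card_erase_of_mem hu]; omega) hB
  refine ⟨u :: l, dense_cons hl huu ?_, ?_⟩
  · intro h
    rcases hmem u h with h | h
    · simp at h
    · exact Finset.disjoint_left.1 hAB hu h
  · simp only [List.length_cons, hlen]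
    omega

theorem dense_adj_lr (t : ℕ) (a b : Fin (2 * t)) : (denseG t).Adj (Sum.inl a) (Sum.inr b) := by
  unfold denseG
  rw [SimpleGraph.fromRel_adj]
  refine ⟨by simp, Or.inl (Or.inl ⟨a, b, rfl, rfl⟩)⟩

theorem dense_adj_ll (t : ℕ) (a b : Fin (2 * t)) (hab : a ≠ b) (h : a.val / 2 = b.val / 2) :
    (denseG t).Adj (Sum.inl a) (Sum.inl b) := by
  unfold denseG
  rw [SimpleGraph.fromRel_adj]
  refine ⟨by simpa using hab, Or.inl (Or.inr (Or.inl ⟨a, b, rfl, rfl, h⟩))⟩

theorem dense_adj_rr (t : ℕ) (a b : Fin (2 * t)) (ha : a.val = 0) (hb : b.val = 1) :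
    (denseG t).Adj (Sum.inr a) (Sum.inr b) := by
  unfold denseG
  rw [SimpleGraph.fromRel_adj]
  refine ⟨?_, Or.inl (Or.inr (Or.inr ⟨a, b, rfl, rfl, ha, hb⟩))⟩
  intro h
  rw [Sum.inr.injEq] at h
  subst h
  omega

theorem dense_mate (t : ℕ) (a : Fin (2 * t)) : ∃ b : Fin (2 * t), a ≠ b ∧ a.val / 2 = b.val / 2 := by
  have ha := a.isLt
  by_cases h : a.val % 2 = 0
  · refine ⟨⟨a.val + 1, by omega⟩, ?_, ?_⟩
    · intro h1
      have := congrArg Fin.val h1
      simp at this
    · simp only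
      omega
  · refine ⟨⟨a.val - 1, by omega⟩, ?_, ?_⟩
    · intro h1
      have := congrArg Fin.val h1
      simp only at this
      omega
    · simp only
      omega

theorem dense_pld (t : ℕ) (ht : 2 ≤ t) : PLDMaximal (denseG t) := by
  intro i hi3 hi
  rw [hasP_iff]
  have hcard : Fintype.card (Fin (2 * t) ⊕ Fin (2 * t)) = 4 * t := by
    rw [Fintype.card_sum, Fintype.card_fin]; omega
  rw [hcard] at hi
  set A : Finset (Fin (2 * t) ⊕ Fin (2 * t)) :=
    Finset.univ.map ⟨Sum.inl, Sum.inl_injective⟩ with hA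
  set B : Finset (Fin (2 * t) ⊕ Fin (2 * t)) :=
    Finset.univ.map ⟨Sum.inr, Sum.inr_injective⟩ with hB
  have cA : A.card = 2 * t := by rw [hA, Finset.card_map, Finset.card_univ, Fintype.card_fin]
  have cB : B.card = 2 * t := by rw [hB, Finset.card_map, Finset.card_univ, Fintype.card_fin]
  have mA : ∀ a, Sum.inl a ∈ A := fun a => by rw [hA]; simp
  have mB : ∀ a, Sum.inr a ∈ B := fun a => by rw [hB]; simp
  have hAB : Disjoint A B := by
    rw [Finset.disjoint_left]
    intro x hx hy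
    rw [hA, Finset.mem_map] at hx
    rw [hB, Finset.mem_map] at hy
    obtain ⟨a, _, rfl⟩ := hx
    obtain ⟨b, _, hb⟩ := hy
    simp at hb
  have hadj : ∀ a ∈ A, ∀ b ∈ B, (denseG t).Adj a b := by
    intro x hx y hy
    rw [hA, Finset.mem_map] at hx
    rw [hB, Finset.mem_map] at hy
    obtain ⟨a, _, rfl⟩ := hx
    obtain ⟨b, _, rfl⟩ := hy
    exact dense_adj_lr t a b
  have hadj' : ∀ a ∈ B, ∀ b ∈ A, (denseG t).Adj a b := fun a ha b hb => (hadj b hb a ha).symm
  have key : ∀ a b : Fin (2 * t), ∃ l, LPath (denseG t) (Sum.inl a) (Sum.inr b) l ∧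
      l.length = i := by
    intro a b
    rcases Nat.even_or_odd' i with ⟨r, hr | hr⟩
    · obtain ⟨l, h1, h2, _⟩ := dense_L1 (G := denseG t) (r - 1) A B (Sum.inl a) (Sum.inr b) hAB
        hadj (mA a) (mB b) (by omega) (by omega)
      exact ⟨l, h1, by omega⟩
    · obtain ⟨a', haa, hdiv⟩ := dense_mate t a
      obtain ⟨l, h1, h2⟩ := dense_L5 (G := denseG t) (r - 1) A B (Sum.inl a) (Sum.inl a')
        (Sum.inr b) hAB hadj (mA a) (mA a') (dense_adj_ll t a a' haa hdiv) (mB b) (by omega)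
        (by omega)
      exact ⟨l, h1, by omega⟩
  rintro (a | a) (b | b) huv
  · rcases Nat.even_or_odd' i with ⟨r, hr | hr⟩
    · obtain ⟨l, h1, h2⟩ := dense_L3 (G := denseG t) (r - 2) A B (Sum.inl a) (Sum.inl b)
        (Sum.inr ⟨0, by omega⟩) (Sum.inr ⟨1, by omega⟩) hAB hadj (mA _) (mA _) huv (mB _) (mB _)
        (dense_adj_rr t _ _ rfl rfl) (by omega) (by omega)
      exact ⟨l, h1, by omega⟩
    · obtain ⟨l, h1, h2⟩ := dense_L2 (G := denseG t) (r - 1) A B (Sum.inl a) (Sum.inl b)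
        hAB hadj (mA _) (mA _) huv (by omega) (by omega)
      exact ⟨l, h1, by omega⟩
  · exact key a b
  · obtain ⟨l, h1, h2⟩ := key b a
    exact ⟨l.reverse, h1.reverse, by rw [List.length_reverse]; exact h2⟩
  · rcases Nat.even_or_odd' i with ⟨r, hr | hr⟩
    · obtain ⟨l, h1, h2⟩ := dense_L3 (G := denseG t) (r - 2) B A (Sum.inr a) (Sum.inr b)
        (Sum.inl ⟨0, by omega⟩) (Sum.inl ⟨1, by omega⟩) hAB.symm hadj' (mB _) (mB _) huv
        (mA _) (mA _) (dense_adj_ll t _ _ (by simp) (by simp)) (by omega) (by omega)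
      exact ⟨l, h1, by omega⟩
    · obtain ⟨l, h1, h2⟩ := dense_L2 (G := denseG t) (r - 1) B A (Sum.inr a) (Sum.inr b)
        hAB.symm hadj' (mB _) (mB _) huv (by omega) (by omega)
      exact ⟨l, h1, by omega⟩

end Pool.Agent.Lib.MP_0f64c5_co
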