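import Pool.Agent.Lib.MP_0f64c5_co.Defs

/-!
# Module ISOA: isomorphism invariance

Routine transports (`List.map`, `SimpleGraph.Iso`, `hasP_iff`, `homTraceable_iff`).
-/

set_option autoImplicit false

namespace Pool.Agent.Lib.MP_0f64c5_co

open Classical

variable {V W : Type*}

/-- The isomorphism obtained by deleting corresponding edges. -/
theorem isoA_deleteEdges {G : SimpleGraph V} {G' : SimpleGraph W} (f : G ≃g G')
    (e : Sym2 W) (he : e ∈ G'.edgeSet) :
    ∃ e₀ ∈ G.edgeSet, Nonempty (G'.deleteEdges {e} ≃g G.deleteEdges {e₀}) ∧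
      Nonempty (G.deleteEdges {e₀} ≃g G'.deleteEdges {e}) := by
  refine ⟨e.map f.symm, ?_, ?_⟩
  · induction e using Sym2.ind with
    | _ x y =>
      simp only [Sym2.map_mk, SimpleGraph.mem_edgeSet] at he ⊢
      exact f.symm.map_rel_iff.2 he
  · have key : ∀ a b : V, (G'.deleteEdges {e}).Adj (f a) (f b) ↔
        (G.deleteEdges {e.map f.symm}).Adj a b := by
      intro a b
      rw [SimpleGraph.deleteEdges_adj, SimpleGraph.deleteEdges_adj]
      have h1 : G'.Adj (f a) (f b) ↔ G.Adj a b := f.map_rel_iff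
      have h2 : s(f a, f b) ∈ ({e} : Set (Sym2 W)) ↔
          s(a, b) ∈ ({e.map f.symm} : Set (Sym2 V)) := by
        simp only [Set.mem_singleton_iff]
        constructor
        · intro h
          rw [← h]
          simp
        · intro h
          have h3 : Sym2.map f s(a, b) = Sym2.map f (Sym2.map f.symm e) := by rw [h]
          rw [Sym2.map_map] at h3
          have h4 : (⇑f ∘ ⇑f.symm : W → W) = id := by
            funext x
            simp
          rw [h4, Sym2.map_id] at h3
          simpa using h3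
      rw [h1, h2]
    have i1 : G.deleteEdges {e.map f.symm} ≃g G'.deleteEdges {e} :=
      ⟨f.toEquiv, fun {a b} => key a b⟩
    exact ⟨⟨i1.symm⟩, ⟨i1⟩⟩

theorem edges_iso {G : SimpleGraph V} {G' : SimpleGraph W} (f : G ≃g G') :
    edges G = edges G' := by
  unfold edges
  exact Nat.card_congr f.mapEdgeSet

theorem hasP_iso {G : SimpleGraph V} {G' : SimpleGraph W}
    (f : G ≃g G') {i : ℕ} (h : HasP G i) : HasP G' i := by
  rw [hasP_iff] at h ⊢
  intro u v huv
  obtain ⟨l, ⟨hc, hn, hh, hl⟩, hi⟩ := h (f.symm u) (f.symm v)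
    (fun hh => huv (f.symm.injective hh))
  refine ⟨l.map f, ⟨?_, ?_, ?_, ?_⟩, by simpa using hi⟩
  · rw [List.isChain_map]
    exact hc.imp (fun a b hab => f.map_rel_iff.2 hab)
  · exact hn.map f.injective
  · rw [List.head?_map, hh]; simp
  · rw [List.getLast?_map, hl]; simp

theorem pldMaximal_iso [Fintype V] [Fintype W] {G : SimpleGraph V} {G' : SimpleGraph W}
    (f : G ≃g G') (h : PLDMaximal G) : PLDMaximal G' := by
  intro i h3 hi
  rw [← Fintype.card_congr f.toEquiv] at hi
  exact hasP_iso f (h i h3 hi)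

theorem minimalPLDMaximal_iso [Fintype V] [Fintype W] {G : SimpleGraph V} {G' : SimpleGraph W}
    (f : G ≃g G') (h : MinimalPLDMaximal G) : MinimalPLDMaximal G' := by
  refine ⟨pldMaximal_iso f h.1, fun e he hp => ?_⟩
  obtain ⟨e₀, he₀, ⟨g⟩, -⟩ := isoA_deleteEdges f e he
  exact h.2 e₀ he₀ (pldMaximal_iso g hp)

theorem homTraceable_iso {G : SimpleGraph V} {G' : SimpleGraph W}
    (f : G ≃g G') (h : HomTraceable G) : HomTraceable G' := by
  intro v
  obtain ⟨w, p, hp, hall⟩ := h (f.symm v)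
  have hv : f (f.symm v) = v := by simp
  refine ⟨f w, (p.map f.toHom).copy hv rfl, ?_, ?_⟩
  · rw [SimpleGraph.Walk.isPath_copy]
    exact SimpleGraph.Walk.map_isPath_of_injective f.injective hp
  · intro x
    rw [SimpleGraph.Walk.support_copy, SimpleGraph.Walk.support_map]
    exact List.mem_map.2 ⟨f.symm x, hall _, by simp⟩

theorem edgeMinimalHT_iso {G : SimpleGraph V} {G' : SimpleGraph W}
    (f : G ≃g G') (h : EdgeMinimalHT G) : EdgeMinimalHT G' := by
  refine ⟨homTraceable_iso f h.1, fun e he hp => ?_⟩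
  obtain ⟨e₀, he₀, ⟨g⟩, -⟩ := isoA_deleteEdges f e he
  exact h.2 e₀ he₀ (homTraceable_iso g hp)

theorem hamL_iso {G : SimpleGraph V} {G' : SimpleGraph W}
    (f : G ≃g G') (h : HamL G) : HamL G' := by
  obtain ⟨l, h3, hc, hn, hall, a, b, ha, hb, hab⟩ := h
  refine ⟨l.map f, by simpa using h3, ?_, hn.map f.injective, ?_, f a, f b, ?_, ?_, ?_⟩
  · rw [List.isChain_map]
    exact hc.imp (fun a b hab => f.map_rel_iff.2 hab)
  · intro w
    exact List.mem_map.2 ⟨f.symm w, hall _, by simp⟩
  · rw [List.head?_map, ha]; rfl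
  · rw [List.getLast?_map, hb]; rfl
  · exact f.map_rel_iff.2 hab

theorem isDom_iso {G : SimpleGraph V} {G' : SimpleGraph W}
    (f : G ≃g G') {v : V} (h : IsDom G v) : IsDom G' (f v) := by
  intro w hw
  have h1 : f.symm w ≠ v := by
    rintro rfl
    exact hw (by simp)
  have h2 := f.map_rel_iff.2 (h _ h1)
  simpa using h2

theorem isWheel_iso [Fintype V] [Fintype W] {G : SimpleGraph V} {G' : SimpleGraph W}
    (f : G ≃g G') (h : IsWheel G) : IsWheel G' := by
  obtain ⟨c, hd, ⟨g⟩⟩ := h
  refine ⟨f c, isDom_iso f hd, ?_⟩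
  rw [← Fintype.card_congr f.toEquiv]
  have e1 : G'.induce {w | w ≠ f c} ≃g G.induce {w | w ≠ c} := by
    refine ⟨⟨fun x => ⟨f.symm x.1, ?_⟩, fun x => ⟨f x.1, ?_⟩, ?_, ?_⟩, ?_⟩
    · intro hx
      apply x.2
      have : f (f.symm x.1) = f c := by rw [hx]
      simpa using this
    · intro hx
      exact x.2 (f.injective hx)
    · intro x
      ext
      simp
    · intro x
      ext
      simp
    · intro a b
      simp only [Equiv.coe_fn_mk, SimpleGraph.comap_adj, Function.Embedding.subtype_apply]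
      exact f.symm.map_rel_iff
  exact ⟨e1.trans g⟩

end Pool.Agent.Lib.MP_0f64c5_co
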