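import Pool.Agent.Lib.MP_0f64c5_co.Defs

/-!
# Module ISOC: removing edges

`exists_minimal_sub`: strong induction on `edges G`.
-/

set_option autoImplicit false

namespace Pool.Agent.Lib.MP_0f64c5_co

open Classical

variable {V : Type*}

theorem edges_deleteEdge [Fintype V] {G : SimpleGraph V} {e : Sym2 V} (he : e ∈ G.edgeSet) :
    edges (G.deleteEdges {e}) + 1 = edges G := by
  unfold edges
  rw [SimpleGraph.edgeSet_deleteEdges]
  exact Set.ncard_sdiff_singleton_add_one he (Set.toFinite _)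

theorem pldMaximal_mono [Fintype V] {G G' : SimpleGraph V} (hle : G ≤ G')
    (h : PLDMaximal G) : PLDMaximal G' := by
  intro i h3 hn
  have h1 := h i h3 hn
  rw [hasP_iff] at h1 ⊢
  intro u v huv
  obtain ⟨l, ⟨hc, hr⟩, hi⟩ := h1 u v huv
  exact ⟨l, ⟨hc.imp (fun a b hab => hle hab), hr⟩, hi⟩

theorem exists_minimal_sub [Fintype V] {G : SimpleGraph V} (hG : PLDMaximal G) :
    ∃ G' : SimpleGraph V, G' ≤ G ∧ MinimalPLDMaximal G' := by
  induction hm : edges G using Nat.strong_induction_on generalizing G with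
  | _ m ih =>
    by_cases h : ∀ e ∈ G.edgeSet, ¬ PLDMaximal (G.deleteEdges {e})
    · exact ⟨G, le_refl _, hG, h⟩
    · push Not at h
      obtain ⟨e, he, hp⟩ := h
      have h1 := edges_deleteEdge he
      obtain ⟨G', hle, hmin⟩ := ih (edges (G.deleteEdges {e})) (by omega) hp rfl
      exact ⟨G', hle.trans (SimpleGraph.deleteEdges_le _), hmin⟩

end Pool.Agent.Lib.MP_0f64c5_co
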