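import Pool.Agent.Lib.MP_0f64c5_co.DenseA
import Pool.Agent.Lib.MP_0f64c5_co.IsoA
import Pool.Agent.Lib.MP_0f64c5_co.IsoC

/-!
# Module DENSEB: minimal PLD-maximal graphs with about `n^2 / 4` edges

Critical edges: `u` in `A`, `v` in `B`, `v` not `0, 1`: the only common neighbour of `u` and `v` is the
mate `u'` of `u`, so every PLD-maximal spanning subgraph (property `P_3`) contains `u u'` and `u' v`.
A minimal PLD-maximal spanning subgraph (`exists_minimal_sub`) has at least `2 t (2 t - 2) + t` edges.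
Transport to `Fin (4 t)`.
-/

set_option autoImplicit false

namespace Pool.Agent.Lib.MP_0f64c5_co

open Classical

theorem denseB_common (t : ℕ) (a b : Fin (2 * t)) (hb : 2 ≤ b.val)
    (w : Fin (2 * t) ⊕ Fin (2 * t)) (h1 : (denseG t).Adj (Sum.inl a) w)
    (h2 : (denseG t).Adj w (Sum.inr b)) :
    ∃ c : Fin (2 * t), w = Sum.inl c ∧ a ≠ c ∧ a.val / 2 = c.val / 2 := by
  unfold denseG at h1 h2
  rw [SimpleGraph.fromRel_adj] at h1 h2
  rcases w with c | c
  · refine ⟨c, rfl, fun h => h1.1 (by rw [h]), ?_⟩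
    rcases h1.2 with h | h
    · rcases h with ⟨x, y, _, h4⟩ | ⟨x, y, h3, h4, h5⟩ | ⟨x, y, h3, _⟩
      · simp at h4
      · rw [Sum.inl.injEq] at h3 h4
        rw [h3, h4]; exact h5
      · simp at h3
    · rcases h with ⟨x, y, _, h4⟩ | ⟨x, y, h3, h4, h5⟩ | ⟨x, y, h3, _⟩
      · simp at h4
      · rw [Sum.inl.injEq] at h3 h4
        rw [h3, h4]; exact h5.symm
      · simp at h3
  · exfalso
    rcases h2.2 with h | h
    · rcases h with ⟨x, y, h3, _⟩ | ⟨x, y, h3, _⟩ | ⟨x, y, h3, h4, h5, h6⟩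
      · simp at h3
      · simp at h3
      · rw [Sum.inr.injEq] at h3 h4
        rw [h4] at hb
        omega
    · rcases h with ⟨x, y, h3, _⟩ | ⟨x, y, h3, _⟩ | ⟨x, y, h3, h4, h5, h6⟩
      · simp at h3
      · simp at h3
      · rw [Sum.inr.injEq] at h3 h4
        rw [h3] at hb
        omega

theorem denseB_mate_unique (t : ℕ) (a c d : Fin (2 * t)) (h1 : a ≠ c) (h2 : a ≠ d)
    (h3 : a.val / 2 = c.val / 2) (h4 : a.val / 2 = d.val / 2) : c = d := by
  have h5 : a.val ≠ c.val := fun h => h1 (Fin.ext h)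
  have h6 : a.val ≠ d.val := fun h => h2 (Fin.ext h)
  apply Fin.ext
  omega

/-- The edges which every spanning subgraph with property `P_3` contains. -/
theorem denseB_critical (t : ℕ) (G' : SimpleGraph (Fin (2 * t) ⊕ Fin (2 * t)))
    (hle : G' ≤ denseG t) (h3 : HasP G' 3) (a b : Fin (2 * t)) (hb : 2 ≤ b.val) :
    G'.Adj (Sum.inl a) (Sum.inr b) ∧
      ∃ c, a ≠ c ∧ G'.Adj (Sum.inl a) (Sum.inl c) := by
  rw [hasP_three_iff] at h3
  obtain ⟨w, hw1, hw2⟩ := h3 (Sum.inl a) (Sum.inr b) (by simp)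
  obtain ⟨c, rfl, hac, hdiv⟩ := denseB_common t a b hb w (hle hw1) (hle hw2)
  refine ⟨?_, c, hac, hw1⟩
  obtain ⟨w', hw1', hw2'⟩ := h3 (Sum.inl c) (Sum.inr b) (by simp)
  obtain ⟨d, rfl, hcd, hdiv'⟩ := denseB_common t c b hb w' (hle hw1') (hle hw2')
  have : a = d := denseB_mate_unique t c a d hac.symm hcd hdiv.symm hdiv'
  rw [this]
  exact hw2'

theorem denseB_count (t : ℕ) (ht : 2 ≤ t) (G' : SimpleGraph (Fin (2 * t) ⊕ Fin (2 * t)))
    (hle : G' ≤ denseG t) (h3 : HasP G' 3) : 2 * t * (2 * t - 2) + t ≤ edges G' := by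
  have hsum := sum_dg G'
  rw [Fintype.sum_sum_type] at hsum
  have hf : Function.Injective (fun i : Fin (2 * t - 2) =>
      (⟨i.val + 2, by have := i.isLt; omega⟩ : Fin (2 * t))) := by
    intro i j hij
    have := congrArg Fin.val hij
    simp only at this
    exact Fin.ext (by omega)
  have hA : ∀ a : Fin (2 * t), 2 * t - 1 ≤ dg G' (Sum.inl a) := by
    intro a
    obtain ⟨_, c, hac, hadj⟩ := denseB_critical t G' hle h3 a ⟨2, by omega⟩ le_rfl
    unfold dg
    have hsub : insert (Sum.inl c) ((Finset.univ : Finset (Fin (2 * t - 2))).image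
        (fun i => (Sum.inr (⟨i.val + 2, by have := i.isLt; omega⟩ : Fin (2 * t)) :
          Fin (2 * t) ⊕ Fin (2 * t)))) ⊆ Finset.univ.filter (fun w => G'.Adj (Sum.inl a) w) := by
      intro w hw
      rw [Finset.mem_filter]
      refine ⟨Finset.mem_univ _, ?_⟩
      rcases Finset.mem_insert.1 hw with rfl | hw
      · exact hadj
      · obtain ⟨i, _, rfl⟩ := Finset.mem_image.1 hw
        exact (denseB_critical t G' hle h3 a _ (by simp)).1
    refine le_trans ?_ (Finset.card_le_card hsub)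
    rw [Finset.card_insert_of_notMem, Finset.card_image_of_injective, Finset.card_univ,
      Fintype.card_fin]
    · omega
    · exact Sum.inr_injective.comp hf
    · intro h
      obtain ⟨i, _, hi⟩ := Finset.mem_image.1 h
      simp at hi
  have hB : ∀ b : Fin (2 * t), 2 ≤ b.val → 2 * t ≤ dg G' (Sum.inr b) := by
    intro b hb
    unfold dg
    have hsub : ((Finset.univ : Finset (Fin (2 * t))).image
        (fun i => (Sum.inl i : Fin (2 * t) ⊕ Fin (2 * t)))) ⊆
          Finset.univ.filter (fun w => G'.Adj (Sum.inr b) w) := by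
      intro w hw
      rw [Finset.mem_filter]
      refine ⟨Finset.mem_univ _, ?_⟩
      obtain ⟨i, _, rfl⟩ := Finset.mem_image.1 hw
      exact (denseB_critical t G' hle h3 i b hb).1.symm
    refine le_trans ?_ (Finset.card_le_card hsub)
    rw [Finset.card_image_of_injective _ Sum.inl_injective, Finset.card_univ, Fintype.card_fin]
  have h1 : 2 * t * (2 * t - 1) ≤ ∑ a, dg G' (Sum.inl a) := by
    have := Finset.card_nsmul_le_sum (Finset.univ : Finset (Fin (2 * t)))
      (fun a => dg G' (Sum.inl a)) (2 * t - 1) (fun a _ => hA a)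
    rwa [Finset.card_univ, Fintype.card_fin, smul_eq_mul] at this
  have h2 : (2 * t - 2) * (2 * t) ≤ ∑ b, dg G' (Sum.inr b) := by
    have h4 : ∑ b ∈ (Finset.univ : Finset (Fin (2 * t))).filter (fun b => 2 ≤ b.val),
        dg G' (Sum.inr b) ≤ ∑ b, dg G' (Sum.inr b) :=
      Finset.sum_le_sum_of_subset (Finset.filter_subset _ _)
    have h5 := Finset.card_nsmul_le_sum
      ((Finset.univ : Finset (Fin (2 * t))).filter (fun b => 2 ≤ b.val))
      (fun b => dg G' (Sum.inr b)) (2 * t) (fun b hb => hB b (Finset.mem_filter.1 hb).2)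
    have h6 : 2 * t - 2 ≤ ((Finset.univ : Finset (Fin (2 * t))).filter
        (fun b => 2 ≤ b.val)).card := by
      have h7 : ((Finset.univ : Finset (Fin (2 * t - 2))).image
          (fun i => (⟨i.val + 2, by have := i.isLt; omega⟩ : Fin (2 * t)))) ⊆
          (Finset.univ : Finset (Fin (2 * t))).filter (fun b => 2 ≤ b.val) := by
        intro w hw
        obtain ⟨i, _, rfl⟩ := Finset.mem_image.1 hw
        rw [Finset.mem_filter]
        exact ⟨Finset.mem_univ _, by simp⟩
      have h8 := Finset.card_le_card h7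
      rwa [Finset.card_image_of_injective _ hf, Finset.card_univ, Fintype.card_fin] at h8
    rw [smul_eq_mul] at h5
    exact (Nat.mul_le_mul_right _ h6).trans (h5.trans h4)
  obtain ⟨s, rfl⟩ : ∃ s, t = s + 2 := ⟨t - 2, by omega⟩
  have e1 : 2 * (s + 2) - 1 = 2 * s + 3 := by omega
  have e2 : 2 * (s + 2) - 2 = 2 * s + 2 := by omega
  rw [e1] at h1
  rw [e2] at h2 ⊢
  nlinarith

theorem exists_dense (t : ℕ) (ht : 2 ≤ t) :
    ∃ G : SimpleGraph (Fin (4 * t)), MinimalPLDMaximal G ∧
      2 * t * (2 * t - 2) + t ≤ edges G := by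
  obtain ⟨G', hle, hmin⟩ := exists_minimal_sub (dense_pld t ht)
  have hcard : Fintype.card (Fin (2 * t) ⊕ Fin (2 * t)) = 4 * t := by
    rw [Fintype.card_sum, Fintype.card_fin]; omega
  have h3 : HasP G' 3 := hmin.1 3 le_rfl (by rw [hcard]; omega)
  let e : Fin (2 * t) ⊕ Fin (2 * t) ≃ Fin (4 * t) := Fintype.equivFinOfCardEq hcard
  let f := SimpleGraph.Iso.map e G'
  refine ⟨_, minimalPLDMaximal_iso f hmin, ?_⟩
  rw [← edges_iso f]
  exact denseB_count t ht G' hle h3

end Pool.Agent.Lib.MP_0f64c5_co
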