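import Pool.Agent.Lib.MP_0f64c5_co.Defs

/-!
# A dense PLD-maximal graph

`A` = left, `B` = right, both with `2 t` elements; all edges between `A` and `B`, the perfect matching
`{2j, 2j+1}` on `A`, the edge `{0, 1}` on `B`.
-/

set_option autoImplicit false

namespace Pool.Agent.Lib.MP_0f64c5_co

/-- The graph. -/
def denseG (t : ℕ) : SimpleGraph (Fin (2 * t) ⊕ Fin (2 * t)) :=
  SimpleGraph.fromRel (fun p q =>
    (∃ a b, p = Sum.inl a ∧ q = Sum.inr b) ∨
    (∃ a b : Fin (2 * t), p = Sum.inl a ∧ q = Sum.inl b ∧ a.val / 2 = b.val / 2) ∨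
    (∃ a b : Fin (2 * t), p = Sum.inr a ∧ q = Sum.inr b ∧ a.val = 0 ∧ b.val = 1))

end Pool.Agent.Lib.MP_0f64c5_co
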