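import Pool.Agent.Lib.MP_0f64c5_co.DenseA

/-!
# Dense PLD-maximal graphs of every order

`n = 4 t + r`, `r ≤ 3`: `A` with `2 t` elements and a perfect matching, `B` with `2 t + r` elements of
which five form a clique, all edges between `A` and `B`.
-/

set_option autoImplicit false

namespace Pool.Agent.Lib.MP_0f64c5_co

open Classical

/-- The graph. -/
def denseR (t r : ℕ) : SimpleGraph (Fin (2 * t) ⊕ Fin (2 * t + r)) :=
  SimpleGraph.fromRel (fun p q =>
    (∃ a b, p = Sum.inl a ∧ q = Sum.inr b) ∨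
    (∃ a b : Fin (2 * t), p = Sum.inl a ∧ q = Sum.inl b ∧ a.val / 2 = b.val / 2) ∨
    (∃ a b : Fin (2 * t + r), p = Sum.inr a ∧ q = Sum.inr b ∧ a.val < 5 ∧ b.val < 5))

/-- Both ends in the same part, odd number of vertices, with control of the vertices. -/
theorem denseR_L2 {V : Type*} {G : SimpleGraph V} (r : ℕ) (A B : Finset V) (u v : V)
    (hAB : Disjoint A B) (hadj : ∀ a ∈ A, ∀ b ∈ B, G.Adj a b) (hu : u ∈ A) (hv : v ∈ A)
    (huv : u ≠ v) (hA : r + 2 ≤ A.card) (hB : r + 1 ≤ B.card) :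
    ∃ l, LPath G u v l ∧ l.length = 2 * r + 3 ∧ ∀ x ∈ l, x ∈ A ∨ x ∈ B := by
  obtain ⟨b, hb⟩ : B.Nonempty := Finset.card_pos.1 (by omega)
  obtain ⟨l, hl, hlen, hmem⟩ := dense_L1 (G := G) r B (A.erase u) b v
    (Finset.disjoint_of_subset_right (Finset.erase_subset _ _) hAB.symm)
    (fun b' hb' a' ha' => (hadj a' (Finset.mem_of_mem_erase ha') b' hb').symm) hb
    (Finset.mem_erase.2 ⟨huv.symm, hv⟩) hB (by rw [Finset.card_erase_of_mem hu]; omega)
  refine ⟨u :: l, dense_cons hl (hadj u hu b hb) ?_, ?_, ?_⟩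
  · intro h
    rcases hmem u h with h | h
    · exact Finset.disjoint_left.1 hAB hu h
    · simp at h
  · simp only [List.length_cons, hlen]
    omega
  · intro x hx
    rcases List.mem_cons.1 hx with rfl | hx
    · exact Or.inl hu
    · rcases hmem x hx with h | h
      · exact Or.inr h
      · exact Or.inl (Finset.mem_of_mem_erase h)

/-- Add the vertices of `D` in front of a path starting at `w`, where `D` and `w` form a
clique. -/
theorem denseR_run {V : Type*} {G : SimpleGraph V} {w v : V} {l : List V}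
    (hl : LPath G w v l) (D : Finset V) :
    (∀ a ∈ D, G.Adj a w) → (∀ a ∈ D, ∀ b ∈ D, a ≠ b → G.Adj a b) → (∀ c ∈ D, c ∉ l) →
    ∃ c0 l', (c0 = w ∨ c0 ∈ D) ∧ LPath G c0 v l' ∧ l'.length = D.card + l.length ∧
      ∀ x ∈ l', x ∈ D ∨ x ∈ l := by
  induction D using Finset.induction_on with
  | empty =>
    intro _ _ _
    exact ⟨w, l, Or.inl rfl, hl, by simp, fun x hx => Or.inr hx⟩
  | insert c D hc ih =>
    intro h1 h2 h3
    obtain ⟨c0, l', h4, h5, h6, h7⟩ := ih
      (fun a ha => h1 a (Finset.mem_insert_of_mem ha))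
      (fun a ha b hb => h2 a (Finset.mem_insert_of_mem ha) b (Finset.mem_insert_of_mem hb))
      (fun a ha => h3 a (Finset.mem_insert_of_mem ha))
    have hcl : c ∉ l' := by
      intro h
      rcases h7 c h with h | h
      · exact hc h
      · exact h3 c (Finset.mem_insert_self _ _) h
    have hadj : G.Adj c c0 := by
      rcases h4 with rfl | h4
      · exact h1 c (Finset.mem_insert_self _ _)
      · exact h2 c (Finset.mem_insert_self _ _) c0 (Finset.mem_insert_of_mem h4)
          (by rintro rfl; exact hc h4)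
    refine ⟨c, c :: l', Or.inr (Finset.mem_insert_self _ _), dense_cons h5 hadj hcl, ?_, ?_⟩
    · rw [List.length_cons, h6, Finset.card_insert_of_notMem hc]; omega
    · intro x hx
      rcases List.mem_cons.1 hx with rfl | hx
      · exact Or.inl (Finset.mem_insert_self _ _)
      · rcases h7 x hx with h | h
        · exact Or.inl (Finset.mem_insert_of_mem h)
        · exact Or.inr h

/-- Choose `j` elements and one more in a finite set. -/
theorem denseR_choose {V : Type*} (C : Finset V) (j : ℕ) (h : j + 1 ≤ C.card) :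
    ∃ (D : Finset V) (w : V), D ⊆ C ∧ D.card = j ∧ w ∈ C ∧ w ∉ D := by
  obtain ⟨E, hE, hEc⟩ := Finset.exists_subset_card_eq h
  obtain ⟨w, hw⟩ : E.Nonempty := Finset.card_pos.1 (by omega)
  exact ⟨E.erase w, w, (Finset.erase_subset _ _).trans hE, by
    rw [Finset.card_erase_of_mem hw]; omega, hE hw, by simp⟩

/-- The abstract statement: `A`, `B` disjoint, complete to each other, a mate in `A` for every vertex of
`A`, a clique `C` with five elements in `B`. -/
theorem denseR_paths {V : Type*} {G : SimpleGraph V} (t r : ℕ) (ht : 3 ≤ t) (hr : r ≤ 3)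
    (A B C : Finset V) (hAB : Disjoint A B) (hadj : ∀ a ∈ A, ∀ b ∈ B, G.Adj a b)
    (hA : A.card = 2 * t) (hB : B.card = 2 * t + r) (hCB : C ⊆ B) (hC5 : C.card = 5)
    (hC : ∀ a ∈ C, ∀ b ∈ C, a ≠ b → G.Adj a b)
    (hmate : ∀ a ∈ A, ∃ a' ∈ A, G.Adj a a')
    (u v : V) (hu : u ∈ A ∨ u ∈ B) (hv : v ∈ A ∨ v ∈ B) (huv : u ≠ v)
    (i : ℕ) (hi3 : 3 ≤ i) (hi : i ≤ 4 * t + r) :
    ∃ l, LPath G u v l ∧ l.length = i := by
  have hadj' : ∀ a ∈ B, ∀ b ∈ A, G.Adj a b := fun a ha b hb => (hadj b hb a ha).symm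
  -- ends in different parts
  have key : ∀ u ∈ A, ∀ v ∈ B, ∃ l, LPath G u v l ∧ l.length = i := by
    intro u hu v hv
    by_cases h4 : i ≤ 4 * t
    · rcases Nat.even_or_odd' i with ⟨s, hs | hs⟩
      · obtain ⟨l, h1, h2, _⟩ := dense_L1 (G := G) (s - 1) A B u v hAB
          hadj hu hv (by omega) (by omega)
        exact ⟨l, h1, by omega⟩
      · obtain ⟨u', hu', huu⟩ := hmate u hu
        obtain ⟨l, h1, h2⟩ := dense_L5 (G := G) (s - 1) A B u u' v hAB hadj hu hu' huu hv
          (by omega) (by omega)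
        exact ⟨l, h1, by omega⟩
    · obtain ⟨j, hj⟩ : ∃ j, i = 4 * t + j := ⟨i - 4 * t, by omega⟩
      have hCv : 4 ≤ (C.erase v).card := by
        have := Finset.pred_card_le_card_erase (s := C) (a := v)
        omega
      obtain ⟨D, w, hD1, hD2, hw, hwD⟩ := denseR_choose (C.erase v) j (by omega)
      have hDC : ∀ x ∈ D, x ∈ C ∧ x ≠ v := fun x hx =>
        ⟨Finset.mem_of_mem_erase (hD1 hx), (Finset.mem_erase.1 (hD1 hx)).1⟩
      have hw' := Finset.mem_erase.1 hw
      have hDB : D ⊆ B := fun x hx => hCB (hDC x hx).1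
      obtain ⟨l, h1, h2, h3⟩ := denseR_L2 (G := G) (2 * t - 2) (B \ D) (A.erase u) w v
        (Finset.disjoint_of_subset_left Finset.sdiff_subset
          (Finset.disjoint_of_subset_right (Finset.erase_subset _ _) hAB.symm))
        (fun a ha b hb => hadj' a (Finset.mem_sdiff.1 ha).1 b (Finset.mem_of_mem_erase hb))
        (Finset.mem_sdiff.2 ⟨hCB hw'.2, hwD⟩)
        (Finset.mem_sdiff.2 ⟨hv, fun h => (hDC v h).2 rfl⟩) hw'.1
        (by rw [Finset.card_sdiff_of_subset hDB]; omega)
        (by rw [Finset.card_erase_of_mem hu]; omega)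
      obtain ⟨c0, l', h4, h5, h6, h7⟩ := denseR_run h1 D
        (fun a ha => hC a (hDC a ha).1 w hw'.2 (by rintro rfl; exact hwD ha))
        (fun a ha b hb hab => hC a (hDC a ha).1 b (hDC b hb).1 hab)
        (fun c hc h => by
          rcases h3 c h with h | h
          · exact (Finset.mem_sdiff.1 h).2 hc
          · exact Finset.disjoint_left.1 hAB (Finset.mem_of_mem_erase h) (hDB hc))
      have hc0 : c0 ∈ B := by
        rcases h4 with rfl | h4
        · exact hCB hw'.2
        · exact hDB h4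
      refine ⟨u :: l', dense_cons h5 (hadj u hu c0 hc0) ?_, ?_⟩
      · intro h
        rcases h7 u h with h | h
        · exact Finset.disjoint_left.1 hAB hu (hDB h)
        · rcases h3 u h with h | h
          · exact Finset.disjoint_left.1 hAB hu (Finset.mem_sdiff.1 h).1
          · simp at h
      · rw [List.length_cons, h6, h2, hD2]; omega
  rcases hu with hu | hu <;> rcases hv with hv | hv
  · -- both in `A`
    by_cases h4 : i ≤ 4 * t
    · rcases Nat.even_or_odd' i with ⟨s, hs | hs⟩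
      · obtain ⟨D, w, hD1, hD2, hw, hwD⟩ := denseR_choose C 1 (by omega)
        obtain ⟨d, hd⟩ := Finset.card_eq_one.1 hD2
        subst hd
        have hdC : d ∈ C := hD1 (by simp)
        have hdw : d ≠ w := by rintro rfl; exact hwD (by simp)
        obtain ⟨l, h1, h2⟩ := dense_L3 (G := G) (s - 2) A B u v d w hAB hadj hu hv huv
          (hCB hdC) (hCB hw) (hC d hdC w hw hdw) (by omega) (by omega)
        exact ⟨l, h1, by omega⟩
      · obtain ⟨l, h1, h2⟩ := dense_L2 (G := G) (s - 1) A B u v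
          hAB hadj hu hv huv (by omega) (by omega)
        exact ⟨l, h1, by omega⟩
    · obtain ⟨j, hj⟩ : ∃ j, i = 4 * t + j := ⟨i - 4 * t, by omega⟩
      obtain ⟨D, w, hDC, hD2, hw, hwD⟩ := denseR_choose C (j + 1) (by omega)
      have hDB : D ⊆ B := fun x hx => hCB (hDC hx)
      obtain ⟨l, h1, h2, h3⟩ := dense_L1 (G := G) (2 * t - 2) (B \ D) (A.erase u) w v
        (Finset.disjoint_of_subset_left Finset.sdiff_subset
          (Finset.disjoint_of_subset_right (Finset.erase_subset _ _) hAB.symm))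
        (fun a ha b hb => hadj' a (Finset.mem_sdiff.1 ha).1 b (Finset.mem_of_mem_erase hb))
        (Finset.mem_sdiff.2 ⟨hCB hw, hwD⟩)
        (Finset.mem_erase.2 ⟨huv.symm, hv⟩)
        (by rw [Finset.card_sdiff_of_subset hDB]; omega)
        (by rw [Finset.card_erase_of_mem hu]; omega)
      obtain ⟨c0, l', h4, h5, h6, h7⟩ := denseR_run h1 D
        (fun a ha => hC a (hDC ha) w hw (by rintro rfl; exact hwD ha))
        (fun a ha b hb hab => hC a (hDC ha) b (hDC hb) hab)
        (fun c hc h => by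
          rcases h3 c h with h | h
          · exact (Finset.mem_sdiff.1 h).2 hc
          · exact Finset.disjoint_left.1 hAB (Finset.mem_of_mem_erase h) (hDB hc))
      have hc0 : c0 ∈ B := by
        rcases h4 with rfl | h4
        · exact hCB hw
        · exact hDB h4
      refine ⟨u :: l', dense_cons h5 (hadj u hu c0 hc0) ?_, ?_⟩
      · intro h
        rcases h7 u h with h | h
        · exact Finset.disjoint_left.1 hAB hu (hDB h)
        · rcases h3 u h with h | h
          · exact Finset.disjoint_left.1 hAB hu (Finset.mem_sdiff.1 h).1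
          · simp at h
      · rw [List.length_cons, h6, h2, hD2]; omega
  · exact key u hu v hv
  · obtain ⟨l, h1, h2⟩ := key v hv u hu
    exact ⟨l.reverse, h1.reverse, by rw [List.length_reverse]; exact h2⟩
  · -- both in `B`
    by_cases h4 : i ≤ 4 * t + 1
    · rcases Nat.even_or_odd' i with ⟨s, hs | hs⟩
      · obtain ⟨a, ha⟩ : A.Nonempty := Finset.card_pos.1 (by omega)
        obtain ⟨a', ha', haa⟩ := hmate a ha
        obtain ⟨l, h1, h2⟩ := dense_L3 (G := G) (s - 2) B A u v a a' hAB.symm hadj' hu hv huv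
          ha ha' haa (by omega) (by omega)
        exact ⟨l, h1, by omega⟩
      · obtain ⟨l, h1, h2⟩ := dense_L2 (G := G) (s - 1) B A u v
          hAB.symm hadj' hu hv huv (by omega) (by omega)
        exact ⟨l, h1, by omega⟩
    · obtain ⟨j, hj⟩ : ∃ j, i = 4 * t + j := ⟨i - 4 * t, by omega⟩
      obtain ⟨a, ha⟩ : A.Nonempty := Finset.card_pos.1 (by omega)
      have hCv : 3 ≤ ((C.erase v).erase u).card := by
        have h1 := Finset.pred_card_le_card_erase (s := C) (a := v)
        have h2 := Finset.pred_card_le_card_erase (s := C.erase v) (a := u)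
        omega
      obtain ⟨D, w, hD1, hD2, hw, hwD⟩ := denseR_choose ((C.erase v).erase u) (j - 1) (by omega)
      have hDC : ∀ x ∈ D, x ∈ C ∧ x ≠ v ∧ x ≠ u := fun x hx => by
        have h1 := Finset.mem_erase.1 (hD1 hx)
        have h2 := Finset.mem_erase.1 h1.2
        exact ⟨h2.2, h2.1, h1.1⟩
      have hw1 := Finset.mem_erase.1 hw
      have hw2 := Finset.mem_erase.1 hw1.2
      have hDB : D ⊆ B := fun x hx => hCB (hDC x hx).1
      have hDB' : D ⊆ B.erase u := fun x hx => Finset.mem_erase.2 ⟨(hDC x hx).2.2, hDB hx⟩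
      obtain ⟨l, h1, h2, h3⟩ := denseR_L2 (G := G) (2 * t - 2) ((B.erase u) \ D) (A.erase a) w v
        (Finset.disjoint_of_subset_left (Finset.sdiff_subset.trans (Finset.erase_subset _ _))
          (Finset.disjoint_of_subset_right (Finset.erase_subset _ _) hAB.symm))
        (fun x hx b hb => hadj' x (Finset.mem_of_mem_erase (Finset.mem_sdiff.1 hx).1) b
          (Finset.mem_of_mem_erase hb))
        (Finset.mem_sdiff.2 ⟨Finset.mem_erase.2 ⟨hw1.1, hCB hw2.2⟩, hwD⟩)
        (Finset.mem_sdiff.2 ⟨Finset.mem_erase.2 ⟨huv.symm, hv⟩, fun h => (hDC v h).2.1 rfl⟩) hw2.1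
        (by rw [Finset.card_sdiff_of_subset hDB', Finset.card_erase_of_mem hu]; omega)
        (by rw [Finset.card_erase_of_mem ha]; omega)
      obtain ⟨c0, l', h4, h5, h6, h7⟩ := denseR_run h1 D
        (fun x hx => hC x (hDC x hx).1 w hw2.2 (by rintro rfl; exact hwD hx))
        (fun x hx b hb hab => hC x (hDC x hx).1 b (hDC b hb).1 hab)
        (fun c hc h => by
          rcases h3 c h with h | h
          · exact (Finset.mem_sdiff.1 h).2 hc
          · exact Finset.disjoint_left.1 hAB (Finset.mem_of_mem_erase h) (hDB hc))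
      have hc0 : c0 ∈ B := by
        rcases h4 with rfl | h4
        · exact hCB hw2.2
        · exact hDB h4
      have hal : a ∉ l' := by
        intro h
        rcases h7 a h with h | h
        · exact Finset.disjoint_left.1 hAB ha (hDB h)
        · rcases h3 a h with h | h
          · exact Finset.disjoint_left.1 hAB ha
              (Finset.mem_of_mem_erase (Finset.mem_sdiff.1 h).1)
          · simp at h
      have hul : u ∉ a :: l' := by
        intro h
        rcases List.mem_cons.1 h with h | h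
        · subst h
          exact Finset.disjoint_left.1 hAB ha hu
        · rcases h7 u h with h | h
          · exact (hDC u h).2.2 rfl
          · rcases h3 u h with h | h
            · simp at h
            · exact Finset.disjoint_left.1 hAB (Finset.mem_of_mem_erase h) hu
      refine ⟨u :: a :: l', dense_cons (dense_cons h5 (hadj a ha c0 hc0) hal)
        (hadj' u hu a ha) hul, ?_⟩
      rw [List.length_cons, List.length_cons, h6, h2, hD2]; omega

theorem denseR_adj_lr (t r : ℕ) (a : Fin (2 * t)) (b : Fin (2 * t + r)) :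
    (denseR t r).Adj (Sum.inl a) (Sum.inr b) := by
  unfold denseR
  rw [SimpleGraph.fromRel_adj]
  refine ⟨by simp, Or.inl (Or.inl ⟨a, b, rfl, rfl⟩)⟩

theorem denseR_adj_ll (t r : ℕ) (a b : Fin (2 * t)) :
    (denseR t r).Adj (Sum.inl a) (Sum.inl b) ↔ a ≠ b ∧ a.val / 2 = b.val / 2 := by
  unfold denseR
  rw [SimpleGraph.fromRel_adj]
  constructor
  · rintro ⟨h1, h2⟩
    refine ⟨by simpa using h1, ?_⟩
    rcases h2 with (⟨x, y, h, h'⟩ | ⟨x, y, h, h', h''⟩ | ⟨x, y, h, h', _⟩) |
      (⟨x, y, h, h'⟩ | ⟨x, y, h, h', h''⟩ | ⟨x, y, h, h', _⟩)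
    all_goals simp at h h'
    · subst h; subst h'; exact h''
    · subst h; subst h'; exact h''.symm
  · rintro ⟨h1, h2⟩
    exact ⟨by simpa using h1, Or.inl (Or.inr (Or.inl ⟨a, b, rfl, rfl, h2⟩))⟩

theorem denseR_adj_rr (t r : ℕ) (a b : Fin (2 * t + r)) :
    (denseR t r).Adj (Sum.inr a) (Sum.inr b) ↔ a ≠ b ∧ a.val < 5 ∧ b.val < 5 := by
  unfold denseR
  rw [SimpleGraph.fromRel_adj]
  constructor
  · rintro ⟨h1, h2⟩
    refine ⟨by simpa using h1, ?_⟩
    rcases h2 with (⟨x, y, h, h'⟩ | ⟨x, y, h, h', h''⟩ | ⟨x, y, h, h', h''⟩) |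
      (⟨x, y, h, h'⟩ | ⟨x, y, h, h', h''⟩ | ⟨x, y, h, h', h''⟩)
    all_goals simp at h h'
    · subst h; subst h'; exact h''
    · subst h; subst h'; exact ⟨h''.2, h''.1⟩
  · rintro ⟨h1, h2⟩
    exact ⟨by simpa using h1, Or.inl (Or.inr (Or.inr ⟨a, b, rfl, rfl, h2.1, h2.2⟩))⟩

theorem denseR_pld (t r : ℕ) (ht : 3 ≤ t) (hr : r ≤ 3) : PLDMaximal (denseR t r) := by
  intro i hi3 hi
  rw [hasP_iff]
  have hcard : Fintype.card (Fin (2 * t) ⊕ Fin (2 * t + r)) = 4 * t + r := by
    rw [Fintype.card_sum, Fintype.card_fin, Fintype.card_fin]; omega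
  rw [hcard] at hi
  set A : Finset (Fin (2 * t) ⊕ Fin (2 * t + r)) :=
    Finset.univ.map ⟨Sum.inl, Sum.inl_injective⟩ with hA
  set B : Finset (Fin (2 * t) ⊕ Fin (2 * t + r)) :=
    Finset.univ.map ⟨Sum.inr, Sum.inr_injective⟩ with hB
  set C : Finset (Fin (2 * t) ⊕ Fin (2 * t + r)) :=
    (Finset.univ.filter (fun b : Fin (2 * t + r) => b.val < 5)).map
      ⟨Sum.inr, Sum.inr_injective⟩ with hC
  have cA : A.card = 2 * t := by rw [hA, Finset.card_map, Finset.card_univ, Fintype.card_fin]
  have cB : B.card = 2 * t + r := by rw [hB, Finset.card_map, Finset.card_univ, Fintype.card_fin]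
  have cC : C.card = 5 := by
    rw [hC, Finset.card_map]
    have : (Finset.univ.filter (fun b : Fin (2 * t + r) => b.val < 5)) =
        (Finset.univ : Finset (Fin 5)).map ⟨Fin.castLE (show 5 ≤ 2 * t + r by omega),
          Fin.castLE_injective _⟩ := by
      ext b
      simp only [Finset.mem_filter, Finset.mem_univ, true_and, Finset.mem_map,
        Function.Embedding.coeFn_mk]
      constructor
      · intro h
        exact ⟨⟨b.val, h⟩, rfl⟩
      · rintro ⟨a, rfl⟩
        exact a.isLt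
    rw [this, Finset.card_map, Finset.card_univ, Fintype.card_fin]
  have hAB : Disjoint A B := by
    rw [Finset.disjoint_left]
    intro x hx hy
    rw [hA, Finset.mem_map] at hx
    rw [hB, Finset.mem_map] at hy
    obtain ⟨a, _, rfl⟩ := hx
    obtain ⟨b, _, hb⟩ := hy
    simp at hb
  have hadj : ∀ a ∈ A, ∀ b ∈ B, (denseR t r).Adj a b := by
    intro x hx y hy
    rw [hA, Finset.mem_map] at hx
    rw [hB, Finset.mem_map] at hy
    obtain ⟨a, _, rfl⟩ := hx
    obtain ⟨b, _, rfl⟩ := hy
    exact denseR_adj_lr t r a b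
  have hmem : ∀ x : Fin (2 * t) ⊕ Fin (2 * t + r), x ∈ A ∨ x ∈ B := by
    rintro (a | b)
    · left; rw [hA]; simp
    · right; rw [hB]; simp
  intro u v huv
  refine denseR_paths t r ht hr A B C hAB hadj cA cB ?_ cC ?_ ?_ u v (hmem u) (hmem v) huv i
    hi3 hi
  · intro x hx
    rw [hC, Finset.mem_map] at hx
    obtain ⟨b, _, rfl⟩ := hx
    rw [hB]; simp
  · intro x hx y hy hxy
    rw [hC, Finset.mem_map] at hx hy
    obtain ⟨a, ha, rfl⟩ := hx
    obtain ⟨b, hb, rfl⟩ := hy
    exact (denseR_adj_rr t r a b).2 ⟨by rintro rfl; exact hxy rfl, (Finset.mem_filter.1 ha).2,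
      (Finset.mem_filter.1 hb).2⟩
  · intro x hx
    rw [hA, Finset.mem_map] at hx
    obtain ⟨a, _, rfl⟩ := hx
    obtain ⟨b, hab, hdiv⟩ := dense_mate t a
    exact ⟨Sum.inl b, by rw [hA]; simp, (denseR_adj_ll t r a b).2 ⟨hab, hdiv⟩⟩

end Pool.Agent.Lib.MP_0f64c5_co
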