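import Pool.Agent.Lib.MP_0f64c5_co.DenseR
import Pool.Agent.Lib.MP_0f64c5_co.IsoA
import Pool.Agent.Lib.MP_0f64c5_co.IsoC

/-!
# Minimal PLD-maximal graphs with about `n^2 / 4` edges, for every order `n ≥ 12`
-/

set_option autoImplicit false

namespace Pool.Agent.Lib.MP_0f64c5_co

open Classical

theorem denseR_common {t r : ℕ} {a : Fin (2 * t)} {b : Fin (2 * t + r)} (hb : 5 ≤ b.val)
    {w : Fin (2 * t) ⊕ Fin (2 * t + r)} (h1 : (denseR t r).Adj (Sum.inl a) w)
    (h2 : (denseR t r).Adj w (Sum.inr b)) :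
    ∃ a' : Fin (2 * t), w = Sum.inl a' ∧ a ≠ a' ∧ a.val / 2 = a'.val / 2 := by
  rcases w with a' | b'
  · rw [denseR_adj_ll] at h1
    exact ⟨a', rfl, h1.1, h1.2⟩
  · rw [denseR_adj_rr] at h2
    omega

/-- The critical edges are contained in every spanning subgraph with `P_3`. -/
theorem denseR_crit {t r : ℕ} {G : SimpleGraph (Fin (2 * t) ⊕ Fin (2 * t + r))}
    (hle : G ≤ denseR t r) (h3 : HasP G 3) (a : Fin (2 * t)) (b : Fin (2 * t + r))
    (hb : 5 ≤ b.val) :
    G.Adj (Sum.inl a) (Sum.inr b) ∧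
      ∀ a' : Fin (2 * t), a ≠ a' → a.val / 2 = a'.val / 2 → G.Adj (Sum.inl a) (Sum.inl a') := by
  rw [hasP_three_iff] at h3
  constructor
  · obtain ⟨c, hac, hdiv⟩ := dense_mate t a
    obtain ⟨w, h1, h2⟩ := h3 (Sum.inl c) (Sum.inr b) (by simp)
    obtain ⟨a', rfl, h4, h5⟩ := denseR_common hb (hle h1) (hle h2)
    have : a' = a := by
      apply Fin.ext
      have h6 : a.val ≠ c.val := fun h => hac (Fin.ext h)
      have h7 : c.val ≠ a'.val := fun h => h4 (Fin.ext h)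
      omega
    rw [this] at h2
    exact h2
  · intro a' hne hdiv
    obtain ⟨w, h1, h2⟩ := h3 (Sum.inl a) (Sum.inr b) (by simp)
    obtain ⟨a'', rfl, h4, h5⟩ := denseR_common hb (hle h1) (hle h2)
    have : a'' = a' := by
      apply Fin.ext
      have h6 : a.val ≠ a'.val := fun h => hne (Fin.ext h)
      have h7 : a.val ≠ a''.val := fun h => h4 (Fin.ext h)
      omega
    rw [this] at h1
    exact h1

/-- Injective list of critical edges. -/
def denseRf (t r : ℕ) (h : 5 ≤ 2 * t + r) :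
    (Fin (2 * t) × Fin (2 * t + r - 5)) ⊕ Fin t → Sym2 (Fin (2 * t) ⊕ Fin (2 * t + r))
  | Sum.inl p => s(Sum.inl p.1, Sum.inr ⟨p.2.val + 5, by have := p.2.isLt; omega⟩)
  | Sum.inr j => s(Sum.inl ⟨2 * j.val, by have := j.isLt; omega⟩,
      Sum.inl ⟨2 * j.val + 1, by have := j.isLt; omega⟩)

theorem denseRf_inj (t r : ℕ) (h : 5 ≤ 2 * t + r) : Function.Injective (denseRf t r h) := by
  rintro (⟨a, b⟩ | j) (⟨a', b'⟩ | j') hh
  · simp only [denseRf, Sym2.eq_iff, Sum.inl.injEq, Sum.inr.injEq, Fin.mk.injEq,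
      reduceCtorEq, false_and, or_false] at hh
    obtain ⟨rfl, h2⟩ := hh
    have : b = b' := Fin.ext (by omega)
    rw [this]
  · simp [denseRf] at hh
  · simp [denseRf] at hh
  · simp only [denseRf, Sym2.eq_iff, Sum.inl.injEq, Fin.mk.injEq] at hh
    have : j = j' := Fin.ext (by omega)
    rw [this]

theorem denseR_edges {t r : ℕ} (ht : 3 ≤ t) {G : SimpleGraph (Fin (2 * t) ⊕ Fin (2 * t + r))}
    (hle : G ≤ denseR t r) (h3 : HasP G 3) : 2 * t * (2 * t + r - 5) + t ≤ edges G := by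
  have h5 : 5 ≤ 2 * t + r := by omega
  have hsub : Set.range (denseRf t r h5) ⊆ G.edgeSet := by
    rintro _ ⟨(⟨a, b⟩ | j), rfl⟩
    · exact (denseR_crit hle h3 a _ (by simp)).1
    · exact (denseR_crit hle h3 _ ⟨5, by omega⟩ le_rfl).2 _ (by simp [Fin.ext_iff])
        (by simp only; omega)
  have h1 : (Set.range (denseRf t r h5)).ncard ≤ G.edgeSet.ncard :=
    Set.ncard_le_ncard hsub (Set.toFinite _)
  rw [← Set.image_univ, Set.ncard_image_of_injective _ (denseRf_inj t r h5),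
    Set.ncard_univ, Nat.card_eq_fintype_card, Fintype.card_sum, Fintype.card_prod,
    Fintype.card_fin, Fintype.card_fin, Fintype.card_fin] at h1
  exact h1

theorem exists_dense_all (n : ℕ) (hn : 12 ≤ n) :
    ∃ G : SimpleGraph (Fin n), MinimalPLDMaximal G ∧ n ^ 2 ≤ 4 * edges G + 9 * n := by
  obtain ⟨t, r, hr, rfl⟩ : ∃ t r, r ≤ 3 ∧ n = 4 * t + r :=
    ⟨n / 4, n % 4, by omega, by omega⟩
  have ht : 3 ≤ t := by omega
  obtain ⟨G, hle, hG⟩ := exists_minimal_sub (denseR_pld t r ht hr)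
  have hcard : Fintype.card (Fin (2 * t) ⊕ Fin (2 * t + r)) = 4 * t + r := by
    rw [Fintype.card_sum, Fintype.card_fin, Fintype.card_fin]; omega
  have h3 : HasP G 3 := hG.1 3 le_rfl (by rw [hcard]; omega)
  have he := denseR_edges ht hle h3
  let e : Fin (2 * t) ⊕ Fin (2 * t + r) ≃ Fin (4 * t + r) :=
    Fintype.equivFinOfCardEq hcard
  let f : G ≃g G.map e.toEmbedding := SimpleGraph.Iso.map e G
  refine ⟨G.map e.toEmbedding, minimalPLDMaximal_iso f hG, ?_⟩
  rw [← edges_iso f]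
  obtain ⟨q, hq⟩ : ∃ q, 2 * t + r = q + 5 := ⟨2 * t + r - 5, by omega⟩
  have hq2 : 2 * t + r - 5 = q := by omega
  rw [hq2] at he
  have hrr : r * r ≤ 3 * r := Nat.mul_le_mul_right r hr
  have h6 : 2 * t * q + t ≤ edges G := he
  have h7 : (4 * t + r) ^ 2 = 4 * (2 * t * q + t) + 9 * (4 * t + r) + r * r - 9 * r := by
    zify [show 9 * r ≤ 4 * (2 * t * q + t) + 9 * (4 * t + r) + r * r by nlinarith]
    have : (q : ℤ) = 2 * t + r - 5 := by omega
    rw [this]; ring
  omega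

end Pool.Agent.Lib.MP_0f64c5_co
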