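import Pool.Agent.Lib.MP_0f64c5_co.Defs

/-!
# A criterion for PLD-maximality: two large cliques

Every vertex is complete to the clique `S` or to the clique `T`; four connectors are complete to both.
-/

set_option autoImplicit false

namespace Pool.Agent.Lib.MP_0f64c5_co

open Classical

variable {V : Type*}

/-- A list all of whose inner steps and both ends may be attached: the vertices of `A` are inserted in the
clique `S`. -/
theorem emb_mix {G : SimpleGraph V} : ∀ (A S : Finset V), Disjoint A S →
    (∀ a ∈ S, ∀ b ∈ S, a ≠ b → G.Adj a b) → (∀ a ∈ A, ∀ s ∈ S, G.Adj a s) → A.card + 1 ≤ S.card →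
    ∃ L : List V, L.Nodup ∧ (∀ x, x ∈ L ↔ x ∈ A ∨ x ∈ S) ∧
      ∀ a b, (∀ s ∈ S, G.Adj a s) → (∀ s ∈ S, G.Adj s b) → (a :: (L ++ [b])).IsChain G.Adj := by
  intro A
  induction A using Finset.induction_on with
  | empty =>
    intro S _ hS _ hc
    have key : ∀ (l : List V), l.Nodup → (∀ x ∈ l, x ∈ S) → l ≠ [] → ∀ a b,
        (∀ s ∈ S, G.Adj a s) → (∀ s ∈ S, G.Adj s b) → (a :: (l ++ [b])).IsChain G.Adj := by
      intro l
      induction l with
      | nil => intro _ _ h; exact absurd rfl h
      | cons x l ih =>
        intro hn hm _ a b ha hb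
        rw [List.cons_append, List.isChain_cons_cons]
        refine ⟨ha x (hm x (by simp)), ?_⟩
        rw [List.nodup_cons] at hn
        by_cases hl : l = []
        · subst hl
          simp [hb x (hm x (by simp))]
        · have h1 := ih hn.2 (fun y hy => hm y (by simp [hy])) hl
          obtain ⟨y, l', rfl⟩ := List.exists_cons_of_ne_nil hl
          have h2 := h1 y b
          rw [List.cons_append, List.isChain_cons_cons]
          refine ⟨hS x (hm x (by simp)) y (hm y (by simp)) ?_, ?_⟩
          · rintro rfl
            exact hn.1 (by simp)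
          · have h3 := h1 a b ha hb
            rw [List.cons_append, List.isChain_cons_cons] at h3
            exact h3.2
    refine ⟨S.toList, S.nodup_toList, by simp, ?_⟩
    apply key _ S.nodup_toList (by simp)
    intro h
    rw [Finset.toList_eq_nil] at h
    subst h
    simp at hc
  | insert x A hx ih =>
    intro S hd hS hA hc
    rw [Finset.card_insert_of_notMem hx] at hc
    obtain ⟨s, hs⟩ : S.Nonempty := Finset.card_pos.1 (by omega)
    have hdx : x ∉ S := Finset.disjoint_left.1 hd (Finset.mem_insert_self _ _)
    have hd' : Disjoint A (S.erase s) := by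
      rw [Finset.disjoint_left]
      intro a ha hb
      exact Finset.disjoint_left.1 hd (Finset.mem_insert_of_mem ha) (Finset.mem_of_mem_erase hb)
    obtain ⟨L, h1, h2, h3⟩ := ih (S.erase s) hd'
      (fun a ha b hb => hS a (Finset.mem_of_mem_erase ha) b (Finset.mem_of_mem_erase hb))
      (fun a ha b hb => hA a (Finset.mem_insert_of_mem ha) b (Finset.mem_of_mem_erase hb))
      (by rw [Finset.card_erase_of_mem hs]; omega)
    have hsA : s ∉ A := fun h => Finset.disjoint_left.1 hd (Finset.mem_insert_of_mem h) hs
    refine ⟨s :: x :: L, ?_, ?_, ?_⟩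
    · rw [List.nodup_cons, List.nodup_cons]
      refine ⟨?_, ?_, h1⟩
      · rw [List.mem_cons, h2]
        rintro (rfl | h | h)
        · exact hdx hs
        · exact hsA h
        · exact (Finset.notMem_erase s S) h
      · rw [h2]
        rintro (h | h)
        · exact hx h
        · exact hdx (Finset.mem_of_mem_erase h)
    · intro y
      rw [List.mem_cons, List.mem_cons, h2, Finset.mem_insert, Finset.mem_erase]
      constructor
      · rintro (rfl | rfl | h | h)
        · exact Or.inr hs
        · exact Or.inl (Or.inl rfl)
        · exact Or.inl (Or.inr h)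
        · exact Or.inr h.2
      · rintro ((rfl | h) | h)
        · exact Or.inr (Or.inl rfl)
        · exact Or.inr (Or.inr (Or.inl h))
        · by_cases hys : y = s
          · exact Or.inl hys
          · exact Or.inr (Or.inr (Or.inr ⟨hys, h⟩))
    · intro a b ha hb
      rw [List.cons_append, List.isChain_cons_cons, List.cons_append, List.isChain_cons_cons]
      refine ⟨ha s hs, (hA x (Finset.mem_insert_self _ _) s hs).symm, ?_⟩
      exact h3 x b (fun t ht => hA x (Finset.mem_insert_self _ _) t (Finset.mem_of_mem_erase ht))
        (fun t ht => hb t (Finset.mem_of_mem_erase ht))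

/-- Gluing. -/
theorem emb_glue {R : V → V → Prop} {a b c : V} {L M : List V} (h1 : (a :: (L ++ [b])).IsChain R)
    (h2 : (b :: (M ++ [c])).IsChain R) : (a :: (L ++ b :: (M ++ [c]))).IsChain R := by
  have : (a :: (L ++ b :: (M ++ [c]))) = (a :: L) ++ [b] ++ (M ++ [c]) := by simp
  rw [this]
  have h3 : ((a :: L) ++ [b]).IsChain R := by simpa using h1
  rw [List.isChain_append]
  refine ⟨h3, ?_, ?_⟩
  · exact List.IsChain.tail h2
  · intro x hx y hy
    rw [List.getLast?_concat] at hx
    have hxb : b = x := by simpa using hx
    subst hxb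
    obtain ⟨z, l, hz⟩ : ∃ z l, M ++ [c] = z :: l := by
      cases M with
      | nil => exact ⟨c, [], rfl⟩
      | cons z l => exact ⟨z, l ++ [c], rfl⟩
    rw [hz] at h2 hy
    rw [List.isChain_cons_cons] at h2
    have : y = z := by simpa using hy.symm
    rw [this]
    exact h2.1

end Pool.Agent.Lib.MP_0f64c5_co
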