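import Pool.Agent.Lib.MP_0f64c5_co.EmbA

/-!
# A criterion for PLD-maximality: Hamiltonian paths in sets
-/

set_option autoImplicit false

namespace Pool.Agent.Lib.MP_0f64c5_co

open Classical

variable {V : Type*}

/-- Two disjoint cliques, connectors, and all vertices complete to one of them. -/
structure TwoCl (G : SimpleGraph V) (S T C : Finset V) : Prop where
  disj : ∀ x, x ∈ S → x ∉ T
  cS : ∀ a ∈ S, ∀ b ∈ S, a ≠ b → G.Adj a b
  cT : ∀ a ∈ T, ∀ b ∈ T, a ≠ b → G.Adj a b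
  all : ∀ v, (∀ s ∈ S, s ≠ v → G.Adj v s) ∨ (∀ t ∈ T, t ≠ v → G.Adj v t)
  conS : ∀ c ∈ C, c ∉ S
  conT : ∀ c ∈ C, c ∉ T
  adS : ∀ c ∈ C, ∀ s ∈ S, G.Adj c s
  adT : ∀ c ∈ C, ∀ s ∈ T, G.Adj c s

theorem TwoCl.swap {G : SimpleGraph V} {S T C : Finset V} (h : TwoCl G S T C) : TwoCl G T S C :=
  ⟨fun x hx hs => h.disj x hs hx, h.cT, h.cS, fun v => (h.all v).symm, h.conT, h.conS, h.adT, h.adS⟩

theorem emb_len {l : List V} {X : Finset V} (hn : l.Nodup) (hm : ∀ x, x ∈ l ↔ x ∈ X) :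
    l.length = X.card := by
  rw [← List.toFinset_card_of_nodup hn]
  congr 1
  ext x
  rw [List.mem_toFinset, hm]

theorem emb_SS {G : SimpleGraph V} {S T C : Finset V} (h : TwoCl G S T C) (X : Finset V) (u v : V)
    (huv : u ≠ v) (hu : u ∈ X) (hv : v ∈ X) (hC : C ⊆ X) (hC4 : 4 ≤ C.card)
    (hPu : ∀ s ∈ S, s ≠ u → G.Adj u s) (hPv : ∀ s ∈ S, s ≠ v → G.Adj v s)
    (hcS : (X \ (S ∪ T)).card + 6 ≤ (X ∩ S).card) (hcT : (X \ (S ∪ T)).card + 6 ≤ (X ∩ T).card) :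
    ∃ l, LPath G u v l ∧ l.length = X.card := by
  obtain ⟨c1, hc1, c2, hc2, hcc⟩ : ∃ c1 ∈ C \ {u, v}, ∃ c2 ∈ C \ {u, v}, c1 ≠ c2 := by
    have h1 : ({u, v} : Finset V).card ≤ 2 := Finset.card_le_two
    have h2 := Finset.le_card_sdiff {u, v} C
    exact Finset.one_lt_card.1 (by omega)
  simp only [Finset.mem_sdiff, Finset.mem_insert, Finset.mem_singleton, not_or] at hc1 hc2
  obtain ⟨s, hs⟩ : ((X ∩ S) \ {u, v}).Nonempty := by
    rw [← Finset.card_pos]
    have h1 : ({u, v} : Finset V).card ≤ 2 := Finset.card_le_two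
    have h2 := Finset.le_card_sdiff {u, v} (X ∩ S)
    omega
  have hS2c : (X \ (S ∪ T)).card + 1 ≤ (((X ∩ S) \ {u, v}).erase s).card := by
    have h1 : ({u, v} : Finset V).card ≤ 2 := Finset.card_le_two
    have h2 := Finset.le_card_sdiff {u, v} (X ∩ S)
    rw [Finset.card_erase_of_mem hs]
    omega
  have hT2c : (X \ (S ∪ T)).card + 1 ≤ ((X ∩ T) \ {u, v}).card := by
    have h1 : ({u, v} : Finset V).card ≤ 2 := Finset.card_le_two
    have h2 := Finset.le_card_sdiff {u, v} (X ∩ T)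
    omega
  have hA : ((X \ (S ∪ T)) \ {u, v, c1, c2}).filter (fun x => ∀ s ∈ S, s ≠ x → G.Adj x s) ⊆ X \ (S ∪ T) :=
    (Finset.filter_subset _ _).trans Finset.sdiff_subset
  have hB : ((X \ (S ∪ T)) \ {u, v, c1, c2}).filter (fun x => ¬ ∀ s ∈ S, s ≠ x → G.Adj x s) ⊆ X \ (S ∪ T) :=
    (Finset.filter_subset _ _).trans Finset.sdiff_subset
  have hAc := Finset.card_le_card hA
  have hBc := Finset.card_le_card hB
  have mA : ∀ x, x ∈ ((X \ (S ∪ T)) \ {u, v, c1, c2}).filter (fun x => ∀ s ∈ S, s ≠ x → G.Adj x s) ↔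
      x ∈ X ∧ x ∉ S ∧ x ∉ T ∧ x ≠ u ∧ x ≠ v ∧ x ≠ c1 ∧ x ≠ c2 ∧ ∀ s ∈ S, s ≠ x → G.Adj x s := by
    intro x; simp only [Finset.mem_filter, Finset.mem_sdiff, Finset.mem_union, Finset.mem_insert,
      Finset.mem_singleton]; tauto
  have mB : ∀ x, x ∈ ((X \ (S ∪ T)) \ {u, v, c1, c2}).filter (fun x => ¬ ∀ s ∈ S, s ≠ x → G.Adj x s) ↔
      x ∈ X ∧ x ∉ S ∧ x ∉ T ∧ x ≠ u ∧ x ≠ v ∧ x ≠ c1 ∧ x ≠ c2 ∧ ¬ ∀ s ∈ S, s ≠ x → G.Adj x s := by
    intro x; simp only [Finset.mem_filter, Finset.mem_sdiff, Finset.mem_union, Finset.mem_insert,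
      Finset.mem_singleton]; tauto
  have mS : ∀ x, x ∈ ((X ∩ S) \ {u, v}).erase s ↔ x ≠ s ∧ x ∈ X ∧ x ∈ S ∧ x ≠ u ∧ x ≠ v := by
    intro x; simp only [Finset.mem_erase, Finset.mem_sdiff, Finset.mem_inter, Finset.mem_insert,
      Finset.mem_singleton]; tauto
  have mT : ∀ x, x ∈ (X ∩ T) \ {u, v} ↔ x ∈ X ∧ x ∈ T ∧ x ≠ u ∧ x ≠ v := by
    intro x; simp only [Finset.mem_sdiff, Finset.mem_inter, Finset.mem_insert,
      Finset.mem_singleton]; tauto
  generalize ((X \ (S ∪ T)) \ {u, v, c1, c2}).filter (fun x => ∀ s ∈ S, s ≠ x → G.Adj x s) = A at hAc mA hA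
  generalize ((X \ (S ∪ T)) \ {u, v, c1, c2}).filter (fun x => ¬ ∀ s ∈ S, s ≠ x → G.Adj x s) = B at hBc mB hB
  simp only [Finset.mem_sdiff, Finset.mem_inter, Finset.mem_insert, Finset.mem_singleton, not_or] at hs
  generalize ((X ∩ S) \ {u, v}).erase s = S2 at hS2c mS
  generalize (X ∩ T) \ {u, v} = T2 at hT2c mT
  obtain ⟨L1, n1, m1, k1⟩ := emb_mix (G := G) A S2
    (Finset.disjoint_left.2 fun x hx hy => ((mA x).1 hx).2.1 ((mS x).1 hy).2.2.1)
    (fun a ha b hb => h.cS a ((mS a).1 ha).2.2.1 b ((mS b).1 hb).2.2.1)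
    (fun a ha b hb => ((mA a).1 ha).2.2.2.2.2.2.2 b ((mS b).1 hb).2.2.1 (by
      rintro rfl; exact ((mA b).1 ha).2.1 ((mS b).1 hb).2.2.1))
    (by omega)
  obtain ⟨L2, n2, m2, k2⟩ := emb_mix (G := G) B T2
    (Finset.disjoint_left.2 fun x hx hy => ((mB x).1 hx).2.2.1 ((mT x).1 hy).2.1)
    (fun a ha b hb => h.cT a ((mT a).1 ha).2.1 b ((mT b).1 hb).2.1)
    (fun a ha b hb => ((h.all a).resolve_left ((mB a).1 ha).2.2.2.2.2.2.2) b ((mT b).1 hb).2.1 (by
      rintro rfl; exact ((mB b).1 ha).2.2.1 ((mT b).1 hb).2.1))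
    (by omega)
  have c1S := h.conS c1 hc1.1
  have c1T := h.conT c1 hc1.1
  have c2S := h.conS c2 hc2.1
  have c2T := h.conT c2 hc2.1
  have q1 := k1 u c1 (fun t ht => hPu t ((mS t).1 ht).2.2.1 ((mS t).1 ht).2.2.2.1)
    (fun t ht => (h.adS c1 hc1.1 t ((mS t).1 ht).2.2.1).symm)
  have q2 := k2 c1 c2 (fun t ht => h.adT c1 hc1.1 t ((mT t).1 ht).2.1)
    (fun t ht => (h.adT c2 hc2.1 t ((mT t).1 ht).2.1).symm)
  have q3 : (c2 :: ([s] ++ [v])).IsChain G.Adj := by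
    simp only [List.cons_append, List.nil_append, List.isChain_cons_cons, List.isChain_singleton, and_true]
    exact ⟨h.adS c2 hc2.1 s hs.1.2, (hPv s hs.1.2 hs.2.2).symm⟩
  have q4 := emb_glue q1 q2
  have q5 : (u :: ((L1 ++ c1 :: L2) ++ [c2])).IsChain G.Adj := by simpa using q4
  have q6 := emb_glue q5 q3
  have hsX := hs.1.1
  have hsS := hs.1.2
  have hsT := h.disj s hsS
  have hsu := hs.2.1
  have hsv := hs.2.2
  have hc1X := hC hc1.1
  have hc2X := hC hc2.1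
  have hmem : ∀ x, x ∈ (u :: ((L1 ++ c1 :: L2) ++ c2 :: ([s] ++ [v]))) ↔ x ∈ X := by
    intro x
    simp only [List.mem_cons, List.mem_append, m1, m2, mA, mB, mS, mT, List.not_mem_nil, or_false]
    constructor
    · rintro (rfl | ((((h1 | h1) | (rfl | (h1 | h1)))) | (rfl | (rfl | rfl)))) <;> first | assumption | exact h1.1 | exact h1.2.1
    · intro hx
      by_cases e1 : x = u
      · exact Or.inl e1
      by_cases e2 : x = v
      · simp [e2]
      by_cases e3 : x = c1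
      · simp [e3]
      by_cases e4 : x = c2
      · simp [e4]
      by_cases e5 : x = s
      · simp [e5]
      by_cases e6 : x ∈ S
      · simp [e1, e2, e5, e6, hx]
      by_cases e7 : x ∈ T
      · simp [e1, e2, e7, hx]
      by_cases e8 : ∀ s ∈ S, s ≠ x → G.Adj x s
      · right; left; left; left
        exact ⟨hx, e6, e7, e1, e2, e3, e4, e8⟩
      · right; left; right; right; left
        exact ⟨hx, e6, e7, e1, e2, e3, e4, e8⟩
  have hnd : (u :: ((L1 ++ c1 :: L2) ++ c2 :: ([s] ++ [v]))).Nodup := by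
    have d1 : ∀ x ∈ L1, x ≠ u ∧ x ≠ v ∧ x ≠ c1 ∧ x ≠ c2 ∧ x ≠ s ∧ x ∉ L2 := by
      intro x hx
      rw [m1, mA, mS] at hx
      refine ⟨?_, ?_, ?_, ?_, ?_, ?_⟩
      · rcases hx with hx | hx
        · exact hx.2.2.2.1
        · exact hx.2.2.2.1
      · rcases hx with hx | hx
        · exact hx.2.2.2.2.1
        · exact hx.2.2.2.2
      · rcases hx with hx | hx
        · exact hx.2.2.2.2.2.1
        · rintro rfl; exact c1S hx.2.2.1
      · rcases hx with hx | hx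
        · exact hx.2.2.2.2.2.2.1
        · rintro rfl; exact c2S hx.2.2.1
      · rcases hx with hx | hx
        · rintro rfl; exact hx.2.1 hsS
        · exact hx.1
      · rw [m2, mB, mT]
        rcases hx with hx | hx
        · rintro (h1 | h1)
          · exact h1.2.2.2.2.2.2.2 hx.2.2.2.2.2.2.2
          · exact hx.2.2.1 h1.2.1
        · rintro (h1 | h1)
          · exact h1.2.1 hx.2.2.1
          · exact h.disj x hx.2.2.1 h1.2.1
    have d2 : ∀ x ∈ L2, x ≠ u ∧ x ≠ v ∧ x ≠ c1 ∧ x ≠ c2 ∧ x ≠ s := by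
      intro x hx
      rw [m2, mB, mT] at hx
      refine ⟨?_, ?_, ?_, ?_, ?_⟩
      · rcases hx with hx | hx
        · exact hx.2.2.2.1
        · exact hx.2.2.1
      · rcases hx with hx | hx
        · exact hx.2.2.2.2.1
        · exact hx.2.2.2
      · rcases hx with hx | hx
        · exact hx.2.2.2.2.2.1
        · rintro rfl; exact c1T hx.2.1
      · rcases hx with hx | hx
        · exact hx.2.2.2.2.2.2.1
        · rintro rfl; exact c2T hx.2.1
      · rcases hx with hx | hx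
        · rintro rfl; exact hx.2.1 hsS
        · rintro rfl; exact hsT hx.2.1
    simp only [List.nodup_cons, List.nodup_append, List.mem_cons, List.mem_append, List.cons_append,
      List.nil_append, List.not_mem_nil, or_false, not_or, List.nodup_nil, and_true, not_false_eq_true]
    have e1 : s ≠ c1 := by rintro rfl; exact c1S hsS
    have e2 : s ≠ c2 := by rintro rfl; exact c2S hsS
    refine ⟨⟨⟨fun hx => (d1 u hx).1 rfl, fun hx => hc1.2.1 hx.symm, fun hx => (d2 u hx).1 rfl⟩,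
      fun hx => hc2.2.1 hx.symm, fun hx => hsu hx.symm, huv⟩, ⟨n1, ⟨fun hx => (d2 c1 hx).2.2.1 rfl, n2⟩, ?_⟩,
      ⟨⟨fun hx => e2 hx.symm, hc2.2.2⟩, hsv⟩, ?_⟩
    · intro a ha b hb
      rintro rfl
      rcases hb with rfl | hb
      · exact (d1 _ ha).2.2.1 rfl
      · exact (d1 _ ha).2.2.2.2.2 hb
    · intro a ha b hb
      rintro rfl
      rcases ha with ha | rfl | ha
      · rcases hb with rfl | rfl | rfl
        · exact (d1 _ ha).2.2.2.1 rfl
        · exact (d1 _ ha).2.2.2.2.1 rfl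
        · exact (d1 _ ha).2.1 rfl
      · rcases hb with rfl | rfl | rfl
        · exact hcc rfl
        · exact e1 rfl
        · exact hc1.2.2 rfl
      · rcases hb with rfl | rfl | rfl
        · exact (d2 _ ha).2.2.2.1 rfl
        · exact (d2 _ ha).2.2.2.2 rfl
        · exact (d2 _ ha).2.1 rfl
  refine ⟨_, ⟨q6, hnd, by simp, ?_⟩, emb_len hnd hmem⟩
  have : (u :: ((L1 ++ c1 :: L2) ++ c2 :: ([s] ++ [v]))) = (u :: ((L1 ++ c1 :: L2) ++ c2 :: [s])) ++ [v] := by simp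
  rw [this, List.getLast?_concat]

end Pool.Agent.Lib.MP_0f64c5_co
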