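import Pool.Agent.Lib.MP_0f64c5_co.EmbB

/-!
# A criterion for PLD-maximality: the criterion
-/

set_option autoImplicit false

namespace Pool.Agent.Lib.MP_0f64c5_co

open Classical

variable {V : Type*}

theorem emb_ST {G : SimpleGraph V} {S T C : Finset V} (h : TwoCl G S T C) (X : Finset V) (u v : V)
    (huv : u ≠ v) (hu : u ∈ X) (hv : v ∈ X) (hC : C ⊆ X) (hC4 : 4 ≤ C.card)
    (hPu : ∀ s ∈ S, s ≠ u → G.Adj u s) (hPv : ∀ s ∈ T, s ≠ v → G.Adj v s)
    (hcS : (X \ (S ∪ T)).card + 6 ≤ (X ∩ S).card) (hcT : (X \ (S ∪ T)).card + 6 ≤ (X ∩ T).card) :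
    ∃ l, LPath G u v l ∧ l.length = X.card := by
  obtain ⟨c1, hc1⟩ : (C \ {u, v}).Nonempty := by
    rw [← Finset.card_pos]
    have h1 : ({u, v} : Finset V).card ≤ 2 := Finset.card_le_two
    have h2 := Finset.le_card_sdiff {u, v} C
    omega
  simp only [Finset.mem_sdiff, Finset.mem_insert, Finset.mem_singleton, not_or] at hc1
  have hS2c : (X \ (S ∪ T)).card + 1 ≤ ((X ∩ S) \ {u, v}).card := by
    have h1 : ({u, v} : Finset V).card ≤ 2 := Finset.card_le_two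
    have h2 := Finset.le_card_sdiff {u, v} (X ∩ S)
    omega
  have hT2c : (X \ (S ∪ T)).card + 1 ≤ ((X ∩ T) \ {u, v}).card := by
    have h1 : ({u, v} : Finset V).card ≤ 2 := Finset.card_le_two
    have h2 := Finset.le_card_sdiff {u, v} (X ∩ T)
    omega
  have hA : ((X \ (S ∪ T)) \ {u, v, c1}).filter (fun x => ∀ s ∈ S, s ≠ x → G.Adj x s) ⊆ X \ (S ∪ T) :=
    (Finset.filter_subset _ _).trans Finset.sdiff_subset
  have hB : ((X \ (S ∪ T)) \ {u, v, c1}).filter (fun x => ¬ ∀ s ∈ S, s ≠ x → G.Adj x s) ⊆ X \ (S ∪ T) :=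
    (Finset.filter_subset _ _).trans Finset.sdiff_subset
  have hAc := Finset.card_le_card hA
  have hBc := Finset.card_le_card hB
  have mA : ∀ x, x ∈ ((X \ (S ∪ T)) \ {u, v, c1}).filter (fun x => ∀ s ∈ S, s ≠ x → G.Adj x s) ↔
      x ∈ X ∧ x ∉ S ∧ x ∉ T ∧ x ≠ u ∧ x ≠ v ∧ x ≠ c1 ∧ ∀ s ∈ S, s ≠ x → G.Adj x s := by
    intro x; simp only [Finset.mem_filter, Finset.mem_sdiff, Finset.mem_union, Finset.mem_insert,
      Finset.mem_singleton]; tauto
  have mB : ∀ x, x ∈ ((X \ (S ∪ T)) \ {u, v, c1}).filter (fun x => ¬ ∀ s ∈ S, s ≠ x → G.Adj x s) ↔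
      x ∈ X ∧ x ∉ S ∧ x ∉ T ∧ x ≠ u ∧ x ≠ v ∧ x ≠ c1 ∧ ¬ ∀ s ∈ S, s ≠ x → G.Adj x s := by
    intro x; simp only [Finset.mem_filter, Finset.mem_sdiff, Finset.mem_union, Finset.mem_insert,
      Finset.mem_singleton]; tauto
  have mS : ∀ x, x ∈ (X ∩ S) \ {u, v} ↔ x ∈ X ∧ x ∈ S ∧ x ≠ u ∧ x ≠ v := by
    intro x; simp only [Finset.mem_sdiff, Finset.mem_inter, Finset.mem_insert,
      Finset.mem_singleton]; tauto
  have mT : ∀ x, x ∈ (X ∩ T) \ {u, v} ↔ x ∈ X ∧ x ∈ T ∧ x ≠ u ∧ x ≠ v := by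
    intro x; simp only [Finset.mem_sdiff, Finset.mem_inter, Finset.mem_insert,
      Finset.mem_singleton]; tauto
  generalize ((X \ (S ∪ T)) \ {u, v, c1}).filter (fun x => ∀ s ∈ S, s ≠ x → G.Adj x s) = A at hAc mA hA
  generalize ((X \ (S ∪ T)) \ {u, v, c1}).filter (fun x => ¬ ∀ s ∈ S, s ≠ x → G.Adj x s) = B at hBc mB hB
  generalize (X ∩ S) \ {u, v} = S2 at hS2c mS
  generalize (X ∩ T) \ {u, v} = T2 at hT2c mT
  obtain ⟨L1, n1, m1, k1⟩ := emb_mix (G := G) A S2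
    (Finset.disjoint_left.2 fun x hx hy => ((mA x).1 hx).2.1 ((mS x).1 hy).2.1)
    (fun a ha b hb => h.cS a ((mS a).1 ha).2.1 b ((mS b).1 hb).2.1)
    (fun a ha b hb => ((mA a).1 ha).2.2.2.2.2.2 b ((mS b).1 hb).2.1 (by
      rintro rfl; exact ((mA b).1 ha).2.1 ((mS b).1 hb).2.1))
    (by omega)
  obtain ⟨L2, n2, m2, k2⟩ := emb_mix (G := G) B T2
    (Finset.disjoint_left.2 fun x hx hy => ((mB x).1 hx).2.2.1 ((mT x).1 hy).2.1)
    (fun a ha b hb => h.cT a ((mT a).1 ha).2.1 b ((mT b).1 hb).2.1)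
    (fun a ha b hb => ((h.all a).resolve_left ((mB a).1 ha).2.2.2.2.2.2) b ((mT b).1 hb).2.1 (by
      rintro rfl; exact ((mB b).1 ha).2.2.1 ((mT b).1 hb).2.1))
    (by omega)
  have c1S := h.conS c1 hc1.1
  have c1T := h.conT c1 hc1.1
  have q1 := k1 u c1 (fun t ht => hPu t ((mS t).1 ht).2.1 ((mS t).1 ht).2.2.1)
    (fun t ht => (h.adS c1 hc1.1 t ((mS t).1 ht).2.1).symm)
  have q2 := k2 c1 v (fun t ht => h.adT c1 hc1.1 t ((mT t).1 ht).2.1)
    (fun t ht => (hPv t ((mT t).1 ht).2.1 ((mT t).1 ht).2.2.2).symm)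
  have q4 := emb_glue q1 q2
  have hc1X := hC hc1.1
  have hmem : ∀ x, x ∈ (u :: (L1 ++ c1 :: (L2 ++ [v]))) ↔ x ∈ X := by
    intro x
    simp only [List.mem_cons, List.mem_append, m1, m2, mA, mB, mS, mT, List.not_mem_nil, or_false]
    constructor
    · rintro (rfl | ((h1 | h1) | (rfl | ((h1 | h1) | rfl)))) <;> first | assumption | exact h1.1
    · intro hx
      by_cases e1 : x = u
      · exact Or.inl e1
      by_cases e2 : x = v
      · simp [e2]
      by_cases e3 : x = c1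
      · simp [e3]
      by_cases e6 : x ∈ S
      · simp [e1, e2, e6, hx]
      by_cases e7 : x ∈ T
      · simp [e1, e2, e7, hx]
      by_cases e8 : ∀ s ∈ S, s ≠ x → G.Adj x s
      · right; left; left
        exact ⟨hx, e6, e7, e1, e2, e3, e8⟩
      · right; right; right; left; left
        exact ⟨hx, e6, e7, e1, e2, e3, e8⟩
  have hnd : (u :: (L1 ++ c1 :: (L2 ++ [v]))).Nodup := by
    have d1 : ∀ x ∈ L1, x ≠ u ∧ x ≠ v ∧ x ≠ c1 ∧ x ∉ L2 := by
      intro x hx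
      rw [m1, mA, mS] at hx
      refine ⟨?_, ?_, ?_, ?_⟩
      · rcases hx with hx | hx
        · exact hx.2.2.2.1
        · exact hx.2.2.1
      · rcases hx with hx | hx
        · exact hx.2.2.2.2.1
        · exact hx.2.2.2
      · rcases hx with hx | hx
        · exact hx.2.2.2.2.2.1
        · rintro rfl; exact c1S hx.2.1
      · rw [m2, mB, mT]
        rcases hx with hx | hx
        · rintro (h1 | h1)
          · exact h1.2.2.2.2.2.2 hx.2.2.2.2.2.2
          · exact hx.2.2.1 h1.2.1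
        · rintro (h1 | h1)
          · exact h1.2.1 hx.2.1
          · exact h.disj x hx.2.1 h1.2.1
    have d2 : ∀ x ∈ L2, x ≠ u ∧ x ≠ v ∧ x ≠ c1 := by
      intro x hx
      rw [m2, mB, mT] at hx
      refine ⟨?_, ?_, ?_⟩
      · rcases hx with hx | hx
        · exact hx.2.2.2.1
        · exact hx.2.2.1
      · rcases hx with hx | hx
        · exact hx.2.2.2.2.1
        · exact hx.2.2.2
      · rcases hx with hx | hx
        · exact hx.2.2.2.2.2.1
        · rintro rfl; exact c1T hx.2.1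
    simp only [List.nodup_cons, List.nodup_append, List.mem_cons, List.mem_append,
      List.not_mem_nil, or_false, not_or, List.nodup_nil, and_true, true_and, not_false_eq_true]
    refine ⟨⟨fun hx => (d1 u hx).1 rfl, fun hx => hc1.2.1 hx.symm, fun hx => (d2 u hx).1 rfl, huv⟩,
      n1, ⟨⟨fun hx => (d2 c1 hx).2.2 rfl, hc1.2.2⟩, n2, ?_⟩, ?_⟩
    · intro a ha b hb
      rintro rfl
      subst hb
      exact (d2 _ ha).2.1 rfl
    · intro a ha b hb
      rintro rfl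
      rcases hb with rfl | hb | rfl
      · exact (d1 _ ha).2.2.1 rfl
      · exact (d1 _ ha).2.2.2 hb
      · exact (d1 _ ha).2.1 rfl
  refine ⟨_, ⟨q4, hnd, by simp, ?_⟩, emb_len hnd hmem⟩
  have : (u :: (L1 ++ c1 :: (L2 ++ [v]))) = (u :: (L1 ++ c1 :: L2)) ++ [v] := by simp
  rw [this, List.getLast?_concat]

/-- A path through `j + 1` vertices of a clique. -/
theorem emb_clique {G : SimpleGraph V} {S : Finset V} (hS : ∀ a ∈ S, ∀ b ∈ S, a ≠ b → G.Adj a b)
    {u v : V} (huv : u ≠ v) (hu : ∀ s ∈ S, s ≠ u → G.Adj u s) (hv : ∀ s ∈ S, s ≠ v → G.Adj v s)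
    (i : ℕ) (h3 : 3 ≤ i) (hi : i ≤ S.card) :
    ∃ l, LPath G u v l ∧ l.length = i ∧ ∀ x ∈ l, x = u ∨ x = v ∨ x ∈ S := by
  have h1 : ({u, v} : Finset V).card ≤ 2 := Finset.card_le_two
  have h2 := Finset.le_card_sdiff {u, v} S
  obtain ⟨S', hS', hc⟩ := Finset.exists_subset_card_eq (show i - 2 ≤ (S \ {u, v}).card by omega)
  have m : ∀ x ∈ S', x ∈ S ∧ x ≠ u ∧ x ≠ v := by
    intro x hx
    have := hS' hx
    simp only [Finset.mem_sdiff, Finset.mem_insert, Finset.mem_singleton, not_or] at this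
    exact this
  obtain ⟨L, n1, m1, k1⟩ := emb_mix (G := G) ∅ S' (Finset.disjoint_empty_left _)
    (fun a ha b hb => hS a (m a ha).1 b (m b hb).1) (by simp) (by rw [Finset.card_empty]; omega)
  have hL : L.length = S'.card := emb_len n1 (by intro x; rw [m1]; simp)
  refine ⟨u :: (L ++ [v]), ⟨k1 u v (fun s hs => hu s (m s hs).1 (m s hs).2.1)
    (fun s hs => (hv s (m s hs).1 (m s hs).2.2).symm), ?_, by simp, ?_⟩, ?_, ?_⟩
  · simp only [List.nodup_cons, List.nodup_append, List.mem_append, List.mem_singleton, not_or,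
      List.not_mem_nil, not_false_eq_true, List.nodup_nil, and_true, true_and]
    refine ⟨⟨?_, huv⟩, n1, ?_⟩
    · rw [m1]
      rintro (h | h)
      · simp at h
      · exact (m u h).2.1 rfl
    · intro a ha b hb
      rintro rfl
      subst hb
      rw [m1] at ha
      rcases ha with h | h
      · simp at h
      · exact (m _ h).2.2 rfl
  · rw [← List.cons_append, List.getLast?_concat]
  · simp only [List.length_cons, List.length_append, List.length_nil]
    omega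
  · intro x hx
    rw [List.mem_cons, List.mem_append, m1, List.mem_singleton] at hx
    rcases hx with hx | (hx | hx) | hx
    · exact Or.inl hx
    · simp at hx
    · exact Or.inr (Or.inr (m x hx).1)
    · exact Or.inr (Or.inl hx)

/-- A set of `i` vertices to be used up by a path. -/
theorem emb_X [Fintype V] (S T C : Finset V) (hCS : ∀ c ∈ C, c ∉ S) (hCT : ∀ c ∈ C, c ∉ T)
    (hcS : 3 * ((Finset.univ \ (S ∪ T)) : Finset V).card + 20 ≤ S.card)
    (hcT : 3 * ((Finset.univ \ (S ∪ T)) : Finset V).card + 20 ≤ T.card)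
    (u v : V) (i : ℕ) (hi : S.card < i ∨ T.card < i) (hin : i ≤ Fintype.card V) :
    ∃ X : Finset V, u ∈ X ∧ v ∈ X ∧ C ⊆ X ∧ X.card = i ∧
      (X \ (S ∪ T)).card + 6 ≤ (X ∩ S).card ∧ (X \ (S ∪ T)).card + 6 ≤ (X ∩ T).card := by
  obtain ⟨S0, hS0, hS0c⟩ := Finset.exists_subset_card_eq
    (show ((Finset.univ \ (S ∪ T)) : Finset V).card + 6 ≤ S.card by omega)
  obtain ⟨T0, hT0, hT0c⟩ := Finset.exists_subset_card_eq
    (show ((Finset.univ \ (S ∪ T)) : Finset V).card + 6 ≤ T.card by omega)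
  have h1 : ({u, v} : Finset V).card ≤ 2 := Finset.card_le_two
  have hb : ((((Finset.univ \ (S ∪ T)) ∪ {u, v}) ∪ S0) ∪ T0).card ≤ i := by
    have e1 := Finset.card_union_le (((Finset.univ \ (S ∪ T)) ∪ {u, v}) ∪ S0) T0
    have e2 := Finset.card_union_le ((Finset.univ \ (S ∪ T)) ∪ {u, v}) S0
    have e3 := Finset.card_union_le (Finset.univ \ (S ∪ T)) {u, v}
    omega
  obtain ⟨X, hX1, -, hXc⟩ := Finset.exists_subsuperset_card_eq
    (Finset.subset_univ ((((Finset.univ \ (S ∪ T)) ∪ {u, v}) ∪ S0) ∪ T0)) hb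
    (by rw [Finset.card_univ]; exact hin)
  have hr : (X \ (S ∪ T)).card ≤ ((Finset.univ \ (S ∪ T)) : Finset V).card :=
    Finset.card_le_card (Finset.sdiff_subset_sdiff (Finset.subset_univ _) (Finset.Subset.refl _))
  refine ⟨X, hX1 (by simp), hX1 (by simp), fun c hc => hX1 ?_, hXc, ?_, ?_⟩
  · simp [hCS c hc, hCT c hc]
  · have : S0 ⊆ X ∩ S := fun x hx => Finset.mem_inter.2 ⟨hX1 (by simp [hx]), hS0 hx⟩
    have := Finset.card_le_card this
    omega
  · have : T0 ⊆ X ∩ T := fun x hx => Finset.mem_inter.2 ⟨hX1 (by simp [hx]), hT0 hx⟩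
    have := Finset.card_le_card this
    omega

theorem emb_same [Fintype V] {G : SimpleGraph V} {S T C : Finset V} (h : TwoCl G S T C)
    (hC4 : 4 ≤ C.card)
    (hcS : 3 * ((Finset.univ \ (S ∪ T)) : Finset V).card + 20 ≤ S.card)
    (hcT : 3 * ((Finset.univ \ (S ∪ T)) : Finset V).card + 20 ≤ T.card)
    (u v : V) (huv : u ≠ v) (hPu : ∀ s ∈ S, s ≠ u → G.Adj u s) (hPv : ∀ s ∈ S, s ≠ v → G.Adj v s)
    (i : ℕ) (hi : 3 ≤ i) (hin : i ≤ Fintype.card V) : ∃ l, LPath G u v l ∧ l.length = i := by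
  by_cases hs : i ≤ S.card
  · obtain ⟨l, h1, h2, -⟩ := emb_clique h.cS huv hPu hPv i hi hs
    exact ⟨l, h1, h2⟩
  · obtain ⟨X, x1, x2, x3, x4, x5, x6⟩ := emb_X S T C h.conS h.conT hcS hcT u v i (by omega) hin
    rw [← x4]
    exact emb_SS h X u v huv x1 x2 x3 hC4 hPu hPv x5 x6

theorem emb_mixed [Fintype V] {G : SimpleGraph V} {S T C : Finset V} (h : TwoCl G S T C)
    (hC4 : 4 ≤ C.card) (h3 : ∀ u v, u ≠ v → ∃ w, G.Adj u w ∧ G.Adj w v)
    (h4 : ∀ u, ¬ (∀ t ∈ T, t ≠ u → G.Adj u t) → ∀ c ∈ C, G.Adj u c)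
    (hcS : 3 * ((Finset.univ \ (S ∪ T)) : Finset V).card + 20 ≤ S.card)
    (hcT : 3 * ((Finset.univ \ (S ∪ T)) : Finset V).card + 20 ≤ T.card)
    (u v : V) (huv : u ≠ v) (hPu : ¬ ∀ s ∈ T, s ≠ u → G.Adj u s) (hPv : ¬ ∀ s ∈ S, s ≠ v → G.Adj v s)
    (i : ℕ) (hi : 3 ≤ i) (hin : i ≤ Fintype.card V) : ∃ l, LPath G u v l ∧ l.length = i := by
  have qu := (h.all u).resolve_right hPu
  have qv := (h.all v).resolve_left hPv
  by_cases hi3 : i = 3
  · subst hi3
    obtain ⟨l, h1, h2⟩ := hasP_iff.1 (hasP_three_iff.2 h3) u v huv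
    exact ⟨l, h1, h2⟩
  by_cases hs : i ≤ T.card
  · obtain ⟨c, hc⟩ : C.Nonempty := Finset.card_pos.1 (by omega)
    have huT : u ∉ T := fun hu => hPu fun s hs hsu => h.cT u hu s hs hsu.symm
    have hcu : c ≠ u := by
      rintro rfl
      exact hPu fun s hs _ => h.adT _ hc s hs
    have hcv : c ≠ v := by
      rintro rfl
      exact hPv fun s hs _ => h.adS _ hc s hs
    obtain ⟨l, ⟨l1, l2, l3, l4⟩, l5, l6⟩ := emb_clique h.cT hcv (fun s hs _ => h.adT c hc s hs) qv (i - 1)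
      (by omega) (by omega)
    cases l with
    | nil => simp at l3
    | cons d l' =>
      rw [List.head?_cons, Option.some.injEq] at l3
      subst l3
      refine ⟨u :: d :: l', ⟨?_, ?_, by simp, ?_⟩, ?_⟩
      · rw [List.isChain_cons_cons]
        exact ⟨h4 u hPu d hc, l1⟩
      · rw [List.nodup_cons]
        refine ⟨fun hu => ?_, l2⟩
        rcases l6 u hu with e | e | e
        · exact hcu e.symm
        · exact huv e
        · exact huT e
      · rw [List.getLast?_cons_cons]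
        exact l4
      · rw [List.length_cons, l5]
        omega
  · obtain ⟨X, x1, x2, x3, x4, x5, x6⟩ := emb_X S T C h.conS h.conT hcS hcT u v i (by omega) hin
    rw [← x4]
    exact emb_ST h X u v huv x1 x2 x3 hC4 qu qv x5 x6

/-- The criterion. -/
theorem emb_pld [Fintype V] {G : SimpleGraph V} {S T C : Finset V} (h : TwoCl G S T C)
    (hC4 : 4 ≤ C.card) (h3 : ∀ u v, u ≠ v → ∃ w, G.Adj u w ∧ G.Adj w v)
    (h4 : ∀ u, ¬ (∀ t ∈ T, t ≠ u → G.Adj u t) → ∀ c ∈ C, G.Adj u c)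
    (hcS : 3 * ((Finset.univ \ (S ∪ T)) : Finset V).card + 20 ≤ S.card)
    (hcT : 3 * ((Finset.univ \ (S ∪ T)) : Finset V).card + 20 ≤ T.card) : PLDMaximal G := by
  intro i hi hin
  rw [hasP_iff]
  intro u v huv
  have hcS' : 3 * ((Finset.univ \ (T ∪ S)) : Finset V).card + 20 ≤ S.card := by
    rw [Finset.union_comm]; exact hcS
  have hcT' : 3 * ((Finset.univ \ (T ∪ S)) : Finset V).card + 20 ≤ T.card := by
    rw [Finset.union_comm]; exact hcT
  by_cases pu : ∀ s ∈ S, s ≠ u → G.Adj u s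
  · by_cases pv : ∀ s ∈ S, s ≠ v → G.Adj v s
    · exact emb_same h hC4 hcS hcT u v huv pu pv i hi hin
    · by_cases qu : ∀ s ∈ T, s ≠ u → G.Adj u s
      · exact emb_same h.swap hC4 hcT' hcS' u v huv qu ((h.all v).resolve_left pv) i hi hin
      · exact emb_mixed h hC4 h3 h4 hcS hcT u v huv qu pv i hi hin
  · have qu := (h.all u).resolve_left pu
    by_cases qv : ∀ s ∈ T, s ≠ v → G.Adj v s
    · exact emb_same h.swap hC4 hcT' hcS' u v huv qu qv i hi hin
    · obtain ⟨l, l1, l2⟩ := emb_mixed h hC4 h3 h4 hcS hcT v u huv.symm qv pu i hi hin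
      exact ⟨l.reverse, l1.reverse, by rw [List.length_reverse]; exact l2⟩

end Pool.Agent.Lib.MP_0f64c5_co
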