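import Pool.Agent.Lib.MP_0f64c5_co.EmbC
import Pool.Agent.Lib.MP_0f64c5_co.IsoA
import Pool.Agent.Lib.MP_0f64c5_co.IsoC

/-!
# Every graph is an induced subgraph of a minimal PLD-maximal graph

`o x`: the vertices of `H`; `g y`: gadget of `y`, joined to `o y`; `w y`: its helper, joined to `g y` and to all `o x`
with `x` not adjacent to `y`; `c i`: connectors; `s i`, `t i`: the two cliques. For an edge `xy` the only common
neighbour of `o x` and `g y` is `o y`.
-/

set_option autoImplicit false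

namespace Pool.Agent.Lib.MP_0f64c5_co

open Classical

/-- The vertices. -/
inductive EV (W : Type) (N M : ℕ) : Type
  | o : W → EV W N M
  | g : W → EV W N M
  | w : W → EV W N M
  | c : Fin 4 → EV W N M
  | s : Fin N → EV W N M
  | t : Fin M → EV W N M

namespace EV

variable {W : Type} {N M : ℕ}

/-- As a sum. -/
def eqv (W : Type) (N M : ℕ) : EV W N M ≃ W ⊕ W ⊕ W ⊕ Fin 4 ⊕ Fin N ⊕ Fin M where
  toFun
    | o x => Sum.inl x
    | g x => Sum.inr (Sum.inl x)
    | w x => Sum.inr (Sum.inr (Sum.inl x))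
    | c i => Sum.inr (Sum.inr (Sum.inr (Sum.inl i)))
    | s i => Sum.inr (Sum.inr (Sum.inr (Sum.inr (Sum.inl i))))
    | t i => Sum.inr (Sum.inr (Sum.inr (Sum.inr (Sum.inr i))))
  invFun
    | Sum.inl x => o x
    | Sum.inr (Sum.inl x) => g x
    | Sum.inr (Sum.inr (Sum.inl x)) => w x
    | Sum.inr (Sum.inr (Sum.inr (Sum.inl i))) => c i
    | Sum.inr (Sum.inr (Sum.inr (Sum.inr (Sum.inl i)))) => s i
    | Sum.inr (Sum.inr (Sum.inr (Sum.inr (Sum.inr i)))) => t i
  left_inv := by intro x; cases x <;> rfl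
  right_inv := by rintro (x | p | p | i | i | i) <;> rfl

noncomputable instance [Fintype W] : Fintype (EV W N M) := Fintype.ofEquiv _ (eqv W N M).symm

theorem card_eq [Fintype W] : Fintype.card (EV W N M) =
    3 * Fintype.card W + 4 + N + M := by
  rw [Fintype.card_congr (eqv W N M)]
  simp only [Fintype.card_sum, Fintype.card_fin]
  ring

/-- One half of the adjacency relation. -/
def rel (H : SimpleGraph W) : EV W N M → EV W N M → Prop
  | o x, o y => H.Adj x y
  | o x, g y => x = y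
  | o x, w y => ¬ H.Adj x y
  | o _, c _ => True
  | o _, s _ => True
  | g x, w y => x = y
  | g _, t _ => True
  | w _, s _ => True
  | w _, t _ => True
  | c _, s _ => True
  | c _, t _ => True
  | s _, s _ => True
  | t _, t _ => True
  | _, _ => False

/-- The graph. -/
def gr (H : SimpleGraph W) (N M : ℕ) : SimpleGraph (EV W N M) := SimpleGraph.fromRel (rel H)

theorem gr_adj (H : SimpleGraph W) (a b : EV W N M) :
    (gr H N M).Adj a b ↔ a ≠ b ∧ (rel H a b ∨ rel H b a) := SimpleGraph.fromRel_adj _ _ _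

section sets

/-- The first clique. -/
noncomputable def setS (W : Type) (N M : ℕ) : Finset (EV W N M) := Finset.univ.image s

/-- The second clique. -/
noncomputable def setT (W : Type) (N M : ℕ) : Finset (EV W N M) := Finset.univ.image t

/-- The connectors. -/
noncomputable def setC (W : Type) (N M : ℕ) : Finset (EV W N M) := Finset.univ.image c

theorem card_S : (setS W N M).card = N := by
  unfold setS
  rw [Finset.card_image_of_injective _ (fun a b h => by simpa using h), Finset.card_univ, Fintype.card_fin]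

theorem card_T : (setT W N M).card = M := by
  unfold setT
  rw [Finset.card_image_of_injective _ (fun a b h => by simpa using h), Finset.card_univ, Fintype.card_fin]

theorem card_C : (setC W N M).card = 4 := by
  unfold setC
  rw [Finset.card_image_of_injective _ (fun a b h => by simpa using h), Finset.card_univ, Fintype.card_fin]

theorem mem_S (x : EV W N M) : x ∈ setS W N M ↔ ∃ i, s i = x := by simp [setS]

theorem mem_T (x : EV W N M) : x ∈ setT W N M ↔ ∃ i, t i = x := by simp [setT]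

theorem mem_C (x : EV W N M) : x ∈ setC W N M ↔ ∃ i, c i = x := by simp [setC]

theorem card_R [Fintype W] : ((Finset.univ \ (setS W N M ∪ setT W N M)) : Finset (EV W N M)).card =
    3 * Fintype.card W + 4 := by
  have h1 : Disjoint (setS W N M) (setT W N M) := by
    rw [Finset.disjoint_left]
    intro x hx hy
    obtain ⟨i, rfl⟩ := (mem_S x).1 hx
    obtain ⟨j, hj⟩ := (mem_T _).1 hy
    simp at hj
  have h2 : (setS W N M ∪ setT W N M).card = N + M := by
    rw [Finset.card_union_of_disjoint h1, card_S, card_T]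
  have h3 := Finset.card_sdiff_add_card_eq_card (Finset.subset_univ (setS W N M ∪ setT W N M))
  rw [h2, Finset.card_univ, card_eq] at h3
  omega

end sets

theorem pS (H : SimpleGraph W) (v : EV W N M) (hv : (∃ x, v = o x) ∨ (∃ x, v = w x) ∨ (∃ i, v = c i) ∨
    ∃ i, v = s i) : ∀ a ∈ setS W N M, a ≠ v → (gr H N M).Adj v a := by
  intro a ha hne
  obtain ⟨i, rfl⟩ := (mem_S a).1 ha
  rw [gr_adj]
  rcases hv with ⟨x, rfl⟩ | ⟨x, rfl⟩ | ⟨j, rfl⟩ | ⟨j, rfl⟩ <;> exact ⟨fun h => hne h.symm, Or.inl trivial⟩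

theorem pT (H : SimpleGraph W) (v : EV W N M) (hv : (∃ x, v = g x) ∨ (∃ x, v = w x) ∨ (∃ i, v = c i) ∨
    ∃ i, v = t i) : ∀ a ∈ setT W N M, a ≠ v → (gr H N M).Adj v a := by
  intro a ha hne
  obtain ⟨i, rfl⟩ := (mem_T a).1 ha
  rw [gr_adj]
  rcases hv with ⟨x, rfl⟩ | ⟨x, rfl⟩ | ⟨j, rfl⟩ | ⟨j, rfl⟩ <;> exact ⟨fun h => hne h.symm, Or.inl trivial⟩

theorem twoCl (H : SimpleGraph W) : TwoCl (gr H N M) (setS W N M) (setT W N M) (setC W N M) where
  disj := by
    intro x hx hy
    obtain ⟨i, rfl⟩ := (mem_S x).1 hx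
    obtain ⟨j, hj⟩ := (mem_T _).1 hy
    simp at hj
  cS := by
    intro a ha b hb hab
    obtain ⟨i, rfl⟩ := (mem_S a).1 ha
    exact pS H _ (by simp) b hb hab.symm
  cT := by
    intro a ha b hb hab
    obtain ⟨i, rfl⟩ := (mem_T a).1 ha
    exact pT H _ (by simp) b hb hab.symm
  all := by
    intro v
    cases v with
    | o x => exact Or.inl (pS H _ (by simp))
    | g x => exact Or.inr (pT H _ (by simp))
    | w x => exact Or.inl (pS H _ (by simp))
    | c i => exact Or.inl (pS H _ (by simp))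
    | s i => exact Or.inl (pS H _ (by simp))
    | t i => exact Or.inr (pT H _ (by simp))
  conS := by
    intro x hx hy
    obtain ⟨i, rfl⟩ := (mem_C x).1 hx
    obtain ⟨j, hj⟩ := (mem_S _).1 hy
    simp at hj
  conT := by
    intro x hx hy
    obtain ⟨i, rfl⟩ := (mem_C x).1 hx
    obtain ⟨j, hj⟩ := (mem_T _).1 hy
    simp at hj
  adS := by
    intro x hx b hb
    obtain ⟨i, rfl⟩ := (mem_C x).1 hx
    refine pS H _ (by simp) b hb ?_
    rintro rfl
    obtain ⟨j, hj⟩ := (mem_S _).1 hb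
    simp at hj
  adT := by
    intro x hx b hb
    obtain ⟨i, rfl⟩ := (mem_C x).1 hx
    refine pT H _ (by simp) b hb ?_
    rintro rfl
    obtain ⟨j, hj⟩ := (mem_T _).1 hb
    simp at hj

theorem comS (H : SimpleGraph W) (hN : 3 ≤ N) (u v : EV W N M)
    (hu : (∃ x, u = o x) ∨ (∃ x, u = w x) ∨ (∃ i, u = c i) ∨ ∃ i, u = s i)
    (hv : (∃ x, v = o x) ∨ (∃ x, v = w x) ∨ (∃ i, v = c i) ∨ ∃ i, v = s i) :
    ∃ a, (gr H N M).Adj u a ∧ (gr H N M).Adj a v := by
  have h1 : ({u, v} : Finset (EV W N M)).card ≤ 2 := Finset.card_le_two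
  have h2 := Finset.le_card_sdiff {u, v} (setS W N M)
  rw [card_S] at h2
  obtain ⟨a, ha⟩ : (setS W N M \ {u, v}).Nonempty := Finset.card_pos.1 (by omega)
  simp only [Finset.mem_sdiff, Finset.mem_insert, Finset.mem_singleton, not_or] at ha
  exact ⟨a, pS H u hu a ha.1 ha.2.1, (pS H v hv a ha.1 ha.2.2).symm⟩

theorem comT (H : SimpleGraph W) (hM : 3 ≤ M) (u v : EV W N M)
    (hu : (∃ x, u = g x) ∨ (∃ x, u = w x) ∨ (∃ i, u = c i) ∨ ∃ i, u = t i)
    (hv : (∃ x, v = g x) ∨ (∃ x, v = w x) ∨ (∃ i, v = c i) ∨ ∃ i, v = t i) :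
    ∃ a, (gr H N M).Adj u a ∧ (gr H N M).Adj a v := by
  have h1 : ({u, v} : Finset (EV W N M)).card ≤ 2 := Finset.card_le_two
  have h2 := Finset.le_card_sdiff {u, v} (setT W N M)
  rw [card_T] at h2
  obtain ⟨a, ha⟩ : (setT W N M \ {u, v}).Nonempty := Finset.card_pos.1 (by omega)
  simp only [Finset.mem_sdiff, Finset.mem_insert, Finset.mem_singleton, not_or] at ha
  exact ⟨a, pT H u hu a ha.1 ha.2.1, (pT H v hv a ha.1 ha.2.2).symm⟩

/-- Mixed pairs. -/
theorem comM (H : SimpleGraph W) (u v : EV W N M)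
    (hu : (∃ x, u = o x) ∨ ∃ i, u = s i) (hv : (∃ x, v = g x) ∨ ∃ i, v = t i) :
    ∃ a, (gr H N M).Adj u a ∧ (gr H N M).Adj a v := by
  rcases hv with ⟨y, rfl⟩ | ⟨j, rfl⟩
  · rcases hu with ⟨z, rfl⟩ | ⟨i, rfl⟩
    · by_cases hz : H.Adj z y
      · refine ⟨o y, ?_, ?_⟩
        · rw [gr_adj]
          exact ⟨by simpa using hz.ne, Or.inl hz⟩
        · rw [gr_adj]
          exact ⟨by simp, Or.inl rfl⟩
      · refine ⟨w y, ?_, ?_⟩
        · rw [gr_adj]
          exact ⟨by simp, Or.inl hz⟩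
        · rw [gr_adj]
          exact ⟨by simp, Or.inr rfl⟩
    · refine ⟨w y, ?_, ?_⟩
      · rw [gr_adj]
        exact ⟨by simp, Or.inr trivial⟩
      · rw [gr_adj]
        exact ⟨by simp, Or.inr rfl⟩
  · rcases hu with ⟨z, rfl⟩ | ⟨i, rfl⟩
    · refine ⟨c 0, ?_, ?_⟩
      · rw [gr_adj]
        exact ⟨by simp, Or.inl trivial⟩
      · rw [gr_adj]
        exact ⟨by simp, Or.inl trivial⟩
    · refine ⟨c 0, ?_, ?_⟩
      · rw [gr_adj]
        exact ⟨by simp, Or.inr trivial⟩
      · rw [gr_adj]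
        exact ⟨by simp, Or.inl trivial⟩

theorem com (H : SimpleGraph W) (hN : 3 ≤ N) (hM : 3 ≤ M) (u v : EV W N M) :
    ∃ a, (gr H N M).Adj u a ∧ (gr H N M).Adj a v := by
  have flip : (∃ a, (gr H N M).Adj v a ∧ (gr H N M).Adj a u) → ∃ a, (gr H N M).Adj u a ∧ (gr H N M).Adj a v :=
    fun ⟨a, h1, h2⟩ => ⟨a, h2.symm, h1.symm⟩
  cases u <;> cases v <;>
    first
    | (refine comS H hN _ _ ?_ ?_ <;> (simp; done))
    | (refine comT H hM _ _ ?_ ?_ <;> (simp; done))
    | (refine comM H _ _ ?_ ?_ <;> (simp; done))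
    | (refine flip (comM H _ _ ?_ ?_) <;> simp)

theorem pld [Fintype W] (H : SimpleGraph W)
    (hN : 3 * (3 * Fintype.card W + 4) + 20 ≤ N)
    (hM : 3 * (3 * Fintype.card W + 4) + 20 ≤ M) : PLDMaximal (gr H N M) := by
  refine emb_pld (twoCl H) (by rw [card_C]) (fun u v _ => com H (by omega) (by omega) u v) ?_
    (by rw [card_R, card_S]; exact hN) (by rw [card_R, card_T]; exact hM)
  intro u hu a ha
  obtain ⟨i, rfl⟩ := (mem_C a).1 ha
  rw [gr_adj]
  cases u with
  | o x => exact ⟨by simp, Or.inl trivial⟩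
  | g x => exact absurd (pT H _ (by simp)) hu
  | w x => exact absurd (pT H _ (by simp)) hu
  | c j => exact absurd (pT H _ (by simp)) hu
  | s j => exact ⟨by simp, Or.inr trivial⟩
  | t j => exact absurd (pT H _ (by simp)) hu

/-- Every edge of `H` is critical for `P_3`. -/
theorem crit (H : SimpleGraph W) {G : SimpleGraph (EV W N M)} (hle : G ≤ gr H N M) (h3 : HasP G 3) (x y : W)
    (hxy : H.Adj x y) : G.Adj (o x) (o y) := by
  obtain ⟨a, h1, h2⟩ := hasP_three_iff.1 h3 (o x) (g y) (by simp)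
  have e1 := (gr_adj H _ _).1 (hle h1)
  have e2 := (gr_adj H _ _).1 (hle h2)
  cases a with
  | o z =>
    have : z = y := by
      rcases e2.2 with e | e
      · exact e
      · exact absurd e id
    rw [← this]
    exact h1
  | g p => simp [rel] at e2
  | w p =>
    simp only [rel, false_or] at e2
    obtain ⟨-, rfl⟩ := e2
    simp [rel, hxy] at e1
  | c j => simp [rel] at e2
  | s j => simp [rel] at e2
  | t j => simp [rel] at e1

end EV

/-- For `n ≥ 21 k + 68` there are `k` places among `n` vertices at which every graph with `k` vertices is induced by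
a minimal PLD-maximal graph. -/
theorem emb_place (W : Type) [Fintype W] (n : ℕ) (hn : 21 * Fintype.card W + 68 ≤ n) :
    ∃ φ : W ↪ Fin n, ∀ H : SimpleGraph W, ∃ G : SimpleGraph (Fin n), MinimalPLDMaximal G ∧ G.comap φ = H := by
  obtain ⟨k, hk⟩ : ∃ k, Fintype.card W = k := ⟨_, rfl⟩
  rw [hk] at hn
  obtain ⟨M, hM⟩ : ∃ M, n = 3 * k + 4 + (3 * (3 * k + 4) + 20) + M :=
    ⟨n - (3 * k + 4 + (3 * (3 * k + 4) + 20)), by omega⟩
  have hcard : Fintype.card (EV W (3 * (3 * k + 4) + 20) M) = n := by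
    rw [EV.card_eq, hk]
    exact hM.symm
  let e : EV W (3 * (3 * k + 4) + 20) M ≃ Fin n := Fintype.equivFinOfCardEq hcard
  refine ⟨⟨fun a => e (EV.o a), fun a b h => by simpa using h⟩, fun H => ?_⟩
  obtain ⟨G, hle, hG⟩ := exists_minimal_sub (EV.pld (N := 3 * (3 * k + 4) + 20) (M := M) H
    (by rw [hk]) (by rw [hk]; omega))
  have h3 : HasP G 3 := hG.1 3 le_rfl (by rw [hcard]; omega)
  let f : G ≃g G.map e.toEmbedding := SimpleGraph.Iso.map e G
  refine ⟨G.map e.toEmbedding, minimalPLDMaximal_iso f hG, ?_⟩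
  ext a b
  rw [SimpleGraph.comap_adj]
  have h5 : (G.map e.toEmbedding).Adj (e (EV.o a)) (e (EV.o b)) ↔ G.Adj (EV.o a) (EV.o b) :=
    SimpleGraph.map_adj_apply
  refine Iff.trans h5 ?_
  constructor
  · intro h
    rcases ((EV.gr_adj H _ _).1 (hle h)).2 with h1 | h1
    · exact h1
    · exact (show H.Adj b a from h1).symm
  · intro h
    exact EV.crit H hle h3 a b h

/-- Every graph with `k` vertices is an induced subgraph of a minimal PLD-maximal graph of order `n`, for every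
`n ≥ 21 k + 68`. -/
theorem emb_main (W : Type) [Fintype W] (H : SimpleGraph W) (n : ℕ) (hn : 21 * Fintype.card W + 68 ≤ n) :
    ∃ G : SimpleGraph (Fin n), MinimalPLDMaximal G ∧ Nonempty (H ↪g G) := by
  obtain ⟨φ, h⟩ := emb_place W n hn
  obtain ⟨G, hG, hH⟩ := h H
  refine ⟨G, hG, ⟨⟨φ, ?_⟩⟩⟩
  intro a b
  rw [← hH, SimpleGraph.comap_adj]

end Pool.Agent.Lib.MP_0f64c5_co
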