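import Pool.Agent.Lib.MP_0f64c5_co.EmbD

/-!
# The number of minimal PLD-maximal graphs
-/

set_option autoImplicit false

namespace Pool.Agent.Lib.MP_0f64c5_co

open Classical

/-- The graph with a given set of edges. -/
def ofEdges {k : ℕ} (s : Set {a : Sym2 (Fin k) // ¬ a.IsDiag}) : SimpleGraph (Fin k) :=
  SimpleGraph.fromEdgeSet (Subtype.val '' s)

theorem ofEdges_inj (k : ℕ) : Function.Injective (ofEdges (k := k)) := by
  intro s t h
  have h1 := congrArg SimpleGraph.edgeSet h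
  unfold ofEdges at h1
  rw [SimpleGraph.edgeSet_fromEdgeSet, SimpleGraph.edgeSet_fromEdgeSet] at h1
  have key : ∀ r : Set {a : Sym2 (Fin k) // ¬ a.IsDiag}, ∀ x : {a : Sym2 (Fin k) // ¬ a.IsDiag},
      x ∈ r ↔ x.1 ∈ (Subtype.val '' r) \ {e | e.IsDiag} := by
    intro r x
    constructor
    · intro hx
      exact ⟨⟨x, hx, rfl⟩, x.2⟩
    · rintro ⟨⟨y, hy, hyx⟩, -⟩
      have : y = x := Subtype.ext hyx
      exact this ▸ hy
  ext x
  rw [key s, key t]
  exact Iff.of_eq (congrArg (fun z => x.1 ∈ z) h1)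

/-- Labelled graphs. -/
theorem emb_count (n k : ℕ) (hn : 21 * k + 68 ≤ n) :
    2 ^ k.choose 2 ≤ {G : SimpleGraph (Fin n) | MinimalPLDMaximal G}.ncard := by
  obtain ⟨φ, h⟩ := emb_place (Fin k) n (by rw [Fintype.card_fin]; exact hn)
  choose F hF using h
  have hinj : Function.Injective (fun s : Set {a : Sym2 (Fin k) // ¬ a.IsDiag} => F (ofEdges s)) := by
    intro s t hst
    have h1 : (F (ofEdges s)).comap φ = (F (ofEdges t)).comap φ := congrArg (fun G => G.comap φ) hst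
    rw [(hF _).2, (hF _).2] at h1
    exact ofEdges_inj k h1
  have h1 : (Set.range (fun s : Set {a : Sym2 (Fin k) // ¬ a.IsDiag} => F (ofEdges s))).ncard =
      2 ^ k.choose 2 := by
    rw [← Set.image_univ, Set.ncard_image_of_injective _ hinj, Set.ncard_univ,
      Nat.card_eq_fintype_card, Fintype.card_set, Sym2.card_subtype_not_diag, Fintype.card_fin]
  rw [← h1]
  refine Set.ncard_le_ncard ?_ (Set.toFinite _)
  rintro _ ⟨s, rfl⟩
  exact (hF _).1

/-- Up to isomorphism. -/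
theorem emb_count_iso (n k : ℕ) (hn : 21 * k + 68 ≤ n) (R : Set (SimpleGraph (Fin n)))
    (hR : ∀ G : SimpleGraph (Fin n), MinimalPLDMaximal G → ∃ G' ∈ R, Nonempty (G' ≃g G)) :
    2 ^ k.choose 2 ≤ n.factorial * R.ncard := by
  refine (emb_count n k hn).trans ?_
  have hsub : {G : SimpleGraph (Fin n) | MinimalPLDMaximal G} ⊆
      (fun p : SimpleGraph (Fin n) × Equiv.Perm (Fin n) => p.1.map p.2.toEmbedding) ''
        (R ×ˢ (Set.univ : Set (Equiv.Perm (Fin n)))) := by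
    intro G hG
    obtain ⟨G', hG', ⟨f⟩⟩ := hR G hG
    refine ⟨(G', f.toEquiv), ⟨hG', Set.mem_univ _⟩, ?_⟩
    ext a b
    rw [SimpleGraph.map_adj]
    constructor
    · rintro ⟨x, y, hxy, rfl, rfl⟩
      exact f.map_adj_iff.2 hxy
    · intro hab
      refine ⟨f.symm a, f.symm b, ?_, by simp, by simp⟩
      exact f.symm.map_adj_iff.2 hab
  refine (Set.ncard_le_ncard hsub (Set.toFinite _)).trans ((Set.ncard_image_le (Set.toFinite _)).trans ?_)
  rw [Set.ncard_prod, Set.ncard_univ, Nat.card_eq_fintype_card, Fintype.card_perm, Fintype.card_fin,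
    Nat.mul_comm]

theorem emb_pow : ∀ q : ℕ, 50 ≤ q → 20000 * (q + 1) ≤ 2 ^ q := by
  intro q hq
  induction q, hq using Nat.le_induction with
  | base => norm_num
  | succ q hq ih =>
    rw [pow_succ]
    omega

/-- At least `2 ^ (n ^ 2 / 1000)` isomorphism classes for `n ≥ 10 ^ 6`. -/
theorem emb_asym (n : ℕ) (hn : 10 ^ 6 ≤ n) (R : Set (SimpleGraph (Fin n)))
    (hR : ∀ G : SimpleGraph (Fin n), MinimalPLDMaximal G → ∃ G' ∈ R, Nonempty (G' ≃g G)) :
    2 ^ (n ^ 2 / 1000) ≤ R.ncard := by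
  obtain ⟨k, hk⟩ : ∃ k, k = (n - 68) / 21 := ⟨_, rfl⟩
  have h1 := emb_count_iso n k (by omega) R hR
  have h2 : n.factorial ≤ 2 ^ (n * (n / 20000)) := by
    refine (Nat.factorial_le_pow n).trans ?_
    rw [Nat.mul_comm, pow_mul]
    refine Nat.pow_le_pow_left ?_ n
    have := emb_pow (n / 20000) (by omega)
    omega
  have h3 : n ^ 2 / 1000 + n * (n / 20000) ≤ k.choose 2 := by
    rw [Nat.choose_two_right]
    have e1 : 2 * (k * (k - 1) / 2) = k * (k - 1) :=
      Nat.mul_div_cancel' (Nat.even_mul_pred_self k).two_dvd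
    obtain ⟨j, rfl⟩ : ∃ j, k = j + 1 := ⟨k - 1, by omega⟩
    rw [Nat.add_sub_cancel] at e1 ⊢
    have e2 : n ≤ 21 * j + 109 := by omega
    have e3 : 1000 * (n ^ 2 / 1000) ≤ n ^ 2 := Nat.mul_div_le _ _
    have e4 : n * (20000 * (n / 20000)) ≤ n * n := Nat.mul_le_mul_left _ (Nat.mul_div_le _ _)
    have e5 : n * n ≤ (21 * j + 109) * (21 * j + 109) := Nat.mul_le_mul e2 e2
    have e6 : 40000 ≤ j := by omega
    nlinarith
  have h4 : 2 ^ (n ^ 2 / 1000) * 2 ^ (n * (n / 20000)) ≤ 2 ^ (n * (n / 20000)) * R.ncard := by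
    rw [← pow_add]
    exact ((Nat.pow_le_pow_right (by norm_num) h3).trans h1).trans (Nat.mul_le_mul_right _ h2)
  rw [Nat.mul_comm] at h4
  exact Nat.le_of_mul_le_mul_left h4 (by positivity)

end Pool.Agent.Lib.MP_0f64c5_co
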