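import Pool.Agent.Lib.MP_0f64c5_co.Defs

/-!
# Module GAP: homogeneously traceable non-Hamiltonian graphs have at least `5 m / 4` edges

Let `m = card W >= 3`, `H` homogeneously traceable, without Hamiltonian cycle.
(1) Minimum degree 2: `deg x = 0` is impossible (`m >= 2`); if `y` is the only neighbour of `x`, the
Hamiltonian path from `y` has `x` either at the end or inside; inside is impossible (two neighbours),
at the end its predecessor is `y`, the first vertex, so `m = 2`.
(2) Let `x` have degree 2 with neighbours `y, z`. A Hamiltonian path from `y`: `x` is not the last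
vertex (the predecessor would be `z` or `y`; if it is `y` then `m = 2`; if it is `z`, then `x` is
adjacent to the first vertex `y` and the list is a Hamiltonian cycle), so `x` is inside, its two
neighbours in the list are `y` and `z`, hence `x` is the second vertex of the list.
So every `y` has at most one neighbour of degree 2.
(3) Count pairs `(x, y)`, `x` adjacent to `y`, `deg x = 2`: `2 n_2 <= m`. So
`2 e = sum deg >= 2 n_2 + 3 (m - n_2) = 3 m - n_2 >= 5 m / 2`.
-/

set_option autoImplicit false

namespace Pool.Agent.Lib.MP_0f64c5_co

open Classical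

variable {W : Type*}

/-- In a Hamiltonian path from `y`, a neighbour `x` of `y` of degree 2 is the second vertex. -/
theorem gap_second [Fintype W] {H : SimpleGraph W} (hW : 3 ≤ Fintype.card W)
    (hc : ¬ HamL H) {x y : W} (hxy : H.Adj x y) (h2 : dg H x = 2) {l : List W}
    (h3 : l.IsChain H.Adj) (h4 : l.Nodup) (h5 : l.head? = some y) (h6 : ∀ w, w ∈ l) :
    ∃ t, l = y :: x :: t := by
  obtain ⟨z, hz⟩ : ∃ z, ∀ w, H.Adj x w → w = y ∨ w = z := by
    unfold dg at h2
    obtain ⟨a, b, hab, e⟩ := Finset.card_eq_two.1 h2
    have hy : y ∈ Finset.univ.filter (fun w => H.Adj x w) := by simp [hxy]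
    rw [e, Finset.mem_insert, Finset.mem_singleton] at hy
    have hw : ∀ w, H.Adj x w → w = a ∨ w = b := by
      intro w hw
      have : w ∈ Finset.univ.filter (fun w => H.Adj x w) := by simp [hw]
      rwa [e, Finset.mem_insert, Finset.mem_singleton] at this
    rcases hy with rfl | rfl
    · exact ⟨b, hw⟩
    · exact ⟨a, fun w h => (hw w h).symm⟩
  have hlen : 3 ≤ l.length := by
    have : Finset.univ ⊆ l.toFinset := by
      intro w _
      exact List.mem_toFinset.2 (h6 w)
    have h7 := Finset.card_le_card this
    rw [Finset.card_univ] at h7
    exact hW.trans (h7.trans l.toFinset_card_le)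
  obtain ⟨s, t, rfl⟩ := List.append_of_mem (h6 x)
  rcases List.eq_nil_or_concat s with rfl | ⟨s', p, rfl⟩
  · exfalso
    simp only [List.nil_append, List.head?_cons, Option.some.injEq] at h5
    exact hxy.ne h5
  · have hpx : H.Adj p x := by
      have : (s' ++ ([p] ++ x :: t)).IsChain H.Adj := by simpa using h3
      have := this.right_of_append
      simp only [List.cons_append, List.nil_append, List.isChain_cons_cons] at this
      exact this.1
    rcases s' with _ | ⟨a, s''⟩
    · simp only [List.concat_eq_append, List.nil_append, List.cons_append, List.head?_cons,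
        Option.some.injEq] at h5
      subst h5
      exact ⟨t, by simp⟩
    · exfalso
      simp only [List.concat_eq_append, List.cons_append, List.append_assoc, List.nil_append,
        List.head?_cons, Option.some.injEq] at h5 h3 h4 hlen h6
      subst h5
      rw [List.nodup_cons] at h4
      have hpy : p ≠ a := by
        rintro rfl
        apply h4.1
        simp
      have hpz : p = z := by
        rcases hz p hpx.symm with h | h
        · exact absurd h hpy
        · exact h
      subst hpz
      rcases t with _ | ⟨r, t'⟩
      · apply hc
        refine ⟨a :: (s'' ++ [p, x]), hlen, h3, List.nodup_cons.2 h4, h6, a, x, rfl, ?_, hxy⟩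
        have e : a :: (s'' ++ [p, x]) = (a :: (s'' ++ [p])) ++ [x] := by simp
        rw [e, List.getLast?_append]
        simp
      · have hxr : H.Adj x r := by
          have : ((a :: (s'' ++ [p])) ++ (x :: r :: t')).IsChain H.Adj := by simpa using h3
          have := this.right_of_append
          rw [List.isChain_cons_cons] at this
          exact this.1
        rcases hz r hxr with rfl | rfl
        · apply h4.1
          simp
        · have h8 := h4.2
          rw [List.nodup_append] at h8
          have := h8.2.1
          simp at this

/-- Every vertex has degree at least 2. -/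
theorem gap_two_le [Fintype W] {H : SimpleGraph W} (hW : 3 ≤ Fintype.card W)
    (hH : ∀ v, ∃ l : List W, l.IsChain H.Adj ∧ l.Nodup ∧ l.head? = some v ∧ ∀ w, w ∈ l)
    (x : W) : 2 ≤ dg H x := by
  have hlen : ∀ l : List W, (∀ w, w ∈ l) → 3 ≤ l.length := by
    intro l h6
    have : Finset.univ ⊆ l.toFinset := by
      intro w _
      exact List.mem_toFinset.2 (h6 w)
    have h7 := Finset.card_le_card this
    rw [Finset.card_univ] at h7
    exact hW.trans (h7.trans l.toFinset_card_le)
  by_contra hlt
  -- at least one neighbour
  obtain ⟨y, hxy⟩ : ∃ y, H.Adj x y := by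
    obtain ⟨l, h3, h4, h5, h6⟩ := hH x
    have h7 := hlen l h6
    rcases l with _ | ⟨a, _ | ⟨b, t⟩⟩
    · simp at h7
    · simp at h7
    · simp only [List.head?_cons, Option.some.injEq] at h5
      subst h5
      rw [List.isChain_cons_cons] at h3
      exact ⟨b, h3.1⟩
  have hu : ∀ w, H.Adj x w → w = y := by
    intro w hw
    by_contra hne
    apply hlt
    unfold dg
    have hsub : ({w, y} : Finset W) ⊆ Finset.univ.filter (fun w => H.Adj x w) := by
      intro v hv
      rw [Finset.mem_insert, Finset.mem_singleton] at hv
      rcases hv with rfl | rfl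
      · simp [hw]
      · simp [hxy]
    have := Finset.card_le_card hsub
    rwa [Finset.card_pair hne] at this
  obtain ⟨l, h3, h4, h5, h6⟩ := hH y
  have h7 := hlen l h6
  obtain ⟨s, t, rfl⟩ := List.append_of_mem (h6 x)
  rcases List.eq_nil_or_concat s with rfl | ⟨s', p, rfl⟩
  · simp only [List.nil_append, List.head?_cons, Option.some.injEq] at h5
    exact hxy.ne h5
  · have hpx : H.Adj p x := by
      have : (s' ++ ([p] ++ x :: t)).IsChain H.Adj := by simpa using h3
      have := this.right_of_append
      simp only [List.cons_append, List.nil_append, List.isChain_cons_cons] at this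
      exact this.1
    have hp := hu p hpx.symm
    subst hp
    rcases s' with _ | ⟨a, s''⟩
    · rcases t with _ | ⟨r, t'⟩
      · simp at h7
      · have hxr : H.Adj x r := by
          have : ([p] ++ (x :: r :: t')).IsChain H.Adj := by simpa using h3
          have := this.right_of_append
          rw [List.isChain_cons_cons] at this
          exact this.1
        have := hu r hxr
        subst this
        simp at h4
    · simp only [List.concat_eq_append, List.cons_append, List.append_assoc, List.nil_append,
        List.head?_cons, Option.some.injEq] at h5 h4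
      subst h5
      rw [List.nodup_cons] at h4
      apply h4.1
      simp

theorem ht_nonham [Fintype W] {H : SimpleGraph W} (hW : 3 ≤ Fintype.card W)
    (hH : HomTraceable H) (hc : ¬ HamL H) : 5 * Fintype.card W ≤ 4 * edges H := by
  rw [homTraceable_iff] at hH
  have hmin := gap_two_le hW hH
  have hone : ∀ y, (Finset.univ.filter (fun x => dg H x = 2 ∧ H.Adj x y)).card ≤ 1 := by
    intro y
    rw [Finset.card_le_one]
    intro a ha b hb
    simp only [Finset.mem_filter, Finset.mem_univ, true_and] at ha hb
    obtain ⟨l, h3, h4, h5, h6⟩ := hH y
    obtain ⟨t, ht⟩ := gap_second hW hc ha.2 ha.1 h3 h4 h5 h6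
    obtain ⟨t', ht'⟩ := gap_second hW hc hb.2 hb.1 h3 h4 h5 h6
    rw [ht] at ht'
    simp only [List.cons.injEq, true_and] at ht'
    exact ht'.1
  have hcount : 2 * (Finset.univ.filter (fun x => dg H x = 2)).card ≤ Fintype.card W := by
    have e1 : ∑ x ∈ Finset.univ.filter (fun x => dg H x = 2), dg H x =
        2 * (Finset.univ.filter (fun x => dg H x = 2)).card := by
      rw [Finset.sum_congr rfl (fun x hx => (Finset.mem_filter.1 hx).2), Finset.sum_const,
        smul_eq_mul, mul_comm]
    have e2 : ∑ x ∈ Finset.univ.filter (fun x => dg H x = 2), dg H x =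
        ∑ y : W, (Finset.univ.filter (fun x => dg H x = 2 ∧ H.Adj x y)).card := by
      unfold dg
      simp only [Finset.card_filter]
      rw [Finset.sum_comm]
      refine Finset.sum_congr rfl fun y _ => ?_
      rw [Finset.sum_filter]
      refine Finset.sum_congr rfl fun x _ => ?_
      by_cases h : (∑ i : W, if H.Adj x i then 1 else 0) = 2 <;> by_cases h' : H.Adj x y
      · rw [if_pos h, if_pos h', if_pos ⟨h, h'⟩]
      · rw [if_pos h, if_neg h', if_neg (fun hh => h' hh.2)]
      · rw [if_neg h, if_neg (fun hh => h hh.1)]
      · rw [if_neg h, if_neg (fun hh => h hh.1)]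
    rw [← e1, e2]
    calc ∑ y : W, (Finset.univ.filter (fun x => dg H x = 2 ∧ H.Adj x y)).card
        ≤ ∑ _y : W, 1 := Finset.sum_le_sum fun y _ => hone y
      _ = Fintype.card W := by simp
  have hsum := sum_dg H
  have hlow : 3 * Fintype.card W ≤
      ∑ v, dg H v + (Finset.univ.filter (fun x => dg H x = 2)).card := by
    rw [Finset.card_filter, ← Finset.sum_add_distrib]
    calc 3 * Fintype.card W = ∑ _v : W, 3 := by simp [mul_comm]
      _ ≤ _ := by
        refine Finset.sum_le_sum fun v _ => ?_
        have := hmin v
        split_ifs with h
        · omega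
        · omega
  omega

end Pool.Agent.Lib.MP_0f64c5_co
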