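import Pool.Agent.Lib.MP_0f64c5_co.Defs

/-!
# Module HUB: a vertex adjacent to all vertices of degree less than 200

Let `n = card V`, `K = 200`, `B = {v | 200 <= d(v)}`, `S` its complement; `200 |B| <= 5 n`,
so `|B| <= n / 40`. Huge vertices: `Hg = {v | n <= 1600 d(v)}`, `|Hg| <= 8000`, disjoint from `S`.
For `x` in `S` put `R(x) = N(x) cap Hg`. Every `y <> x` has a neighbour in `N(x)`, the at most
199 neighbours of `x` which are not huge have together at most `199 n / 1600` neighbours, so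
`sum_{h in R(x)} d(h) >= n - 1 - 199 n / 1600 >= 7 n / 8`.
For every `T`: `sum_v d(v) = sum_{t in T} d(t) + sum_{v notin T} dgIn v T + sum_{v notin T} dgIn v T^c`,
and `sum_{v notin T} dgIn v T = sum_{t in T} dgIn t T^c >= sum_{t in T} d(t) - |T|^2`.
Case I: some `x, x'` in `S` have `R(x) cap R(x') = empty`. `T = R(x) u R(x')`, `2 <= |T| <= 398`:
`sum d >= 2 (7n/4) - 398^2 + 2n + 2 - 4 * 398 > 5n`, contradiction.
Case II: otherwise. If all `|R(x)| >= 2` (`x` in `S`): `T = Hg`, `2 <= |T| <= 8000`,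
`sum_{v notin T} dgIn v T >= 2 |S| >= 2 (n - n/40)`, and the same for `sum_{t in T} d(t)`:
`sum d >= 4 (n - n/40) + 2n + 2 - 32000 > 5n`, contradiction. So `R(x0) = {h}` for some `x0` in
`S` (`R(x0)` is not empty), and every `R(x)`, `x` in `S`, meets it: `h` is adjacent to `x`.
-/

set_option autoImplicit false

namespace Pool.Agent.Lib.MP_0f64c5_co

open Classical

variable {V : Type*}

/-- Few vertices of degree at least 200. -/
theorem big_le [Fintype V] {G : SimpleGraph V}
    (he : ∑ v, dg G v < 5 * (Fintype.card V - 2)) :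
    40 * (Finset.univ.filter (fun v => 200 ≤ dg G v)).card ≤ Fintype.card V := by
  have h1 : (Finset.univ.filter (fun v => 200 ≤ dg G v)).card * 200 ≤ ∑ v, dg G v := by
    calc (Finset.univ.filter (fun v => 200 ≤ dg G v)).card * 200
        = ∑ _v ∈ Finset.univ.filter (fun v => 200 ≤ dg G v), 200 := by
          rw [Finset.sum_const, smul_eq_mul]
      _ ≤ ∑ v ∈ Finset.univ.filter (fun v => 200 ≤ dg G v), dg G v :=
          Finset.sum_le_sum fun v hv => (Finset.mem_filter.1 hv).2
      _ ≤ ∑ v, dg G v :=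
          Finset.sum_le_sum_of_subset_of_nonneg (Finset.subset_univ _) (fun _ _ _ => Nat.zero_le _)
  omega

theorem Hub_dg_eq [Fintype V] (G : SimpleGraph V) (T : Finset V) (v : V) :
    dg G v = dgIn G v T + dgIn G v Tᶜ := by
  unfold dg dgIn
  rw [← Finset.card_union_of_disjoint
    (Finset.disjoint_filter_filter (disjoint_compl_right (a := T))), ← Finset.filter_union,
    Finset.union_compl]

/-- The degree sum split along a set `T` of vertices. -/
theorem sum_dg_split [Fintype V] (G : SimpleGraph V) (T : Finset V) :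
    ∑ v, dg G v = ∑ t ∈ T, dg G t + ∑ v ∈ Tᶜ, dgIn G v T + ∑ v ∈ Tᶜ, dgIn G v Tᶜ := by
  rw [add_assoc, ← Finset.sum_add_distrib, ← Finset.sum_add_sum_compl T]
  congr 1
  exact Finset.sum_congr rfl fun v _ => Hub_dg_eq G T v

/-- Double counting of the edges between `A` and `B`. -/
theorem sum_dgIn_comm (G : SimpleGraph V) (A B : Finset V) :
    ∑ v ∈ A, dgIn G v B = ∑ v ∈ B, dgIn G v A := by
  have h := Finset.sum_card_bipartiteAbove_eq_sum_card_bipartiteBelow (s := A) (t := B) G.Adj
  unfold dgIn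
  refine h.trans (Finset.sum_congr rfl fun v _ => ?_)
  congr 1
  ext w
  simp only [Finset.mem_bipartiteBelow, Finset.mem_filter, G.adj_comm]

theorem Hub_dgIn_le [Fintype V] (G : SimpleGraph V) (T : Finset V) (v : V) :
    dgIn G v T ≤ T.card := Finset.card_filter_le _ _

theorem Hub_cover [Fintype V] {G : SimpleGraph V} {n : ℕ} (hnV : Fintype.card V = n)
    (hn : 10 ^ 6 ≤ n)
    (h3 : ∀ u v, u ≠ v → ∃ w, G.Adj u w ∧ G.Adj w v) (x : V) (hx : dg G x < 200) :
    7 * n ≤ 8 * ∑ h ∈ (Finset.univ.filter fun w => G.Adj x w).filter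
      (fun w => n ≤ 1600 * dg G w), dg G h := by
  set N : Finset V := Finset.univ.filter fun w => G.Adj x w with hN
  have hNc : N.card < 200 := hx
  have hcov : (Finset.univ.erase x) ⊆ N.biUnion fun w => Finset.univ.filter fun y => G.Adj w y := by
    intro y hy
    obtain ⟨w, h1, h2⟩ := h3 x y (Finset.ne_of_mem_erase hy).symm
    rw [Finset.mem_biUnion]
    exact ⟨w, Finset.mem_filter.2 ⟨Finset.mem_univ _, h1⟩,
      Finset.mem_filter.2 ⟨Finset.mem_univ _, h2⟩⟩
  have h1 : n - 1 ≤ ∑ w ∈ N, dg G w := by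
    have h2 := Finset.card_le_card hcov
    rw [Finset.card_erase_of_mem (Finset.mem_univ _), Finset.card_univ, hnV] at h2
    exact h2.trans Finset.card_biUnion_le
  have h2 := Finset.sum_filter_add_sum_filter_not N (fun w => n ≤ 1600 * dg G w) (dg G)
  have h4 : ∑ w ∈ N.filter (fun w => ¬ n ≤ 1600 * dg G w), 1600 * dg G w ≤ 199 * n := by
    calc ∑ w ∈ N.filter (fun w => ¬ n ≤ 1600 * dg G w), 1600 * dg G w
        ≤ ∑ _w ∈ N.filter (fun w => ¬ n ≤ 1600 * dg G w), n :=
          Finset.sum_le_sum fun w hw => (not_le.1 (Finset.mem_filter.1 hw).2).le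
      _ = (N.filter (fun w => ¬ n ≤ 1600 * dg G w)).card * n := by
          rw [Finset.sum_const, smul_eq_mul]
      _ ≤ 199 * n := by
          refine Nat.mul_le_mul_right _ ((Finset.card_filter_le _ _).trans ?_)
          omega
  rw [← Finset.mul_sum] at h4
  omega

theorem exists_hub [Fintype V] {G : SimpleGraph V} (hn : 10 ^ 6 ≤ Fintype.card V)
    (h3 : ∀ u v, u ≠ v → ∃ w, G.Adj u w ∧ G.Adj w v)
    (ht : ∀ T : Finset V, 2 ≤ T.card →
      2 * Fintype.card V + 2 ≤ 4 * T.card + ∑ v ∈ Tᶜ, dgIn G v Tᶜ)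
    (he : ∑ v, dg G v < 5 * (Fintype.card V - 2)) :
    ∃ h, ∀ x, dg G x < 200 → G.Adj h x := by
  obtain ⟨n, hnV⟩ : ∃ n, Fintype.card V = n := ⟨_, rfl⟩
  have hbig := big_le he
  rw [hnV] at hn ht he hbig
  set Hg : Finset V := Finset.univ.filter fun v => n ≤ 1600 * dg G v with hHg
  set B : Finset V := Finset.univ.filter (fun v => 200 ≤ dg G v) with hB
  -- few huge vertices
  have hHc : Hg.card < 8000 := by
    have h1 : Hg.card * n ≤ 1600 * ∑ v, dg G v := by
      calc Hg.card * n = ∑ _v ∈ Hg, n := by rw [Finset.sum_const, smul_eq_mul]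
        _ ≤ ∑ v ∈ Hg, 1600 * dg G v :=
            Finset.sum_le_sum fun v hv => (Finset.mem_filter.1 hv).2
        _ ≤ ∑ v, 1600 * dg G v :=
            Finset.sum_le_sum_of_subset_of_nonneg (Finset.subset_univ _)
              (fun _ _ _ => Nat.zero_le _)
        _ = 1600 * ∑ v, dg G v := by rw [Finset.mul_sum]
    by_contra hcon
    have h2 : 8000 * n ≤ Hg.card * n := Nat.mul_le_mul_right _ (not_lt.1 hcon)
    omega
  let R : V → Finset V := fun x => (Finset.univ.filter fun w => G.Adj x w).filter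
    (fun w => n ≤ 1600 * dg G w)
  have hR : ∀ x, dg G x < 200 → 7 * n ≤ 8 * ∑ h ∈ R x, dg G h :=
    fun x hx => Hub_cover hnV hn h3 x hx
  have hRc : ∀ x, dg G x < 200 → (R x).card ≤ 199 := by
    intro x hx
    have h1 : (R x).card ≤ dg G x := Finset.card_filter_le _ _
    omega
  have hRn : ∀ x, dg G x < 200 → (R x).Nonempty := by
    intro x hx
    rw [Finset.nonempty_iff_ne_empty]
    intro h0
    have h1 := hR x hx
    rw [h0, Finset.sum_empty] at h1
    omega
  have hRm : ∀ x h, h ∈ R x ↔ G.Adj x h ∧ n ≤ 1600 * dg G h := by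
    intro x h
    simp only [R, Finset.mem_filter, Finset.mem_univ, true_and]
  -- Case I
  have hI : ∀ x x', dg G x < 200 → dg G x' < 200 → ∃ h, h ∈ R x ∧ h ∈ R x' := by
    intro x x' hx hx'
    by_contra hcon
    push Not at hcon
    have hdis : Disjoint (R x) (R x') := Finset.disjoint_left.2 hcon
    set T : Finset V := R x ∪ R x' with hT
    have hTc : T.card = (R x).card + (R x').card := Finset.card_union_of_disjoint hdis
    have h1 := hRc x hx
    have h2 := hRc x' hx'
    have h4 := (hRn x hx).card_pos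
    have h5 := (hRn x' hx').card_pos
    have h6 := ht T (by omega)
    have h7 := sum_dg_split G T
    have h8 : ∑ t ∈ T, dg G t = ∑ t ∈ R x, dg G t + ∑ t ∈ R x', dg G t :=
      Finset.sum_union hdis
    have h9 := hR x hx
    have h10 := hR x' hx'
    have h11 := sum_dgIn_comm G Tᶜ T
    have h12 : ∑ t ∈ T, dg G t ≤ T.card * T.card + ∑ t ∈ T, dgIn G t Tᶜ := by
      calc ∑ t ∈ T, dg G t = ∑ t ∈ T, (dgIn G t T + dgIn G t Tᶜ) :=
            Finset.sum_congr rfl fun t _ => Hub_dg_eq G T t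
        _ = ∑ t ∈ T, dgIn G t T + ∑ t ∈ T, dgIn G t Tᶜ := Finset.sum_add_distrib
        _ ≤ T.card * T.card + ∑ t ∈ T, dgIn G t Tᶜ := by
            refine Nat.add_le_add_right ?_ _
            calc ∑ t ∈ T, dgIn G t T ≤ ∑ _t ∈ T, T.card :=
                  Finset.sum_le_sum fun t _ => Hub_dgIn_le G T t
              _ = T.card * T.card := by rw [Finset.sum_const, smul_eq_mul]
    have h13 : T.card * T.card ≤ 398 * 398 := Nat.mul_le_mul (by omega) (by omega)
    omega
  -- small vertices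
  have hSB : ∀ v, v ∈ Bᶜ ↔ dg G v < 200 := by
    intro v
    rw [Finset.mem_compl, hB, Finset.mem_filter]
    simp
  have hScard : 39 * n ≤ 40 * (Bᶜ : Finset V).card := by
    rw [Finset.card_compl, hnV]
    omega
  -- some small vertex has only one huge neighbour
  have hII : ∃ x0, dg G x0 < 200 ∧ (R x0).card ≤ 1 := by
    by_contra hcon
    push Not at hcon
    have hSne : (Bᶜ : Finset V).Nonempty := by
      rw [← Finset.card_pos]
      omega
    obtain ⟨x1, hx1⟩ := hSne
    have hsub : ∀ x, R x ⊆ Hg := by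
      intro x h hh
      exact Finset.mem_filter.2 ⟨Finset.mem_univ _, ((hRm x h).1 hh).2⟩
    have hH2 : 2 ≤ Hg.card := by
      have h1 := hcon x1 ((hSB x1).1 hx1)
      have h2 := Finset.card_le_card (hsub x1)
      omega
    have h6 := ht Hg hH2
    have h7 := sum_dg_split G Hg
    have hSsub : Bᶜ ⊆ Hgᶜ := by
      intro v hv
      rw [Finset.mem_compl]
      intro hv'
      have h1 := (hSB v).1 hv
      have h2 := (Finset.mem_filter.1 hv').2
      omega
    have h8 : (Bᶜ : Finset V).card * 2 ≤ ∑ v ∈ Hgᶜ, dgIn G v Hg := by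
      calc (Bᶜ : Finset V).card * 2 = ∑ _v ∈ Bᶜ, 2 := by rw [Finset.sum_const, smul_eq_mul]
        _ ≤ ∑ v ∈ Bᶜ, dgIn G v Hg := by
            refine Finset.sum_le_sum fun v hv => ?_
            have h1 := hcon v ((hSB v).1 hv)
            have h2 : R v ⊆ Hg.filter (fun w => G.Adj v w) := by
              intro h hh
              exact Finset.mem_filter.2 ⟨hsub v hh, ((hRm v h).1 hh).1⟩
            have h4 := Finset.card_le_card h2
            have h5 : dgIn G v Hg = (Hg.filter (fun w => G.Adj v w)).card := rfl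
            omega
        _ ≤ ∑ v ∈ Hgᶜ, dgIn G v Hg :=
            Finset.sum_le_sum_of_subset_of_nonneg hSsub (fun _ _ _ => Nat.zero_le _)
    have h9 : ∑ v ∈ Hgᶜ, dgIn G v Hg ≤ ∑ t ∈ Hg, dg G t := by
      rw [sum_dgIn_comm]
      refine Finset.sum_le_sum fun t _ => ?_
      rw [Hub_dg_eq G Hg t]
      omega
    omega
  obtain ⟨x0, hx0, hx0c⟩ := hII
  obtain ⟨h, hh⟩ := hRn x0 hx0
  refine ⟨h, fun x hx => ?_⟩
  obtain ⟨h', h1, h2⟩ := hI x x0 hx hx0
  have h4 : h' = h := Finset.card_le_one.1 hx0c h' h2 h hh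
  rw [h4] at h1
  exact ((hRm x h).1 h1).1.symm

end Pool.Agent.Lib.MP_0f64c5_co
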