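import Pool.Agent.Lib.MP_0f64c5_co.Defs

/-!
# Module ISOB: cones and edge counts
-/

set_option autoImplicit false

namespace Pool.Agent.Lib.MP_0f64c5_co

open Classical

variable {V W : Type*}

/-- `K_1 v H`. -/
def coneG (H : SimpleGraph W) : SimpleGraph (Option W) where
  Adj a b := match a, b with
    | none, none => False
    | none, some _ => True
    | some _, none => True
    | some x, some y => H.Adj x y
  symm := ⟨by
    intro a b h
    cases a <;> cases b <;> first | exact h | exact trivial | exact SimpleGraph.Adj.symm h⟩
  loopless := ⟨by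
    intro a h
    cases a
    · exact h
    · exact H.loopless.irrefl _ h⟩

theorem isDom_coneG (H : SimpleGraph W) : IsDom (coneG H) none := by
  intro w hw
  cases w with
  | none => exact absurd rfl hw
  | some x => exact trivial

theorem induce_coneG (H : SimpleGraph W) :
    Nonempty ((coneG H).induce {w | w ≠ none} ≃g H) := by
  refine ⟨⟨⟨fun w => w.1.get (Option.isSome_iff_ne_none.mpr w.2), fun x => ⟨some x, by simp⟩,
    ?_, ?_⟩, ?_⟩⟩
  · rintro ⟨w, hw⟩
    apply Subtype.ext
    show some (w.get _) = w
    rw [Option.some_get]
  · intro x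
    rfl
  · rintro ⟨a, ha⟩ ⟨b, hb⟩
    cases a with
    | none => exact absurd rfl ha
    | some x =>
      cases b with
      | none => exact absurd rfl hb
      | some y => exact Iff.rfl

/-- Number of edges of `G` and of `G - h` for a dominating `h`. -/
theorem edges_induce [Fintype V] {G : SimpleGraph V} {h : V} (hd : IsDom G h) :
    edges G = (Fintype.card V - 1) + edges (G.induce {w | w ≠ h}) := by
  have hE : G.edgeSet = ((fun w => s(h, w)) '' {w | w ≠ h}) ∪
      (Sym2.map Subtype.val '' (G.induce {w | w ≠ h}).edgeSet) := by
    ext e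
    induction e using Sym2.ind with
    | _ a b =>
      constructor
      · intro hab
        rw [SimpleGraph.mem_edgeSet] at hab
        by_cases ha : a = h
        · left
          subst ha
          exact ⟨b, hab.ne', rfl⟩
        · by_cases hb : b = h
          · left
            subst hb
            exact ⟨a, hab.ne, Sym2.eq_swap⟩
          · right
            refine ⟨s((⟨a, ha⟩ : {w | w ≠ h}), (⟨b, hb⟩ : {w | w ≠ h})), ?_, rfl⟩
            exact hab
      · rintro (⟨w, hw, hwe⟩ | ⟨e, he, hee⟩)
        · rw [← hwe]
          exact hd w hw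
        · rw [← hee]
          induction e using Sym2.ind with
          | _ x y => exact he
  have hdisj : Disjoint ((fun w => s(h, w)) '' {w | w ≠ h})
      (Sym2.map Subtype.val '' (G.induce {w | w ≠ h}).edgeSet) := by
    rw [Set.disjoint_left]
    rintro e ⟨w, hw, rfl⟩ ⟨e', he', hee⟩
    induction e' using Sym2.ind with
    | _ x y =>
      rw [Sym2.map_mk] at hee
      rcases Sym2.eq_iff.mp hee with ⟨h1, h2⟩ | ⟨h1, h2⟩
      · exact x.2 h1
      · exact y.2 h2
  have h1 : ((fun w => s(h, w)) '' {w | w ≠ h}).ncard = Fintype.card V - 1 := by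
    rw [Set.ncard_image_of_injective]
    · have h3 : {w : V | w ≠ h} = ((Finset.univ.erase h : Finset V) : Set V) := by
        ext w
        simp
      rw [h3, Set.ncard_coe_finset, Finset.card_erase_of_mem (Finset.mem_univ h),
        Finset.card_univ]
    · intro x y hxy
      have h4 : s(h, x) = s(h, y) := hxy
      rcases Sym2.eq_iff.mp h4 with ⟨_, h5⟩ | ⟨h5, h6⟩
      · exact h5
      · rw [h6, h5]
  have h2 : (Sym2.map Subtype.val '' (G.induce {w | w ≠ h}).edgeSet).ncard =
      edges (G.induce {w | w ≠ h}) :=
    Set.ncard_image_of_injective _ (Sym2.map.injective Subtype.val_injective)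
  unfold edges
  rw [hE, Set.ncard_union_eq hdisj (Set.toFinite _) (Set.toFinite _), h1]
  congr 1

theorem edges_coneG [Fintype W] (H : SimpleGraph W) :
    edges (coneG H) = Fintype.card W + edges H := by
  rw [edges_induce (isDom_coneG H)]
  obtain ⟨f⟩ := induce_coneG H
  have h1 : edges ((coneG H).induce {w | w ≠ none}) = edges H := by
    unfold edges
    rw [← Nat.card_coe_set_eq, ← Nat.card_coe_set_eq]
    exact Nat.card_congr f.mapEdgeSet
  rw [h1, Fintype.card_option, Nat.add_sub_cancel]

end Pool.Agent.Lib.MP_0f64c5_co
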