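import Pool.Agent.Lib.MP_0f64c5_co.NoDomDefs

/-!
# Module NODOMB: Hamiltonian paths of the wheel using an edge `c_{4j} c_{4j+1}`

From `c_a` to `c_b`, `b = a + d`, `1 <= d <= 4k - 1`:
`c_a, c_{a+1}, ..., c_{a+d-1}, h, c_{a-1}, c_{a-2}, ..., c_b`: it omits only the edges
`c_{b-1} c_b` and `c_{a-1} c_a` of the cycle. From `h` to `c_b`: `h, c_{b-1}, c_{b-2}, ..., c_{b+1}, c_b`
(it omits one edge of the cycle). There are `k >= 3` edges `c_{4j} c_{4j+1}`, so one of them is
used.
-/

set_option autoImplicit false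

namespace Pool.Agent.Lib.MP_0f64c5_co

open Classical

theorem NoDomB_infix {V : Type*} (f : ℕ → V) (m t : ℕ) (ht : t + 1 < m) :
    [f t, f (t + 1)] <:+: (List.range m).map f := by
  obtain ⟨r, rfl⟩ : ∃ r, m = t + 2 + r := ⟨m - (t + 2), by omega⟩
  refine ⟨(List.range t).map f, (List.range r).map (fun x => f (t + 2 + x)), ?_⟩
  rw [List.range_add, List.range_add]
  simp [List.range_succ, Function.comp_def]

theorem NoDomB_chain {V : Type*} (R : V → V → Prop) (f : ℕ → V) (m : ℕ)
    (h : ∀ t, t + 1 < m → R (f t) (f (t + 1))) : ((List.range m).map f).IsChain R := by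
  rw [List.isChain_iff_getElem]
  intro i hi
  simp only [List.length_map, List.length_range] at hi
  simp only [List.getElem_map, List.getElem_range]
  exact h i hi

theorem NoDomB_lpath {V : Type*} (G : SimpleGraph V) (f : ℕ → V) (m : ℕ)
    (hadj : ∀ t, t + 1 < m + 1 → G.Adj (f t) (f (t + 1)))
    (hinj : ∀ s t, s < t → t ≤ m → f s ≠ f t) :
    LPath G (f 0) (f m) ((List.range (m + 1)).map f) := by
  refine ⟨NoDomB_chain _ f _ hadj, ?_, ?_, ?_⟩
  · refine List.Nodup.map_on ?_ List.nodup_range
    intro s hs t ht hst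
    rw [List.mem_range] at hs ht
    rcases lt_trichotomy s t with h | h | h
    · exact absurd hst (hinj s t h (by omega))
    · exact h
    · exact absurd hst.symm (hinj t s h (by omega))
  · rw [List.range_succ_eq_map]
    simp
  · rw [List.range_succ]
    simp

theorem NoDomB_adj_cyc (k : ℕ) (hk : 3 ≤ k) (i : ZMod (4 * k)) :
    (ndG k).Adj (Sum.inl i) (Sum.inl (i + 1)) := by
  unfold ndG
  rw [SimpleGraph.fromRel_adj]
  refine ⟨?_, Or.inl (Or.inl ⟨i, rfl, rfl⟩)⟩
  intro h
  have h1 := Sum.inl_injective h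
  have : Fact (1 < 4 * k) := ⟨by omega⟩
  have h2 : (1 : ZMod (4 * k)) = 0 := by
    have := h1.symm
    exact (add_eq_left.1 this)
  exact one_ne_zero h2

theorem NoDomB_adj_hub (k : ℕ) (i : ZMod (4 * k)) :
    (ndG k).Adj (Sum.inl i) (Sum.inr true) := by
  unfold ndG
  rw [SimpleGraph.fromRel_adj]
  exact ⟨by simp, Or.inl (Or.inr (Or.inl ⟨i, rfl, rfl⟩))⟩

/-- a natural number below `n` is determined by its residue -/
theorem NoDomB_cast_inj {n : ℕ} {s t : ℕ} (hs : s < n) (ht : t < n)
    (h : (s : ZMod n) = (t : ZMod n)) : s = t := by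
  have := (ZMod.natCast_eq_natCast_iff' s t n).1 h
  rwa [Nat.mod_eq_of_lt hs, Nat.mod_eq_of_lt ht] at this

theorem NoDomB_choose (k : ℕ) (hk : 3 ≤ k) (a b : ZMod (4 * k)) :
    ∃ j : ZMod (4 * k), j.val % 4 = 0 ∧ j ≠ a ∧ j ≠ b := by
  have hn : NeZero (4 * k) := ⟨by omega⟩
  have hv : ∀ r : ℕ, r < 3 → ((4 * r : ℕ) : ZMod (4 * k)).val % 4 = 0 := by
    intro r hr
    have h1 : 4 * r < 4 * k := by omega
    rw [ZMod.val_natCast, Nat.mod_eq_of_lt h1]
    omega
  have hne : ∀ r s : ℕ, r < 3 → s < 3 → ((4 * r : ℕ) : ZMod (4 * k)) = ((4 * s : ℕ) : ZMod (4 * k))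
      → r = s := by
    intro r s hr hs h
    have := NoDomB_cast_inj (n := 4 * k) (by omega) (by omega) h
    omega
  by_contra hcon
  push Not at hcon
  have h0 := fun h => hcon ((4 * 0 : ℕ) : ZMod (4 * k)) (hv 0 (by norm_num)) h
  have h1 := fun h => hcon ((4 * 1 : ℕ) : ZMod (4 * k)) (hv 1 (by norm_num)) h
  have h2 := fun h => hcon ((4 * 2 : ℕ) : ZMod (4 * k)) (hv 2 (by norm_num)) h
  have n01 : ((4 * 0 : ℕ) : ZMod (4 * k)) ≠ ((4 * 1 : ℕ) : ZMod (4 * k)) :=
    fun h => absurd (hne 0 1 (by norm_num) (by norm_num) h) (by norm_num)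
  have n02 : ((4 * 0 : ℕ) : ZMod (4 * k)) ≠ ((4 * 2 : ℕ) : ZMod (4 * k)) :=
    fun h => absurd (hne 0 2 (by norm_num) (by norm_num) h) (by norm_num)
  have n12 : ((4 * 1 : ℕ) : ZMod (4 * k)) ≠ ((4 * 2 : ℕ) : ZMod (4 * k)) :=
    fun h => absurd (hne 1 2 (by norm_num) (by norm_num) h) (by norm_num)
  by_cases e0 : ((4 * 0 : ℕ) : ZMod (4 * k)) = a
  · have e1 : ((4 * 1 : ℕ) : ZMod (4 * k)) ≠ a := fun h => n01 (e0.trans h.symm)
    have e2 : ((4 * 2 : ℕ) : ZMod (4 * k)) ≠ a := fun h => n02 (e0.trans h.symm)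
    exact n12 ((h1 e1).trans (h2 e2).symm)
  · have e0' := h0 e0
    by_cases e1 : ((4 * 1 : ℕ) : ZMod (4 * k)) = a
    · have e2 : ((4 * 2 : ℕ) : ZMod (4 * k)) ≠ a := fun h => n12 (e1.trans h.symm)
      exact n02 (e0'.trans (h2 e2).symm)
    · exact n01 (e0'.trans (h1 e1).symm)

/-- from one vertex of the cycle to another one -/
theorem NoDomB_cc (k : ℕ) (hk : 3 ≤ k) (a b : ZMod (4 * k)) (hab : a ≠ b) :
    ∃ l, LPath (ndG k) (Sum.inl a) (Sum.inl b) l ∧ (∀ w, w ∈ l ↔ w ≠ Sum.inr false) ∧
      ∃ j : ZMod (4 * k), j.val % 4 = 0 ∧ ConsIn (Sum.inl j) (Sum.inl (j + 1)) l := by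
  obtain ⟨n, hn⟩ : ∃ n, n = 4 * k := ⟨_, rfl⟩
  have hnz : NeZero (4 * k) := ⟨by omega⟩
  obtain ⟨d, hd⟩ : ∃ d, d = (b - a).val := ⟨_, rfl⟩
  have hdn : d < n := by rw [hd, hn]; exact ZMod.val_lt _
  have hdc : ((d : ℕ) : ZMod (4 * k)) = b - a := by rw [hd]; exact ZMod.natCast_rightInverse _
  have hd0 : 0 < d := by
    rcases Nat.eq_zero_or_pos d with h | h
    · rw [h] at hdc
      rw [Nat.cast_zero] at hdc
      exact absurd (sub_eq_zero.1 hdc.symm).symm hab
    · exact h
  have hnc : ((n : ℕ) : ZMod (4 * k)) = 0 := by rw [hn]; exact ZMod.natCast_self _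
  obtain ⟨f, hf⟩ : ∃ f : ℕ → ZMod (4 * k) ⊕ Bool, f = fun t =>
    if t < d then Sum.inl (a + (t : ZMod (4 * k))) else if t = d then Sum.inr true
      else Sum.inl (a + ((n + d - t : ℕ) : ZMod (4 * k))) := ⟨_, rfl⟩
  have f1 : ∀ t, t < d → f t = Sum.inl (a + (t : ZMod (4 * k))) := by
    intro t ht; rw [hf]; simp [ht]
  have f2 : f d = Sum.inr true := by rw [hf]; simp
  have f3 : ∀ t, d < t → f t = Sum.inl (a + ((n + d - t : ℕ) : ZMod (4 * k))) := by
    intro t ht; rw [hf]
    simp only
    rw [if_neg (by omega), if_neg (by omega)]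
  have hf0 : f 0 = Sum.inl a := by rw [f1 0 hd0]; simp
  have hfn : f n = Sum.inl b := by
    rw [f3 n hdn]
    have : n + d - n = d := by omega
    rw [this, hdc]; simp
  have hlp := NoDomB_lpath (ndG k) f n (by
    intro t ht
    rcases lt_trichotomy (t + 1) d with h | h | h
    · rw [f1 t (by omega), f1 (t + 1) h]
      have := NoDomB_adj_cyc k hk (a + (t : ZMod (4 * k)))
      rw [Nat.cast_succ, ← add_assoc]
      exact this
    · rw [f1 t (by omega), h, f2]
      exact NoDomB_adj_hub k _
    · rcases Nat.eq_or_lt_of_le (Nat.lt_succ_iff.1 h) with h' | h'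
      · rw [← h', f2, f3 (d + 1) (by omega)]
        exact (NoDomB_adj_hub k _).symm
      · rw [f3 t h', f3 (t + 1) (by omega)]
        have e : n + d - t = (n + d - (t + 1)) + 1 := by omega
        rw [e]
        have := NoDomB_adj_cyc k hk (a + ((n + d - (t + 1) : ℕ) : ZMod (4 * k)))
        rw [Nat.cast_succ, ← add_assoc]
        exact this.symm) (by
    intro s t hst ht heq
    rcases lt_trichotomy s d with h | h | h
    · rw [f1 s h] at heq
      rcases lt_trichotomy t d with h' | h' | h'
      · rw [f1 t h'] at heq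
        have := add_left_cancel (Sum.inl_injective heq)
        have := NoDomB_cast_inj (n := 4 * k) (by omega) (by omega) this
        omega
      · rw [h', f2] at heq
        exact absurd heq (by simp)
      · rw [f3 t h'] at heq
        have := add_left_cancel (Sum.inl_injective heq)
        have := NoDomB_cast_inj (n := 4 * k) (by omega) (by omega) this
        omega
    · rw [h, f2, f3 t (by omega)] at heq
      exact absurd heq (by simp)
    · rw [f3 s h, f3 t (by omega)] at heq
      have := add_left_cancel (Sum.inl_injective heq)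
      have := NoDomB_cast_inj (n := 4 * k) (by omega) (by omega) this
      omega)
  rw [hf0, hfn] at hlp
  refine ⟨_, hlp, ?_, ?_⟩
  · intro w
    constructor
    · intro hw hw'
      rw [List.mem_map] at hw
      obtain ⟨t, _, ht⟩ := hw
      rw [hw'] at ht
      rcases lt_trichotomy t d with h | h | h
      · rw [f1 t h] at ht; exact absurd ht (by simp)
      · rw [h, f2] at ht; exact absurd ht (by simp)
      · rw [f3 t h] at ht; exact absurd ht (by simp)
    · intro hw
      rw [List.mem_map]
      rcases w with c | c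
      · have hs : (c - a).val < n := by rw [hn]; exact ZMod.val_lt _
        have hc : (((c - a).val : ℕ) : ZMod (4 * k)) = c - a := ZMod.natCast_rightInverse _
        by_cases h : (c - a).val < d
        · refine ⟨(c - a).val, List.mem_range.2 (by omega), ?_⟩
          rw [f1 _ h, hc]; simp
        · refine ⟨n + d - (c - a).val, List.mem_range.2 (by omega), ?_⟩
          rw [f3 _ (by omega)]
          have : n + d - (n + d - (c - a).val) = (c - a).val := by omega
          rw [this, hc]; simp
      · have : c = true := by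
          cases c
          · exact absurd rfl hw
          · rfl
        rw [this]
        exact ⟨d, List.mem_range.2 (by omega), f2⟩
  · obtain ⟨j, hj4, hja, hjb⟩ := NoDomB_choose k hk (a - 1) (b - 1)
    refine ⟨j, hj4, ?_⟩
    obtain ⟨s, hs⟩ : ∃ s, s = (j - a).val := ⟨_, rfl⟩
    have hsn : s < n := by rw [hs, hn]; exact ZMod.val_lt _
    have hsc : ((s : ℕ) : ZMod (4 * k)) = j - a := by rw [hs]; exact ZMod.natCast_rightInverse _
    have hs1 : s + 1 ≠ n := by
      intro h
      apply hja
      have h1 : ((s + 1 : ℕ) : ZMod (4 * k)) = 0 := by rw [h]; exact hnc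
      rw [Nat.cast_succ, hsc] at h1
      have : j - (a - 1) = 0 := by rw [← h1]; ring
      exact sub_eq_zero.1 this
    have hs2 : s + 1 ≠ d := by
      intro h
      apply hjb
      have h1 : ((s + 1 : ℕ) : ZMod (4 * k)) = b - a := by rw [h]; exact hdc
      rw [Nat.cast_succ, hsc] at h1
      have : j - (b - 1) = 0 := by
        have : j - (b - 1) = (j - a + 1) - (b - a) := by ring
        rw [this, h1]; ring
      exact sub_eq_zero.1 this
    have hj0 : a + ((s : ℕ) : ZMod (4 * k)) = j := by rw [hsc]; ring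
    have hj1 : a + ((s + 1 : ℕ) : ZMod (4 * k)) = j + 1 := by rw [Nat.cast_succ, hsc]; ring
    by_cases h : s < d
    · left
      have := NoDomB_infix f (n + 1) s (by omega)
      rw [f1 s h, f1 (s + 1) (by omega), hj0, hj1] at this
      exact this
    · right
      have := NoDomB_infix f (n + 1) (n + d - (s + 1)) (by omega)
      rw [f3 _ (by omega), f3 _ (by omega)] at this
      have e1 : n + d - (n + d - (s + 1)) = s + 1 := by omega
      have e2 : n + d - (n + d - (s + 1) + 1) = s := by omega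
      rw [e1, e2, hj0, hj1] at this
      exact this

/-- from the hub to a vertex of the cycle -/
theorem NoDomB_hc (k : ℕ) (hk : 3 ≤ k) (b : ZMod (4 * k)) :
    ∃ l, LPath (ndG k) (Sum.inr true) (Sum.inl b) l ∧ (∀ w, w ∈ l ↔ w ≠ Sum.inr false) ∧
      ∃ j : ZMod (4 * k), j.val % 4 = 0 ∧ ConsIn (Sum.inl j) (Sum.inl (j + 1)) l := by
  obtain ⟨n, hn⟩ : ∃ n, n = 4 * k := ⟨_, rfl⟩
  have hnz : NeZero (4 * k) := ⟨by omega⟩
  have hnc : ((n : ℕ) : ZMod (4 * k)) = 0 := by rw [hn]; exact ZMod.natCast_self _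
  obtain ⟨f, hf⟩ : ∃ f : ℕ → ZMod (4 * k) ⊕ Bool, f = fun t =>
    if t = 0 then Sum.inr true else Sum.inl (b + ((n - t : ℕ) : ZMod (4 * k))) := ⟨_, rfl⟩
  have f2 : f 0 = Sum.inr true := by rw [hf]; simp
  have f3 : ∀ t, 0 < t → f t = Sum.inl (b + ((n - t : ℕ) : ZMod (4 * k))) := by
    intro t ht; rw [hf]
    simp only
    rw [if_neg (by omega)]
  have hfn : f n = Sum.inl b := by
    rw [f3 n (by omega)]; simp
  have hlp := NoDomB_lpath (ndG k) f n (by
    intro t ht
    rcases Nat.eq_zero_or_pos t with h' | h'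
    · rw [h', f2, f3 (0 + 1) (by omega)]
      exact (NoDomB_adj_hub k _).symm
    · rw [f3 t h', f3 (t + 1) (by omega)]
      have e : n - t = (n - (t + 1)) + 1 := by omega
      rw [e]
      have := NoDomB_adj_cyc k hk (b + ((n - (t + 1) : ℕ) : ZMod (4 * k)))
      rw [Nat.cast_succ, ← add_assoc]
      exact this.symm) (by
    intro s t hst ht heq
    rcases Nat.eq_zero_or_pos s with h | h
    · rw [h, f2, f3 t (by omega)] at heq
      exact absurd heq (by simp)
    · rw [f3 s h, f3 t (by omega)] at heq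
      have := add_left_cancel (Sum.inl_injective heq)
      have := NoDomB_cast_inj (n := 4 * k) (by omega) (by omega) this
      omega)
  rw [f2, hfn] at hlp
  refine ⟨_, hlp, ?_, ?_⟩
  · intro w
    constructor
    · intro hw hw'
      rw [List.mem_map] at hw
      obtain ⟨t, _, ht⟩ := hw
      rw [hw'] at ht
      rcases Nat.eq_zero_or_pos t with h | h
      · rw [h, f2] at ht; exact absurd ht (by simp)
      · rw [f3 t h] at ht; exact absurd ht (by simp)
    · intro hw
      rw [List.mem_map]
      rcases w with c | c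
      · have hs : (c - b).val < n := by rw [hn]; exact ZMod.val_lt _
        have hc : (((c - b).val : ℕ) : ZMod (4 * k)) = c - b := ZMod.natCast_rightInverse _
        refine ⟨n - (c - b).val, List.mem_range.2 (by omega), ?_⟩
        rw [f3 _ (by omega)]
        have : n - (n - (c - b).val) = (c - b).val := by omega
        rw [this, hc]; simp
      · have : c = true := by
          cases c
          · exact absurd rfl hw
          · rfl
        rw [this]
        exact ⟨0, List.mem_range.2 (by omega), f2⟩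
  · obtain ⟨j, hj4, hjb, _⟩ := NoDomB_choose k hk (b - 1) (b - 1)
    refine ⟨j, hj4, ?_⟩
    obtain ⟨s, hs⟩ : ∃ s, s = (j - b).val := ⟨_, rfl⟩
    have hsn : s < n := by rw [hs, hn]; exact ZMod.val_lt _
    have hsc : ((s : ℕ) : ZMod (4 * k)) = j - b := by rw [hs]; exact ZMod.natCast_rightInverse _
    have hs1 : s + 1 ≠ n := by
      intro h
      apply hjb
      have h1 : ((s + 1 : ℕ) : ZMod (4 * k)) = 0 := by rw [h]; exact hnc
      rw [Nat.cast_succ, hsc] at h1
      have : j - (b - 1) = 0 := by rw [← h1]; ring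
      exact sub_eq_zero.1 this
    have hj0 : b + ((s : ℕ) : ZMod (4 * k)) = j := by rw [hsc]; ring
    have hj1 : b + ((s + 1 : ℕ) : ZMod (4 * k)) = j + 1 := by rw [Nat.cast_succ, hsc]; ring
    right
    have := NoDomB_infix f (n + 1) (n - (s + 1)) (by omega)
    rw [f3 _ (by omega), f3 _ (by omega)] at this
    have e1 : n - (n - (s + 1)) = s + 1 := by omega
    have e2 : n - (n - (s + 1) + 1) = s := by omega
    rw [e1, e2, hj0, hj1] at this
    exact this

theorem wheel_ham (k : ℕ) (hk : 3 ≤ k) (u v : ZMod (4 * k) ⊕ Bool)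
    (hu : u ≠ Sum.inr false) (hv : v ≠ Sum.inr false) (huv : u ≠ v) :
    ∃ l, LPath (ndG k) u v l ∧ (∀ w, w ∈ l ↔ w ≠ Sum.inr false) ∧
      ∃ j : ZMod (4 * k), j.val % 4 = 0 ∧ ConsIn (Sum.inl j) (Sum.inl (j + 1)) l := by
  rcases u with a | a
  · rcases v with b | b
    · exact NoDomB_cc k hk a b (fun h => huv (by rw [h]))
    · have : b = true := by
        cases b
        · exact absurd rfl hv
        · rfl
      subst this
      obtain ⟨l, h1, h2, j, h3, h4⟩ := NoDomB_hc k hk a
      refine ⟨l.reverse, h1.reverse, ?_, j, h3, ?_⟩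
      · intro w
        rw [List.mem_reverse]
        exact h2 w
      · rcases h4 with h | h
        · right
          have := List.reverse_infix.2 h
          simpa using this
        · left
          have := List.reverse_infix.2 h
          simpa using this
  · have : a = true := by
      cases a
      · exact absurd rfl hu
      · rfl
    subst this
    rcases v with b | b
    · exact NoDomB_hc k hk b
    · have : b = true := by
        cases b
        · exact absurd rfl hv
        · rfl
      subst this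
      exact absurd rfl huv

end Pool.Agent.Lib.MP_0f64c5_co
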