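import Pool.Agent.Lib.MP_0f64c5_co.NoDomA
import Pool.Agent.Lib.MP_0f64c5_co.NoDomB
import Pool.Agent.Lib.MP_0f64c5_co.IsoA

/-!
# Module NODOM: a PLD-maximal graph without dominating vertex with `5 (n - 2) / 2` edges

Edges: `4k + 4k + 2k = 10 k` (`sum_dg`). No vertex is adjacent to all others (`h` is not adjacent to
`z`, `z` is not adjacent to `h`, `c_i` is not adjacent to `c_{i+2}`).
PLD-maximal, `z = inr false`: (1) `u, v <> z`, `i <= 4k + 1`: `wheel_path`. (2) `u, v <> z`,
`i = 4k + 2`: `wheel_ham` and insert `z` between `c_j` and `c_{j+1}` (`j` = 0 mod 4).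
(3) `z` and `v`, `i = 3`: `v = c_a` has a neighbour on the cycle adjacent to `z`, `v = h`: `z c_0 h`;
`i >= 4`: take `w` adjacent to `z`, `w <> v`, and the path of the wheel from `w` to `v` with `i - 1`
vertices (`wheel_path`). `u` and `z`: reverse.
-/

set_option autoImplicit false

namespace Pool.Agent.Lib.MP_0f64c5_co

open Classical

theorem NoDom_one_ne (k : ℕ) (hk : 3 ≤ k) : (1 : ZMod (4 * k)) ≠ 0 := by
  have : Fact (1 < 4 * k) := ⟨by omega⟩
  exact one_ne_zero

theorem NoDom_two_ne (k : ℕ) (hk : 3 ≤ k) : (2 : ZMod (4 * k)) ≠ 0 := by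
  intro h
  have h1 : ((2 : ℕ) : ZMod (4 * k)) = ((0 : ℕ) : ZMod (4 * k)) := by push_cast; exact h
  have := NoDomB_cast_inj (n := 4 * k) (by omega) (by omega) h1
  omega

theorem NoDom_ll (k : ℕ) (hk : 3 ≤ k) (i j : ZMod (4 * k)) :
    (ndG k).Adj (Sum.inl i) (Sum.inl j) ↔ j = i + 1 ∨ i = j + 1 := by
  constructor
  · intro h
    unfold ndG at h
    rw [SimpleGraph.fromRel_adj] at h
    obtain ⟨_, h | h⟩ := h
    · rcases h with ⟨i', h1, h2⟩ | ⟨i', h1, h2⟩ | ⟨i', _, h1, h2⟩
      · left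
        rw [Sum.inl_injective h1]; exact Sum.inl_injective h2
      · exact absurd h2 (by simp)
      · exact absurd h2 (by simp)
    · rcases h with ⟨i', h1, h2⟩ | ⟨i', h1, h2⟩ | ⟨i', _, h1, h2⟩
      · right
        rw [Sum.inl_injective h1]; exact Sum.inl_injective h2
      · exact absurd h2 (by simp)
      · exact absurd h2 (by simp)
  · rintro (h | h)
    · rw [h]; exact NoDomB_adj_cyc k hk i
    · rw [h]; exact (NoDomB_adj_cyc k hk j).symm

theorem NoDom_lz (k : ℕ) (i : ZMod (4 * k)) :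
    (ndG k).Adj (Sum.inl i) (Sum.inr false) ↔ i.val % 4 < 2 := by
  unfold ndG
  rw [SimpleGraph.fromRel_adj]
  constructor
  · rintro ⟨_, h | h⟩
    · rcases h with ⟨i', h1, h2⟩ | ⟨i', h1, h2⟩ | ⟨i', h0, h1, h2⟩
      · exact absurd h2 (by simp)
      · exact absurd h2 (by simp)
      · rw [Sum.inl_injective h1]; exact h0
    · rcases h with ⟨i', h1, h2⟩ | ⟨i', h1, h2⟩ | ⟨i', h0, h1, h2⟩
      · exact absurd h1 (by simp)
      · exact absurd h1 (by simp)
      · exact absurd h1 (by simp)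
  · intro h
    exact ⟨by simp, Or.inl (Or.inr (Or.inr ⟨i, h, rfl, rfl⟩))⟩

theorem NoDom_rr (k : ℕ) (a b : Bool) : ¬ (ndG k).Adj (Sum.inr a) (Sum.inr b) := by
  unfold ndG
  rw [SimpleGraph.fromRel_adj]
  rintro ⟨_, h | h⟩
  · rcases h with ⟨i', h1, h2⟩ | ⟨i', h1, h2⟩ | ⟨i', h0, h1, h2⟩ <;> exact absurd h1 (by simp)
  · rcases h with ⟨i', h1, h2⟩ | ⟨i', h1, h2⟩ | ⟨i', h0, h1, h2⟩ <;> exact absurd h1 (by simp)

theorem NoDom_val_succ (k : ℕ) (hk : 3 ≤ k) (i : ZMod (4 * k)) :
    (i + 1).val % 4 = (i.val + 1) % 4 := by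
  have : Fact (1 < 4 * k) := ⟨by omega⟩
  rw [ZMod.val_add, ZMod.val_one]
  exact Nat.mod_mod_of_dvd _ ⟨k, rfl⟩

theorem NoDom_val_pred (k : ℕ) (hk : 3 ≤ k) (i : ZMod (4 * k)) :
    i.val % 4 = ((i - 1).val + 1) % 4 := by
  have := NoDom_val_succ k hk (i - 1)
  rwa [sub_add_cancel] at this

/-- insert `z` between two consecutive vertices -/
theorem NoDom_insert {V : Type*} {G : SimpleGraph V} {u v x y z : V} {l : List V}
    (h : LPath G u v l) (hxy : [x, y] <:+: l) (hz : z ∉ l) (hx : G.Adj x z) (hy : G.Adj z y) :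
    ∃ l', LPath G u v l' ∧ l'.length = l.length + 1 := by
  obtain ⟨A, B, rfl⟩ := hxy
  obtain ⟨h1, h2, h3, h4⟩ := h
  refine ⟨A ++ [x, z, y] ++ B, ⟨?_, ?_, ?_, ?_⟩, ?_⟩
  · rw [List.append_assoc, List.isChain_append] at h1 ⊢
    obtain ⟨hA, hB, hAB⟩ := h1
    refine ⟨hA, ?_, ?_⟩
    · simp only [List.cons_append, List.nil_append, List.isChain_cons_cons] at hB ⊢
      exact ⟨hx, hy, hB.2⟩
    · simpa using hAB
  · have hp : (A ++ [x, z, y] ++ B).Perm (z :: (A ++ [x, y] ++ B)) := by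
      have e1 : A ++ [x, z, y] ++ B = (A ++ [x]) ++ z :: ([y] ++ B) := by simp
      have e2 : A ++ [x, y] ++ B = (A ++ [x]) ++ ([y] ++ B) := by simp
      rw [e1, e2]
      exact List.perm_middle
    rw [hp.nodup_iff, List.nodup_cons]
    exact ⟨hz, h2⟩
  · rw [← h3]
    cases A <;> simp
  · rw [← h4]
    have e : ∀ C : List V, (C ++ y :: B).getLast? = (y :: B).getLast? := by
      intro C
      rw [List.getLast?_append, List.getLast?_cons]
      simp
    have e1 : A ++ [x, z, y] ++ B = (A ++ [x, z]) ++ y :: B := by simp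
    have e2 : A ++ [x, y] ++ B = (A ++ [x]) ++ y :: B := by simp
    rw [e1, e2, e, e]
  · simp only [List.length_append, List.length_cons, List.length_nil]
    omega

theorem NoDom_ham (k : ℕ) (hk : 3 ≤ k) (u v : ZMod (4 * k) ⊕ Bool)
    (hu : u ≠ Sum.inr false) (hv : v ≠ Sum.inr false) (huv : u ≠ v) :
    ∃ l, LPath (ndG k) u v l ∧ l.length = 4 * k + 2 := by
  have hnz : NeZero (4 * k) := ⟨by omega⟩
  obtain ⟨l, hl, hmem, j, hj, hcons⟩ := wheel_ham k hk u v hu hv huv
  have hlen : l.length = 4 * k + 1 := by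
    have h1 : l.toFinset = Finset.univ.erase (Sum.inr false) := by
      ext w
      rw [List.mem_toFinset, Finset.mem_erase, hmem]
      simp
    have h2 := List.toFinset_card_of_nodup hl.2.1
    rw [h1, Finset.card_erase_of_mem (Finset.mem_univ _), Finset.card_univ, Fintype.card_sum,
      ZMod.card, Fintype.card_bool] at h2
    omega
  have hz : Sum.inr false ∉ l := fun h => (hmem _).1 h rfl
  have hjz : (ndG k).Adj (Sum.inl j) (Sum.inr false) := (NoDom_lz k j).2 (by omega)
  have hj1z : (ndG k).Adj (Sum.inl (j + 1)) (Sum.inr false) :=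
    (NoDom_lz k (j + 1)).2 (by rw [NoDom_val_succ k hk]; omega)
  rcases hcons with h | h
  · obtain ⟨l', h1, h2⟩ := NoDom_insert hl h hz hjz hj1z.symm
    exact ⟨l', h1, by omega⟩
  · obtain ⟨l', h1, h2⟩ := NoDom_insert hl h hz hj1z hjz.symm
    exact ⟨l', h1, by omega⟩

theorem NoDom_z (k : ℕ) (hk : 3 ≤ k) (v : ZMod (4 * k) ⊕ Bool)
    (hv : v ≠ Sum.inr false) (i : ℕ) (hi : 3 ≤ i) (hi2 : i ≤ 4 * k + 2) :
    ∃ l, LPath (ndG k) (Sum.inr false) v l ∧ l.length = i := by
  have hnz : NeZero (4 * k) := ⟨by omega⟩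
  have hfact : Fact (1 < 4 * k) := ⟨by omega⟩
  rcases Nat.eq_or_lt_of_le hi with h3 | h3
  · -- length 3
    have hw : ∃ w, (ndG k).Adj w (Sum.inr false) ∧ (ndG k).Adj w v := by
      rcases v with a | b
      · have h4 : a.val % 4 < 4 := Nat.mod_lt _ (by norm_num)
        have hs := NoDom_val_succ k hk a
        have hp := NoDom_val_pred k hk a
        by_cases hc : a.val % 4 = 0 ∨ a.val % 4 = 3
        · refine ⟨Sum.inl (a + 1), (NoDom_lz k _).2 (by omega), ?_⟩
          exact (NoDom_ll k hk _ _).2 (Or.inr rfl)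
        · refine ⟨Sum.inl (a - 1), (NoDom_lz k _).2 (by omega), ?_⟩
          exact (NoDom_ll k hk _ _).2 (Or.inl (by ring))
      · have : b = true := by
          cases b
          · exact absurd rfl hv
          · rfl
        subst this
        exact ⟨Sum.inl 0, (NoDom_lz k _).2 (by rw [ZMod.val_zero]; norm_num),
          NoDomB_adj_hub k _⟩
    obtain ⟨w, hw1, hw2⟩ := hw
    refine ⟨[Sum.inr false, w, v], ⟨?_, ?_, by simp, by simp⟩, ?_⟩
    · simp [hw1.symm, hw2]
    · have e1 := hw1.ne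
      have e2 := hw2.ne
      simp only [List.nodup_cons, List.mem_cons, List.not_mem_nil, or_false, not_or,
        not_false_eq_true, List.nodup_nil, and_true]
      exact ⟨⟨e1.symm, hv.symm⟩, e2⟩
    · simp only [List.length_cons, List.length_nil]; omega
  · -- length at least 4
    have hw : ∃ w : ZMod (4 * k), (ndG k).Adj (Sum.inl w) (Sum.inr false) ∧ Sum.inl w ≠ v := by
      by_cases h0 : (Sum.inl 0 : ZMod (4 * k) ⊕ Bool) = v
      · refine ⟨1, (NoDom_lz k _).2 (by rw [ZMod.val_one]; norm_num), ?_⟩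
        rw [← h0]
        intro h
        exact NoDom_one_ne k hk (Sum.inl_injective h)
      · exact ⟨0, (NoDom_lz k _).2 (by rw [ZMod.val_zero]; norm_num), h0⟩
    obtain ⟨w, hw1, hw2⟩ := hw
    obtain ⟨l, hl, hlen, hzl⟩ := wheel_path k hk (Sum.inl w) v (by simp) hv hw2 (i - 1)
      (by omega) (by omega)
    obtain ⟨g1, g2, g3, g4⟩ := hl
    refine ⟨Sum.inr false :: l, ⟨?_, ?_, by simp, ?_⟩, ?_⟩
    · rcases l with _ | ⟨c, l⟩
      · simp at g3
      · rw [List.isChain_cons_cons]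
        refine ⟨?_, g1⟩
        simp only [List.head?_cons, Option.some.injEq] at g3
        rw [g3]
        exact hw1.symm
    · rw [List.nodup_cons]
      exact ⟨hzl, g2⟩
    · rcases l with _ | ⟨c, l⟩
      · simp at g3
      · rw [List.getLast?_cons_cons]
        exact g4
    · rw [List.length_cons, hlen]
      omega

theorem NoDom_pld (k : ℕ) (hk : 3 ≤ k) (i : ℕ) (hi : 3 ≤ i) (hi2 : i ≤ 4 * k + 2) :
    HasP (ndG k) i := by
  rw [hasP_iff]
  intro u v huv
  by_cases hu : u = Sum.inr false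
  · rw [hu]
    exact NoDom_z k hk v (fun h => huv (hu.trans h.symm)) i hi hi2
  · by_cases hv : v = Sum.inr false
    · obtain ⟨l, h1, h2⟩ := NoDom_z k hk u hu i hi hi2
      refine ⟨l.reverse, ?_, by rw [List.length_reverse]; exact h2⟩
      rw [hv]
      exact h1.reverse
    · rcases Nat.lt_or_ge i (4 * k + 2) with h | h
      · obtain ⟨l, h1, h2, _⟩ := wheel_path k hk u v hu hv huv i hi (by omega)
        exact ⟨l, h1, h2⟩
      · obtain ⟨l, h1, h2⟩ := NoDom_ham k hk u v hu hv huv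
        exact ⟨l, h1, by omega⟩

theorem NoDom_dom (k : ℕ) (hk : 3 ≤ k) (h : ZMod (4 * k) ⊕ Bool) : ¬ IsDom (ndG k) h := by
  intro hd
  rcases h with i | b
  · have h1 := hd (Sum.inl (i + 2)) (by
      intro h
      exact NoDom_two_ne k hk (add_eq_left.1 (Sum.inl_injective h)))
    rcases (NoDom_ll k hk _ _).1 h1 with h2 | h2
    · apply NoDom_one_ne k hk
      have : (i + 2) - (i + 1) = (1 : ZMod (4 * k)) := by ring
      rw [← this, h2]; ring
    · have h3 : ((3 : ℕ) : ZMod (4 * k)) = ((0 : ℕ) : ZMod (4 * k)) := by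
        have : (i + 2 + 1) - i = ((3 : ℕ) : ZMod (4 * k)) := by push_cast; ring
        rw [← this, ← h2]; simp
      have := NoDomB_cast_inj (n := 4 * k) (by omega) (by omega) h3
      omega
  · exact NoDom_rr k _ _ (hd (Sum.inr (!b)) (by simp))

theorem NoDom_count (k : ℕ) : ((Finset.range (4 * k)).filter (fun t => t % 4 < 2)).card = 2 * k := by
  induction k with
  | zero => simp
  | succ k ih =>
    have e : 4 * (k + 1) = 4 * k + 1 + 1 + 1 + 1 := by ring
    rw [e]
    have m0 : (4 * k) % 4 < 2 := by omega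
    have m1 : (4 * k + 1) % 4 < 2 := by omega
    have m2 : ¬ (4 * k + 1 + 1) % 4 < 2 := by omega
    have m3 : ¬ (4 * k + 1 + 1 + 1) % 4 < 2 := by omega
    simp only [Finset.range_add_one]
    rw [Finset.filter_insert, if_neg m3, Finset.filter_insert, if_neg m2, Finset.filter_insert,
      if_pos m1, Finset.filter_insert, if_pos m0, Finset.card_insert_of_notMem,
      Finset.card_insert_of_notMem, ih]
    · ring
    · simp
    · simp

theorem NoDom_countZ (k : ℕ) (hnz : NeZero (4 * k)) :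
    ∑ i : ZMod (4 * k), (if i.val % 4 < 2 then 1 else 0) = 2 * k := by
  rw [← Finset.card_filter, ← NoDom_count k]
  refine Finset.card_bij (fun i _ => i.val) ?_ ?_ ?_
  · intro i hi
    rw [Finset.mem_filter] at hi ⊢
    exact ⟨Finset.mem_range.2 (ZMod.val_lt i), hi.2⟩
  · intro i _ j _ h
    exact ZMod.val_injective _ h
  · intro t ht
    rw [Finset.mem_filter, Finset.mem_range] at ht
    refine ⟨(t : ZMod (4 * k)), ?_, ?_⟩
    · rw [Finset.mem_filter]
      refine ⟨Finset.mem_univ _, ?_⟩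
      rw [ZMod.val_natCast, Nat.mod_eq_of_lt ht.1]
      exact ht.2
    · rw [ZMod.val_natCast, Nat.mod_eq_of_lt ht.1]

theorem NoDom_dg {V : Type*} [Fintype V] (G : SimpleGraph V) (v : V) :
    dg G v = ∑ w, if G.Adj v w then 1 else 0 := by
  unfold dg
  rw [Finset.card_filter]

theorem NoDom_edges (k : ℕ) (hk : 3 ≤ k) (hnz : NeZero (4 * k)) : edges (ndG k) = 10 * k := by
  have h := sum_dg (ndG k)
  rw [Fintype.sum_sum_type] at h
  have h1 : ∀ i : ZMod (4 * k), dg (ndG k) (Sum.inl i) = 3 + (if i.val % 4 < 2 then 1 else 0) := by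
    intro i
    rw [NoDom_dg, Fintype.sum_sum_type, Fintype.sum_bool]
    rw [if_pos (NoDomB_adj_hub k i)]
    have e1 : (∑ j : ZMod (4 * k), if (ndG k).Adj (Sum.inl i) (Sum.inl j) then 1 else 0) = 2 := by
      rw [← Finset.card_filter]
      have : (Finset.univ.filter (fun j : ZMod (4 * k) => (ndG k).Adj (Sum.inl i) (Sum.inl j))) =
          {i + 1, i - 1} := by
        ext j
        rw [Finset.mem_filter, NoDom_ll k hk, Finset.mem_insert, Finset.mem_singleton]
        constructor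
        · rintro ⟨_, h | h⟩
          · exact Or.inl h
          · right; rw [h]; ring
        · rintro (h | h)
          · exact ⟨Finset.mem_univ _, Or.inl h⟩
          · exact ⟨Finset.mem_univ _, Or.inr (by rw [h]; ring)⟩
      rw [this, Finset.card_pair]
      intro h
      apply NoDom_two_ne k hk
      have : (i + 1) - (i - 1) = (2 : ZMod (4 * k)) := by ring
      rw [← this, h]; ring
    have e2 : (if (ndG k).Adj (Sum.inl i) (Sum.inr false) then 1 else 0) =
        (if i.val % 4 < 2 then 1 else 0) := by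
      by_cases hc : i.val % 4 < 2
      · rw [if_pos hc, if_pos ((NoDom_lz k i).2 hc)]
      · rw [if_neg hc, if_neg (fun h => hc ((NoDom_lz k i).1 h))]
    rw [e1, e2]
    ring
  have h2 : dg (ndG k) (Sum.inr true) = 4 * k := by
    rw [NoDom_dg, Fintype.sum_sum_type, Fintype.sum_bool, if_neg (NoDom_rr k _ _),
      if_neg (NoDom_rr k _ _)]
    have : ∀ j : ZMod (4 * k), (if (ndG k).Adj (Sum.inr true) (Sum.inl j) then 1 else 0) = 1 :=
      fun j => if_pos (NoDomB_adj_hub k j).symm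
    simp only [this, Finset.sum_const, Finset.card_univ, ZMod.card, smul_eq_mul, mul_one, add_zero]
  have h3 : dg (ndG k) (Sum.inr false) = 2 * k := by
    rw [NoDom_dg, Fintype.sum_sum_type, Fintype.sum_bool, if_neg (NoDom_rr k _ _),
      if_neg (NoDom_rr k _ _)]
    have : ∀ j : ZMod (4 * k), (if (ndG k).Adj (Sum.inr false) (Sum.inl j) then 1 else 0) =
        (if j.val % 4 < 2 then 1 else 0) := by
      intro j
      by_cases hc : j.val % 4 < 2
      · rw [if_pos hc, if_pos ((NoDom_lz k j).2 hc).symm]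
      · rw [if_neg hc, if_neg (fun h => hc ((NoDom_lz k j).1 h.symm))]
    simp only [this]
    rw [NoDom_countZ k hnz]
    omega
  rw [Fintype.sum_bool, h2, h3] at h
  simp only [h1] at h
  rw [Finset.sum_add_distrib, NoDom_countZ k hnz, Finset.sum_const, Finset.card_univ, ZMod.card,
    smul_eq_mul] at h
  omega

theorem exists_nodom (k : ℕ) (hk : 3 ≤ k) :
    ∃ G : SimpleGraph (Fin (4 * k + 2)), PLDMaximal G ∧ (∀ h, ¬ IsDom G h) ∧
      edges G = 10 * k := by
  have hnz : NeZero (4 * k) := ⟨by omega⟩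
  have hcard : Fintype.card (ZMod (4 * k) ⊕ Bool) = 4 * k + 2 := by
    rw [Fintype.card_sum, ZMod.card, Fintype.card_bool]
  let e := Fintype.equivFinOfCardEq hcard
  let f : ndG k ≃g (ndG k).map e.toEmbedding := SimpleGraph.Iso.map e (ndG k)
  refine ⟨(ndG k).map e.toEmbedding, ?_, ?_, ?_⟩
  · apply pldMaximal_iso f
    intro i hi hi2
    rw [hcard] at hi2
    exact NoDom_pld k hk i hi hi2
  · intro h hd
    have := isDom_iso f.symm hd
    exact NoDom_dom k hk _ this
  · rw [← edges_iso f]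
    exact NoDom_edges k hk hnz

end Pool.Agent.Lib.MP_0f64c5_co
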