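import Pool.Agent.Lib.MP_0f64c5_co.NoDomDefs

/-!
# Module NODOMA: paths of all lengths in the wheel

`u, v` different from `z = inr false`. For `u = c_a`, `v = c_b`, `b = a + d`, `1 <= d <= 4k - 1`
(representative): `c_a, c_{a+1}, ..., c_{a+r}, h, c_{b+s}, c_{b+s-1}, ..., c_b` with `0 <= r <= d - 1`,
`0 <= s <= 4k - d - 1`: `r + s + 3` vertices, all values from `3` to `4k + 1`.
For `u = h`, `v = c_b`: `h, c_{b+s}, ..., c_{b+1}, c_b`, `1 <= s <= 4k - 1`. `v = h`: reverse.
-/

set_option autoImplicit false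

namespace Pool.Agent.Lib.MP_0f64c5_co

open Classical

private theorem nodomA_inj (k : ℕ) (a : ZMod (4 * k)) (i j : ℕ) (hi : i < 4 * k) (hj : j < 4 * k)
    (h : a + (i : ZMod (4 * k)) = a + (j : ZMod (4 * k))) : i = j := by
  have h1 : ((i : ℕ) : ZMod (4 * k)) = ((j : ℕ) : ZMod (4 * k)) := add_left_cancel h
  rw [ZMod.natCast_eq_natCast_iff'] at h1
  rwa [Nat.mod_eq_of_lt hi, Nat.mod_eq_of_lt hj] at h1

private theorem nodomA_adj (k : ℕ) (hk : 3 ≤ k) (i : ZMod (4 * k)) :
    (ndG k).Adj (Sum.inl i) (Sum.inl (i + 1)) := by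
  unfold ndG
  rw [SimpleGraph.fromRel_adj]
  refine ⟨?_, Or.inl (Or.inl ⟨i, rfl, rfl⟩)⟩
  intro h
  have h1 : i = i + 1 := Sum.inl.inj h
  have h2 := nodomA_inj k i 0 1 (by omega) (by omega) (by push_cast; rw [add_zero]; exact h1)
  omega

private theorem nodomA_hub (k : ℕ) (i : ZMod (4 * k)) :
    (ndG k).Adj (Sum.inl i) (Sum.inr true) := by
  unfold ndG
  rw [SimpleGraph.fromRel_adj]
  exact ⟨by simp, Or.inl (Or.inr (Or.inl ⟨i, rfl, rfl⟩))⟩

/-- the ascending segment with `r` vertices from `c_a` -/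
private def nodomA_seg (k : ℕ) (a : ZMod (4 * k)) (r : ℕ) : List (ZMod (4 * k) ⊕ Bool) :=
  (List.range r).map (fun j : ℕ => Sum.inl (a + (j : ZMod (4 * k))))

private theorem nodomA_len (k : ℕ) (a : ZMod (4 * k)) (r : ℕ) : (nodomA_seg k a r).length = r := by
  simp [nodomA_seg]

private theorem nodomA_mem (k : ℕ) (a : ZMod (4 * k)) (r : ℕ) (x : ZMod (4 * k) ⊕ Bool) :
    x ∈ nodomA_seg k a r ↔ ∃ j : ℕ, j < r ∧ Sum.inl (a + (j : ZMod (4 * k))) = x := by
  simp [nodomA_seg]

private theorem nodomA_nodup (k : ℕ) (a : ZMod (4 * k)) (r : ℕ) (hr : r ≤ 4 * k) :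
    (nodomA_seg k a r).Nodup := by
  unfold nodomA_seg
  refine List.Nodup.map_on ?_ List.nodup_range
  intro x hx y hy hxy
  rw [List.mem_range] at hx hy
  exact nodomA_inj k a x y (by omega) (by omega) (Sum.inl.inj hxy)

private theorem nodomA_succ (k : ℕ) (a : ZMod (4 * k)) (r : ℕ) :
    nodomA_seg k a (r + 1) = Sum.inl a :: nodomA_seg k (a + 1) r := by
  unfold nodomA_seg
  rw [List.range_succ_eq_map, List.map_cons, List.map_map]
  congr 1
  · simp
  · apply List.map_congr_left
    intro j _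
    simp only [Function.comp_apply]
    push_cast
    congr 1
    ring

private theorem nodomA_last (k : ℕ) (a : ZMod (4 * k)) (r : ℕ) :
    nodomA_seg k a (r + 1) = nodomA_seg k a r ++ [Sum.inl (a + (r : ZMod (4 * k)))] := by
  unfold nodomA_seg
  rw [List.range_succ, List.map_append, List.map_singleton]

private theorem nodomA_chain (k : ℕ) (hk : 3 ≤ k) (r : ℕ) : ∀ a : ZMod (4 * k),
    (nodomA_seg k a r).IsChain (ndG k).Adj := by
  induction r with
  | zero => intro a; simp [nodomA_seg]
  | succ r ih =>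
    intro a
    rw [nodomA_succ]
    cases r with
    | zero => simp [nodomA_seg]
    | succ r =>
      have h1 := ih (a + 1)
      rw [nodomA_succ] at h1 ⊢
      rw [List.isChain_cons_cons]
      exact ⟨nodomA_adj k hk a, h1⟩

private theorem nodomA_head (k : ℕ) (a : ZMod (4 * k)) (r : ℕ) :
    (nodomA_seg k a (r + 1)).head? = some (Sum.inl a) := by
  rw [nodomA_succ, List.head?_cons]

private theorem nodomA_tail (k : ℕ) (a : ZMod (4 * k)) (r : ℕ) :
    (nodomA_seg k a (r + 1)).getLast? = some (Sum.inl (a + (r : ZMod (4 * k)))) := by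
  rw [nodomA_last, List.getLast?_concat]

private theorem nodomA_hubmem (k : ℕ) (a : ZMod (4 * k)) (r : ℕ) (e : Bool) :
    Sum.inr e ∉ nodomA_seg k a r := by
  rw [nodomA_mem]
  rintro ⟨j, _, hj⟩
  exact absurd hj (by simp)

/-- the hub followed by a descending segment -/
private theorem nodomA_hc (k : ℕ) (hk : 3 ≤ k) (b : ZMod (4 * k)) (s : ℕ) (hs : s < 4 * k) :
    LPath (ndG k) (Sum.inr true) (Sum.inl b)
      (Sum.inr true :: (nodomA_seg k b (s + 1)).reverse) := by
  refine ⟨?_, ?_, ?_, ?_⟩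
  · rw [List.isChain_cons]
    constructor
    · intro y hy
      rw [List.head?_reverse, nodomA_tail, Option.mem_some_iff] at hy
      subst hy
      exact (nodomA_hub k _).symm
    · rw [List.isChain_reverse]
      exact (nodomA_chain k hk (s + 1) b).imp (fun _ _ hab => hab.symm)
  · rw [List.nodup_cons, List.nodup_reverse, List.mem_reverse]
    exact ⟨nodomA_hubmem k b (s + 1) true, nodomA_nodup k b (s + 1) (by omega)⟩
  · rw [List.head?_cons]
  · rw [List.getLast?_cons, List.getLast?_reverse, nodomA_head]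
    rfl

/-- from the cycle to the cycle through the hub -/
private theorem nodomA_cc (k : ℕ) (hk : 3 ≤ k) (a : ZMod (4 * k)) (d r s : ℕ) (hr : r < d)
    (hs : d + s < 4 * k) :
    LPath (ndG k) (Sum.inl a) (Sum.inl (a + (d : ZMod (4 * k))))
      (nodomA_seg k a (r + 1) ++ (Sum.inr true ::
        (nodomA_seg k (a + (d : ZMod (4 * k))) (s + 1)).reverse)) := by
  obtain ⟨h1, h2, h3, h4⟩ := nodomA_hc k hk (a + (d : ZMod (4 * k))) s (by omega)
  refine ⟨?_, ?_, ?_, ?_⟩
  · rw [List.isChain_append]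
    refine ⟨nodomA_chain k hk (r + 1) a, h1, ?_⟩
    intro x hx y hy
    rw [nodomA_tail, Option.mem_some_iff] at hx
    rw [List.head?_cons, Option.mem_some_iff] at hy
    subst hx
    subst hy
    exact nodomA_hub k _
  · rw [List.nodup_append]
    refine ⟨nodomA_nodup k a (r + 1) (by omega), h2, ?_⟩
    intro x hx y hy hxy
    subst hxy
    rw [nodomA_mem] at hx
    obtain ⟨j, hj, rfl⟩ := hx
    rw [List.mem_cons, List.mem_reverse, nodomA_mem] at hy
    rcases hy with hy | ⟨j', hj', hy⟩
    · exact absurd hy (by simp)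
    · have h5 : a + (((d + j' : ℕ)) : ZMod (4 * k)) = a + (j : ZMod (4 * k)) := by
        have := Sum.inl.inj hy
        push_cast
        rw [← add_assoc]
        exact this
      have := nodomA_inj k a (d + j') j (by omega) (by omega) h5
      omega
  · rw [List.head?_append, nodomA_head]
    rfl
  · rw [List.getLast?_append, h4]
    rfl

private theorem nodomA_rev {k : ℕ} {u v : ZMod (4 * k) ⊕ Bool} {i : ℕ}
    (h : ∃ l, LPath (ndG k) u v l ∧ l.length = i ∧ Sum.inr false ∉ l) :
    ∃ l, LPath (ndG k) v u l ∧ l.length = i ∧ Sum.inr false ∉ l := by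
  obtain ⟨l, h1, h2, h3⟩ := h
  exact ⟨l.reverse, h1.reverse, by rw [List.length_reverse]; exact h2, by
    rw [List.mem_reverse]; exact h3⟩

private theorem nodomA_hpath (k : ℕ) (hk : 3 ≤ k) (b : ZMod (4 * k)) (i : ℕ) (hi : 3 ≤ i)
    (hi2 : i ≤ 4 * k + 1) :
    ∃ l, LPath (ndG k) (Sum.inr true) (Sum.inl b) l ∧ l.length = i ∧ Sum.inr false ∉ l := by
  refine ⟨_, nodomA_hc k hk b (i - 2) (by omega), ?_, ?_⟩
  · rw [List.length_cons, List.length_reverse, nodomA_len]
    omega
  · rw [List.mem_cons, List.mem_reverse, not_or]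
    exact ⟨by simp, nodomA_hubmem k b _ false⟩

theorem wheel_path (k : ℕ) (hk : 3 ≤ k) (u v : ZMod (4 * k) ⊕ Bool)
    (hu : u ≠ Sum.inr false) (hv : v ≠ Sum.inr false) (huv : u ≠ v) (i : ℕ) (hi : 3 ≤ i)
    (hi2 : i ≤ 4 * k + 1) :
    ∃ l, LPath (ndG k) u v l ∧ l.length = i ∧ Sum.inr false ∉ l := by
  rcases u with a | e
  · rcases v with b | e'
    · -- two vertices of the cycle
      have : NeZero (4 * k) := ⟨by omega⟩
      have hab : b - a ≠ 0 := by
        intro h0
        exact huv (congrArg Sum.inl (sub_eq_zero.1 h0).symm)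
      have hd1 : 0 < (b - a).val := by
        rcases Nat.eq_zero_or_pos (b - a).val with h0 | h0
        · exact absurd ((ZMod.val_eq_zero _).1 h0) hab
        · exact h0
      have hd2 : (b - a).val < 4 * k := ZMod.val_lt _
      have hb : b = a + (((b - a).val : ℕ) : ZMod (4 * k)) := by
        rw [ZMod.natCast_zmod_val]
        ring
      generalize (b - a).val = d at hd1 hd2 hb
      subst hb
      have hr : min d (i - 2) - 1 < d := by omega
      have hs : d + (i - 1 - min d (i - 2) - 1) < 4 * k := by omega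
      refine ⟨_, nodomA_cc k hk a d (min d (i - 2) - 1) (i - 1 - min d (i - 2) - 1) hr hs, ?_, ?_⟩
      · rw [List.length_append, List.length_cons, List.length_reverse, nodomA_len, nodomA_len]
        omega
      · rw [List.mem_append, List.mem_cons, List.mem_reverse, not_or, not_or]
        exact ⟨nodomA_hubmem k a _ false, by simp, nodomA_hubmem k _ _ false⟩
    · cases e' with
      | false => exact absurd rfl hv
      | true => exact nodomA_rev (nodomA_hpath k hk a i hi hi2)
  · cases e with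
    | false => exact absurd rfl hu
    | true =>
      rcases v with b | e'
      · exact nodomA_hpath k hk b i hi hi2
      · cases e' with
        | false => exact absurd rfl hv
        | true => exact absurd rfl huv

end Pool.Agent.Lib.MP_0f64c5_co
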