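import Pool.Agent.Lib.MP_0f64c5_co.Defs

/-!
# A PLD-maximal graph without dominating vertex with `5 (n - 2) / 2` edges: definition

`n = 4 k + 2`: a cycle `c_0, ..., c_{4k-1}` (`inl i`), a vertex `h = inr true` adjacent to all `c_i`, a
vertex `z = inr false` adjacent to `c_i` for `i` congruent to 0 or 1 modulo 4.
-/

set_option autoImplicit false

namespace Pool.Agent.Lib.MP_0f64c5_co

/-- Cycle, hub `inr true`, half hub `inr false`. -/
def ndG (k : ℕ) : SimpleGraph (ZMod (4 * k) ⊕ Bool) :=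
  SimpleGraph.fromRel (fun p q =>
    (∃ i, p = Sum.inl i ∧ q = Sum.inl (i + 1)) ∨
    (∃ i, p = Sum.inl i ∧ q = Sum.inr true) ∨
    (∃ i : ZMod (4 * k), i.val % 4 < 2 ∧ p = Sum.inl i ∧ q = Sum.inr false))

end Pool.Agent.Lib.MP_0f64c5_co
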