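import Pool.Agent.Lib.MP_0f64c5_co.Defs

/-!
# Wheels with extra edges: paths of all lengths and Hamiltonian paths through a marked rim edge

Generalisation of NoDomA and NoDomB to rims of any length.
-/

set_option autoImplicit false

namespace Pool.Agent.Lib.MP_0f64c5_co

open Classical

/-- A rim `inl i`, `i` modulo `m`, and a hub `inr true`. -/
structure RimHub (m : ℕ) (G : SimpleGraph (ZMod m ⊕ Bool)) : Prop where
  hm : 3 ≤ m
  cyc : ∀ i, G.Adj (Sum.inl i) (Sum.inl (i + 1))
  hub : ∀ i, G.Adj (Sum.inl i) (Sum.inr true)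


private theorem nodomG_inj (m : ℕ) (a : ZMod m) (i j : ℕ) (hi : i < m) (hj : j < m)
    (h : a + (i : ZMod m) = a + (j : ZMod m)) : i = j := by
  have h1 : ((i : ℕ) : ZMod m) = ((j : ℕ) : ZMod m) := add_left_cancel h
  rw [ZMod.natCast_eq_natCast_iff'] at h1
  rwa [Nat.mod_eq_of_lt hi, Nat.mod_eq_of_lt hj] at h1

/-- the ascending segment with `r` vertices from `c_a` -/
private def nodomG_seg (m : ℕ) (a : ZMod m) (r : ℕ) : List (ZMod m ⊕ Bool) :=
  (List.range r).map (fun j : ℕ => Sum.inl (a + (j : ZMod m)))

private theorem nodomG_len (m : ℕ) (a : ZMod m) (r : ℕ) : (nodomG_seg m a r).length = r := by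
  simp [nodomG_seg]

private theorem nodomG_mem (m : ℕ) (a : ZMod m) (r : ℕ) (x : ZMod m ⊕ Bool) :
    x ∈ nodomG_seg m a r ↔ ∃ j : ℕ, j < r ∧ Sum.inl (a + (j : ZMod m)) = x := by
  simp [nodomG_seg]

private theorem nodomG_nodup (m : ℕ) (a : ZMod m) (r : ℕ) (hr : r ≤ m) :
    (nodomG_seg m a r).Nodup := by
  unfold nodomG_seg
  refine List.Nodup.map_on ?_ List.nodup_range
  intro x hx y hy hxy
  rw [List.mem_range] at hx hy
  exact nodomG_inj m a x y (by omega) (by omega) (Sum.inl.inj hxy)

private theorem nodomG_succ (m : ℕ) (a : ZMod m) (r : ℕ) :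
    nodomG_seg m a (r + 1) = Sum.inl a :: nodomG_seg m (a + 1) r := by
  unfold nodomG_seg
  rw [List.range_succ_eq_map, List.map_cons, List.map_map]
  congr 1
  · simp
  · apply List.map_congr_left
    intro j _
    simp only [Function.comp_apply]
    push_cast
    congr 1
    ring

private theorem nodomG_last (m : ℕ) (a : ZMod m) (r : ℕ) :
    nodomG_seg m a (r + 1) = nodomG_seg m a r ++ [Sum.inl (a + (r : ZMod m))] := by
  unfold nodomG_seg
  rw [List.range_succ, List.map_append, List.map_singleton]

private theorem nodomG_chain (m : ℕ) {G : SimpleGraph (ZMod m ⊕ Bool)} (H : RimHub m G) (r : ℕ) : ∀ a : ZMod m,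
    (nodomG_seg m a r).IsChain G.Adj := by
  induction r with
  | zero => intro a; simp [nodomG_seg]
  | succ r ih =>
    intro a
    rw [nodomG_succ]
    cases r with
    | zero => simp [nodomG_seg]
    | succ r =>
      have h1 := ih (a + 1)
      rw [nodomG_succ] at h1 ⊢
      rw [List.isChain_cons_cons]
      exact ⟨H.cyc a, h1⟩

private theorem nodomG_head (m : ℕ) (a : ZMod m) (r : ℕ) :
    (nodomG_seg m a (r + 1)).head? = some (Sum.inl a) := by
  rw [nodomG_succ, List.head?_cons]

private theorem nodomG_tail (m : ℕ) (a : ZMod m) (r : ℕ) :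
    (nodomG_seg m a (r + 1)).getLast? = some (Sum.inl (a + (r : ZMod m))) := by
  rw [nodomG_last, List.getLast?_concat]

private theorem nodomG_hubmem (m : ℕ) (a : ZMod m) (r : ℕ) (e : Bool) :
    Sum.inr e ∉ nodomG_seg m a r := by
  rw [nodomG_mem]
  rintro ⟨j, _, hj⟩
  exact absurd hj (by simp)

/-- the hub followed by a descending segment -/
private theorem nodomG_hc (m : ℕ) {G : SimpleGraph (ZMod m ⊕ Bool)} (H : RimHub m G) (b : ZMod m) (s : ℕ) (hs : s < m) :
    LPath G (Sum.inr true) (Sum.inl b)
      (Sum.inr true :: (nodomG_seg m b (s + 1)).reverse) := by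
  refine ⟨?_, ?_, ?_, ?_⟩
  · rw [List.isChain_cons]
    constructor
    · intro y hy
      rw [List.head?_reverse, nodomG_tail, Option.mem_some_iff] at hy
      subst hy
      exact (H.hub _).symm
    · rw [List.isChain_reverse]
      exact (nodomG_chain m H (s + 1) b).imp (fun _ _ hab => hab.symm)
  · rw [List.nodup_cons, List.nodup_reverse, List.mem_reverse]
    exact ⟨nodomG_hubmem m b (s + 1) true, nodomG_nodup m b (s + 1) (by omega)⟩
  · rw [List.head?_cons]
  · rw [List.getLast?_cons, List.getLast?_reverse, nodomG_head]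
    rfl

/-- from the cycle to the cycle through the hub -/
private theorem nodomG_cc (m : ℕ) {G : SimpleGraph (ZMod m ⊕ Bool)} (H : RimHub m G) (a : ZMod m) (d r s : ℕ) (hr : r < d)
    (hs : d + s < m) :
    LPath G (Sum.inl a) (Sum.inl (a + (d : ZMod m)))
      (nodomG_seg m a (r + 1) ++ (Sum.inr true ::
        (nodomG_seg m (a + (d : ZMod m)) (s + 1)).reverse)) := by
  obtain ⟨h1, h2, h3, h4⟩ := nodomG_hc m H (a + (d : ZMod m)) s (by omega)
  refine ⟨?_, ?_, ?_, ?_⟩
  · rw [List.isChain_append]
    refine ⟨nodomG_chain m H (r + 1) a, h1, ?_⟩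
    intro x hx y hy
    rw [nodomG_tail, Option.mem_some_iff] at hx
    rw [List.head?_cons, Option.mem_some_iff] at hy
    subst hx
    subst hy
    exact H.hub _
  · rw [List.nodup_append]
    refine ⟨nodomG_nodup m a (r + 1) (by omega), h2, ?_⟩
    intro x hx y hy hxy
    subst hxy
    rw [nodomG_mem] at hx
    obtain ⟨j, hj, rfl⟩ := hx
    rw [List.mem_cons, List.mem_reverse, nodomG_mem] at hy
    rcases hy with hy | ⟨j', hj', hy⟩
    · exact absurd hy (by simp)
    · have h5 : a + (((d + j' : ℕ)) : ZMod m) = a + (j : ZMod m) := by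
        have := Sum.inl.inj hy
        push_cast
        rw [← add_assoc]
        exact this
      have := nodomG_inj m a (d + j') j (by omega) (by omega) h5
      omega
  · rw [List.head?_append, nodomG_head]
    rfl
  · rw [List.getLast?_append, h4]
    rfl

private theorem nodomG_rev {m : ℕ} {G : SimpleGraph (ZMod m ⊕ Bool)} {u v : ZMod m ⊕ Bool} {i : ℕ}
    (h : ∃ l, LPath G u v l ∧ l.length = i ∧ Sum.inr false ∉ l) :
    ∃ l, LPath G v u l ∧ l.length = i ∧ Sum.inr false ∉ l := by
  obtain ⟨l, h1, h2, h3⟩ := h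
  exact ⟨l.reverse, h1.reverse, by rw [List.length_reverse]; exact h2, by
    rw [List.mem_reverse]; exact h3⟩

private theorem nodomG_hpath (m : ℕ) {G : SimpleGraph (ZMod m ⊕ Bool)} (H : RimHub m G) (b : ZMod m) (i : ℕ) (hi : 3 ≤ i)
    (hi2 : i ≤ m + 1) :
    ∃ l, LPath G (Sum.inr true) (Sum.inl b) l ∧ l.length = i ∧ Sum.inr false ∉ l := by
  refine ⟨_, nodomG_hc m H b (i - 2) (by omega), ?_, ?_⟩
  · rw [List.length_cons, List.length_reverse, nodomG_len]
    omega
  · rw [List.mem_cons, List.mem_reverse, not_or]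
    exact ⟨by simp, nodomG_hubmem m b _ false⟩

theorem gen_wheel_path (m : ℕ) {G : SimpleGraph (ZMod m ⊕ Bool)} (H : RimHub m G) (u v : ZMod m ⊕ Bool)
    (hu : u ≠ Sum.inr false) (hv : v ≠ Sum.inr false) (huv : u ≠ v) (i : ℕ) (hi : 3 ≤ i)
    (hi2 : i ≤ m + 1) :
    ∃ l, LPath G u v l ∧ l.length = i ∧ Sum.inr false ∉ l := by
  rcases u with a | e
  · rcases v with b | e'
    · -- two vertices of the cycle
      have : NeZero m := ⟨by have := H.hm; omega⟩
      have hab : b - a ≠ 0 := by
        intro h0
        exact huv (congrArg Sum.inl (sub_eq_zero.1 h0).symm)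
      have hd1 : 0 < (b - a).val := by
        rcases Nat.eq_zero_or_pos (b - a).val with h0 | h0
        · exact absurd ((ZMod.val_eq_zero _).1 h0) hab
        · exact h0
      have hd2 : (b - a).val < m := ZMod.val_lt _
      have hb : b = a + (((b - a).val : ℕ) : ZMod m) := by
        rw [ZMod.natCast_zmod_val]
        ring
      generalize (b - a).val = d at hd1 hd2 hb
      subst hb
      have hr : min d (i - 2) - 1 < d := by omega
      have hs : d + (i - 1 - min d (i - 2) - 1) < m := by omega
      refine ⟨_, nodomG_cc m H a d (min d (i - 2) - 1) (i - 1 - min d (i - 2) - 1) hr hs, ?_, ?_⟩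
      · rw [List.length_append, List.length_cons, List.length_reverse, nodomG_len, nodomG_len]
        omega
      · rw [List.mem_append, List.mem_cons, List.mem_reverse, not_or, not_or]
        exact ⟨nodomG_hubmem m a _ false, by simp, nodomG_hubmem m _ _ false⟩
    · cases e' with
      | false => exact absurd rfl hv
      | true => exact nodomG_rev (nodomG_hpath m H a i hi hi2)
  · cases e with
    | false => exact absurd rfl hu
    | true =>
      rcases v with b | e'
      · exact nodomG_hpath m H b i hi hi2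
      · cases e' with
        | false => exact absurd rfl hv
        | true => exact absurd rfl huv


theorem NoDomG_infix {V : Type*} (f : ℕ → V) (m t : ℕ) (ht : t + 1 < m) :
    [f t, f (t + 1)] <:+: (List.range m).map f := by
  obtain ⟨r, rfl⟩ : ∃ r, m = t + 2 + r := ⟨m - (t + 2), by omega⟩
  refine ⟨(List.range t).map f, (List.range r).map (fun x => f (t + 2 + x)), ?_⟩
  rw [List.range_add, List.range_add]
  simp [List.range_succ, Function.comp_def]

theorem NoDomG_chain {V : Type*} (R : V → V → Prop) (f : ℕ → V) (m : ℕ)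
    (h : ∀ t, t + 1 < m → R (f t) (f (t + 1))) : ((List.range m).map f).IsChain R := by
  rw [List.isChain_iff_getElem]
  intro i hi
  simp only [List.length_map, List.length_range] at hi
  simp only [List.getElem_map, List.getElem_range]
  exact h i hi

theorem NoDomG_lpath {V : Type*} (G : SimpleGraph V) (f : ℕ → V) (m : ℕ)
    (hadj : ∀ t, t + 1 < m + 1 → G.Adj (f t) (f (t + 1)))
    (hinj : ∀ s t, s < t → t ≤ m → f s ≠ f t) :
    LPath G (f 0) (f m) ((List.range (m + 1)).map f) := by
  refine ⟨NoDomG_chain _ f _ hadj, ?_, ?_, ?_⟩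
  · refine List.Nodup.map_on ?_ List.nodup_range
    intro s hs t ht hst
    rw [List.mem_range] at hs ht
    rcases lt_trichotomy s t with h | h | h
    · exact absurd hst (hinj s t h (by omega))
    · exact h
    · exact absurd hst.symm (hinj t s h (by omega))
  · rw [List.range_succ_eq_map]
    simp
  · rw [List.range_succ]
    simp

/-- a natural number below `n` is determined by its residue -/
theorem NoDomG_cast_inj {n : ℕ} {s t : ℕ} (hs : s < n) (ht : t < n)
    (h : (s : ZMod n) = (t : ZMod n)) : s = t := by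
  have := (ZMod.natCast_eq_natCast_iff' s t n).1 h
  rwa [Nat.mod_eq_of_lt hs, Nat.mod_eq_of_lt ht] at this

/-- from one vertex of the cycle to another one -/
theorem NoDomG_cc (m : ℕ) {G : SimpleGraph (ZMod m ⊕ Bool)} (H : RimHub m G) (J : Set (ZMod m))
    (hJ : ∀ a b, ∃ j ∈ J, j ≠ a ∧ j ≠ b) (a b : ZMod m) (hab : a ≠ b) :
    ∃ l, LPath G (Sum.inl a) (Sum.inl b) l ∧ (∀ w, w ∈ l ↔ w ≠ Sum.inr false) ∧
      ∃ j : ZMod m, j ∈ J ∧ ConsIn (Sum.inl j) (Sum.inl (j + 1)) l := by
  obtain ⟨n, hn⟩ : ∃ n, n = m := ⟨_, rfl⟩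
  have hnz : NeZero m := ⟨by have := H.hm; omega⟩
  obtain ⟨d, hd⟩ : ∃ d, d = (b - a).val := ⟨_, rfl⟩
  have hdn : d < n := by rw [hd, hn]; exact ZMod.val_lt _
  have hdc : ((d : ℕ) : ZMod m) = b - a := by rw [hd]; exact ZMod.natCast_rightInverse _
  have hd0 : 0 < d := by
    rcases Nat.eq_zero_or_pos d with h | h
    · rw [h] at hdc
      rw [Nat.cast_zero] at hdc
      exact absurd (sub_eq_zero.1 hdc.symm).symm hab
    · exact h
  have hnc : ((n : ℕ) : ZMod m) = 0 := by rw [hn]; exact ZMod.natCast_self _
  obtain ⟨f, hf⟩ : ∃ f : ℕ → ZMod m ⊕ Bool, f = fun t =>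
    if t < d then Sum.inl (a + (t : ZMod m)) else if t = d then Sum.inr true
      else Sum.inl (a + ((n + d - t : ℕ) : ZMod m)) := ⟨_, rfl⟩
  have f1 : ∀ t, t < d → f t = Sum.inl (a + (t : ZMod m)) := by
    intro t ht; rw [hf]; simp [ht]
  have f2 : f d = Sum.inr true := by rw [hf]; simp
  have f3 : ∀ t, d < t → f t = Sum.inl (a + ((n + d - t : ℕ) : ZMod m)) := by
    intro t ht; rw [hf]
    simp only
    rw [if_neg (by omega), if_neg (by omega)]
  have hf0 : f 0 = Sum.inl a := by rw [f1 0 hd0]; simp
  have hfn : f n = Sum.inl b := by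
    rw [f3 n hdn]
    have : n + d - n = d := by omega
    rw [this, hdc]; simp
  have hlp := NoDomG_lpath G f n (by
    intro t ht
    rcases lt_trichotomy (t + 1) d with h | h | h
    · rw [f1 t (by omega), f1 (t + 1) h]
      have := H.cyc (a + (t : ZMod m))
      rw [Nat.cast_succ, ← add_assoc]
      exact this
    · rw [f1 t (by omega), h, f2]
      exact H.hub _
    · rcases Nat.eq_or_lt_of_le (Nat.lt_succ_iff.1 h) with h' | h'
      · rw [← h', f2, f3 (d + 1) (by omega)]
        exact (H.hub _).symm
      · rw [f3 t h', f3 (t + 1) (by omega)]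
        have e : n + d - t = (n + d - (t + 1)) + 1 := by omega
        rw [e]
        have := H.cyc (a + ((n + d - (t + 1) : ℕ) : ZMod m))
        rw [Nat.cast_succ, ← add_assoc]
        exact this.symm) (by
    intro s t hst ht heq
    rcases lt_trichotomy s d with h | h | h
    · rw [f1 s h] at heq
      rcases lt_trichotomy t d with h' | h' | h'
      · rw [f1 t h'] at heq
        have := add_left_cancel (Sum.inl_injective heq)
        have := NoDomG_cast_inj  (by omega) (by omega) this
        omega
      · rw [h', f2] at heq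
        exact absurd heq (by simp)
      · rw [f3 t h'] at heq
        have := add_left_cancel (Sum.inl_injective heq)
        have := NoDomG_cast_inj  (by omega) (by omega) this
        omega
    · rw [h, f2, f3 t (by omega)] at heq
      exact absurd heq (by simp)
    · rw [f3 s h, f3 t (by omega)] at heq
      have := add_left_cancel (Sum.inl_injective heq)
      have := NoDomG_cast_inj  (by omega) (by omega) this
      omega)
  rw [hf0, hfn] at hlp
  refine ⟨_, hlp, ?_, ?_⟩
  · intro w
    constructor
    · intro hw hw'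
      rw [List.mem_map] at hw
      obtain ⟨t, _, ht⟩ := hw
      rw [hw'] at ht
      rcases lt_trichotomy t d with h | h | h
      · rw [f1 t h] at ht; exact absurd ht (by simp)
      · rw [h, f2] at ht; exact absurd ht (by simp)
      · rw [f3 t h] at ht; exact absurd ht (by simp)
    · intro hw
      rw [List.mem_map]
      rcases w with c | c
      · have hs : (c - a).val < n := by rw [hn]; exact ZMod.val_lt _
        have hc : (((c - a).val : ℕ) : ZMod m) = c - a := ZMod.natCast_rightInverse _
        by_cases h : (c - a).val < d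
        · refine ⟨(c - a).val, List.mem_range.2 (by omega), ?_⟩
          rw [f1 _ h, hc]; simp
        · refine ⟨n + d - (c - a).val, List.mem_range.2 (by omega), ?_⟩
          rw [f3 _ (by omega)]
          have : n + d - (n + d - (c - a).val) = (c - a).val := by omega
          rw [this, hc]; simp
      · have : c = true := by
          cases c
          · exact absurd rfl hw
          · rfl
        rw [this]
        exact ⟨d, List.mem_range.2 (by omega), f2⟩
  · obtain ⟨j, hj4, hja, hjb⟩ := hJ (a - 1) (b - 1)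
    refine ⟨j, hj4, ?_⟩
    obtain ⟨s, hs⟩ : ∃ s, s = (j - a).val := ⟨_, rfl⟩
    have hsn : s < n := by rw [hs, hn]; exact ZMod.val_lt _
    have hsc : ((s : ℕ) : ZMod m) = j - a := by rw [hs]; exact ZMod.natCast_rightInverse _
    have hs1 : s + 1 ≠ n := by
      intro h
      apply hja
      have h1 : ((s + 1 : ℕ) : ZMod m) = 0 := by rw [h]; exact hnc
      rw [Nat.cast_succ, hsc] at h1
      have : j - (a - 1) = 0 := by rw [← h1]; ring
      exact sub_eq_zero.1 this
    have hs2 : s + 1 ≠ d := by
      intro h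
      apply hjb
      have h1 : ((s + 1 : ℕ) : ZMod m) = b - a := by rw [h]; exact hdc
      rw [Nat.cast_succ, hsc] at h1
      have : j - (b - 1) = 0 := by
        have : j - (b - 1) = (j - a + 1) - (b - a) := by ring
        rw [this, h1]; ring
      exact sub_eq_zero.1 this
    have hj0 : a + ((s : ℕ) : ZMod m) = j := by rw [hsc]; ring
    have hj1 : a + ((s + 1 : ℕ) : ZMod m) = j + 1 := by rw [Nat.cast_succ, hsc]; ring
    by_cases h : s < d
    · left
      have := NoDomG_infix f (n + 1) s (by omega)
      rw [f1 s h, f1 (s + 1) (by omega), hj0, hj1] at this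
      exact this
    · right
      have := NoDomG_infix f (n + 1) (n + d - (s + 1)) (by omega)
      rw [f3 _ (by omega), f3 _ (by omega)] at this
      have e1 : n + d - (n + d - (s + 1)) = s + 1 := by omega
      have e2 : n + d - (n + d - (s + 1) + 1) = s := by omega
      rw [e1, e2, hj0, hj1] at this
      exact this

/-- from the hub to a vertex of the cycle -/
theorem NoDomG_hc (m : ℕ) {G : SimpleGraph (ZMod m ⊕ Bool)} (H : RimHub m G) (J : Set (ZMod m))
    (hJ : ∀ a b, ∃ j ∈ J, j ≠ a ∧ j ≠ b) (b : ZMod m) :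
    ∃ l, LPath G (Sum.inr true) (Sum.inl b) l ∧ (∀ w, w ∈ l ↔ w ≠ Sum.inr false) ∧
      ∃ j : ZMod m, j ∈ J ∧ ConsIn (Sum.inl j) (Sum.inl (j + 1)) l := by
  obtain ⟨n, hn⟩ : ∃ n, n = m := ⟨_, rfl⟩
  have hnz : NeZero m := ⟨by have := H.hm; omega⟩
  have hnc : ((n : ℕ) : ZMod m) = 0 := by rw [hn]; exact ZMod.natCast_self _
  obtain ⟨f, hf⟩ : ∃ f : ℕ → ZMod m ⊕ Bool, f = fun t =>
    if t = 0 then Sum.inr true else Sum.inl (b + ((n - t : ℕ) : ZMod m)) := ⟨_, rfl⟩
  have f2 : f 0 = Sum.inr true := by rw [hf]; simp
  have f3 : ∀ t, 0 < t → f t = Sum.inl (b + ((n - t : ℕ) : ZMod m)) := by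
    intro t ht; rw [hf]
    simp only
    rw [if_neg (by omega)]
  have hfn : f n = Sum.inl b := by
    rw [f3 n (by have := H.hm; omega)]; simp
  have hlp := NoDomG_lpath G f n (by
    intro t ht
    rcases Nat.eq_zero_or_pos t with h' | h'
    · rw [h', f2, f3 (0 + 1) (by omega)]
      exact (H.hub _).symm
    · rw [f3 t h', f3 (t + 1) (by omega)]
      have e : n - t = (n - (t + 1)) + 1 := by omega
      rw [e]
      have := H.cyc (b + ((n - (t + 1) : ℕ) : ZMod m))
      rw [Nat.cast_succ, ← add_assoc]
      exact this.symm) (by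
    intro s t hst ht heq
    rcases Nat.eq_zero_or_pos s with h | h
    · rw [h, f2, f3 t (by omega)] at heq
      exact absurd heq (by simp)
    · rw [f3 s h, f3 t (by omega)] at heq
      have := add_left_cancel (Sum.inl_injective heq)
      have := NoDomG_cast_inj  (by omega) (by omega) this
      omega)
  rw [f2, hfn] at hlp
  refine ⟨_, hlp, ?_, ?_⟩
  · intro w
    constructor
    · intro hw hw'
      rw [List.mem_map] at hw
      obtain ⟨t, _, ht⟩ := hw
      rw [hw'] at ht
      rcases Nat.eq_zero_or_pos t with h | h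
      · rw [h, f2] at ht; exact absurd ht (by simp)
      · rw [f3 t h] at ht; exact absurd ht (by simp)
    · intro hw
      rw [List.mem_map]
      rcases w with c | c
      · have hs : (c - b).val < n := by rw [hn]; exact ZMod.val_lt _
        have hc : (((c - b).val : ℕ) : ZMod m) = c - b := ZMod.natCast_rightInverse _
        refine ⟨n - (c - b).val, List.mem_range.2 (by omega), ?_⟩
        rw [f3 _ (by omega)]
        have : n - (n - (c - b).val) = (c - b).val := by omega
        rw [this, hc]; simp
      · have : c = true := by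
          cases c
          · exact absurd rfl hw
          · rfl
        rw [this]
        exact ⟨0, List.mem_range.2 (by omega), f2⟩
  · obtain ⟨j, hj4, hjb, _⟩ := hJ (b - 1) (b - 1)
    refine ⟨j, hj4, ?_⟩
    obtain ⟨s, hs⟩ : ∃ s, s = (j - b).val := ⟨_, rfl⟩
    have hsn : s < n := by rw [hs, hn]; exact ZMod.val_lt _
    have hsc : ((s : ℕ) : ZMod m) = j - b := by rw [hs]; exact ZMod.natCast_rightInverse _
    have hs1 : s + 1 ≠ n := by
      intro h
      apply hjb
      have h1 : ((s + 1 : ℕ) : ZMod m) = 0 := by rw [h]; exact hnc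
      rw [Nat.cast_succ, hsc] at h1
      have : j - (b - 1) = 0 := by rw [← h1]; ring
      exact sub_eq_zero.1 this
    have hj0 : b + ((s : ℕ) : ZMod m) = j := by rw [hsc]; ring
    have hj1 : b + ((s + 1 : ℕ) : ZMod m) = j + 1 := by rw [Nat.cast_succ, hsc]; ring
    right
    have := NoDomG_infix f (n + 1) (n - (s + 1)) (by omega)
    rw [f3 _ (by omega), f3 _ (by omega)] at this
    have e1 : n - (n - (s + 1)) = s + 1 := by omega
    have e2 : n - (n - (s + 1) + 1) = s := by omega
    rw [e1, e2, hj0, hj1] at this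
    exact this

theorem gen_wheel_ham (m : ℕ) {G : SimpleGraph (ZMod m ⊕ Bool)} (H : RimHub m G) (J : Set (ZMod m))
    (hJ : ∀ a b, ∃ j ∈ J, j ≠ a ∧ j ≠ b) (u v : ZMod m ⊕ Bool)
    (hu : u ≠ Sum.inr false) (hv : v ≠ Sum.inr false) (huv : u ≠ v) :
    ∃ l, LPath G u v l ∧ (∀ w, w ∈ l ↔ w ≠ Sum.inr false) ∧
      ∃ j : ZMod m, j ∈ J ∧ ConsIn (Sum.inl j) (Sum.inl (j + 1)) l := by
  rcases u with a | a
  · rcases v with b | b
    · exact NoDomG_cc m H J hJ a b (fun h => huv (by rw [h]))
    · have : b = true := by
        cases b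
        · exact absurd rfl hv
        · rfl
      subst this
      obtain ⟨l, h1, h2, j, h3, h4⟩ := NoDomG_hc m H J hJ a
      refine ⟨l.reverse, h1.reverse, ?_, j, h3, ?_⟩
      · intro w
        rw [List.mem_reverse]
        exact h2 w
      · rcases h4 with h | h
        · right
          have := List.reverse_infix.2 h
          simpa using this
        · left
          have := List.reverse_infix.2 h
          simpa using this
  · have : a = true := by
      cases a
      · exact absurd rfl hu
      · rfl
    subst this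
    rcases v with b | b
    · exact NoDomG_hc m H J hJ b
    · have : b = true := by
        cases b
        · exact absurd rfl hv
        · rfl
      subst this
      exact absurd rfl huv


end Pool.Agent.Lib.MP_0f64c5_co
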