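import Pool.Agent.Lib.MP_0f64c5_co.NoDomG
import Pool.Agent.Lib.MP_0f64c5_co.NoDom

/-!
# PLD-maximal graphs without dominating vertex with `5 (n - 2) / 2` edges (rounded up), every `n`

`m = n - 2`. Rim `c_i`, `i` modulo `m`, hub `inr true`, half hub `z = inr false` joined to a set `W` of
rim vertices. For `m` not congruent to 2 modulo 4 the rim is the cycle and `W` consists of the `i` with
`i % 4 < 2`; for `m = 4 k + 2` the rim is the cycle with the chord `c_0 c_3`, and `W` consists of 0, 3 and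
the `i >= 6` with `i % 4` equal to 2 or 3.
-/

set_option autoImplicit false

namespace Pool.Agent.Lib.MP_0f64c5_co

open Classical

theorem NoDomH_ham (m : ℕ) {G : SimpleGraph (ZMod m ⊕ Bool)} (H : RimHub m G) (W : Set (ZMod m))
    (hW : ∀ i ∈ W, G.Adj (Sum.inl i) (Sum.inr false))
    (hJ : ∀ a b, ∃ j ∈ {j | j ∈ W ∧ j + 1 ∈ W}, j ≠ a ∧ j ≠ b) (u v : ZMod m ⊕ Bool)
    (hu : u ≠ Sum.inr false) (hv : v ≠ Sum.inr false) (huv : u ≠ v) :
    ∃ l, LPath G u v l ∧ l.length = m + 2 := by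
  have hnz : NeZero m := ⟨by have := H.hm; omega⟩
  obtain ⟨l, hl, hmem, j, hj, hcons⟩ := gen_wheel_ham m H _ hJ u v hu hv huv
  have hlen : l.length = m + 1 := by
    have h1 : l.toFinset = Finset.univ.erase (Sum.inr false) := by
      ext w
      rw [List.mem_toFinset, Finset.mem_erase, hmem]
      simp
    have h2 := List.toFinset_card_of_nodup hl.2.1
    rw [h1, Finset.card_erase_of_mem (Finset.mem_univ _), Finset.card_univ, Fintype.card_sum,
      ZMod.card, Fintype.card_bool] at h2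
    omega
  have hz : Sum.inr false ∉ l := fun h => (hmem _).1 h rfl
  have hjz := hW j hj.1
  have hj1z := hW (j + 1) hj.2
  rcases hcons with h | h
  · obtain ⟨l', h1, h2⟩ := NoDom_insert hl h hz hjz hj1z.symm
    exact ⟨l', h1, by omega⟩
  · obtain ⟨l', h1, h2⟩ := NoDom_insert hl h hz hj1z hjz.symm
    exact ⟨l', h1, by omega⟩

theorem NoDomH_z (m : ℕ) {G : SimpleGraph (ZMod m ⊕ Bool)} (H : RimHub m G) (W : Set (ZMod m))
    (hW : ∀ i ∈ W, G.Adj (Sum.inl i) (Sum.inr false))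
    (hN : ∀ a, ∃ j ∈ W, G.Adj (Sum.inl j) (Sum.inl a))
    (hJ : ∀ a b, ∃ j ∈ {j | j ∈ W ∧ j + 1 ∈ W}, j ≠ a ∧ j ≠ b) (v : ZMod m ⊕ Bool)
    (hv : v ≠ Sum.inr false) (i : ℕ) (hi : 3 ≤ i) (hi2 : i ≤ m + 2) :
    ∃ l, LPath G (Sum.inr false) v l ∧ l.length = i := by
  have hnz : NeZero m := ⟨by have := H.hm; omega⟩
  rcases Nat.eq_or_lt_of_le hi with h3 | h3
  · -- length 3
    have hw : ∃ w, G.Adj w (Sum.inr false) ∧ G.Adj w v := by
      rcases v with a | b
      · obtain ⟨j, hj, hja⟩ := hN a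
        exact ⟨Sum.inl j, hW j hj, hja⟩
      · have : b = true := by
          cases b
          · exact absurd rfl hv
          · rfl
        subst this
        obtain ⟨j, hj, _⟩ := hJ 0 0
        exact ⟨Sum.inl j, hW j hj.1, H.hub j⟩
    obtain ⟨w, hw1, hw2⟩ := hw
    refine ⟨[Sum.inr false, w, v], ⟨?_, ?_, by simp, by simp⟩, ?_⟩
    · simp [hw1.symm, hw2]
    · have e1 := hw1.ne
      have e2 := hw2.ne
      simp only [List.nodup_cons, List.mem_cons, List.not_mem_nil, or_false, not_or,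
        not_false_eq_true, List.nodup_nil, and_true]
      exact ⟨⟨e1.symm, hv.symm⟩, e2⟩
    · simp only [List.length_cons, List.length_nil]; omega
  · -- length at least 4
    have hw : ∃ w : ZMod m, G.Adj (Sum.inl w) (Sum.inr false) ∧ Sum.inl w ≠ v := by
      rcases v with a | b
      · obtain ⟨j, hj, hja, _⟩ := hJ a a
        exact ⟨j, hW j hj.1, fun h => hja (Sum.inl_injective h)⟩
      · obtain ⟨j, hj, _⟩ := hJ 0 0
        exact ⟨j, hW j hj.1, by simp⟩
    obtain ⟨w, hw1, hw2⟩ := hw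
    obtain ⟨l, hl, hlen, hzl⟩ := gen_wheel_path m H (Sum.inl w) v (by simp) hv hw2 (i - 1)
      (by omega) (by omega)
    obtain ⟨g1, g2, g3, g4⟩ := hl
    refine ⟨Sum.inr false :: l, ⟨?_, ?_, by simp, ?_⟩, ?_⟩
    · rcases l with _ | ⟨c, l⟩
      · simp at g3
      · rw [List.isChain_cons_cons]
        refine ⟨?_, g1⟩
        simp only [List.head?_cons, Option.some.injEq] at g3
        rw [g3]
        exact hw1.symm
    · rw [List.nodup_cons]
      exact ⟨hzl, g2⟩
    · rcases l with _ | ⟨c, l⟩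
      · simp at g3
      · rw [List.getLast?_cons_cons]
        exact g4
    · rw [List.length_cons, hlen]
      omega

theorem NoDomH_pld (m : ℕ) {G : SimpleGraph (ZMod m ⊕ Bool)} (H : RimHub m G) (W : Set (ZMod m))
    (hW : ∀ i ∈ W, G.Adj (Sum.inl i) (Sum.inr false))
    (hN : ∀ a, ∃ j ∈ W, G.Adj (Sum.inl j) (Sum.inl a))
    (hJ : ∀ a b, ∃ j ∈ {j | j ∈ W ∧ j + 1 ∈ W}, j ≠ a ∧ j ≠ b)
    (i : ℕ) (hi : 3 ≤ i) (hi2 : i ≤ m + 2) : HasP G i := by
  rw [hasP_iff]
  intro u v huv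
  by_cases hu : u = Sum.inr false
  · rw [hu]
    exact NoDomH_z m H W hW hN hJ v (fun h => huv (hu.trans h.symm)) i hi hi2
  · by_cases hv : v = Sum.inr false
    · obtain ⟨l, h1, h2⟩ := NoDomH_z m H W hW hN hJ u hu i hi hi2
      refine ⟨l.reverse, ?_, by rw [List.length_reverse]; exact h2⟩
      rw [hv]
      exact h1.reverse
    · rcases Nat.lt_or_ge i (m + 2) with h | h
      · obtain ⟨l, h1, h2, _⟩ := gen_wheel_path m H u v hu hv huv i hi (by omega)
        exact ⟨l, h1, h2⟩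
      · obtain ⟨l, h1, h2⟩ := NoDomH_ham m H W hW hJ u v hu hv huv
        exact ⟨l, h1, by omega⟩

/-- Cycle with an optional chord, hub `inr true`, half hub `inr false`. -/
def ndH (m : ℕ) (c : Prop) (W : Set (ZMod m)) : SimpleGraph (ZMod m ⊕ Bool) :=
  SimpleGraph.fromRel (fun p q =>
    (∃ i, p = Sum.inl i ∧ q = Sum.inl (i + 1)) ∨
    (∃ i, p = Sum.inl i ∧ q = Sum.inr true) ∨
    (∃ i ∈ W, p = Sum.inl i ∧ q = Sum.inr false) ∨
    (c ∧ p = Sum.inl 0 ∧ q = Sum.inl 3))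

theorem NoDomH_natne {m : ℕ} (s t : ℕ) (hs : s < m) (ht : t < m) (hst : s ≠ t) :
    (s : ZMod m) ≠ (t : ZMod m) := fun h => hst (NoDomG_cast_inj hs ht h)

theorem NoDomH_rimhub (m : ℕ) (hm : 3 ≤ m) (c : Prop) (W : Set (ZMod m)) :
    RimHub m (ndH m c W) := by
  refine ⟨hm, ?_, ?_⟩
  · intro i
    unfold ndH
    rw [SimpleGraph.fromRel_adj]
    refine ⟨?_, Or.inl (Or.inl ⟨i, rfl, rfl⟩)⟩
    intro h
    have h1 := Sum.inl_injective h
    have h2 : (1 : ZMod m) = 0 := by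
      have : (i + 1) - i = (1 : ZMod m) := by ring
      rw [← this, ← h1]; ring
    have := NoDomH_natne (m := m) 1 0 (by omega) (by omega) (by omega)
    apply this
    push_cast
    exact h2
  · intro i
    unfold ndH
    rw [SimpleGraph.fromRel_adj]
    exact ⟨by simp, Or.inl (Or.inr (Or.inl ⟨i, rfl, rfl⟩))⟩

theorem NoDomH_z_adj (m : ℕ) (c : Prop) (W : Set (ZMod m)) (i : ZMod m) (hi : i ∈ W) :
    (ndH m c W).Adj (Sum.inl i) (Sum.inr false) := by
  unfold ndH
  rw [SimpleGraph.fromRel_adj]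
  exact ⟨by simp, Or.inl (Or.inr (Or.inr (Or.inl ⟨i, hi, rfl, rfl⟩)))⟩

theorem NoDomH_chord (m : ℕ) (hm : 4 ≤ m) (c : Prop) (hc : c) (W : Set (ZMod m)) :
    (ndH m c W).Adj (Sum.inl 0) (Sum.inl 3) := by
  unfold ndH
  rw [SimpleGraph.fromRel_adj]
  refine ⟨?_, Or.inl (Or.inr (Or.inr (Or.inr ⟨hc, rfl, rfl⟩)))⟩
  intro h
  have := NoDomH_natne (m := m) 0 3 (by omega) (by omega) (by omega)
  apply this
  push_cast
  exact Sum.inl_injective h

theorem NoDomH_rr (m : ℕ) (c : Prop) (W : Set (ZMod m)) (a b : Bool) :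
    ¬ (ndH m c W).Adj (Sum.inr a) (Sum.inr b) := by
  unfold ndH
  rw [SimpleGraph.fromRel_adj]
  rintro ⟨_, h | h⟩ <;>
  · rcases h with ⟨i', h1, h2⟩ | ⟨i', h1, h2⟩ | ⟨i', h0, h1, h2⟩ | ⟨h0, h1, h2⟩ <;>
      exact absurd h1 (by simp)

theorem NoDomH_dom (m : ℕ) (hm : 7 ≤ m) (c : Prop) (W : Set (ZMod m)) (h : ZMod m ⊕ Bool) :
    ¬ IsDom (ndH m c W) h := by
  intro hd
  rcases h with i | b
  · have n2 : (2 : ZMod m) ≠ 0 := by
      have := NoDomH_natne (m := m) 2 0 (by omega) (by omega) (by omega)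
      push_cast at this; exact this
    have n1 : (1 : ZMod m) ≠ 0 := by
      have := NoDomH_natne (m := m) 1 0 (by omega) (by omega) (by omega)
      push_cast at this; exact this
    have n3 : (3 : ZMod m) ≠ 0 := by
      have := NoDomH_natne (m := m) 3 0 (by omega) (by omega) (by omega)
      push_cast at this; exact this
    have n5 : (5 : ZMod m) ≠ 0 := by
      have := NoDomH_natne (m := m) 5 0 (by omega) (by omega) (by omega)
      push_cast at this; exact this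
    have h1 := hd (Sum.inl (i + 2)) (by
      intro h
      exact n2 (add_eq_left.1 (Sum.inl_injective h)))
    unfold ndH at h1
    rw [SimpleGraph.fromRel_adj] at h1
    obtain ⟨_, h | h⟩ := h1
    · rcases h with ⟨i', h1, h2⟩ | ⟨i', h1, h2⟩ | ⟨i', h0, h1, h2⟩ | ⟨h0, h1, h2⟩
      · have e1 := Sum.inl_injective h1
        have e2 := Sum.inl_injective h2
        apply n1
        have : (1 : ZMod m) = (i + 2) - (i + 1) := by ring
        rw [this, e2, e1]; ring
      · exact absurd h2 (by simp)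
      · exact absurd h2 (by simp)
      · have e1 := Sum.inl_injective h1
        have e2 := Sum.inl_injective h2
        apply n1
        have : (1 : ZMod m) = 3 - 2 := by ring
        rw [this, ← e2, e1]; ring
    · rcases h with ⟨i', h1, h2⟩ | ⟨i', h1, h2⟩ | ⟨i', h0, h1, h2⟩ | ⟨h0, h1, h2⟩
      · have e1 := Sum.inl_injective h1
        have e2 := Sum.inl_injective h2
        apply n3
        have : (3 : ZMod m) = (i + 2 + 1) - i := by ring
        rw [this, e1, ← e2]; ring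
      · exact absurd h2 (by simp)
      · exact absurd h2 (by simp)
      · have e1 := Sum.inl_injective h1
        have e2 := Sum.inl_injective h2
        apply n5
        have : (5 : ZMod m) = i + 2 := by rw [e2]; ring
        rw [this, e1]
  · exact NoDomH_rr m c W _ _ (hd (Sum.inr (!b)) (by simp))

theorem NoDomH_edges (m : ℕ) (hnz : NeZero m) (c : Prop) (W : Set (ZMod m)) :
    edges (ndH m c W) ≤ 2 * m + W.ncard + (if c then 1 else 0) := by
  let A : Set (Sym2 (ZMod m ⊕ Bool)) :=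
    (fun i : ZMod m => s(Sum.inl i, Sum.inl (i + 1))) '' Set.univ
  let B : Set (Sym2 (ZMod m ⊕ Bool)) :=
    (fun i : ZMod m => s(Sum.inl i, Sum.inr true)) '' Set.univ
  let C : Set (Sym2 (ZMod m ⊕ Bool)) :=
    (fun i : ZMod m => s(Sum.inl i, Sum.inr false)) '' W
  let D : Set (Sym2 (ZMod m ⊕ Bool)) := if c then {s(Sum.inl 0, Sum.inl 3)} else ∅
  have hsub : (ndH m c W).edgeSet ⊆ A ∪ B ∪ C ∪ D := by
    intro e
    induction e using Sym2.ind with
    | _ x y =>
      intro he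
      rw [SimpleGraph.mem_edgeSet] at he
      unfold ndH at he
      rw [SimpleGraph.fromRel_adj] at he
      have key : ∀ x y : ZMod m ⊕ Bool,
          ((∃ i, x = Sum.inl i ∧ y = Sum.inl (i + 1)) ∨
          (∃ i, x = Sum.inl i ∧ y = Sum.inr true) ∨
          (∃ i ∈ W, x = Sum.inl i ∧ y = Sum.inr false) ∨
          (c ∧ x = Sum.inl 0 ∧ y = Sum.inl 3)) → s(x, y) ∈ A ∪ B ∪ C ∪ D := by
        intro x y h
        rcases h with ⟨i', h1, h2⟩ | ⟨i', h1, h2⟩ | ⟨i', h0, h1, h2⟩ | ⟨h0, h1, h2⟩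
        · left; left; left
          exact ⟨i', Set.mem_univ _, by rw [h1, h2]⟩
        · left; left; right
          exact ⟨i', Set.mem_univ _, by rw [h1, h2]⟩
        · left; right
          exact ⟨i', h0, by rw [h1, h2]⟩
        · right
          simp only [D, if_pos h0, h1, h2, Set.mem_singleton_iff]
      obtain ⟨_, h | h⟩ := he
      · exact key x y h
      · rw [Sym2.eq_swap]
        exact key y x h
  have hA : A.ncard ≤ m := by
    refine (Set.ncard_image_le (Set.toFinite _)).trans ?_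
    rw [Set.ncard_univ, Nat.card_eq_fintype_card, ZMod.card]
  have hB : B.ncard ≤ m := by
    refine (Set.ncard_image_le (Set.toFinite _)).trans ?_
    rw [Set.ncard_univ, Nat.card_eq_fintype_card, ZMod.card]
  have hC : C.ncard ≤ W.ncard := Set.ncard_image_le (Set.toFinite _)
  have hD : D.ncard ≤ (if c then 1 else 0) := by
    by_cases hc : c
    · simp [D, hc]
    · simp [D, hc]
  unfold edges
  have h1 := Set.ncard_le_ncard hsub (Set.toFinite _)
  have h2 := Set.ncard_union_le (A ∪ B ∪ C) D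
  have h3 := Set.ncard_union_le (A ∪ B) C
  have h4 := Set.ncard_union_le A B
  omega

/-- The number of elements of `ZMod m` whose representative satisfies `p`. -/
theorem NoDomH_card (m : ℕ) (hnz : NeZero m) (p : ℕ → Prop) :
    Set.ncard {i : ZMod m | p i.val} = ((Finset.range m).filter p).card := by
  have : {i : ZMod m | p i.val} = ↑(Finset.univ.filter (fun i : ZMod m => p i.val)) := by
    ext i; simp
  rw [this, Set.ncard_coe_finset]
  refine Finset.card_bij (fun i _ => i.val) ?_ ?_ ?_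
  · intro i hi
    rw [Finset.mem_filter] at hi ⊢
    exact ⟨Finset.mem_range.2 (ZMod.val_lt i), hi.2⟩
  · intro i _ j _ h
    exact ZMod.val_injective _ h
  · intro t ht
    rw [Finset.mem_filter, Finset.mem_range] at ht
    refine ⟨(t : ZMod m), ?_, ?_⟩
    · rw [Finset.mem_filter]
      refine ⟨Finset.mem_univ _, ?_⟩
      rw [ZMod.val_natCast, Nat.mod_eq_of_lt ht.1]
      exact ht.2
    · rw [ZMod.val_natCast, Nat.mod_eq_of_lt ht.1]

theorem NoDomH_count1 (m : ℕ) (hm : m % 4 ≠ 2) :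
    ((Finset.range m).filter (fun t => t % 4 < 2)).card ≤ (m + 1) / 2 := by
  have key : ∀ k, ((Finset.range (4 * k)).filter (fun t => t % 4 < 2)).card = 2 * k := NoDom_count
  obtain ⟨k, r, hr, rfl⟩ : ∃ k r, r < 4 ∧ m = 4 * k + r := ⟨m / 4, m % 4, by omega, by omega⟩
  have hk := key k
  interval_cases r
  · rw [add_zero, hk]; omega
  · have m0 : (4 * k) % 4 < 2 := by omega
    rw [Finset.range_add_one, Finset.filter_insert, if_pos m0]
    refine (Finset.card_insert_le _ _).trans ?_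
    rw [hk]; omega
  · omega
  · have m0 : (4 * k) % 4 < 2 := by omega
    have m1 : (4 * k + 1) % 4 < 2 := by omega
    have m2 : ¬ (4 * k + 1 + 1) % 4 < 2 := by omega
    have e : 4 * k + 3 = 4 * k + 1 + 1 + 1 := by ring
    rw [e, Finset.range_add_one, Finset.filter_insert, if_neg m2, Finset.range_add_one,
      Finset.filter_insert, if_pos m1, Finset.range_add_one, Finset.filter_insert, if_pos m0]
    refine (Finset.card_insert_le _ _).trans ?_
    have := Finset.card_insert_le (4 * k) (Finset.filter (fun t => t % 4 < 2) (Finset.range (4 * k)))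
    rw [hk] at this
    omega

theorem NoDomH_count2 (k : ℕ) :
    ((Finset.range (4 * (k + 1) + 2)).filter
      (fun t => t = 0 ∨ t = 3 ∨ (6 ≤ t ∧ 2 ≤ t % 4))).card ≤ 2 * (k + 1) := by
  induction k with
  | zero => decide
  | succ k ih =>
    have e : 4 * (k + 1 + 1) + 2 = 4 * (k + 1) + 2 + 1 + 1 + 1 + 1 := by ring
    rw [e]
    have m2 : ¬ (4 * (k + 1) + 2 + 1 + 1 = 0 ∨ 4 * (k + 1) + 2 + 1 + 1 = 3 ∨
      (6 ≤ 4 * (k + 1) + 2 + 1 + 1 ∧ 2 ≤ (4 * (k + 1) + 2 + 1 + 1) % 4)) := by omega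
    have m3 : ¬ (4 * (k + 1) + 2 + 1 + 1 + 1 = 0 ∨ 4 * (k + 1) + 2 + 1 + 1 + 1 = 3 ∨
      (6 ≤ 4 * (k + 1) + 2 + 1 + 1 + 1 ∧ 2 ≤ (4 * (k + 1) + 2 + 1 + 1 + 1) % 4)) := by omega
    rw [Finset.range_add_one, Finset.filter_insert, if_neg m3, Finset.range_add_one,
      Finset.filter_insert, if_neg m2, Finset.range_add_one,
      Finset.filter_insert, Finset.range_add_one, Finset.filter_insert]
    split_ifs <;>
    · have h1 := fun (s : Finset ℕ) => Finset.card_insert_le (4 * (k + 1) + 2 + 1) s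
      have h2 := fun (s : Finset ℕ) => Finset.card_insert_le (4 * (k + 1) + 2) s
      first
        | (refine (h1 _).trans ?_
           refine (Nat.add_le_add_right (h2 _) 1).trans ?_
           omega)
        | (refine (h1 _).trans ?_; omega)
        | (refine (h2 _).trans ?_; omega)
        | omega


/-- The set of the first family. -/
def ndW1 (m : ℕ) : Set (ZMod m) := {i | i.val % 4 < 2}

/-- The set of the second family. -/
def ndW2 (m : ℕ) : Set (ZMod m) := {i | i.val = 0 ∨ i.val = 3 ∨ (6 ≤ i.val ∧ 2 ≤ i.val % 4)}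

theorem NoDomH_mem1 {m : ℕ} (t : ℕ) (ht : t < m) (h : t % 4 < 2) : (t : ZMod m) ∈ ndW1 m := by
  show (t : ZMod m).val % 4 < 2
  rw [ZMod.val_natCast, Nat.mod_eq_of_lt ht]
  exact h

theorem NoDomH_mem2 {m : ℕ} (t : ℕ) (ht : t < m) (h : t = 0 ∨ t = 3 ∨ (6 ≤ t ∧ 2 ≤ t % 4)) :
    (t : ZMod m) ∈ ndW2 m := by
  show (t : ZMod m).val = 0 ∨ (t : ZMod m).val = 3 ∨ (6 ≤ (t : ZMod m).val ∧ 2 ≤ (t : ZMod m).val % 4)
  rw [ZMod.val_natCast, Nat.mod_eq_of_lt ht]
  exact h

theorem NoDomH_adj_nat {m : ℕ} {G : SimpleGraph (ZMod m ⊕ Bool)} (H : RimHub m G) (t : ℕ) :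
    G.Adj (Sum.inl (t : ZMod m)) (Sum.inl ((t + 1 : ℕ) : ZMod m)) := by
  have := H.cyc (t : ZMod m)
  rw [Nat.cast_succ]
  exact this

theorem NoDomH_adj_wrap {m : ℕ} {G : SimpleGraph (ZMod m ⊕ Bool)} (H : RimHub m G) (t : ℕ)
    (ht : t + 1 = m) : G.Adj (Sum.inl (t : ZMod m)) (Sum.inl ((0 : ℕ) : ZMod m)) := by
  have := NoDomH_adj_nat H t
  rw [ht, ZMod.natCast_self] at this
  rw [Nat.cast_zero]
  exact this

theorem NoDomH_three {m : ℕ} (W : Set (ZMod m)) (a1 a2 a3 : ℕ) (h1 : a1 < m) (h2 : a2 < m)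
    (h3 : a3 < m) (h12 : a1 ≠ a2) (h13 : a1 ≠ a3) (h23 : a2 ≠ a3)
    (w1 : (a1 : ZMod m) ∈ W ∧ (a1 : ZMod m) + 1 ∈ W) (w2 : (a2 : ZMod m) ∈ W ∧ (a2 : ZMod m) + 1 ∈ W)
    (w3 : (a3 : ZMod m) ∈ W ∧ (a3 : ZMod m) + 1 ∈ W) :
    ∀ a b, ∃ j ∈ {j | j ∈ W ∧ j + 1 ∈ W}, j ≠ a ∧ j ≠ b := by
  intro a b
  have n12 := NoDomH_natne (m := m) a1 a2 h1 h2 h12
  have n13 := NoDomH_natne (m := m) a1 a3 h1 h3 h13
  have n23 := NoDomH_natne (m := m) a2 a3 h2 h3 h23
  by_contra hcon
  push Not at hcon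
  have c1 := hcon _ w1
  have c2 := hcon _ w2
  have c3 := hcon _ w3
  by_cases e1 : (a1 : ZMod m) = a
  · have e2 : (a2 : ZMod m) ≠ a := fun h => n12 (e1.trans h.symm)
    have e3 : (a3 : ZMod m) ≠ a := fun h => n13 (e1.trans h.symm)
    exact n23 ((c2 e2).trans (c3 e3).symm)
  · by_cases e2 : (a2 : ZMod m) = a
    · have e3 : (a3 : ZMod m) ≠ a := fun h => n23 (e2.trans h.symm)
      exact n13 ((c1 e1).trans (c3 e3).symm)
    · exact n12 ((c1 e1).trans (c2 e2).symm)

theorem NoDomH_fam1 (m : ℕ) (hm : 12 ≤ m) (i : ℕ) (hi : 3 ≤ i) (hi2 : i ≤ m + 2) :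
    HasP (ndH m False (ndW1 m)) i := by
  have hnz : NeZero m := ⟨by omega⟩
  have H := NoDomH_rimhub m (by omega) False (ndW1 m)
  refine NoDomH_pld m H (ndW1 m) (fun i hi => NoDomH_z_adj m False _ i hi) ?_ ?_ i hi hi2
  · intro a
    obtain ⟨t, ht, rfl⟩ : ∃ t : ℕ, t < m ∧ (t : ZMod m) = a :=
      ⟨a.val, ZMod.val_lt a, ZMod.natCast_zmod_val a⟩
    have h4 : t % 4 < 4 := Nat.mod_lt _ (by norm_num)
    by_cases hc : t % 4 = 0 ∨ t % 4 = 3
    · by_cases hl : t + 1 < m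
      · exact ⟨((t + 1 : ℕ) : ZMod m), NoDomH_mem1 _ hl (by omega), (NoDomH_adj_nat H t).symm⟩
      · have hl' : t + 1 = m := by omega
        exact ⟨((0 : ℕ) : ZMod m), NoDomH_mem1 0 (by omega) (by omega), (NoDomH_adj_wrap H t hl').symm⟩
    · obtain ⟨s, rfl⟩ : ∃ s, t = s + 1 := ⟨t - 1, by omega⟩
      exact ⟨(s : ZMod m), NoDomH_mem1 s (by omega) (by omega), NoDomH_adj_nat H s⟩
  · have key : ∀ t : ℕ, t % 4 = 0 → t + 1 < m → (t : ZMod m) ∈ ndW1 m ∧ (t : ZMod m) + 1 ∈ ndW1 m := by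
      intro t ht htm
      refine ⟨NoDomH_mem1 t (by omega) (by omega), ?_⟩
      have := NoDomH_mem1 (m := m) (t + 1) htm (by omega)
      rw [Nat.cast_succ] at this
      exact this
    exact NoDomH_three (ndW1 m) 0 4 8 (by omega) (by omega) (by omega) (by omega) (by omega)
      (by omega) (key 0 (by omega) (by omega)) (key 4 (by omega) (by omega))
      (key 8 (by omega) (by omega))

theorem NoDomH_fam2 (m : ℕ) (hm : 18 ≤ m) (hm4 : m % 4 = 2) (i : ℕ) (hi : 3 ≤ i) (hi2 : i ≤ m + 2) :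
    HasP (ndH m True (ndW2 m)) i := by
  have hnz : NeZero m := ⟨by omega⟩
  have H := NoDomH_rimhub m (by omega) True (ndW2 m)
  refine NoDomH_pld m H (ndW2 m) (fun i hi => NoDomH_z_adj m True _ i hi) ?_ ?_ i hi hi2
  · intro a
    obtain ⟨t, ht, rfl⟩ : ∃ t : ℕ, t < m ∧ (t : ZMod m) = a :=
      ⟨a.val, ZMod.val_lt a, ZMod.natCast_zmod_val a⟩
    have h4 : t % 4 < 4 := Nat.mod_lt _ (by norm_num)
    have hch := NoDomH_chord m (by omega) True trivial (ndW2 m)
    have e0 : ((0 : ℕ) : ZMod m) = 0 := Nat.cast_zero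
    have e3 : ((3 : ℕ) : ZMod m) = 3 := by push_cast; rfl
    by_cases hs : t < 6
    · interval_cases t
      · refine ⟨((3 : ℕ) : ZMod m), NoDomH_mem2 3 (by omega) (by omega), ?_⟩
        rw [e0, e3]; exact hch.symm
      · exact ⟨((0 : ℕ) : ZMod m), NoDomH_mem2 0 (by omega) (by omega), NoDomH_adj_nat H 0⟩
      · exact ⟨((3 : ℕ) : ZMod m), NoDomH_mem2 3 (by omega) (by omega), (NoDomH_adj_nat H 2).symm⟩
      · refine ⟨((0 : ℕ) : ZMod m), NoDomH_mem2 0 (by omega) (by omega), ?_⟩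
        rw [e0, e3]; exact hch
      · exact ⟨((3 : ℕ) : ZMod m), NoDomH_mem2 3 (by omega) (by omega), NoDomH_adj_nat H 3⟩
      · exact ⟨((6 : ℕ) : ZMod m), NoDomH_mem2 6 (by omega) (by omega), (NoDomH_adj_nat H 5).symm⟩
    · by_cases hc : t % 4 = 0 ∨ t % 4 = 3
      · obtain ⟨s, rfl⟩ : ∃ s, t = s + 1 := ⟨t - 1, by omega⟩
        exact ⟨(s : ZMod m), NoDomH_mem2 s (by omega) (by omega), NoDomH_adj_nat H s⟩
      · by_cases hl : t + 1 < m
        · exact ⟨((t + 1 : ℕ) : ZMod m), NoDomH_mem2 _ hl (by omega), (NoDomH_adj_nat H t).symm⟩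
        · have hl' : t + 1 = m := by omega
          exact ⟨((0 : ℕ) : ZMod m), NoDomH_mem2 0 (by omega) (by omega),
            (NoDomH_adj_wrap H t hl').symm⟩
  · have key : ∀ t : ℕ, t % 4 = 2 → 6 ≤ t → t + 1 < m →
        (t : ZMod m) ∈ ndW2 m ∧ (t : ZMod m) + 1 ∈ ndW2 m := by
      intro t ht h6 htm
      refine ⟨NoDomH_mem2 t (by omega) (by omega), ?_⟩
      have := NoDomH_mem2 (m := m) (t + 1) htm (by omega)
      rw [Nat.cast_succ] at this
      exact this
    exact NoDomH_three (ndW2 m) 6 10 14 (by omega) (by omega) (by omega) (by omega) (by omega)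
      (by omega) (key 6 (by omega) (by omega) (by omega)) (key 10 (by omega) (by omega) (by omega))
      (key 14 (by omega) (by omega) (by omega))

theorem NoDomH_transport (m : ℕ) (hm : 7 ≤ m) (c : Prop) (W : Set (ZMod m))
    (hP : ∀ i, 3 ≤ i → i ≤ m + 2 → HasP (ndH m c W) i)
    (hE : edges (ndH m c W) ≤ (5 * m + 1) / 2) :
    ∃ G : SimpleGraph (Fin (m + 2)), PLDMaximal G ∧ (∀ h, ¬ IsDom G h) ∧
      edges G ≤ (5 * m + 1) / 2 := by
  have hnz : NeZero m := ⟨by omega⟩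
  have hcard : Fintype.card (ZMod m ⊕ Bool) = m + 2 := by
    rw [Fintype.card_sum, ZMod.card, Fintype.card_bool]
  let e := Fintype.equivFinOfCardEq hcard
  let f : ndH m c W ≃g (ndH m c W).map e.toEmbedding := SimpleGraph.Iso.map e (ndH m c W)
  refine ⟨(ndH m c W).map e.toEmbedding, ?_, ?_, ?_⟩
  · apply pldMaximal_iso f
    intro i hi hi2
    rw [hcard] at hi2
    exact hP i hi hi2
  · intro h hd
    have := isDom_iso f.symm hd
    exact NoDomH_dom m hm c W _ this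
  · rw [← edges_iso f]
    exact hE

theorem exists_nodom_all (n : ℕ) (hn : 20 ≤ n) :
    ∃ G : SimpleGraph (Fin n), PLDMaximal G ∧ (∀ h, ¬ IsDom G h) ∧
      edges G ≤ (5 * (n - 2) + 1) / 2 := by
  obtain ⟨m, rfl⟩ : ∃ m, n = m + 2 := ⟨n - 2, by omega⟩
  have hnz : NeZero m := ⟨by omega⟩
  have e2 : m + 2 - 2 = m := by omega
  rw [e2]
  by_cases h4 : m % 4 = 2
  · refine NoDomH_transport m (by omega) True (ndW2 m)
      (fun i hi hi2 => NoDomH_fam2 m (by omega) h4 i hi hi2) ?_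
    have h1 := NoDomH_edges m hnz True (ndW2 m)
    have h2 : (ndW2 m).ncard ≤ (m - 2) / 2 := by
      unfold ndW2
      rw [NoDomH_card m hnz (fun t => t = 0 ∨ t = 3 ∨ (6 ≤ t ∧ 2 ≤ t % 4))]
      obtain ⟨k, rfl⟩ : ∃ k, m = 4 * (k + 1) + 2 := ⟨m / 4 - 1, by omega⟩
      have h3 : (4 * (k + 1) + 2 - 2) / 2 = 2 * (k + 1) := by omega
      rw [h3]
      convert NoDomH_count2 k
    rw [if_pos trivial] at h1
    omega
  · refine NoDomH_transport m (by omega) False (ndW1 m)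
      (fun i hi hi2 => NoDomH_fam1 m (by omega) i hi hi2) ?_
    have h1 := NoDomH_edges m hnz False (ndW1 m)
    have h2 : (ndW1 m).ncard ≤ (m + 1) / 2 := by
      unfold ndW1
      rw [NoDomH_card m hnz (fun t => t % 4 < 2)]
      convert NoDomH_count1 m h4
    rw [if_neg (by simp)] at h1
    omega

end Pool.Agent.Lib.MP_0f64c5_co
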