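import Pool.Agent.Lib.MP_0f64c5_co.PrismDefs

/-!
# Module PRISMB: the subdivided prism over an odd cycle is not Hamiltonian

In a Hamiltonian cycle `a_i` and `b_i` have degree 2, so their two neighbours in the graph are
their neighbours on the cycle; so `v_i` has `a_i` and exactly one of `v_{i-1}, v_{i+1}` as neighbours
on the cycle; this defines an involution without fixed points on the `k` vertices `v_i`, `k` odd.
-/

set_option autoImplicit false

namespace Pool.Agent.Lib.MP_0f64c5_co

open Classical

/-- a Hamiltonian cycle gives a permutation without 2-cycles along the edges -/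
theorem PrismB_perm {V : Type*} {H : SimpleGraph V} (h : HamL H) :
    ∃ s : Equiv.Perm V, (∀ x, H.Adj x (s x)) ∧ ∀ x, s (s x) ≠ x := by
  obtain ⟨l, hlen, hc, hnd, hall, a, b, ha, hb, hab⟩ := h
  obtain ⟨m, hm⟩ : ∃ m, m = l.length := ⟨_, rfl⟩
  have hnz : NeZero l.length := ⟨by omega⟩
  have hE : ∃ E : Fin l.length ≃ V, ∀ i, E i = l.get i :=
    ⟨hnd.getEquivOfForallMemList l hall, fun i => rfl⟩
  obtain ⟨E, hEv⟩ := hE
  have hval : ∀ i : Fin l.length, (i + 1).val = (i.val + 1) % l.length := by
    intro i
    rw [Fin.val_add]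
    congr 2
    have : (1 : Fin l.length).val = 1 % l.length := rfl
    rw [this, Nat.mod_eq_of_lt (by omega)]
  refine ⟨(E.symm.trans (Equiv.addRight (1 : Fin l.length))).trans E, ?_, ?_⟩
  · intro x
    obtain ⟨i, rfl⟩ := E.surjective x
    simp only [Equiv.trans_apply, Equiv.symm_apply_apply, Equiv.coe_addRight]
    rw [hEv, hEv]
    have hi := i.2
    rcases Nat.lt_or_ge (i.val + 1) l.length with h1 | h1
    · have hch := List.isChain_iff_getElem.1 hc i.val h1
      have e1 : l.get (i + 1) = l[i.val + 1] := by
        have : i + 1 = ⟨i.val + 1, h1⟩ := by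
          apply Fin.ext
          rw [hval, Nat.mod_eq_of_lt h1]
        rw [this]; rfl
      rw [e1]
      exact hch
    · have h2 : i.val + 1 = l.length := by omega
      have e1 : l.get (i + 1) = a := by
        have : i + 1 = ⟨0, by omega⟩ := by
          apply Fin.ext
          rw [hval, h2, Nat.mod_self]
        rw [this]
        have h3 : l.head? = some (l.get ⟨0, by omega⟩) := by
          rw [List.head?_eq_getElem?]
          simp
        rw [h3] at ha
        exact Option.some.inj ha
      have e2 : l.get i = b := by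
        have h3 : l.getLast? = some (l.get i) := by
          rw [List.getLast?_eq_getElem?]
          have : l.length - 1 = i.val := by omega
          rw [this]
          simp
        rw [h3] at hb
        exact Option.some.inj hb
      rw [e1, e2]
      exact hab
  · intro x hx
    obtain ⟨i, rfl⟩ := E.surjective x
    simp only [Equiv.trans_apply, Equiv.symm_apply_apply, Equiv.coe_addRight] at hx
    have h1 := E.injective hx
    have h2 := congrArg Fin.val h1
    rw [hval, hval] at h2
    have hi := i.2
    rcases Nat.lt_or_ge (i.val + 1) l.length with h3 | h3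
    · rw [Nat.mod_eq_of_lt h3] at h2
      rcases Nat.lt_or_ge (i.val + 1 + 1) l.length with h4 | h4
      · rw [Nat.mod_eq_of_lt h4] at h2
        omega
      · have h5 : i.val + 1 + 1 = l.length := by omega
        rw [h5, Nat.mod_self] at h2
        omega
    · have h4 : i.val + 1 = l.length := by omega
      rw [h4, Nat.mod_self, Nat.zero_add, Nat.mod_eq_of_lt (by omega)] at h2
      omega

theorem PrismB_adj0 (k : ℕ) (i : ZMod k) (q : Fin 4 × ZMod k) (h : (prismG k).Adj (0, i) q) :
    (q.1 = 0 ∧ (q.2 = i + 1 ∨ i = q.2 + 1)) ∨ q = (1, i) := by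
  unfold prismG at h
  rw [SimpleGraph.fromRel_adj] at h
  obtain ⟨_, h | h⟩ := h
  · rcases h with ⟨h1, h2, h3⟩ | ⟨h1, h2⟩
    · left
      exact ⟨h1.symm, Or.inl h3⟩
    · right
      apply Prod.ext
      · apply Fin.ext
        rw [h1]; rfl
      · exact h2
  · rcases h with ⟨h1, h2, h3⟩ | ⟨h1, h2⟩
    · left
      exact ⟨h1, Or.inr h3⟩
    · exfalso
      change (0 : ℕ) = q.1.val + 1 at h1
      omega

theorem PrismB_adj1 (k : ℕ) (i : ZMod k) (q : Fin 4 × ZMod k) (h : (prismG k).Adj (1, i) q) :
    q = (0, i) ∨ q = (2, i) := by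
  unfold prismG at h
  rw [SimpleGraph.fromRel_adj] at h
  obtain ⟨_, h | h⟩ := h
  · rcases h with ⟨h1, h2, h3⟩ | ⟨h1, h2⟩
    · exfalso
      rcases h2 with h2 | h2
      · exact absurd (show (1 : Fin 4) = 0 from h2) (by decide)
      · exact absurd (show (1 : Fin 4) = 3 from h2) (by decide)
    · right
      apply Prod.ext
      · apply Fin.ext
        rw [h1]; rfl
      · exact h2
  · rcases h with ⟨h1, h2, h3⟩ | ⟨h1, h2⟩
    · exfalso
      have h1' : q.1 = 1 := h1
      rw [h1'] at h2
      rcases h2 with h2 | h2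
      · exact absurd h2 (by decide)
      · exact absurd h2 (by decide)
    · left
      have h1' : (1 : ℕ) = q.1.val + 1 := h1
      apply Prod.ext
      · apply Fin.ext
        change q.1.val = 0
        omega
      · exact h2.symm

theorem prism_not_ham (k : ℕ) (hk : Odd k) (hk3 : 3 ≤ k) : ¬ HamL (prismG k) := by
  intro hH
  obtain ⟨s, hadj, hss⟩ := PrismB_perm hH
  have hnz : NeZero k := ⟨by omega⟩
  have hfact : Fact (1 < k) := ⟨by omega⟩
  have hinv : ∀ x, (prismG k).Adj x (s.symm x) := by
    intro x
    have := hadj (s.symm x)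
    rw [Equiv.apply_symm_apply] at this
    exact this.symm
  have hne : ∀ x, s x ≠ s.symm x := by
    intro x h
    apply hss x
    rw [h, Equiv.apply_symm_apply]
  -- `a_i` and `v_i` are consecutive
  have hav : ∀ i : ZMod k, s (0, i) = (1, i) ∨ s.symm (0, i) = (1, i) := by
    intro i
    have h1 := PrismB_adj1 k i _ (hadj (1, i))
    have h2 := PrismB_adj1 k i _ (hinv (1, i))
    have h3 := hne (1, i)
    rcases h1 with h1 | h1
    · right
      rw [← h1, Equiv.symm_apply_apply]
    · rcases h2 with h2 | h2
      · left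
        rw [← h2, Equiv.apply_symm_apply]
      · exact absurd (h1.trans h2.symm) h3
  -- the other neighbour
  obtain ⟨o, ho⟩ : ∃ o : ZMod k → Fin 4 × ZMod k, o = fun i =>
    if s (0, i) = (1, i) then s.symm (0, i) else s (0, i) := ⟨_, rfl⟩
  have ho1 : ∀ i, s (0, i) = (1, i) → o i = s.symm (0, i) := by
    intro i h; rw [ho]; simp only; rw [if_pos h]
  have ho2 : ∀ i, s (0, i) ≠ (1, i) → o i = s (0, i) := by
    intro i h; rw [ho]; simp only; rw [if_neg h]
  have hoadj : ∀ i, (prismG k).Adj (0, i) (o i) := by
    intro i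
    by_cases h : s (0, i) = (1, i)
    · rw [ho1 i h]; exact hinv _
    · rw [ho2 i h]; exact hadj _
  have hone : ∀ i, o i ≠ (1, i) := by
    intro i
    by_cases h : s (0, i) = (1, i)
    · rw [ho1 i h]
      intro h'
      exact hne (0, i) (h.trans h'.symm)
    · rw [ho2 i h]; exact h
  have hoval : ∀ i, o i = (0, (o i).2) ∧ (o i).2 ≠ i := by
    intro i
    rcases PrismB_adj0 k i (o i) (hoadj i) with ⟨h1, h2⟩ | h
    · refine ⟨Prod.ext h1 rfl, ?_⟩
      intro h3
      rw [h3] at h2
      have h4 : (1 : ZMod k) = 0 := by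
        rcases h2 with h2 | h2
        · exact (add_eq_left.1 h2.symm)
        · exact (add_eq_left.1 h2.symm)
      exact one_ne_zero h4
    · exact absurd h (hone i)
  have hoo : ∀ i, o ((o i).2) = (0, i) := by
    intro i
    have hv := (hoval i).1
    by_cases h : s (0, i) = (1, i)
    · have h1 := ho1 i h
      -- `w = s.symm v`, `s w = v`
      have h2 : s (0, (o i).2) = (0, i) := by
        rw [← hv, h1, Equiv.apply_symm_apply]
      have h3 : s (0, (o i).2) ≠ (1, (o i).2) := by
        rw [h2]
        intro h4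
        exact absurd (show (0 : Fin 4) = 1 from congrArg Prod.fst h4) (by decide)
      rw [ho2 _ h3, h2]
    · have h1 := ho2 i h
      have h2 : s.symm (0, (o i).2) = (0, i) := by
        rw [← hv, h1, Equiv.symm_apply_apply]
      have h3 : s (0, (o i).2) = (1, (o i).2) := by
        rcases hav (o i).2 with h4 | h4
        · exact h4
        · rw [h2] at h4
          exact absurd (show (0 : Fin 4) = 1 from congrArg Prod.fst h4) (by decide)
      rw [ho1 _ h3, h2]
  have hsum : ∑ i ∈ (Finset.univ : Finset (ZMod k)), (1 : ZMod 2) = 0 := by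
    refine Finset.sum_involution (fun i _ => (o i).2) ?_ ?_ ?_ ?_
    · intro i _; decide
    · intro i _ _; exact (hoval i).2
    · intro i _; exact Finset.mem_univ _
    · intro i _
      rw [hoo i]
  rw [Finset.sum_const, Finset.card_univ, ZMod.card, nsmul_eq_mul, mul_one] at hsum
  have h2 : 2 ∣ k := (ZMod.natCast_eq_zero_iff k 2).1 hsum
  obtain ⟨c, hc⟩ := hk
  omega

end Pool.Agent.Lib.MP_0f64c5_co
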