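import Pool.Agent.Lib.MP_0f64c5_co.PrismA
import Pool.Agent.Lib.MP_0f64c5_co.PrismB

/-!
# Module PRISM: number of edges and transport to `Fin (4 k)`

Degrees: 3 for `v_i, u_i`, 2 for `a_i, b_i`; `sum_dg`: `2 e = k (3 + 2 + 2 + 3) = 10 k`.
-/

set_option autoImplicit false

namespace Pool.Agent.Lib.MP_0f64c5_co

open Classical

private theorem prism_one_ne (k : ℕ) (hk3 : 3 ≤ k) : (1 : ZMod k) ≠ 0 := by
  intro h
  have h' : ((1 : ℕ) : ZMod k) = 0 := by exact_mod_cast h
  rw [ZMod.natCast_eq_zero_iff] at h'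
  have := Nat.le_of_dvd (by norm_num) h'
  omega

private theorem prism_two_ne (k : ℕ) (hk3 : 3 ≤ k) : (1 : ZMod k) + 1 ≠ 0 := by
  intro h
  have h' : ((2 : ℕ) : ZMod k) = 0 := by
    push_cast
    rw [← h]; norm_num
  rw [ZMod.natCast_eq_zero_iff] at h'
  have := Nat.le_of_dvd (by norm_num) h'
  omega

private theorem prism_ring (k : ℕ) (hk3 : 3 ≤ k) (r : Fin 4) (hr : r = 0 ∨ r = 3) (i j : ZMod k) :
    (prismG k).Adj (r, i) (r, j) ↔ j = i + 1 ∨ j = i - 1 := by
  unfold prismG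
  rw [SimpleGraph.fromRel_adj]
  constructor
  · rintro ⟨_, (⟨_, _, h⟩ | ⟨h, _⟩) | (⟨_, _, h⟩ | ⟨h, _⟩)⟩
    · exact Or.inl h
    · simp at h
    · right; simp only at h; rw [h]; ring
    · simp at h
  · intro h
    have hne : i ≠ j := by
      rintro rfl
      rcases h with h | h
      · exact prism_one_ne k hk3 (by simpa using h)
      · exact prism_one_ne k hk3 (by
          have : i - 1 = i - 0 := by rw [← h]; ring
          exact sub_right_injective this)
    refine ⟨by simpa using hne, ?_⟩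
    rcases h with h | h
    · exact Or.inl (Or.inl ⟨rfl, hr, h⟩)
    · exact Or.inr (Or.inl ⟨rfl, hr, by simp only; rw [h]; ring⟩)

private theorem prism_spoke (k : ℕ) (r s : Fin 4) (hrs : r ≠ s) (i j : ZMod k) :
    (prismG k).Adj (r, i) (s, j) ↔ (s.val = r.val + 1 ∨ r.val = s.val + 1) ∧ j = i := by
  unfold prismG
  rw [SimpleGraph.fromRel_adj]
  constructor
  · rintro ⟨_, (⟨h, _⟩ | ⟨h, h'⟩) | (⟨h, _⟩ | ⟨h, h'⟩)⟩
    · exact absurd h hrs
    · exact ⟨Or.inl h, h'⟩
    · exact absurd h.symm hrs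
    · exact ⟨Or.inr h, h'.symm⟩
  · rintro ⟨h, rfl⟩
    refine ⟨by simpa using hrs, ?_⟩
    rcases h with h | h
    · exact Or.inl (Or.inr ⟨h, rfl⟩)
    · exact Or.inr (Or.inr ⟨h, rfl⟩)

private theorem prism_same (k : ℕ) (r : Fin 4) (hr : ¬ (r = 0 ∨ r = 3)) (i j : ZMod k) :
    ¬ (prismG k).Adj (r, i) (r, j) := by
  unfold prismG
  rw [SimpleGraph.fromRel_adj]
  rintro ⟨_, (⟨_, h, _⟩ | ⟨h, _⟩) | (⟨_, h, _⟩ | ⟨h, _⟩)⟩
  · exact hr h
  · simp at h
  · exact hr h
  · simp at h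

private theorem prism_dg_ring (k : ℕ) [NeZero k] (hk3 : 3 ≤ k) (r s : Fin 4)
    (hr : r = 0 ∨ r = 3) (hrs : r ≠ s)
    (hu : ∀ t, t ≠ r → ((t.val = r.val + 1 ∨ r.val = t.val + 1) ↔ t = s)) (i : ZMod k) :
    dg (prismG k) (r, i) = 3 := by
  unfold dg
  have : (Finset.univ.filter fun w => (prismG k).Adj (r, i) w) =
      {(r, i + 1), (r, i - 1), (s, i)} := by
    ext ⟨t, j⟩
    simp only [Finset.mem_filter, Finset.mem_univ, true_and, Finset.mem_insert,
      Finset.mem_singleton, Prod.mk.injEq]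
    by_cases ht : t = r
    · subst ht
      rw [prism_ring k hk3 t hr]
      simp [hrs]
    · rw [prism_spoke k r t (Ne.symm ht), hu t ht]
      simp [ht]
  rw [this]
  have h1 : i + 1 ≠ i - 1 := by
    intro h
    apply prism_two_ne k hk3
    have : i + 1 - (i - 1) = 0 := by rw [h]; ring
    rw [← this]; ring
  rw [Finset.card_insert_of_notMem, Finset.card_insert_of_notMem, Finset.card_singleton]
  · simp [hrs]
  · simp [hrs, h1]

private theorem prism_dg_mid (k : ℕ) [NeZero k] (r s s' : Fin 4)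
    (hr : ¬ (r = 0 ∨ r = 3)) (hrs : r ≠ s) (hrs' : r ≠ s') (hss : s ≠ s')
    (hu : ∀ t, t ≠ r → ((t.val = r.val + 1 ∨ r.val = t.val + 1) ↔ (t = s ∨ t = s')))
    (i : ZMod k) :
    dg (prismG k) (r, i) = 2 := by
  unfold dg
  have : (Finset.univ.filter fun w => (prismG k).Adj (r, i) w) = {(s, i), (s', i)} := by
    ext ⟨t, j⟩
    simp only [Finset.mem_filter, Finset.mem_univ, true_and, Finset.mem_insert,
      Finset.mem_singleton, Prod.mk.injEq]
    by_cases ht : t = r
    · subst ht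
      simp [prism_same k t hr, hrs, hrs']
    · rw [prism_spoke k r t (Ne.symm ht), hu t ht]
      tauto
  rw [this, Finset.card_insert_of_notMem, Finset.card_singleton]
  simp [hss]

theorem prism_edges (k : ℕ) (hk3 : 3 ≤ k) : edges (prismG k) = 5 * k := by
  have : NeZero k := ⟨by omega⟩
  have h := sum_dg (prismG k)
  rw [Fintype.sum_prod_type, Fin.sum_univ_four] at h
  have h0 : ∀ i : ZMod k, dg (prismG k) (0, i) = 3 :=
    prism_dg_ring k hk3 0 1 (Or.inl rfl) (by decide) (by decide)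
  have h3 : ∀ i : ZMod k, dg (prismG k) (3, i) = 3 :=
    prism_dg_ring k hk3 3 2 (Or.inr rfl) (by decide) (by decide)
  have h1 : ∀ i : ZMod k, dg (prismG k) (1, i) = 2 :=
    prism_dg_mid k 1 0 2 (by decide) (by decide) (by decide) (by decide) (by decide)
  have h2 : ∀ i : ZMod k, dg (prismG k) (2, i) = 2 :=
    prism_dg_mid k 2 1 3 (by decide) (by decide) (by decide) (by decide) (by decide)
  simp only [h0, h1, h2, h3, Finset.sum_const, Finset.card_univ, ZMod.card, smul_eq_mul] at h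
  omega

theorem exists_prism (k : ℕ) (hk : Odd k) (hk3 : 3 ≤ k) :
    ∃ H : SimpleGraph (Fin (4 * k)), HomTraceable H ∧ ¬ HamL H ∧ edges H = 5 * k := by
  have : NeZero k := ⟨by omega⟩
  have hcard : Fintype.card (Fin 4 × ZMod k) = 4 * k := by
    rw [Fintype.card_prod, Fintype.card_fin, ZMod.card]
  let e : (Fin 4 × ZMod k) ≃ Fin (4 * k) := Fintype.equivFinOfCardEq hcard
  let f : prismG k ≃g (prismG k).map e.toEmbedding := SimpleGraph.Iso.map e (prismG k)
  refine ⟨(prismG k).map e.toEmbedding, homTraceable_iso f (prism_ht k hk hk3), ?_, ?_⟩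
  · intro h
    exact prism_not_ham k hk hk3 (hamL_iso f.symm h)
  · rw [← edges_iso f, prism_edges k hk3]

end Pool.Agent.Lib.MP_0f64c5_co
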