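import Pool.Agent.Lib.MP_0f64c5_co.PrismDefs
import Pool.Agent.Lib.MP_0f64c5_co.IsoA

/-!
# Module PRISMA: the subdivided prism is homogeneously traceable

Hamiltonian paths (symmetries: rotation, and exchange `v <-> u`, `a <-> b`):
* from `v_0`: the blocks `v_j a_j b_j u_j` for even `j` and `u_j b_j a_j v_j` for odd `j`,
  `j = 0, ..., k - 1`: `v_0 a_0 b_0 u_0 u_1 b_1 a_1 v_1 v_2 a_2 b_2 u_2 ...`;
* from `b_0`: `b_0 a_0 v_0 v_1 a_1 b_1 u_1 u_0`, then the blocks `u_j b_j a_j v_j` for even `j` and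
  `v_j a_j b_j u_j` for odd `j`, `j = k - 1, k - 2, ..., 2` (`k` odd: it starts with
  `u_{k-1}`, adjacent to `u_0`, and ends with `v_2`).
-/

set_option autoImplicit false

namespace Pool.Agent.Lib.MP_0f64c5_co

open Classical

/-- The block of the column `c`, from `v_c` to `u_c` (`s = false`) or from `u_c` to `v_c`. -/
def prismA_blk (k : ℕ) (s : Bool) (c : ZMod k) : List (Fin 4 × ZMod k) :=
  bif s then [(3, c), (2, c), (1, c), (0, c)] else [(0, c), (1, c), (2, c), (3, c)]

/-- `m` blocks, with step `d`. -/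
def prismA_zig (k : ℕ) (d : ZMod k) : ℕ → Bool → ZMod k → List (Fin 4 × ZMod k)
  | 0, _, _ => []
  | m + 1, s, c => prismA_blk k s c ++ prismA_zig k d m (!s) (c + d)

theorem prismA_zig_length (k : ℕ) (d : ZMod k) : ∀ (m : ℕ) (s : Bool) (c : ZMod k),
    (prismA_zig k d m s c).length = 4 * m := by
  intro m
  induction m with
  | zero => intro s c; rfl
  | succ m ih =>
    intro s c
    rw [prismA_zig, List.length_append, ih]
    cases s <;> simp [prismA_blk] <;> omega

theorem prismA_blk_mem (k : ℕ) (s : Bool) (c : ZMod k) (j : Fin 4) :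
    (j, c) ∈ prismA_blk k s c := by
  fin_cases j <;> cases s <;> simp [prismA_blk]

theorem prismA_zig_mem (k : ℕ) (d : ZMod k) : ∀ (m : ℕ) (s : Bool) (c : ZMod k) (j : Fin 4)
    (i : ℕ), i < m → (j, c + i * d) ∈ prismA_zig k d m s c := by
  intro m
  induction m with
  | zero => intro s c j i hi; omega
  | succ m ih =>
    intro s c j i hi
    rw [prismA_zig, List.mem_append]
    cases i with
    | zero =>
      left
      simp only [Nat.cast_zero, zero_mul, add_zero]
      exact prismA_blk_mem k s c j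
    | succ i =>
      right
      have := ih (!s) (c + d) j i (by omega)
      have e : c + ((i + 1 : ℕ) : ZMod k) * d = c + d + (i : ZMod k) * d := by
        push_cast; ring
      rw [e]
      exact this

theorem prismA_adj_step (k : ℕ) (hk3 : 3 ≤ k) (j : Fin 4) (hj : j = 0 ∨ j = 3) (c d : ZMod k)
    (hd : d = 1 ∨ d = -1) : (prismG k).Adj (j, c) (j, c + d) := by
  haveI : Fact (1 < k) := ⟨by omega⟩
  have hd0 : d ≠ 0 := by
    rcases hd with rfl | rfl
    · exact one_ne_zero
    · exact neg_ne_zero.2 one_ne_zero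
  unfold prismG
  rw [SimpleGraph.fromRel_adj]
  refine ⟨?_, ?_⟩
  · intro h
    rw [Prod.mk.injEq] at h
    have := h.2
    rw [left_eq_add] at this
    exact hd0 this
  · rcases hd with rfl | rfl
    · left; left
      exact ⟨rfl, hj, rfl⟩
    · right; left
      refine ⟨rfl, hj, ?_⟩
      simp

theorem prismA_adj_up (k : ℕ) (i j : Fin 4) (hij : j.val = i.val + 1) (c : ZMod k) :
    (prismG k).Adj (i, c) (j, c) := by
  unfold prismG
  rw [SimpleGraph.fromRel_adj]
  refine ⟨?_, Or.inl (Or.inr ⟨hij, rfl⟩)⟩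
  intro h
  rw [Prod.mk.injEq] at h
  have := congrArg Fin.val h.1
  omega

theorem prismA_blk_chain (k : ℕ) (s : Bool) (c : ZMod k) :
    (prismA_blk k s c).IsChain (prismG k).Adj := by
  have h01 := prismA_adj_up k 0 1 rfl c
  have h12 := prismA_adj_up k 1 2 rfl c
  have h23 := prismA_adj_up k 2 3 rfl c
  cases s
  · simp [prismA_blk, h01, h12, h23]
  · simp [prismA_blk, h01.symm, h12.symm, h23.symm]

theorem prismA_zig_head (k : ℕ) (d : ZMod k) (m : ℕ) (s : Bool) (c : ZMod k) (hm : 0 < m) :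
    (prismA_zig k d m s c).head? = some ((bif s then 3 else 0), c) := by
  obtain ⟨m, rfl⟩ : ∃ m', m = m' + 1 := ⟨m - 1, by omega⟩
  rw [prismA_zig]
  cases s <;> rfl

theorem prismA_zig_chain (k : ℕ) (hk3 : 3 ≤ k) (d : ZMod k) (hd : d = 1 ∨ d = -1) :
    ∀ (m : ℕ) (s : Bool) (c : ZMod k), (prismA_zig k d m s c).IsChain (prismG k).Adj := by
  intro m
  induction m with
  | zero => intro s c; simp [prismA_zig]
  | succ m ih =>
    intro s c
    rw [prismA_zig]
    refine List.isChain_append.2 ⟨prismA_blk_chain k s c, ih _ _, ?_⟩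
    intro x hx y hy
    cases m with
    | zero => simp [prismA_zig] at hy
    | succ m =>
      rw [prismA_zig_head k d (m + 1) (!s) (c + d) (by omega)] at hy
      cases s
      · simp [prismA_blk] at hx hy
        subst hx; subst hy
        exact prismA_adj_step k hk3 3 (Or.inr rfl) c d hd
      · simp [prismA_blk] at hx hy
        subst hx; subst hy
        exact prismA_adj_step k hk3 0 (Or.inl rfl) c d hd

theorem prismA_nodup (k : ℕ) [NeZero k] (l : List (Fin 4 × ZMod k)) (hl : l.length = 4 * k)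
    (hm : ∀ w, w ∈ l) : l.Nodup := by
  have h1 : l.toFinset = Finset.univ := by
    ext w; simp [hm w]
  have h2 : l.toFinset.card = l.length := by
    rw [h1, Finset.card_univ, Fintype.card_prod, Fintype.card_fin, ZMod.card, hl]
  exact Multiset.toFinset_card_eq_card_iff_nodup.1 h2

theorem prismA_cols (k : ℕ) [NeZero k] (c x : ZMod k) : ∃ i : ℕ, i < k ∧ x = c + (i : ZMod k) * 1 := by
  refine ⟨(x - c).val, ZMod.val_lt _, ?_⟩
  rw [ZMod.natCast_val, ZMod.cast_id]
  ring

theorem prismA_cols' (k : ℕ) [NeZero k] (hk3 : 3 ≤ k) (c x : ZMod k) (h0 : x ≠ c)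
    (h1 : x ≠ c + 1) : ∃ i : ℕ, i < k - 2 ∧ x = (c + -1) + (i : ZMod k) * (-1) := by
  have hlt : (c - 1 - x).val < k := ZMod.val_lt _
  have e : x = (c + -1) + ((c - 1 - x).val : ZMod k) * (-1) := by
    rw [ZMod.natCast_val, ZMod.cast_id]
    ring
  refine ⟨(c - 1 - x).val, ?_, e⟩
  by_contra hge
  have hc : (c - 1 - x).val = k - 2 ∨ (c - 1 - x).val = k - 1 := by omega
  rcases hc with h | h
  · rw [h, Nat.cast_sub (by omega), ZMod.natCast_self] at e
    apply h1
    rw [e]
    push_cast
    ring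
  · rw [h, Nat.cast_sub (by omega), ZMod.natCast_self] at e
    apply h0
    rw [e]
    push_cast
    ring

/-- Hamiltonian path starting in the middle of a column. -/
theorem prismA_mid (k : ℕ) (hk3 : 3 ≤ k) (s : Bool) (c : ZMod k) :
    ∃ l : List (Fin 4 × ZMod k), l.IsChain (prismG k).Adj ∧ l.Nodup ∧
      l.head? = some ((bif s then 2 else 1), c) ∧ ∀ w, w ∈ l := by
  haveI : NeZero k := ⟨by omega⟩
  have hz := prismA_zig_chain k hk3 (-1) (Or.inr rfl) (k - 2) s (c + -1)
  have hzl := prismA_zig_length k (-1) (k - 2) s (c + -1)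
  have hzh := prismA_zig_head k (-1) (k - 2) s (c + -1) (by omega)
  have h01 := prismA_adj_up k 0 1 rfl c
  have h12 := prismA_adj_up k 1 2 rfl c
  have h23 := prismA_adj_up k 2 3 rfl c
  have h01' := prismA_adj_up k 0 1 rfl (c + 1)
  have h12' := prismA_adj_up k 1 2 rfl (c + 1)
  have h23' := prismA_adj_up k 2 3 rfl (c + 1)
  have h0 := prismA_adj_step k hk3 0 (Or.inl rfl) c 1 (Or.inl rfl)
  have h3 := prismA_adj_step k hk3 3 (Or.inr rfl) c 1 (Or.inl rfl)
  have h0' := prismA_adj_step k hk3 0 (Or.inl rfl) c (-1) (Or.inr rfl)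
  have h3' := prismA_adj_step k hk3 3 (Or.inr rfl) c (-1) (Or.inr rfl)
  have hmem : ∀ (p : List (Fin 4 × ZMod k)), (∀ j, (j, c) ∈ p) → (∀ j, (j, c + 1) ∈ p) →
      ∀ w, w ∈ p ++ prismA_zig k (-1) (k - 2) s (c + -1) := by
    rintro p hp0 hp1 ⟨j, x⟩
    rw [List.mem_append]
    by_cases hx0 : x = c
    · left; rw [hx0]; exact hp0 j
    · by_cases hx1 : x = c + 1
      · left; rw [hx1]; exact hp1 j
      · right
        obtain ⟨i, hi, e⟩ := prismA_cols' k hk3 c x hx0 hx1
        rw [e]
        exact prismA_zig_mem k (-1) (k - 2) s (c + -1) j i hi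
  cases s
  · have hm := hmem [(1, c), (2, c), (3, c), (3, c + 1), (2, c + 1), (1, c + 1), (0, c + 1),
      (0, c)] (by intro j; fin_cases j <;> simp) (by intro j; fin_cases j <;> simp)
    refine ⟨_, ?_, ?_, ?_, hm⟩
    · refine List.isChain_append.2 ⟨?_, hz, ?_⟩
      · simp [h12, h23, h3, h23'.symm, h12'.symm, h01'.symm, h0.symm]
      · intro x hx y hy
        rw [hzh] at hy
        simp at hx hy
        subst hx; subst hy
        exact h0'
    · refine prismA_nodup k _ ?_ hm
      rw [List.length_append, hzl]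
      simp only [List.length_cons, List.length_nil]
      omega
    · rfl
  · have hm := hmem [(2, c), (1, c), (0, c), (0, c + 1), (1, c + 1), (2, c + 1), (3, c + 1),
      (3, c)] (by intro j; fin_cases j <;> simp) (by intro j; fin_cases j <;> simp)
    refine ⟨_, ?_, ?_, ?_, hm⟩
    · refine List.isChain_append.2 ⟨?_, hz, ?_⟩
      · simp [h12.symm, h01.symm, h0, h01', h12', h23', h3.symm]
      · intro x hx y hy
        rw [hzh] at hy
        simp at hx hy
        subst hx; subst hy
        exact h3'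
    · refine prismA_nodup k _ ?_ hm
      rw [List.length_append, hzl]
      simp only [List.length_cons, List.length_nil]
      omega
    · rfl

/-- Hamiltonian path starting at an end of a column. -/
theorem prismA_end (k : ℕ) (hk3 : 3 ≤ k) (s : Bool) (c : ZMod k) :
    ∃ l : List (Fin 4 × ZMod k), l.IsChain (prismG k).Adj ∧ l.Nodup ∧
      l.head? = some ((bif s then 3 else 0), c) ∧ ∀ w, w ∈ l := by
  haveI : NeZero k := ⟨by omega⟩
  have hm : ∀ w, w ∈ prismA_zig k 1 k s c := by
    rintro ⟨j, x⟩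
    obtain ⟨i, hi, e⟩ := prismA_cols k c x
    rw [e]
    exact prismA_zig_mem k 1 k s c j i hi
  exact ⟨prismA_zig k 1 k s c, prismA_zig_chain k hk3 1 (Or.inl rfl) k s c,
    prismA_nodup k _ (prismA_zig_length k 1 k s c) hm,
    prismA_zig_head k 1 k s c (by omega), hm⟩

theorem prism_ht (k : ℕ) (hk : Odd k) (hk3 : 3 ≤ k) : HomTraceable (prismG k) := by
  rw [homTraceable_iff]
  rintro ⟨j, c⟩
  fin_cases j
  · exact prismA_end k hk3 false c
  · exact prismA_mid k hk3 false c
  · exact prismA_mid k hk3 true c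
  · exact prismA_end k hk3 true c

end Pool.Agent.Lib.MP_0f64c5_co
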