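import Pool.Agent.Lib.MP_0f64c5_co.Defs

/-!
# The prism over a cycle with all spokes subdivided twice

`(0, i) = v_i`, `(1, i) = a_i`, `(2, i) = b_i`, `(3, i) = u_i`.
-/

set_option autoImplicit false

namespace Pool.Agent.Lib.MP_0f64c5_co

/-- The edges `v_i v_{i+1}`, `u_i u_{i+1}`, `v_i a_i`, `a_i b_i`, `b_i u_i`. -/
def prismG (k : ℕ) : SimpleGraph (Fin 4 × ZMod k) :=
  SimpleGraph.fromRel (fun p q =>
    (p.1 = q.1 ∧ (p.1 = 0 ∨ p.1 = 3) ∧ q.2 = p.2 + 1) ∨ (q.1.val = p.1.val + 1 ∧ q.2 = p.2))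

end Pool.Agent.Lib.MP_0f64c5_co
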