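import Pool.Agent.Lib.MP_0f64c5_co.Sparse
import Pool.Agent.Lib.MP_0f64c5_co.Gap
import Pool.Agent.Lib.MP_0f64c5_co.Cyc
import Pool.Agent.Lib.MP_0f64c5_co.IsoA
import Pool.Agent.Lib.MP_0f64c5_co.IsoB
import Pool.Agent.Lib.MP_0f64c5_co.IsoC
import Pool.Agent.Lib.MP_0f64c5_co.Prism

/-!
# Module SECOND (assembly): the second smallest size

`gap`: if `2 edges G >= 5 (n - 2)` then `4 edges G >= 10 (n - 2) >= 9 (n - 1)`. Otherwise
`sparse_iff`: `h` dominating, `H = G - h` edge-minimal homogeneously traceable, `m = n - 1`.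
If `H` has a Hamiltonian cycle then `H` is `cycleGraph m` (`cycle_of_edgeMinimal`) and `G` is a wheel.
Otherwise `ht_nonham` and `edges_induce`: `4 edges G >= 4 m + 5 m`.
`gap_sharp`: `n = 8 q + 5`, `k = 2 q + 1`, `H` from `exists_prism k`, `G = coneG H`, transported to
`Fin n`. `H` is edge-minimal: if `H - e` is homogeneously traceable, then it has no Hamiltonian cycle
(`hamL_mono`), so `5 m <= 4 (edges H - 1)` by `ht_nonham`, contradiction. `sparse_iff` (<-) applies
since `2 edges G = 2 (4 k + 5 k) = 18 k < 5 (4 k - 1)`. Not a wheel: if `h'` is another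
dominating vertex with `G - h'` a cycle then `4 edges G = 8 (n - 1)`.
-/

set_option autoImplicit false

namespace Pool.Agent.Lib.MP_0f64c5_co

open Classical

variable {V : Type*}

theorem secondSize_edges_cycleGraph (m : ℕ) (hm : 3 ≤ m) :
    edges (SimpleGraph.cycleGraph m) = m := by
  obtain ⟨k, rfl⟩ : ∃ k, m = k + 3 := ⟨m - 3, by omega⟩
  have h := sum_dg (SimpleGraph.cycleGraph (k + 3))
  have h1 : ∀ v, dg (SimpleGraph.cycleGraph (k + 3)) v = 2 := by
    intro v
    have h2 : (SimpleGraph.cycleGraph (k + 3)).degree v = 2 :=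
      SimpleGraph.cycleGraph_degree_three_le
    rw [← h2]
    unfold dg
    rw [← SimpleGraph.card_neighborFinset_eq_degree]
    congr 1
    ext w
    simp
  simp only [h1] at h
  simp only [Finset.sum_const, Finset.card_univ, Fintype.card_fin, smul_eq_mul] at h
  omega

theorem secondSize_card_ne [Fintype V] (h : V) [Fintype {w | w ≠ h}] :
    Fintype.card {w | w ≠ h} = Fintype.card V - 1 :=
  Set.card_ne_eq h

theorem edges_of_isWheel [Fintype V] {G : SimpleGraph V} (hn : 4 ≤ Fintype.card V)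
    (hw : IsWheel G) : edges G = 2 * (Fintype.card V - 1) := by
  obtain ⟨h, hd, ⟨f⟩⟩ := hw
  rw [edges_induce hd, edges_iso f, secondSize_edges_cycleGraph _ (by omega)]
  omega

theorem gap [Fintype V] {G : SimpleGraph V} (hn : 10 ^ 6 ≤ Fintype.card V)
    (hG : MinimalPLDMaximal G) (hw : ¬ IsWheel G) :
    9 * (Fintype.card V - 1) ≤ 4 * edges G := by
  by_cases he : 2 * edges G < 5 * (Fintype.card V - 2)
  · obtain ⟨h, hd, hH⟩ := (sparse_iff hn he).1 hG
    have hcard : Fintype.card {w | w ≠ h} = Fintype.card V - 1 := secondSize_card_ne h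
    by_cases hc : HamL (G.induce {w | w ≠ h})
    · exfalso
      apply hw
      have h1 := cycle_of_edgeMinimal hH hc
      rw [hcard] at h1
      exact ⟨h, hd, h1⟩
    · have h1 := ht_nonham (by rw [hcard]; omega) hH.1 hc
      have h2 := edges_induce hd
      rw [hcard] at h1
      omega
  · omega

theorem secondSize_edgeMinimal {k : ℕ} (hk3 : 3 ≤ k) {H : SimpleGraph (Fin (4 * k))}
    (h1 : HomTraceable H) (h2 : ¬ HamL H) (h3 : edges H = 5 * k) : EdgeMinimalHT H := by
  refine ⟨h1, ?_⟩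
  intro e he hT
  have h4 : ¬ HamL (H.deleteEdges {e}) := by
    intro h
    exact h2 (hamL_mono (SimpleGraph.deleteEdges_le _) h)
  have h5 := ht_nonham (by rw [Fintype.card_fin]; omega) hT h4
  have h6 := edges_deleteEdge he
  rw [Fintype.card_fin] at h5
  omega

theorem gap_sharp (n : ℕ) (hn : 10 ^ 6 ≤ n) (h8 : n % 8 = 5) :
    ∃ G : SimpleGraph (Fin n), MinimalPLDMaximal G ∧ ¬ IsWheel G ∧
      4 * edges G = 9 * (n - 1) := by
  obtain ⟨q, hq⟩ : ∃ q, n = 8 * q + 5 := ⟨n / 8, by omega⟩
  have hk : Odd (2 * q + 1) := ⟨q, rfl⟩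
  obtain ⟨H, h1, h2, h3⟩ := exists_prism (2 * q + 1) hk (by omega)
  have hmin := secondSize_edgeMinimal (by omega) h1 h2 h3
  have hcard : Fintype.card (Option (Fin (4 * (2 * q + 1)))) = n := by
    rw [Fintype.card_option, Fintype.card_fin]
    omega
  have he0 : edges (coneG H) = 9 * (2 * q + 1) := by
    rw [edges_coneG, Fintype.card_fin, h3]
    omega
  have hmin0 : MinimalPLDMaximal (coneG H) := by
    rw [sparse_iff (by rw [hcard]; exact hn) (by rw [hcard, he0]; omega)]
    obtain ⟨f⟩ := induce_coneG H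
    exact ⟨none, isDom_coneG H, edgeMinimalHT_iso f.symm hmin⟩
  have hnw : ¬ IsWheel (coneG H) := by
    intro hw
    have h4 := edges_of_isWheel (by rw [hcard]; omega) hw
    rw [he0, hcard] at h4
    omega
  have ef : Option (Fin (4 * (2 * q + 1))) ≃ Fin n :=
    Fintype.equivFinOfCardEq hcard
  have f : coneG H ≃g (coneG H).map ef.toEmbedding := SimpleGraph.Iso.map ef (coneG H)
  refine ⟨(coneG H).map ef.toEmbedding, minimalPLDMaximal_iso f hmin0, ?_, ?_⟩
  · intro hw
    exact hnw (isWheel_iso f.symm hw)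
  · rw [← edges_iso f, he0]
    omega

end Pool.Agent.Lib.MP_0f64c5_co
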