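import Pool.Agent.Lib.MP_0f64c5_co.Defs

/-!
# Module TOUGH: toughness of Hamiltonian-connected graphs, in counting form

Take `u <> v` in `T` and a Hamiltonian path `l` from `u` to `v`. At most
`2 |T| - 2` of its `n - 1` edges meet `T` (`u` and `v` are on one edge each, all others on two).
So at least `n + 1 - 2 |T|` edges of the path lie in the complement of `T`, and every such edge
is counted twice in the sum on the right.
-/

set_option autoImplicit false

namespace Pool.Agent.Lib.MP_0f64c5_co

open Classical

variable {V : Type*}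

/-- index form: `f` runs through the path -/
theorem tough_index {G : SimpleGraph V} [Fintype V] (T : Finset V) (f : ℕ → V) (n : ℕ)
    (hn2 : 2 ≤ n)
    (hinj : ∀ i < n, ∀ j < n, f i = f j → i = j) (hadj : ∀ i, i + 1 < n → G.Adj (f i) (f (i + 1)))
    (h0 : f 0 ∈ T) (h1 : f (n - 1) ∈ T) :
    2 * n + 2 ≤ 4 * T.card + ∑ v ∈ Tᶜ, dgIn G v Tᶜ := by
  set good := (Finset.range (n - 1)).filter (fun i => f i ∈ Tᶜ ∧ f (i + 1) ∈ Tᶜ) with hgood
  set A := (Finset.range (n - 1)).filter (fun i => f i ∈ T) with hA
  set B := (Finset.range (n - 1)).filter (fun i => f (i + 1) ∈ T) with hB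
  have hAc : A.card + 1 ≤ T.card := by
    have h : A.card ≤ (T.erase (f (n - 1))).card := by
      refine Finset.card_le_card_of_injOn f ?_ ?_
      · intro i hi
        have hi' := Finset.mem_filter.1 (Finset.mem_coe.1 hi)
        have hi1 := Finset.mem_range.1 hi'.1
        refine Finset.mem_coe.2 (Finset.mem_erase.2 ⟨fun h => ?_, hi'.2⟩)
        have := hinj i (by omega) (n - 1) (by omega) h
        omega
      · intro i hi j hj hij
        have hi1 := Finset.mem_range.1 (Finset.mem_filter.1 (Finset.mem_coe.1 hi)).1
        have hj1 := Finset.mem_range.1 (Finset.mem_filter.1 (Finset.mem_coe.1 hj)).1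
        exact hinj i (by omega) j (by omega) hij
    rw [Finset.card_erase_of_mem h1] at h
    have : 0 < T.card := Finset.card_pos.2 ⟨_, h1⟩
    omega
  have hBc : B.card + 1 ≤ T.card := by
    have h : B.card ≤ (T.erase (f 0)).card := by
      refine Finset.card_le_card_of_injOn (fun i => f (i + 1)) ?_ ?_
      · intro i hi
        have hi' := Finset.mem_filter.1 (Finset.mem_coe.1 hi)
        have hi1 := Finset.mem_range.1 hi'.1
        refine Finset.mem_coe.2 (Finset.mem_erase.2 ⟨fun h => ?_, hi'.2⟩)
        have := hinj (i + 1) (by omega) 0 (by omega) h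
        omega
      · intro i hi j hj hij
        have hi1 := Finset.mem_range.1 (Finset.mem_filter.1 (Finset.mem_coe.1 hi)).1
        have hj1 := Finset.mem_range.1 (Finset.mem_filter.1 (Finset.mem_coe.1 hj)).1
        have := hinj (i + 1) (by omega) (j + 1) (by omega) hij
        omega
    rw [Finset.card_erase_of_mem h0] at h
    have : 0 < T.card := Finset.card_pos.2 ⟨_, h0⟩
    omega
  have hcount : n - 1 ≤ good.card + A.card + B.card := by
    have hsub : Finset.range (n - 1) ⊆ good ∪ A ∪ B := by
      intro i hi
      simp only [Finset.mem_union, hgood, hA, hB, Finset.mem_filter, Finset.mem_compl]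
      tauto
    calc n - 1 = (Finset.range (n - 1)).card := (Finset.card_range _).symm
      _ ≤ (good ∪ A ∪ B).card := Finset.card_le_card hsub
      _ ≤ (good ∪ A).card + B.card := Finset.card_union_le _ _
      _ ≤ good.card + A.card + B.card := Nat.add_le_add_right (Finset.card_union_le _ _) _
  have hsum : 2 * good.card ≤ ∑ v ∈ Tᶜ, dgIn G v Tᶜ := by
    have e1 : ∑ v ∈ Tᶜ, dgIn G v Tᶜ
        = (Finset.sigma Tᶜ (fun v => Tᶜ.filter (fun w => G.Adj v w))).card := by
      rw [Finset.card_sigma]
      rfl
    have e2 : 2 * good.card = (good ×ˢ (Finset.univ : Finset Bool)).card := by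
      rw [Finset.card_product, Finset.card_univ, Fintype.card_bool]
      ring
    rw [e1, e2]
    refine Finset.card_le_card_of_injOn
      (fun q : ℕ × Bool => if q.2 then (⟨f q.1, f (q.1 + 1)⟩ : Sigma fun _ : V => V)
        else ⟨f (q.1 + 1), f q.1⟩) ?_ ?_
    · rintro ⟨i, b⟩ hi
      have hi' := (Finset.mem_product.1 (Finset.mem_coe.1 hi)).1
      have hi2 := Finset.mem_filter.1 hi'
      have hi1 := Finset.mem_range.1 hi2.1
      have ha := hadj i (by omega)
      cases b with
      | true =>
        exact Finset.mem_coe.2 (Finset.mem_sigma.2 ⟨hi2.2.1, Finset.mem_filter.2 ⟨hi2.2.2, ha⟩⟩)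
      | false =>
        exact Finset.mem_coe.2
          (Finset.mem_sigma.2 ⟨hi2.2.2, Finset.mem_filter.2 ⟨hi2.2.1, ha.symm⟩⟩)
    · rintro ⟨i, b⟩ hi ⟨j, c⟩ hj hij
      have hi1 := Finset.mem_range.1
        (Finset.mem_filter.1 (Finset.mem_product.1 (Finset.mem_coe.1 hi)).1).1
      have hj1 := Finset.mem_range.1
        (Finset.mem_filter.1 (Finset.mem_product.1 (Finset.mem_coe.1 hj)).1).1
      simp only at hi1 hj1
      cases b <;> cases c <;> simp only [Bool.false_eq_true, if_true, if_false, Sigma.mk.injEq,
        heq_eq_eq] at hij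
      · have := hinj i (by omega) j (by omega) hij.2
        rw [this]
      · have a1 := hinj (i + 1) (by omega) j (by omega) hij.1
        have a2 := hinj i (by omega) (j + 1) (by omega) hij.2
        omega
      · have a1 := hinj i (by omega) (j + 1) (by omega) hij.1
        have a2 := hinj (i + 1) (by omega) j (by omega) hij.2
        omega
      · have := hinj i (by omega) j (by omega) hij.1
        rw [this]
  omega

theorem tough [Fintype V] {G : SimpleGraph V} (hP : HasP G (Fintype.card V)) (T : Finset V)
    (hT : 2 ≤ T.card) :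
    2 * Fintype.card V + 2 ≤ 4 * T.card + ∑ v ∈ Tᶜ, dgIn G v Tᶜ := by
  obtain ⟨u, hu, v, hv, huv⟩ := Finset.one_lt_card.1 (show 1 < T.card by omega)
  obtain ⟨l, ⟨hc, hn, hh, hl⟩, hlen⟩ := hasP_iff.1 hP u v huv
  have hn2 : 2 ≤ Fintype.card V := le_trans hT (Finset.card_le_univ T)
  have hf : ∀ i (h : i < l.length), l.getD i u = l[i] := by
    intro i h
    rw [List.getD_eq_getElem?_getD, List.getElem?_eq_getElem h, Option.getD_some]
  refine tough_index T (fun i => l.getD i u) (Fintype.card V) hn2 ?_ ?_ ?_ ?_
  · intro i hi j hj hij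
    rw [hf i (by omega), hf j (by omega)] at hij
    exact (hn.getElem_inj_iff).1 hij
  · intro i hi
    rw [hf i (by omega), hf (i + 1) (by omega)]
    exact (List.isChain_iff_getElem.1 hc) i (by omega)
  · have h1 : 0 < l.length := by omega
    rw [hf 0 h1]
    have : l[0] = u := by
      rw [List.head?_eq_getElem?, List.getElem?_eq_getElem h1] at hh
      exact Option.some.inj hh
    rw [this]
    exact hu
  · have h1 : Fintype.card V - 1 < l.length := by omega
    rw [hf _ h1]
    have : l[Fintype.card V - 1] = v := by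
      rw [List.getLast?_eq_getElem?, hlen, List.getElem?_eq_getElem h1] at hl
      exact Option.some.inj hl
    rw [this]
    exact hv

end Pool.Agent.Lib.MP_0f64c5_co
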