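import Pool.Agent.Lib.MP_0f64c5_co.Deg
import Pool.Agent.Lib.MP_0f64c5_co.Tough
import Pool.Agent.Lib.MP_0f64c5_co.Hub
import Pool.Agent.Lib.MP_0f64c5_co.CountA
import Pool.Agent.Lib.MP_0f64c5_co.CountB

/-!
# Module THR (assembly): no dominating vertex implies at least `5 (n - 2) / 2` edges
-/

set_option autoImplicit false

namespace Pool.Agent.Lib.MP_0f64c5_co

open Classical

variable {V : Type*}

theorem no_dom_bound [Fintype V] {G : SimpleGraph V} (hn : 10 ^ 6 ≤ Fintype.card V)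
    (h3 : HasP G 3) (hP : HasP G (Fintype.card V)) (hd : ∀ h, ¬ IsDom G h) :
    5 * (Fintype.card V - 2) ≤ 2 * edges G := by
  rw [← sum_dg]
  by_contra hcon
  push Not at hcon
  rw [hasP_three_iff] at h3
  have hmin : ∀ v, 3 ≤ dg G v := fun v => three_le_dg hP (by omega) v
  have ht := fun T hT => tough hP T hT
  obtain ⟨h, hh⟩ := exists_hub hn h3 ht hcon
  have hZ : ∀ z, z ≠ h → ¬ G.Adj h z → 200 ≤ dg G z := by
    intro z _ hz
    by_contra hlt
    exact hz (hh z (by omega))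
  have hne : ∃ z, z ≠ h ∧ ¬ G.Adj h z := by
    have := hd h
    unfold IsDom at this
    push Not at this
    exact this
  by_cases hD : ∀ z, z ≠ h → ¬ G.Adj h z → ∃ z', z' ≠ h ∧ ¬ G.Adj h z' ∧ G.Adj z z'
  · have := count_beta hn h3 hmin ht (big_le hcon) h hZ hne hD
    omega
  · push Not at hD
    obtain ⟨z, hz1, hz2, hz3⟩ := hD
    have := count_alpha h3 hmin h (fun z h1 h2 => by have := hZ z h1 h2; omega) z hz1 hz2
      (fun z' h1 h2 => hz3 z' h1 h2)
    omega

end Pool.Agent.Lib.MP_0f64c5_co
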