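import Pool.Agent.Lib.MP_0f64c5_co.Cone
import Pool.Agent.Lib.MP_0f64c5_co.Thr

/-!
# Module SPARSE: the characterisation below the threshold

(->) `G` is PLD-maximal, so by `no_dom_bound` (`P_3` and `P_n`) it has a dominating vertex `h`;
`HTL G h` by `pldMaximal_iff_htl`, so `G - h` is homogeneously traceable (`homTraceable_induce_iff`).
If an edge `e` of `G - h` could be removed, then `h` is still dominating in `G - e'`
(`e'` the image of `e`), `(G - e') - h = (G - h) - e`, so `G - e'` is PLD-maximal, contradiction.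
(<-) `G` is PLD-maximal by `pldMaximal_iff_htl`. Let `e` be an edge and `G - e` PLD-maximal.
If `h` is not in `e`: `h` is dominating in `G - e`, so `(G - h) - e` is homogeneously traceable,
contradiction. If `e = hx`: `2 edges (G - e) < 5 (n - 2)`, so `G - e` has a dominating vertex `y` by
`no_dom_bound`; `y <> h`, `y <> x` and `y` is dominating in `G`. So `h` and `y` are dominating in `G`,
and `tough` with `T = {h, y}` and `sum_dg_split` give
`2 e(G) >= 2 (n - 1) + 2 (n - 2) + (2 n + 2 - 8) >= 5 (n - 2)`, contradiction.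
-/

set_option autoImplicit false

namespace Pool.Agent.Lib.MP_0f64c5_co

open Classical

variable {V : Type*}

private theorem sparse_induce {G : SimpleGraph V} {h : V} (x y : {w | w ≠ h}) :
    (G.deleteEdges {s(x.1, y.1)}).induce {w | w ≠ h} =
      (G.induce {w | w ≠ h}).deleteEdges {s(x, y)} := by
  ext u v
  simp only [SimpleGraph.comap_adj, SimpleGraph.deleteEdges_adj, Function.Embedding.subtype_apply,
    Set.mem_singleton_iff, Sym2.eq_iff, Subtype.ext_iff]

private theorem sparse_dom {G : SimpleGraph V} {h x y : V} (hd : IsDom G h) (hx : x ≠ h)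
    (hy : y ≠ h) : IsDom (G.deleteEdges {s(x, y)}) h := by
  intro w hw
  rw [SimpleGraph.deleteEdges_adj, Set.mem_singleton_iff, Sym2.eq_iff]
  refine ⟨hd w hw, ?_⟩
  rintro (⟨h1, _⟩ | ⟨h1, _⟩)
  · exact hx h1.symm
  · exact hy h1.symm

private theorem sparse_edges [Fintype V] (G : SimpleGraph V) (e : Set (Sym2 V)) :
    edges (G.deleteEdges e) ≤ edges G := by
  unfold edges
  refine Set.ncard_le_ncard ?_ (Set.toFinite _)
  exact SimpleGraph.edgeSet_mono (SimpleGraph.deleteEdges_le e)

private theorem sparse_dg [Fintype V] {G : SimpleGraph V} {h : V} (hd : IsDom G h) :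
    Fintype.card V - 1 ≤ dg G h := by
  unfold dg
  rw [← Finset.card_univ, ← Finset.card_erase_of_mem (Finset.mem_univ h)]
  refine Finset.card_le_card ?_
  intro w hw
  rw [Finset.mem_erase] at hw
  rw [Finset.mem_filter]
  exact ⟨Finset.mem_univ w, hd w hw.1⟩

/-- a graph with the toughness count and two dominating vertices has many edges -/
private theorem sparse_two [Fintype V] {G : SimpleGraph V} (hn : 10 ^ 6 ≤ Fintype.card V)
    (hP : HasP G (Fintype.card V)) {h y : V} (hhy : h ≠ y) (hh : IsDom G h) (hy : IsDom G y) :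
    5 * (Fintype.card V - 2) ≤ 2 * edges G := by
  have hT : ({h, y} : Finset V).card = 2 := Finset.card_pair hhy
  have h1 := tough hP {h, y} (by rw [hT])
  have h2 := sum_dg_split G {h, y}
  rw [sum_dg] at h2
  rw [hT] at h1
  have h3 : 2 * (Fintype.card V - 1) ≤ ∑ t ∈ ({h, y} : Finset V), dg G t := by
    rw [Finset.sum_pair hhy]
    have := sparse_dg hh
    have := sparse_dg hy
    omega
  have h4 : 2 * (Fintype.card V - 2) ≤ ∑ v ∈ ({h, y} : Finset V)ᶜ, dgIn G v {h, y} := by
    have h5 : ∀ v ∈ ({h, y} : Finset V)ᶜ, 2 ≤ dgIn G v {h, y} := by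
      intro v hv
      rw [Finset.mem_compl, Finset.mem_insert, Finset.mem_singleton, not_or] at hv
      have h6 : ({h, y} : Finset V).filter (fun w => G.Adj v w) = {h, y} := by
        rw [Finset.filter_eq_self]
        intro w hw
        rw [Finset.mem_insert, Finset.mem_singleton] at hw
        rcases hw with rfl | rfl
        · exact (hh v hv.1).symm
        · exact (hy v hv.2).symm
      unfold dgIn
      rw [h6, hT]
    have h7 := Finset.card_nsmul_le_sum _ _ _ h5
    rw [Finset.card_compl, hT, smul_eq_mul] at h7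
    omega
  omega

theorem sparse_iff [Fintype V] {G : SimpleGraph V} (hn : 10 ^ 6 ≤ Fintype.card V)
    (he : 2 * edges G < 5 * (Fintype.card V - 2)) :
    MinimalPLDMaximal G ↔ ∃ h, IsDom G h ∧ EdgeMinimalHT (G.induce {w | w ≠ h}) := by
  have hn3 : 3 ≤ Fintype.card V := by omega
  constructor
  · rintro ⟨hP, hmin⟩
    have hex : ∃ h, IsDom G h := by
      by_contra hcon
      push Not at hcon
      have := no_dom_bound hn (hP 3 le_rfl hn3) (hP _ hn3 le_rfl) hcon
      omega
    obtain ⟨h, hd⟩ := hex
    refine ⟨h, hd, homTraceable_induce_iff.2 ((pldMaximal_iff_htl hd hn3).1 hP), ?_⟩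
    intro e
    refine Sym2.ind (fun x y => ?_) e
    intro hxy hHT
    rw [SimpleGraph.mem_edgeSet, SimpleGraph.comap_adj] at hxy
    rw [← sparse_induce, homTraceable_induce_iff] at hHT
    have h1 := (pldMaximal_iff_htl (sparse_dom hd x.2 y.2) hn3).2 hHT
    exact hmin s(x.1, y.1) (by rw [SimpleGraph.mem_edgeSet]; exact hxy) h1
  · rintro ⟨h, hd, hHT, hmin⟩
    have hPG : PLDMaximal G := (pldMaximal_iff_htl hd hn3).2 (homTraceable_induce_iff.1 hHT)
    refine ⟨hPG, ?_⟩
    -- the edges at the dominating vertex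
    have key : ∀ x, G.Adj h x → ¬ PLDMaximal (G.deleteEdges {s(h, x)}) := by
      intro x hx hP
      have h1 := sparse_edges G {s(h, x)}
      have hex : ∃ y, IsDom (G.deleteEdges {s(h, x)}) y := by
        by_contra hcon
        push Not at hcon
        have := no_dom_bound hn (hP 3 le_rfl hn3) (hP _ hn3 le_rfl) hcon
        omega
      obtain ⟨y, hy⟩ := hex
      have hyh : y ≠ h := by
        rintro rfl
        have h2 := hy x hx.ne'
        rw [SimpleGraph.deleteEdges_adj] at h2
        exact h2.2 rfl
      have hyG : IsDom G y := fun w hw => SimpleGraph.deleteEdges_le _ (hy w hw)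
      have := sparse_two hn (hPG _ hn3 le_rfl) hyh.symm hd hyG
      omega
    intro e
    refine Sym2.ind (fun x y => ?_) e
    intro hxy hP
    rw [SimpleGraph.mem_edgeSet] at hxy
    by_cases hxh : x = h
    · subst hxh
      exact key y hxy hP
    · by_cases hyh : y = h
      · subst hyh
        rw [Sym2.eq_swap] at hP
        exact key x hxy.symm hP
      · have h1 := (pldMaximal_iff_htl (sparse_dom hd hxh hyh) hn3).1 hP
        rw [← homTraceable_induce_iff] at h1
        have h2 := sparse_induce (G := G) (h := h) ⟨x, hxh⟩ ⟨y, hyh⟩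
        rw [h2] at h1
        refine hmin s(⟨x, hxh⟩, ⟨y, hyh⟩) ?_ h1
        rw [SimpleGraph.mem_edgeSet, SimpleGraph.comap_adj]
        exact hxy

end Pool.Agent.Lib.MP_0f64c5_co
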