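import Pool.Agent.Lib.MP_0f64c5_co.Crit

/-!
# Module UPPER: a minimal PLD-maximal graph has at most `49 n^2 / 100` edges

Suppose `100 e > 49 n^2`, `n >= 1000`. `b` = number of bad vertices:
`sum (n - d(v)) = n^2 - 2 e < n^2 / 50` gives `15 b <= 2 n` (`FewBad`). Edges with a bad end:
at most `b * 0.85 n`, so more than `(0.49 - 0.114) n^2` edges join good vertices. Each edge `e = xy`
between good vertices is critical: some `i` in `[3, n]`, `u <> v` such that all paths of `G` from `u` to
`v` with `i` vertices contain `xy` (such paths exist).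
Type I: `G - e` does not have `P_3`: there are `z` and an end (`y` say) with `N(y) cap N(z) = {x}`;
`z` is bad (two good vertices have more than one common neighbour); `(y, z)` determines `e`:
at most `n b` edges.
Otherwise `crit_structure` applies (`i >= 4`).
Type II: `i = 4`, one of `u, v` is an end of `e`, `v = y` say (reverse the path if necessary). For
every `w` in `N(y)`, `w <> x, u`: `N(w) cap N(u)` is contained in `{y}` (otherwise `u q w y` is a path
avoiding `xy`), so it is `{y}` by `P_3`, so `wy` is of type I and (take any such `w`) `uy` is of type I.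
So `xy` is the only edge at `y` which is not of type I: at most `n` edges of type II.
Type III: `i` in `{4, 5}`, `u, v` bad: choose for every ordered pair `(u, v)` of distinct vertices one
path with 4 and one with 5 vertices; `e` is one of its edges which does not contain `u` or `v`
(these are bad): at most 3 edges for each of the `b^2` ordered pairs.
Total `<= n b + n + 3 b^2 <= (2/15 + 3 * 4/225) n^2 + n < 0.376 n^2`, contradiction.
-/

set_option autoImplicit false

namespace Pool.Agent.Lib.MP_0f64c5_co

open Classical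

variable {V : Type*}

theorem upper_chain {G : SimpleGraph V} {x y : V} : ∀ l : List V, l.IsChain G.Adj →
    ¬ ConsIn x y l → l.IsChain (G.deleteEdges {s(x, y)}).Adj := by
  intro l
  induction l with
  | nil => intro _ _; exact List.isChain_nil
  | cons a l ih =>
    cases l with
    | nil => intro _ _; exact List.isChain_singleton _
    | cons b l =>
      intro h hc
      rw [List.isChain_cons_cons] at h ⊢
      refine ⟨?_, ih h.2 ?_⟩
      · rw [SimpleGraph.deleteEdges_adj]
        refine ⟨h.1, ?_⟩
        intro he
        rw [Set.mem_singleton_iff, Sym2.eq_iff] at he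
        apply hc
        rcases he with ⟨h1, h2⟩ | ⟨h1, h2⟩
        · subst h1; subst h2
          exact Or.inl ⟨[], l, rfl⟩
        · subst h1; subst h2
          exact Or.inr ⟨[], l, rfl⟩
      · intro hc2
        apply hc
        rcases hc2 with h1 | h1
        · exact Or.inl (h1.trans ⟨[a], [], by simp⟩)
        · exact Or.inr (h1.trans ⟨[a], [], by simp⟩)

/-- The set of edges of a list. -/
noncomputable def upE (l : List V) : Finset (Sym2 V) :=
  ((l.zip l.tail).map (fun p => s(p.1, p.2))).toFinset

theorem upE_card (l : List V) : (upE l).card ≤ l.length - 1 := by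
  unfold upE
  refine (List.toFinset_card_le _).trans ?_
  simp

theorem upE_mem {x y : V} {l : List V} (h : ConsIn x y l) : s(x, y) ∈ upE l := by
  have key : ∀ (a b : V) (l : List V), [a, b] <:+: l → (a, b) ∈ l.zip l.tail := by
    intro a b l h
    obtain ⟨u, v, rfl⟩ := h
    induction u with
    | nil => simp
    | cons c u ih =>
      cases u with
      | nil => simp
      | cons d u =>
        simp only [List.cons_append, List.tail_cons, List.zip_cons_cons, List.mem_cons] at ih ⊢
        exact Or.inr ih
  unfold upE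
  rw [List.mem_toFinset, List.mem_map]
  rcases h with h | h
  · exact ⟨_, key _ _ _ h, rfl⟩
  · exact ⟨_, key _ _ _ h, Sym2.eq_swap⟩

theorem upper_typeI_aux [Fintype V] {G : SimpleGraph V} (hn : 1000 ≤ Fintype.card V)
    (hb : FewBad G) {x y : V} (hx : Good G x) (hy : Good G y) {a b w : V}
    (hno : ∀ w, ¬ ((G.deleteEdges {s(x, y)}).Adj a w ∧ (G.deleteEdges {s(x, y)}).Adj w b))
    (h1 : G.Adj a w) (h2 : G.Adj w b) (he : s(a, w) = s(x, y)) :
    ∃ a z w, ¬ Good G z ∧ G.Adj a w ∧ G.Adj w z ∧ s(a, w) = s(x, y) ∧
      ∀ w', G.Adj a w' → G.Adj w' z → w' = w := by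
  have huniq : ∀ w', G.Adj a w' → G.Adj w' b → w' = w := by
    intro w' h1' h2'
    by_contra hne
    apply hno w'
    rw [SimpleGraph.deleteEdges_adj, SimpleGraph.deleteEdges_adj, ← he,
      Set.mem_singleton_iff, Set.mem_singleton_iff]
    refine ⟨⟨h1', ?_⟩, ⟨h2', ?_⟩⟩
    · intro h
      rw [Sym2.eq_iff] at h
      rcases h with ⟨-, h⟩ | ⟨h, -⟩
      · exact hne h
      · exact h1.ne h
    · intro h
      rw [Sym2.eq_iff] at h
      rcases h with ⟨-, h⟩ | ⟨h, -⟩
      · exact h2.ne h.symm
      · exact hne h
  refine ⟨a, b, w, ?_, h1, h2, he, huniq⟩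
  intro hgb
  have hga : Good G a := by
    rw [Sym2.eq_iff] at he
    rcases he with ⟨h, -⟩ | ⟨h, -⟩ <;> rw [h] <;> assumption
  obtain ⟨g, hg, -, h3, h4⟩ := exists_good_common hn hb hga hgb {w} (by
    rw [Finset.card_singleton]; omega)
  exact hg (by rw [huniq g h3 h4]; simp)

theorem upper_typeI [Fintype V] {G : SimpleGraph V} (hn : 1000 ≤ Fintype.card V)
    (hb : FewBad G) (h3 : ∀ a b, a ≠ b → ∃ w, G.Adj a w ∧ G.Adj w b)
    {x y : V} (hx : Good G x) (hy : Good G y)
    (hP : ¬ HasP (G.deleteEdges {s(x, y)}) 3) :
    ∃ a z w, ¬ Good G z ∧ G.Adj a w ∧ G.Adj w z ∧ s(a, w) = s(x, y) ∧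
      ∀ w', G.Adj a w' → G.Adj w' z → w' = w := by
  rw [hasP_three_iff] at hP
  push Not at hP
  obtain ⟨a, b, hab, hno⟩ := hP
  have hno' : ∀ w, ¬ ((G.deleteEdges {s(x, y)}).Adj a w ∧ (G.deleteEdges {s(x, y)}).Adj w b) :=
    fun w h => hno w h.1 h.2
  obtain ⟨w, h1, h2⟩ := h3 a b hab
  by_cases he : s(a, w) = s(x, y)
  · exact upper_typeI_aux hn hb hx hy hno' h1 h2 he
  · by_cases he2 : s(b, w) = s(x, y)
    · exact upper_typeI_aux hn hb hx hy
        (fun w h => hno' w ⟨h.2.symm, h.1.symm⟩) h2.symm h1.symm he2
    · exfalso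
      apply hno' w
      rw [SimpleGraph.deleteEdges_adj, SimpleGraph.deleteEdges_adj]
      refine ⟨⟨h1, he⟩, ⟨h2, ?_⟩⟩
      rw [Set.mem_singleton_iff, Sym2.eq_swap]
      exact he2

theorem upper_typeII [Fintype V] {G : SimpleGraph V} (hn : 1000 ≤ Fintype.card V)
    {x y u : V} (hy : Good G y) (huy : u ≠ y)
    (hall : ∀ l, LPath G u y l → l.length = 4 → ConsIn x y l) :
    ∀ x', G.Adj x' y → x' ≠ x → ¬ HasP (G.deleteEdges {s(x', y)}) 3 := by
  have key : ∀ w, G.Adj w y → w ≠ x → w ≠ u → ∀ q, G.Adj u q → G.Adj q w → q = y := by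
    intro w hwy hwx hwu q h1 h2
    by_contra hq
    have hl : LPath G u y [u, q, w, y] := by
      refine ⟨?_, ?_, by simp, by simp⟩
      · simp [h1, h2, hwy]
      · have := h1.ne
        have := h2.ne
        have := hwy.ne
        simp only [List.nodup_cons, List.mem_cons, List.not_mem_nil, or_false, not_or,
          not_false_eq_true, List.nodup_nil, and_true]
        refine ⟨⟨h1.ne, hwu.symm, huy⟩, ⟨h2.ne, hq⟩, hwy.ne⟩
    have hc := hall _ hl rfl
    rcases hc with h | h
    · have h' := h.sublist
      have hm := upE_mem (l := [u, q, w, y]) (Or.inl h)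
      simp only [upE, List.tail_cons, List.zip_cons_cons, List.zip_nil_right, List.map_cons,
        List.map_nil, List.mem_toFinset, List.mem_cons, List.not_mem_nil, or_false,
        Sym2.eq_iff] at hm
      have := hwy.ne
      rcases hm with (⟨_, h⟩ | ⟨_, h⟩) | (⟨_, h⟩ | ⟨_, h⟩) | (⟨h, _⟩ | ⟨_, h⟩)
      · exact hq h.symm
      · exact huy h.symm
      · exact hwy.ne h.symm
      · exact hq h.symm
      · exact hwx h.symm
      · exact hwy.ne h.symm
    · have hm := upE_mem (l := [u, q, w, y]) (Or.inr h : ConsIn x y _)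
      simp only [upE, List.tail_cons, List.zip_cons_cons, List.zip_nil_right, List.map_cons,
        List.map_nil, List.mem_toFinset, List.mem_cons, List.not_mem_nil, or_false,
        Sym2.eq_iff] at hm
      rcases hm with (⟨_, h⟩ | ⟨_, h⟩) | (⟨_, h⟩ | ⟨_, h⟩) | (⟨h, _⟩ | ⟨_, h⟩)
      · exact hq h.symm
      · exact huy h.symm
      · exact hwy.ne h.symm
      · exact hq h.symm
      · exact hwx h.symm
      · exact hwy.ne h.symm
  intro x' hx' hne hP
  rw [hasP_three_iff] at hP
  by_cases hxu : x' = u
  · subst hxu
    -- another neighbour of `y`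
    have hcard : 3 ≤ (Finset.univ.filter (fun w => G.Adj y w)).card := by
      have h1 : 85 * Fintype.card V ≤ 100 * dg G y := hy
      unfold dg at h1
      omega
    obtain ⟨w, hw, hwn⟩ : ∃ w ∈ Finset.univ.filter (fun w => G.Adj y w),
        w ∉ ({x, x'} : Finset V) := by
      by_contra hcon
      push Not at hcon
      have h2 := Finset.card_le_card (s := Finset.univ.filter (fun w => G.Adj y w))
        (t := {x, x'}) hcon
      have h4 : ({x, x'} : Finset V).card ≤ 2 := Finset.card_le_two
      omega
    rw [Finset.mem_filter] at hw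
    simp only [Finset.mem_insert, Finset.mem_singleton, not_or] at hwn
    obtain ⟨q, hq1, hq2⟩ := hP x' w (Ne.symm hwn.2)
    rw [SimpleGraph.deleteEdges_adj] at hq1 hq2
    have := key w hw.2.symm hwn.1 hwn.2 q hq1.1 hq2.1
    subst this
    exact hq1.2 rfl
  · obtain ⟨q, hq1, hq2⟩ := hP u x' (Ne.symm hxu)
    rw [SimpleGraph.deleteEdges_adj] at hq1 hq2
    have := key x' hx' hne hxu q hq1.1 hq2.1
    subst this
    exact hq2.2 (by rw [Set.mem_singleton_iff, Sym2.eq_swap])

/-- The classification of the edges between good vertices. -/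
theorem upper_class [Fintype V] {G : SimpleGraph V} (hn : 1000 ≤ Fintype.card V)
    (hb : FewBad G) (hG : MinimalPLDMaximal G) {x y : V} (hxy : G.Adj x y)
    (hx : Good G x) (hy : Good G y) :
    (∃ a z w, ¬ Good G z ∧ G.Adj a w ∧ G.Adj w z ∧ s(a, w) = s(x, y) ∧
      ∀ w', G.Adj a w' → G.Adj w' z → w' = w) ∨
    (∃ x0 y0, s(y0, x0) = s(x, y) ∧ G.Adj x0 y0 ∧ HasP (G.deleteEdges {s(x0, y0)}) 3 ∧
      ∀ x', G.Adj x' y0 → x' ≠ x0 → ¬ HasP (G.deleteEdges {s(x', y0)}) 3) ∨
    (∃ u v i, ¬ Good G u ∧ ¬ Good G v ∧ (i = 4 ∨ i = 5) ∧ (∃ l, LPath G u v l ∧ l.length = i) ∧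
      ∀ l, LPath G u v l → l.length = i → ConsIn x y l) := by
  have h3 : ∀ a b, a ≠ b → ∃ w, G.Adj a w ∧ G.Adj w b :=
    hasP_three_iff.1 (hG.1 3 le_rfl (by omega))
  by_cases hP : HasP (G.deleteEdges {s(x, y)}) 3
  · right
    have hne := hG.2 s(x, y) hxy
    unfold PLDMaximal at hne
    push Not at hne
    obtain ⟨i, hi3, hin, hiP⟩ := hne
    have hi4 : 4 ≤ i := by
      rcases Nat.lt_or_ge 3 i with h | h
      · exact h
      · have : i = 3 := by omega
        subst this
        exact absurd hP hiP
    rw [hasP_iff] at hiP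
    push Not at hiP
    obtain ⟨u, v, huv, hno⟩ := hiP
    have hex := hasP_iff.1 (hG.1 i hi3 hin) u v huv
    have hall : ∀ l, LPath G u v l → l.length = i → ConsIn x y l := by
      intro l hl hli
      by_contra hc
      exact hno l ⟨upper_chain l hl.1 hc, hl.2.1, hl.2.2.1, hl.2.2.2⟩ hli
    rcases crit_structure hn hb h3 hxy hx hy hP huv hi4 hex hall with ⟨hi, hc⟩ | ⟨hi, hu, hv⟩
    · left
      have hP' : HasP (G.deleteEdges {s(y, x)}) 3 := by
        rw [Sym2.eq_swap]; exact hP
      subst hi
      rcases hc with h | h | h | h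
      · subst h
        refine ⟨y, u, rfl, hxy.symm, hP', ?_⟩
        apply upper_typeII hn hx huv.symm
        intro l hl hli
        rw [consIn_comm, ← consIn_reverse]
        exact hall _ hl.reverse (by rw [List.length_reverse]; exact hli)
      · subst h
        refine ⟨x, u, Sym2.eq_swap, hxy, hP, ?_⟩
        apply upper_typeII hn hy huv.symm
        intro l hl hli
        rw [← consIn_reverse]
        exact hall _ hl.reverse (by rw [List.length_reverse]; exact hli)
      · subst h
        refine ⟨y, v, rfl, hxy.symm, hP', ?_⟩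
        apply upper_typeII hn hx huv
        intro l hl hli
        rw [consIn_comm]
        exact hall _ hl hli
      · subst h
        refine ⟨x, v, Sym2.eq_swap, hxy, hP, ?_⟩
        apply upper_typeII hn hy huv
        intro l hl hli
        exact hall _ hl hli
    · right
      exact ⟨u, v, i, hu, hv, hi, hex, hall⟩
  · left
    exact upper_typeI hn hb h3 hx hy hP

/-- A chosen path with `i` vertices. -/
noncomputable def upL (G : SimpleGraph V) (i : ℕ) (p : V × V) : List V :=
  if h : ∃ l, LPath G p.1 p.2 l ∧ l.length = i then h.choose else []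

theorem upL_spec {G : SimpleGraph V} {i : ℕ} {p : V × V}
    (h : ∃ l, LPath G p.1 p.2 l ∧ l.length = i) :
    LPath G p.1 p.2 (upL G i p) ∧ (upL G i p).length = i := by
  unfold upL
  rw [dif_pos h]
  exact h.choose_spec

theorem upL_card (G : SimpleGraph V) (i : ℕ) (p : V × V) : (upE (upL G i p)).card ≤ i - 1 := by
  refine (upE_card _).trans ?_
  by_cases h : ∃ l, LPath G p.1 p.2 l ∧ l.length = i
  · rw [(upL_spec h).2]
  · unfold upL
    rw [dif_neg h]
    simp

/-- A chosen common neighbour. -/
noncomputable def upW (G : SimpleGraph V) (p : V × V) : V :=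
  if h : ∃ w, G.Adj p.1 w ∧ G.Adj w p.2 then h.choose else p.1

/-- The chosen neighbour of type II. -/
noncomputable def upX (G : SimpleGraph V) (y : V) : V :=
  if h : ∃ x, G.Adj x y ∧ HasP (G.deleteEdges {s(x, y)}) 3 then h.choose else y

theorem upper [Fintype V] {G : SimpleGraph V} (hn : 1000 ≤ Fintype.card V)
    (hG : MinimalPLDMaximal G) : 100 * edges G ≤ 49 * Fintype.card V ^ 2 := by
  by_contra hcon
  push Not at hcon
  set n := Fintype.card V with hndef
  set bad := Finset.univ.filter (fun v => ¬ Good G v) with hbad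
  have hdg : ∀ v, dg G v ≤ n := by
    intro v
    unfold dg
    exact (Finset.card_le_univ _)
  -- few bad vertices
  have hb : 15 * bad.card ≤ 2 * n := by
    have h1 : ∑ v : V, (100 * dg G v + if ¬ Good G v then 15 * n else 0) ≤ ∑ _v : V, 100 * n := by
      apply Finset.sum_le_sum
      intro v _
      have h2 := hdg v
      by_cases hv : Good G v
      · simp only [hv, not_true_eq_false, if_false]
        omega
      · simp only [hv, not_false_eq_true, if_true]
        unfold Good at hv
        omega
    rw [Finset.sum_add_distrib, ← Finset.mul_sum, sum_dg, ← Finset.sum_filter, ← hbad,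
      Finset.sum_const, Finset.sum_const, Finset.card_univ, ← hndef, smul_eq_mul,
      smul_eq_mul] at h1
    have hn0 : 0 < n := by omega
    have h3 : 15 * bad.card * n ≤ 2 * n * n := by nlinarith
    exact Nat.le_of_mul_le_mul_right h3 hn0
  have hfb : FewBad G := hb
  -- the covering
  set SB : Finset (Sym2 V) := (bad ×ˢ Finset.univ).image (fun p => s(p.1, p.2)) with hSB
  set SI : Finset (Sym2 V) := (Finset.univ ×ˢ bad).image (fun p => s(p.1, upW G p)) with hSI
  set SII : Finset (Sym2 V) := Finset.univ.image (fun y => s(y, upX G y)) with hSII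
  set SIII : Finset (Sym2 V) := (bad ×ˢ bad).biUnion
    (fun p => upE (upL G 4 p) ∪ upE (upL G 5 p)) with hSIII
  have hcov : G.edgeSet ⊆ ↑(SB ∪ SI ∪ SII ∪ SIII) := by
    intro e he
    induction e using Sym2.ind with
    | _ x y =>
    rw [SimpleGraph.mem_edgeSet] at he
    simp only [Finset.coe_union, Set.mem_union, Finset.mem_coe]
    by_cases hx : Good G x
    · by_cases hy : Good G y
      · rcases upper_class hn hfb hG he hx hy with ⟨a, z, w, hz, h1, h2, h3, h4⟩ |
          ⟨x0, y0, h1, h2, h3, h4⟩ | ⟨u, v, i, hu, hv, hi, hex, hall⟩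
        · left; left; right
          rw [hSI, Finset.mem_image]
          refine ⟨(a, z), by simp [hbad, hz], ?_⟩
          have hw : ∃ w, G.Adj (a, z).1 w ∧ G.Adj w (a, z).2 := ⟨w, h1, h2⟩
          have : upW G (a, z) = w := by
            unfold upW
            rw [dif_pos hw]
            exact h4 _ hw.choose_spec.1 hw.choose_spec.2
          simp only [this]
          exact h3
        · left; right
          rw [hSII, Finset.mem_image]
          refine ⟨y0, Finset.mem_univ _, ?_⟩
          have hw : ∃ x, G.Adj x y0 ∧ HasP (G.deleteEdges {s(x, y0)}) 3 := ⟨x0, h2, h3⟩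
          have : upX G y0 = x0 := by
            unfold upX
            rw [dif_pos hw]
            by_contra hne
            exact h4 _ hw.choose_spec.1 hne hw.choose_spec.2
          rw [this]
          exact h1
        · right
          rw [hSIII, Finset.mem_biUnion]
          refine ⟨(u, v), by simp [hbad, hu, hv], ?_⟩
          rw [Finset.mem_union]
          rcases hi with hi | hi
          · subst hi
            left
            have := upL_spec (p := (u, v)) hex
            exact upE_mem (hall _ this.1 this.2)
          · subst hi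
            right
            have := upL_spec (p := (u, v)) hex
            exact upE_mem (hall _ this.1 this.2)
      · left; left; left
        rw [hSB, Finset.mem_image]
        exact ⟨(y, x), by simp [hbad, hy], Sym2.eq_swap⟩
    · left; left; left
      rw [hSB, Finset.mem_image]
      exact ⟨(x, y), by simp [hbad, hx], rfl⟩
  have hle : edges G ≤ SB.card + SI.card + SII.card + SIII.card := by
    unfold edges
    refine (Set.ncard_le_ncard hcov (Finset.finite_toSet _)).trans ?_
    rw [Set.ncard_coe_finset]
    refine (Finset.card_union_le _ _).trans ?_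
    gcongr
    refine (Finset.card_union_le _ _).trans ?_
    gcongr
    exact Finset.card_union_le _ _
  have hSBc : SB.card ≤ bad.card * n := by
    refine Finset.card_image_le.trans ?_
    rw [Finset.card_product, Finset.card_univ]
  have hSIc : SI.card ≤ n * bad.card := by
    refine Finset.card_image_le.trans ?_
    rw [Finset.card_product, Finset.card_univ]
  have hSIIc : SII.card ≤ n := by
    refine Finset.card_image_le.trans ?_
    rw [Finset.card_univ]
  have hSIIIc : SIII.card ≤ bad.card * bad.card * 7 := by
    refine Finset.card_biUnion_le.trans ?_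
    rw [← Finset.card_product, ← smul_eq_mul]
    apply Finset.sum_le_card_nsmul
    intro p _
    refine (Finset.card_union_le _ _).trans ?_
    have h1 := upL_card G 4 p
    have h2 := upL_card G 5 p
    omega
  have htot : edges G ≤ bad.card * n + n * bad.card + n + bad.card * bad.card * 7 := by omega
  nlinarith [hb, htot, hcon, hn]

end Pool.Agent.Lib.MP_0f64c5_co
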